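import Pool.Agent.Lib.MP_776403_ag.SD.W.Spec

/-!
# THEOREM W: cutting the cone of lines by a hyperplane (WCut)
-/

set_option autoImplicit false

open MvPolynomial

noncomputable section

namespace Pool.Agent.Lib.MP_776403_ag.SD

namespace WCutAux

variable {N : ℕ}

/-- Scaling of a form. -/
theorem form_smul {F : Sx N} {m : ℕ} (hF : F.IsHomogeneous m) (a : ℂ) (y : Vx N) :
    eval (a • y) F = a ^ m * eval y F := by
  rw [eval_eq, eval_eq, Finset.mul_sum]
  refine Finset.sum_congr rfl fun d hd => ?_
  have h1 : ∑ i ∈ d.support, d i = m := by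
    have := hF (mem_support_iff.1 hd)
    rw [← this, Finsupp.weight_apply]
    simp [Finsupp.sum]
  have h2 : ∏ i ∈ d.support, (a • y) i ^ d i = a ^ m * ∏ i ∈ d.support, y i ^ d i := by
    rw [← h1, ← Finset.prod_pow_eq_pow_sum, ← Finset.prod_mul_distrib]
    exact Finset.prod_congr rfl fun i _ => by rw [Pi.smul_apply, smul_eq_mul, mul_pow]
  rw [h2]
  ring

theorem eval_smul_sum (F : Sx N) (a : ℂ) (v : Vx N) :
    eval (a • v) F = ∑ m ∈ Finset.range (F.totalDegree + 1),
      a ^ m * eval v (homogeneousComponent m F) := by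
  conv_lhs => rw [← sum_homogeneousComponent F, map_sum]
  exact Finset.sum_congr rfl fun m _ =>
    form_smul (homogeneousComponent_isHomogeneous m F) a v

theorem smul_mem_zer {P : Ideal (Sx N)} (hP : IsHom P) {v : Vx N} (hv : v ∈ zer P)
    (a : ℂ) : a • v ∈ zer P := by
  intro F hF
  rw [eval_smul_sum]
  exact Finset.sum_eq_zero fun m _ => by rw [hv _ (hP F hF m), mul_zero]

/-- A polynomial which vanishes on a line through the origin. -/
theorem comp_zero {F : Sx N} {v : Vx N} (h : ∀ a : ℂ, eval (a • v) F = 0) (m : ℕ) :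
    eval v (homogeneousComponent m F) = 0 := by
  by_cases hm : m < F.totalDegree + 1
  · have h1 : (∑ n ∈ Finset.range (F.totalDegree + 1),
        Polynomial.C (eval v (homogeneousComponent n F)) * Polynomial.X ^ n : Polynomial ℂ) = 0 := by
      refine Polynomial.funext fun a => ?_
      rw [Polynomial.eval_finsetSum, Polynomial.eval_zero, ← h a, eval_smul_sum]
      refine Finset.sum_congr rfl fun n _ => ?_
      rw [Polynomial.eval_mul, Polynomial.eval_C, Polynomial.eval_pow, Polynomial.eval_X, mul_comm]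
    have h2 := congrArg (fun q : Polynomial ℂ => q.coeff m) h1
    simp only [Polynomial.finsetSum_coeff, Polynomial.coeff_C_mul_X_pow, Polynomial.coeff_zero]
      at h2
    rw [Finset.sum_ite_eq, if_pos (Finset.mem_range.2 hm)] at h2
    exact h2
  · rw [homogeneousComponent_eq_zero _ _ (by omega), map_zero]

/-- A linear form. -/
theorem lam_lin {lam : Sx N} (h : lam.IsHomogeneous 1) :
    ∃ l : Fin (N + 1) → ℂ, ∀ v : Vx N, eval v lam = ∑ i, l i * v i := by
  have h1 : ∀ i, ∃ a : ℂ, pderiv i lam = C a := by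
    intro i
    have h2 : (pderiv i lam).IsHomogeneous 0 := h.pderiv
    exact ⟨_, totalDegree_eq_zero_iff_eq_C.1 (Nat.le_zero.1 h2.totalDegree_le)⟩
  choose l hl using h1
  refine ⟨l, fun v => ?_⟩
  have h2 := h.sum_X_mul_pderiv
  rw [one_smul] at h2
  rw [← h2, map_sum]
  refine Finset.sum_congr rfl fun i _ => ?_
  rw [hl, map_mul, eval_X, eval_C, mul_comm]

/-- The projection from `x`, as a substitution. -/
def psi (x : Vx N) (lam : Sx N) : Sx N →ₐ[ℂ] Sx N := aeval fun i => X i - C (x i) * lam

theorem psi_eval (x : Vx N) (lam : Sx N) (v : Vx N) (F : Sx N) :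
    eval v (psi x lam F) = eval (v - eval v lam • x) F := by
  unfold psi
  rw [aeval_def, ← coe_eval₂Hom, ← RingHom.comp_apply]
  congr 1
  refine MvPolynomial.ringHom_ext (fun a => ?_) (fun i => ?_)
  · simp
  · simp [mul_comm]

end WCutAux

open WCutAux

theorem wCut (hNull : S_Null) (hTB : S_TB) : S_WCut := by
  intro N D P x lam hP hPh hlam hx hcone hD
  obtain ⟨d, hd⟩ := hD
  obtain ⟨l, hl⟩ := lam_lin hlam
  -- the homomorphism
  let φ : Sx N →ₐ[ℂ] Sx N ⧸ P := (Ideal.Quotient.mkₐ ℂ P).comp (psi x lam)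
  have hmem : ∀ F : Sx N, F ∈ RingHom.ker φ ↔ ∀ v ∈ zer P, eval (v - eval v lam • x) F = 0 := by
    intro F
    have h1 : F ∈ RingHom.ker φ ↔ psi x lam F ∈ P := by
      rw [RingHom.mem_ker]
      exact Ideal.Quotient.eq_zero_iff_mem
    rw [h1]
    constructor
    · intro h v hv
      rw [← psi_eval]
      exact hv _ h
    · intro h
      refine (hNull N P hP hPh).1 _ fun v hv => ?_
      rw [psi_eval]
      exact h v hv
  refine ⟨RingHom.ker φ, RingHom.ker_isPrime _, ?_, ?_, ?_, ?_⟩
  · -- homogeneous
    intro F hF m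
    rw [hmem]
    intro v hv
    refine comp_zero (fun a => ?_) m
    have h1 := (hmem F).1 hF (a • v) (smul_mem_zer hPh hv a)
    rw [form_smul hlam, pow_one, ← smul_smul, ← smul_sub] at h1
    exact h1
  · intro F hF
    rw [hmem]
    intro v hv
    have h1 := hcone v hv (-(eval v lam)) F hF
    rwa [neg_smul, ← sub_eq_add_neg] at h1
  · rw [hmem]
    intro v _
    have h1 : eval x lam = ∑ i, l i * x i := hl x
    rw [hl]
    have h2 : ∑ i, l i * (v - eval v lam • x) i =
        ∑ i, l i * v i - eval v lam * ∑ i, l i * x i := by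
      rw [Finset.mul_sum, ← Finset.sum_sub_distrib]
      refine Finset.sum_congr rfl fun i _ => ?_
      rw [Pi.sub_apply, Pi.smul_apply, smul_eq_mul]
      ring
    rw [h2, ← h1, hx, mul_one, hl v, sub_self]
  · -- dimension
    let y : Option (Fin (N + 1)) → Sx N ⧸ P := fun o => match o with
      | none => Ideal.Quotient.mk P lam
      | some i => φ (X i)
    have hX : ∀ i, Ideal.Quotient.mk P (X i : Sx N) =
        y (some i) + algebraMap ℂ (Sx N ⧸ P) (x i) * y none := by
      intro i
      have h1 : y (some i) = Ideal.Quotient.mk P (X i - C (x i) * lam) := by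
        change Ideal.Quotient.mk P (psi x lam (X i)) = _
        unfold psi
        rw [aeval_X]
      have h2 : algebraMap ℂ (Sx N ⧸ P) (x i) = Ideal.Quotient.mk P (C (x i)) := rfl
      rw [h1, h2]
      change _ = _ + _ * Ideal.Quotient.mk P lam
      rw [← map_mul, ← map_add, sub_add_cancel]
    have h3 : Algebra.adjoin ℂ (Set.range y) = ⊤ := by
      rw [eq_top_iff]
      rintro z -
      obtain ⟨Q, rfl⟩ := Ideal.Quotient.mk_surjective z
      induction Q using MvPolynomial.induction_on with
      | C a => exact Subalgebra.algebraMap_mem _ a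
      | add p q hp hq =>
        rw [map_add]
        exact Subalgebra.add_mem _ hp hq
      | mul_X p i hp =>
        rw [map_mul, hX]
        exact Subalgebra.mul_mem _ hp (Subalgebra.add_mem _ (Algebra.subset_adjoin ⟨some i, rfl⟩)
          (Subalgebra.mul_mem _ (Subalgebra.algebraMap_mem _ _)
            (Algebra.subset_adjoin ⟨none, rfl⟩)))
    have halg : Algebra.IsAlgebraic (Algebra.adjoin ℂ (Set.range y)) (Sx N ⧸ P) := by
      refine ⟨fun z => ?_⟩
      have h4 : z ∈ Algebra.adjoin ℂ (Set.range y) := by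
        rw [h3]
        exact Algebra.mem_top
      exact isAlgebraic_algebraMap (⟨z, h4⟩ : Algebra.adjoin ℂ (Set.range y))
    obtain ⟨e, he⟩ := hTB (Option (Fin (N + 1))) (Sx N ⧸ P) y halg (D + 1) _ hd
    have hinj : Function.Injective (y ∘ e) := he.injective
    obtain ⟨k, hk⟩ : ∃ k : Fin (D + 1), ∀ j, j ≠ k → e j ≠ none := by
      by_cases h : ∃ k, e k = none
      · obtain ⟨k, hk⟩ := h
        refine ⟨k, fun j hj hj' => hj (hinj ?_)⟩
        change y (e j) = y (e k)
        rw [hj', hk]
      · push Not at h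
        exact ⟨0, fun j _ => h j⟩
    have h5 : ∀ j : Fin D, ∃ i : Fin (N + 1), e (k.succAbove j) = some i := fun j =>
      Option.ne_none_iff_exists'.1 (hk _ (Fin.succAbove_ne k j))
    choose i hi using h5
    have h6 : AlgebraicIndependent ℂ fun j => φ (X (i j) : Sx N) := by
      have h7 := he.comp k.succAbove Fin.succAbove_right_injective
      have h8 : (y ∘ e) ∘ k.succAbove = fun j => φ (X (i j) : Sx N) := by
        funext j
        change y (e (k.succAbove j)) = _
        rw [hi]
      rwa [h8] at h7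
    refine ⟨i, ?_⟩
    exact AlgebraicIndependent.of_comp (Ideal.kerLiftAlg φ) h6

end Pool.Agent.Lib.MP_776403_ag.SD
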