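import Pool.Agent.Lib.MP_776403_ag.SD.W.Spec

set_option autoImplicit false

open MvPolynomial

noncomputable section

namespace Pool.Agent.Lib.MP_776403_ag.SD

namespace WBAux

variable {N : ℕ} {α β : Type}

/-- Multiplication of vectors by a polynomial. -/
def mulL (α : Type) (g : Sx N) : (α → Sx N) →ₗ[ℂ] (α → Sx N) where
  toFun v := fun a => g * v a
  map_add' v w := by
    funext a
    simp only [Pi.add_apply, mul_add]
  map_smul' r v := by
    funext a
    simp only [Pi.smul_apply, RingHom.id_apply, mul_smul_comm]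

theorem mul_span {T : Set (α → Sx N)} {U : Submodule ℂ (α → Sx N)} {g : Sx N}
    (h : ∀ z ∈ T, (fun a => g * z a) ∈ U) {v : α → Sx N} (hv : v ∈ Submodule.span ℂ T) :
    (fun a => g * v a) ∈ U := by
  have h1 : Submodule.span ℂ T ≤ U.comap (mulL α g) := Submodule.span_le.2 fun z hz => h z hz
  exact h1 hv

theorem hom_span {T : Set (α → Sx N)} {d : α → ℕ} (h : ∀ z ∈ T, ∀ a, (z a).IsHomogeneous (d a))
    {v : α → Sx N} (hv : v ∈ Submodule.span ℂ T) (a : α) : (v a).IsHomogeneous (d a) := by
  have h1 : Submodule.span ℂ T ≤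
      (homogeneousSubmodule (Fin (N + 1)) ℂ (d a)).comap (LinearMap.proj a) :=
    Submodule.span_le.2 fun z hz => h z hz a
  exact h1 hv

theorem det_hom {j : ℕ} {ω : α → ℕ} {κ : Fin j → ℕ} {v : Fin j → α → Sx N}
    (h : ∀ l a, (v l a).IsHomogeneous (κ l + ω a)) (A : Fin j → α) :
    (Matrix.det (Matrix.of fun l m => v l (A m))).IsHomogeneous (∑ l, κ l + ∑ m, ω (A m)) := by
  rw [Matrix.det_apply]
  refine IsHomogeneous.sum _ _ _ fun σ _ => ?_
  have h1 : (∏ i, (Matrix.of fun l m => v l (A m)) (σ i) i).IsHomogeneous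
      (∑ l, κ l + ∑ m, ω (A m)) := by
    have h2 : ∑ l, κ l + ∑ m, ω (A m) = ∑ i, (κ (σ i) + ω (A i)) := by
      rw [Finset.sum_add_distrib, Equiv.sum_comp σ κ]
    rw [h2]
    exact IsHomogeneous.prod _ _ _ fun i _ => h (σ i) (A i)
  rcases Int.units_eq_one_or (Equiv.Perm.sign σ) with h3 | h3
  · rw [h3, one_smul]
    exact h1
  · rw [h3, Units.neg_smul, one_smul]
    exact h1.neg

theorem gwFam (ω : α → ℕ) (G : Gn N α) (hG : HG ω G) : GW ω (Fam G) := by
  refine ⟨fun k v hv a => ?_, fun k v hv i => ?_⟩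
  · refine hom_span (d := fun a => k + ω a) ?_ hv a
    rintro z ⟨b, e, g, hg, hb, hk, rfl⟩ a
    have h1 := hb.mul (hG g hg a)
    rw [← hk, add_assoc]
    exact h1
  · refine mul_span ?_ hv
    rintro z ⟨b, e, g, hg, hb, hk, rfl⟩
    refine Submodule.subset_span ⟨X i * b, e + 1, g, hg, ?_, by omega, ?_⟩
    · rw [add_comm e 1]
      exact (isHomogeneous_X ℂ i).mul hb
    · funext a
      ring

theorem gwLW (ω : α → ℕ) (G : Gn N α) (j : ℕ) (hG : HG ω G) :
    GW (fun A : Fin j → α => ∑ m, ω (A m)) (LW G j) := by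
  refine ⟨fun k v hv a => ?_, fun k v hv i => ?_⟩
  · refine hom_span (d := fun A : Fin j → α => k + ∑ m, ω (A m)) ?_ hv a
    rintro z ⟨b, e, g, hb, hg, hk, rfl⟩ A
    have h1 := hb.mul (det_hom (ω := ω) (κ := fun l => (g l).2) (v := fun l => (g l).1)
      (fun l a => hG (g l) (hg l) a) A)
    rw [← hk, add_assoc]
    exact h1
  · refine mul_span ?_ hv
    rintro z ⟨b, e, g, hb, hg, hk, rfl⟩
    refine Submodule.subset_span ⟨X i * b, e + 1, g, ?_, hg, by omega, ?_⟩
    · rw [add_comm e 1]
      exact (isHomogeneous_X ℂ i).mul hb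
    · funext a
      ring

theorem gwFW (ω : α → ℕ) (P G : Gn N α) (i j : ℕ) (hG : HG ω G) (hP : HG ω P) :
    GW (fun A : Fin j → α => ∑ m, ω (A m)) (FW P G i j) := by
  refine ⟨fun k v hv a => ?_, fun k v hv i' => ?_⟩
  · refine hom_span (d := fun A : Fin j → α => k + ∑ m, ω (A m)) ?_ hv a
    rintro z ⟨b, e, g, T, hb, hT, hg1, hg2, hk, rfl⟩ A
    have h1 := hb.mul (det_hom (ω := ω) (κ := fun l => (g l).2) (v := fun l => (g l).1)
      (fun l a => by
        by_cases hl : l ∈ T
        · exact hP (g l) (hg1 l hl) a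
        · exact hG (g l) (hg2 l hl) a) A)
    rw [← hk, add_assoc]
    exact h1
  · refine mul_span ?_ hv
    rintro z ⟨b, e, g, T, hb, hT, hg1, hg2, hk, rfl⟩
    refine Submodule.subset_span ⟨X i' * b, e + 1, g, T, ?_, hT, hg1, hg2, by omega, ?_⟩
    · rw [add_comm e 1]
      exact (isHomogeneous_X ℂ i').mul hb
    · funext a
      ring

theorem gwPV (ω : α → ℕ) (ω' : β → ℕ) (V : ℕ → Submodule ℂ (α → Sx N))
    (W : ℕ → Submodule ℂ (β → Sx N)) (hV : GW ω V) (hW : GW ω' W) :
    GW (fun p : α × β => ω p.1 + ω' p.2) (PV V W) := by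
  refine ⟨fun k v hv a => ?_, fun k v hv i => ?_⟩
  · refine hom_span (d := fun p : α × β => k + (ω p.1 + ω' p.2)) ?_ hv a
    rintro z ⟨k1, k2, v, w, hk, hv1, hw1, rfl⟩ p
    have h1 := (hV.hom k1 v hv1 p.1).mul (hW.hom k2 w hw1 p.2)
    have h2 : k + (ω p.1 + ω' p.2) = k1 + ω p.1 + (k2 + ω' p.2) := by omega
    rw [h2]
    exact h1
  · refine mul_span ?_ hv
    rintro z ⟨k1, k2, v, w, hk, hv1, hw1, rfl⟩
    refine Submodule.subset_span ⟨k1 + 1, k2, fun a => X i * v a, w, by omega,
      hV.mul k1 v hv1 i, hw1, ?_⟩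
    funext p
    ring

theorem mono_mem (ω : α → ℕ) (V : ℕ → Submodule ℂ (α → Sx N)) (hV : GW ω V) (c : ℂ) :
    ∀ (n : ℕ) (m : Fin (N + 1) →₀ ℕ), m.degree = n → ∀ (k : ℕ) (v : α → Sx N), v ∈ V k →
      (fun a => monomial m c * v a) ∈ V (k + n) := by
  intro n
  induction n with
  | zero =>
    intro m hm k v hv
    have h1 : m = 0 := (Finsupp.degree_eq_zero_iff m).1 hm
    have h2 : (fun a => monomial m c * v a) = c • v := by
      funext a
      rw [h1, Pi.smul_apply, smul_eq_C_mul]
      rfl
    rw [h2, add_zero]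
    exact (V k).smul_mem c hv
  | succ n ih =>
    intro m hm k v hv
    have h1 : m ≠ 0 := by
      rintro rfl
      simp at hm
    obtain ⟨i, hi⟩ := Finsupp.support_nonempty_iff.2 h1
    rw [Finsupp.mem_support_iff] at hi
    have h3 : Finsupp.single i 1 ≤ m := by
      rw [Finsupp.single_le_iff]
      omega
    have h2 : m = Finsupp.single i 1 + (m - Finsupp.single i 1) := (add_tsub_cancel_of_le h3).symm
    have h4 : (m - Finsupp.single i 1).degree = n := by
      have h5 := congrArg Finsupp.degree h2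
      rw [map_add, Finsupp.degree_single, hm] at h5
      omega
    have h6 := hV.mul _ _ (ih _ h4 k v hv) i
    rw [← add_assoc]
    have h7 : (fun a => monomial m c * v a) =
        fun a => X i * (monomial (m - Finsupp.single i 1) c * v a) := by
      funext a
      rw [← mul_assoc]
      congr 1
      rw [X, monomial_mul, one_mul, ← h2]
    rw [h7]
    exact h6

theorem form_mem (ω : α → ℕ) (V : ℕ → Submodule ℂ (α → Sx N)) (hV : GW ω V) (k e : ℕ) (g : Sx N)
    (v : α → Sx N) (hg : g.IsHomogeneous e) (hv : v ∈ V k) : (fun a => g * v a) ∈ V (k + e) := by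
  have h1 : (fun a => g * v a) = ∑ m ∈ g.support, fun a => monomial m (coeff m g) * v a := by
    funext a
    rw [Finset.sum_apply, ← Finset.sum_mul, ← as_sum]
  rw [h1]
  refine Submodule.sum_mem _ fun m hm => ?_
  have h2 : m.degree = e := by
    have h3 := hg (mem_support_iff.1 hm)
    rw [Finsupp.degree_eq_weight_one]
    exact h3
  exact mono_mem ω V hV _ e m h2 k v hv

theorem fin_dim (ω : α → ℕ) (V : ℕ → Submodule ℂ (α → Sx N)) (hV : GW ω V) (hα : Finite α)
    (k : ℕ) : FiniteDimensional ℂ (V k) := by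
  classical
  haveI := Fintype.ofFinite α
  have h1 : ∀ a : α, FiniteDimensional ℂ (homogeneousSubmodule (Fin (N + 1)) ℂ (k + ω a)) :=
    fun a => Module.Finite.iff_fg.2 (homogeneousSubmodule_fg (Fin (N + 1)) ℂ _)
  let f : V k →ₗ[ℂ] ((a : α) → homogeneousSubmodule (Fin (N + 1)) ℂ (k + ω a)) :=
    LinearMap.pi fun a => ((LinearMap.proj a).comp (V k).subtype).codRestrict _
      fun v => hV.hom k v.1 v.2 a
  refine FiniteDimensional.of_injective f ?_
  intro v w hvw
  apply Subtype.ext
  funext a
  exact congrArg Subtype.val (congrFun hvw a)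

/-- The vector of minors as a function of row `l0`. -/
def rowL {j : ℕ} (b : Sx N) (g : Fin j → (α → Sx N) × ℕ) (l0 : Fin j) :
    (α → Sx N) →ₗ[ℂ] ((Fin j → α) → Sx N) where
  toFun v := fun A => b * Matrix.det
    (Matrix.updateRow (Matrix.of fun l m => (g l).1 (A m)) l0 (fun m => v (A m)))
  map_add' v w := by
    funext A
    have h1 : (fun m => (v + w) (A m)) = (fun m => v (A m)) + fun m => w (A m) := rfl
    rw [h1, Matrix.det_updateRow_add, mul_add]
    rfl
  map_smul' r v := by
    funext A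
    have h1 : (fun m => (r • v) (A m)) = (C r : Sx N) • fun m => v (A m) := by
      funext m
      rw [Pi.smul_apply, Pi.smul_apply, smul_eq_mul, smul_eq_C_mul]
    rw [h1, Matrix.det_updateRow_smul, Pi.smul_apply, RingHom.id_apply, smul_eq_C_mul]
    ring

theorem mem_LW {j : ℕ} (P G : Gn N α) (hP : ∀ g ∈ P, g.1 ∈ Fam G g.2) (T : Finset (Fin j)) :
    ∀ (k e : ℕ) (b : Sx N) (g : Fin j → (α → Sx N) × ℕ), b.IsHomogeneous e →
      (∀ l ∈ T, g l ∈ P) → (∀ l, l ∉ T → g l ∈ G) → e + ∑ l, (g l).2 = k →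
      (fun A : Fin j → α => b * Matrix.det (Matrix.of fun l m => (g l).1 (A m))) ∈ LW G j k := by
  classical
  induction T using Finset.induction_on with
  | empty =>
    intro k e b g hb _ hg hk
    exact Submodule.subset_span ⟨b, e, g, hb, fun l => hg l (Finset.notMem_empty l), hk, rfl⟩
  | insert l0 T hl0 ih =>
    intro k e b g hb hg1 hg2 hk
    have h1 : Fam G (g l0).2 ≤ (LW G j k).comap (rowL b g l0) := by
      refine Submodule.span_le.2 ?_
      rintro z ⟨b', e', w, hw, hb', hk', rfl⟩
      have h2 := ih k (e + e') (b * b') (Function.update g l0 w) (hb.mul hb') (fun l hl => ?_)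
        (fun l hl => ?_) ?_
      · have h3 : rowL b g l0 (fun i => b' * w.1 i) = fun A : Fin j → α => b * b' *
            Matrix.det (Matrix.of fun l m => (Function.update g l0 w l).1 (A m)) := by
          funext A
          have h4 : (fun m => b' * w.1 (A m)) = b' • fun m => w.1 (A m) := rfl
          have h5 : (Matrix.of fun l m => (Function.update g l0 w l).1 (A m)) =
              Matrix.updateRow (Matrix.of fun l m => (g l).1 (A m)) l0 (fun m => w.1 (A m)) := by
            ext l m
            by_cases hl : l = l0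
            · subst hl
              simp
            · simp [Matrix.updateRow_ne hl, Function.update_of_ne hl]
          show b * Matrix.det (Matrix.updateRow (Matrix.of fun l m => (g l).1 (A m)) l0
            (fun m => b' * w.1 (A m))) = _
          rw [h4, Matrix.det_updateRow_smul, h5]
          ring
        show rowL b g l0 (fun i => b' * w.1 i) ∈ LW G j k
        rw [h3]
        exact h2
      · have h3 : l ≠ l0 := fun h => hl0 (h ▸ hl)
        rw [Function.update_of_ne h3]
        exact hg1 l (Finset.mem_insert_of_mem hl)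
      · by_cases h3 : l = l0
        · rw [h3, Function.update_self]
          exact hw
        · rw [Function.update_of_ne h3]
          exact hg2 l fun h => by
            rcases Finset.mem_insert.1 h with h4 | h4
            · exact h3 h4
            · exact hl h4
      · rw [← Finset.add_sum_erase _ _ (Finset.mem_univ l0)] at hk
        rw [← Finset.add_sum_erase _ _ (Finset.mem_univ l0)]
        have h3 : ∑ l ∈ Finset.univ.erase l0, (Function.update g l0 w l).2 =
            ∑ l ∈ Finset.univ.erase l0, (g l).2 := Finset.sum_congr rfl fun l hl => by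
          rw [Function.update_of_ne (Finset.ne_of_mem_erase hl)]
        rw [h3, Function.update_self]
        omega
    have h2 := h1 (hP _ (hg1 l0 (Finset.mem_insert_self _ _)))
    have h3 : rowL b g l0 (g l0).1 =
        fun A : Fin j → α => b * Matrix.det (Matrix.of fun l m => (g l).1 (A m)) := by
      funext A
      show b * Matrix.det (Matrix.updateRow (Matrix.of fun l m => (g l).1 (A m)) l0
            (fun m => (g l0).1 (A m))) = _
      have h5 : Matrix.updateRow (Matrix.of fun l m => (g l).1 (A m)) l0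
          (fun m => (g l0).1 (A m)) = Matrix.of fun l m => (g l).1 (A m) := by
        ext l m
        by_cases hl : l = l0
        · subst hl
          simp
        · simp [Matrix.updateRow_ne hl]
      rw [h5]
    rw [← h3]
    exact h2

end WBAux

theorem wB : S_WB := by
  refine ⟨fun N α ω G hG => WBAux.gwFam ω G hG,
    fun N α ω P G j hG => ⟨WBAux.gwLW ω G j hG, fun hP i => WBAux.gwFW ω P G i j hG hP⟩,
    fun N α β ω ω' V W hV hW => WBAux.gwPV ω ω' V W hV hW,
    fun N α ω V hV => ⟨fun k e g v hg hv => WBAux.form_mem ω V hV k e g v hg hv,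
      fun hα k => WBAux.fin_dim ω V hV hα k⟩,
    fun N α P G i j k => ⟨?_, fun hji => ?_⟩, fun N α P G hP j k => le_antisymm ?_ ?_⟩
  · refine Submodule.span_mono ?_
    rintro z ⟨b, e, g, T, hb, hT, hg1, hg2, hk, rfl⟩
    exact ⟨b, e, g, T, hb, by omega, hg1, hg2, hk, rfl⟩
  · rw [eq_bot_iff]
    refine Submodule.span_le.2 ?_
    rintro z ⟨b, e, g, T, hb, hT, hg1, hg2, hk, rfl⟩
    have h1 := Finset.card_le_univ T
    rw [Fintype.card_fin] at h1
    omega
  · refine Submodule.span_le.2 ?_
    rintro z ⟨b, e, g, T, hb, hT, hg1, hg2, hk, rfl⟩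
    exact WBAux.mem_LW P G hP T k e b g hb hg1 hg2 hk
  · refine Submodule.span_le.2 ?_
    rintro z ⟨b, e, g, hb, hg, hk, rfl⟩
    exact Submodule.subset_span ⟨b, e, g, ∅, hb, by simp, by simp, fun l _ => hg l, hk, rfl⟩

end Pool.Agent.Lib.MP_776403_ag.SD
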