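import Pool.Agent.Lib.MP_776403_ag.SD.W.Spec

/-!
# THEOREM W, module Cr: frames with Cramer functionals
-/

set_option autoImplicit false

open MvPolynomial

noncomputable section

namespace Pool.Agent.Lib.MP_776403_ag.SD

namespace WCrAux

variable {N : ℕ}

/-- The determinant of a matrix of forms with degrees `κ l + ω m`. -/
theorem det_hom {r : ℕ} (M : Matrix (Fin r) (Fin r) (Sx N)) (κ w : Fin r → ℕ)
    (h : ∀ l m, (M l m).IsHomogeneous (κ l + w m)) :
    M.det.IsHomogeneous (∑ l, κ l + ∑ m, w m) := by
  classical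
  rw [Matrix.det_apply]
  refine MvPolynomial.IsHomogeneous.sum _ _ _ fun σ _ => ?_
  have h1 : (∏ i, M (σ i) i).IsHomogeneous (∑ l, κ l + ∑ m, w m) := by
    have h2 := MvPolynomial.IsHomogeneous.prod Finset.univ (fun i => M (σ i) i)
      (fun i => κ (σ i) + w i) (fun i _ => h _ _)
    rw [Finset.sum_add_distrib, Equiv.sum_comp σ κ] at h2
    exact h2
  rcases Int.units_eq_one_or (Equiv.Perm.sign σ) with hs | hs
  · rw [hs, one_smul]
    exact h1
  · rw [hs]
    have h3 : ((-1 : ℤˣ) • ∏ i, M (σ i) i) = -∏ i, M (σ i) i := by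
      rw [Units.neg_smul, one_smul]
    rw [h3]
    exact h1.neg

/-- The entries of the adjugate. -/
theorem adj_hom {r : ℕ} (M : Matrix (Fin r) (Fin r) (Sx N)) (κ w : Fin r → ℕ)
    (h : ∀ l m, (M l m).IsHomogeneous (κ l + w m)) (m l : Fin r) :
    (M.adjugate m l).IsHomogeneous ((∑ l, κ l + ∑ m, w m) - κ l - w m) := by
  classical
  rw [Matrix.adjugate_apply, Matrix.det_apply]
  refine MvPolynomial.IsHomogeneous.sum _ _ _ fun σ _ => ?_
  have h1 : (∏ i, (M.updateRow l (Pi.single m 1)) (σ i) i).IsHomogeneous
      ((∑ l, κ l + ∑ m, w m) - κ l - w m) := by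
    by_cases hσ : σ m = l
    · rw [← Finset.mul_prod_erase Finset.univ _ (Finset.mem_univ m)]
      have e1 : (M.updateRow l (Pi.single m 1)) (σ m) m = 1 := by
        rw [hσ, Matrix.updateRow_self, Pi.single_eq_same]
      rw [e1, one_mul]
      have e2 := MvPolynomial.IsHomogeneous.prod (Finset.univ.erase m)
        (fun i => (M.updateRow l (Pi.single m 1)) (σ i) i) (fun i => κ (σ i) + w i) (by
          intro i hi
          have hi' : σ i ≠ l := by
            intro h'
            rw [← hσ] at h'
            exact (Finset.mem_erase.1 hi).1 (σ.injective h')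
          rw [Matrix.updateRow_ne hi']
          exact h _ _)
      have e3 : ∑ i ∈ Finset.univ.erase m, (κ (σ i) + w i) =
          (∑ l, κ l + ∑ m, w m) - κ l - w m := by
        have e4 := Finset.add_sum_erase Finset.univ (fun i => κ (σ i) + w i) (Finset.mem_univ m)
        rw [Finset.sum_add_distrib (s := Finset.univ), Equiv.sum_comp σ κ] at e4
        simp only [hσ] at e4
        omega
      rw [e3] at e2
      exact e2
    · have e1 : ∏ i, (M.updateRow l (Pi.single m 1)) (σ i) i = 0 := by
        refine Finset.prod_eq_zero (Finset.mem_univ (σ.symm l)) ?_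
        rw [Equiv.apply_symm_apply, Matrix.updateRow_self, Pi.single_eq_of_ne]
        intro h'
        apply hσ
        rw [← h', Equiv.apply_symm_apply]
      rw [e1]
      exact MvPolynomial.isHomogeneous_zero _ _ _
  rcases Int.units_eq_one_or (Equiv.Perm.sign σ) with hs | hs
  · rw [hs, one_smul]
    exact h1
  · rw [hs]
    have h3 : ((-1 : ℤˣ) • ∏ i, (M.updateRow l (Pi.single m 1)) (σ i) i) =
        -∏ i, (M.updateRow l (Pi.single m 1)) (σ i) i := by
      rw [Units.neg_smul, one_smul]
    rw [h3]
    exact h1.neg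

/-- A nonzero maximal minor. -/
theorem minor (hMinor : S_Minor) {α : Type} [Fintype α] {r : ℕ} (v : Fin r → α → ℂ)
    (hv : LinearIndependent ℂ v) : ∃ A : Fin r → α, (Matrix.of fun l m => v l (A m)).det ≠ 0 := by
  classical
  let eq := Fintype.equivFin α
  have h1 : LinearIndependent ℂ (fun l => (fun k => v l (eq.symm k) : Fin (Fintype.card α) → ℂ)) := by
    have h2 := hv.map' (LinearEquiv.funCongrLeft ℂ ℂ eq.symm).toLinearMap
      (LinearEquiv.ker _)
    exact h2
  obtain ⟨B, hB⟩ := hMinor (Fin r) (Fintype.card α) _ h1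
  exact ⟨fun m => eq.symm (B m), hB⟩

end WCrAux

open WCrAux in
theorem wCr (hMinor : S_Minor) (hNull : S_Null) : S_WCr := by
  classical
  intro N α _ ω J hJ hhom G r hG hrk p hp hp0 e he hmem hli
  obtain ⟨A, hA⟩ := minor hMinor _ hli
  set E : Matrix (Fin r) (Fin r) (Sx N) := Matrix.of fun l m => (e l).1 (A m) with hE
  set D : Sx N := E.det with hD
  set δ : ℕ := ∑ l, (e l).2 + ∑ m, ω (A m) with hδ
  have hEh : ∀ l m, (E l m).IsHomogeneous ((e l).2 + ω (A m)) := fun l m => he l (A m)
  have hDh : D.IsHomogeneous δ := det_hom E (fun l => (e l).2) (fun m => ω (A m)) hEh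
  have hadj : ∀ m l, (E.adjugate m l).IsHomogeneous (δ - (e l).2 - ω (A m)) :=
    adj_hom E (fun l => (e l).2) (fun m => ω (A m)) hEh
  have hle1 : ∀ l, (e l).2 ≤ ∑ l, (e l).2 := fun l =>
    Finset.single_le_sum (f := fun l => (e l).2) (fun _ _ => Nat.zero_le _) (Finset.mem_univ l)
  have hle2 : ∀ m, ω (A m) ≤ ∑ m, ω (A m) := fun m =>
    Finset.single_le_sum (f := fun m => ω (A m)) (fun _ _ => Nat.zero_le _) (Finset.mem_univ m)
  have hle : ∀ l m, (e l).2 + ω (A m) ≤ δ := fun l m => add_le_add (hle1 l) (hle2 m)
  have hle0 : ∀ l, (e l).2 ≤ δ := fun l => (hle1 l).trans (Nat.le_add_right _ _)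
  set ρ : Fin r → α → Sx N := fun l a => ∑ m, if A m = a then E.adjugate m l else 0 with hρ
  have hρv : ∀ (l : Fin r) (v : α → Sx N), ∑ a, ρ l a * v a = ∑ m, E.adjugate m l * v (A m) := by
    intro l v
    simp only [hρ, Finset.sum_mul]
    rw [Finset.sum_comm]
    refine Finset.sum_congr rfl fun m _ => ?_
    simp only [ite_mul, zero_mul]
    rw [Finset.sum_ite_eq]
    simp
  have hcr : ∀ l l', ∑ a, ρ l a * (e l').1 a = if l = l' then D else 0 := by
    intro l l'
    rw [hρv]
    have h1 := congrFun (congrFun (Matrix.mul_adjugate E) l') l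
    rw [Matrix.mul_apply, Matrix.smul_apply, Matrix.one_apply, smul_eq_mul, mul_ite, mul_one,
      mul_zero] at h1
    have h2 : ∑ m, E.adjugate m l * (e l').1 (A m) = ∑ m, E l' m * E.adjugate m l :=
      Finset.sum_congr rfl fun m _ => mul_comm _ _
    rw [h2, h1]
    by_cases hl : l = l'
    · rw [if_pos hl, if_pos hl.symm]
    · rw [if_neg hl, if_neg fun h => hl h.symm]
  have hρh : ∀ l a, (ρ l a).IsHomogeneous (δ - (e l).2 - ω a) := by
    intro l a
    refine MvPolynomial.IsHomogeneous.sum _ _ _ fun m _ => ?_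
    by_cases hm : A m = a
    · rw [if_pos hm]
      have := hadj m l
      rw [hm] at this
      exact this
    · rw [if_neg hm]
      exact MvPolynomial.isHomogeneous_zero _ _ _
  have hρn : ∀ l a, ρ l a ≠ 0 → (e l).2 + ω a ≤ δ := by
    intro l a hne
    by_contra hcon
    apply hne
    refine Finset.sum_eq_zero fun m _ => ?_
    rw [if_neg]
    intro hm
    apply hcon
    rw [← hm]
    exact hle l m
  have hDp : eval p D ≠ 0 := by
    rw [hD, RingHom.map_det]
    exact hA
  refine ⟨ρ, D, δ, hDh, hDp, hle0, fun l a => ⟨hρh l a, hρn l a⟩, hcr, ?_⟩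
  intro g hg a
  -- degrees
  have hρg : ∀ l, (∑ a', ρ l a' * g.1 a').IsHomogeneous ((δ - (e l).2) + g.2) := by
    intro l
    refine MvPolynomial.IsHomogeneous.sum _ _ _ fun a' _ => ?_
    by_cases h0 : ρ l a' = 0
    · rw [h0, zero_mul]
      exact MvPolynomial.isHomogeneous_zero _ _ _
    · have h1 := (hρh l a').mul (hG g hg a')
      have h2 := hρn l a' h0
      have h3 : δ - (e l).2 - ω a' + (g.2 + ω a') = (δ - (e l).2) + g.2 := by omega
      rw [h3] at h1
      exact h1
  have hF : (D * g.1 a - ∑ l, (∑ a', ρ l a' * g.1 a') * (e l).1 a).IsHomogeneous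
      (δ + (g.2 + ω a)) := by
    refine (hDh.mul (hG g hg a)).sub (MvPolynomial.IsHomogeneous.sum _ _ _ fun l _ => ?_)
    have h1 := (hρg l).mul (he l a)
    have h2 := hle0 l
    have h3 : δ - (e l).2 + g.2 + ((e l).2 + ω a) = δ + (g.2 + ω a) := by omega
    rw [h3] at h1
    exact h1
  have hDF : D * (D * g.1 a - ∑ l, (∑ a', ρ l a' * g.1 a') * (e l).1 a) ∈ J := by
    refine (hNull N J hJ hhom).2 ⟨p, hp, hp0⟩ _ _ (hDh.mul hF) ?_
    intro q hq hq0
    rw [map_mul]
    by_cases hDq : eval q D = 0
    · rw [hDq, zero_mul]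
    · -- the values of the frame at `q` span the fibre
      have hind : LinearIndependent ℂ (fun l => fun a => eval q ((e l).1 a)) := by
        rw [Fintype.linearIndependent_iff]
        intro c hc
        have h1 : Matrix.vecMul c (E.map (eval q)) = 0 := by
          funext m
          have h2 := congrFun hc (A m)
          simp only [Finset.sum_apply, Pi.smul_apply, smul_eq_mul, Pi.zero_apply] at h2
          simpa [Matrix.vecMul, dotProduct, hE] using h2
        have h3 : (E.map (eval q)).det ≠ 0 := by
          have : (E.map (eval q)).det = eval q D := by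
            rw [hD, RingHom.map_det]
            rfl
          rw [this]
          exact hDq
        have h4 := Matrix.eq_zero_of_vecMul_eq_zero h3 h1
        intro l
        exact congrFun h4 l
      have hfin : Module.finrank ℂ (fib G q) = r := hrk q hq hq0
      let v : Fin r → fib G q := fun l => ⟨fun a => eval q ((e l).1 a), hmem l q hq hq0⟩
      have hv : LinearIndependent ℂ v := by
        refine LinearIndependent.of_comp (fib G q).subtype ?_
        exact hind
      have hspan := hv.span_eq_top_of_card_eq_finrank' (by rw [Fintype.card_fin, hfin])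
      have hgq : (fun a => eval q (g.1 a)) ∈ fib G q := Submodule.subset_span ⟨g, hg, rfl⟩
      have hgs : (⟨fun a => eval q (g.1 a), hgq⟩ : fib G q) ∈ Submodule.span ℂ (Set.range v) := by
        rw [hspan]
        exact Submodule.mem_top
      obtain ⟨c, hc⟩ := (Submodule.mem_span_range_iff_exists_fun ℂ).1 hgs
      have hc' : ∀ b, eval q (g.1 b) = ∑ l, c l * eval q ((e l).1 b) := by
        intro b
        have h1 : (fun a => eval q (g.1 a)) = fun a => ∑ l, c l * eval q ((e l).1 a) := by
          have h2 := congrArg (fib G q).subtype hc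
          rw [map_sum] at h2
          have h3 : (fib G q).subtype ⟨fun a => eval q (g.1 a), hgq⟩ = fun a => eval q (g.1 a) := rfl
          rw [h3] at h2
          rw [← h2]
          funext a
          simp only [map_smul, Finset.sum_apply, Pi.smul_apply, smul_eq_mul]
          rfl
        exact congrFun h1 b
      have hρq : ∀ l, eval q (∑ a', ρ l a' * g.1 a') = c l * eval q D := by
        intro l
        rw [hρv, map_sum]
        have h1 : ∀ m, eval q (E.adjugate m l * g.1 (A m)) =
            ∑ l', c l' * eval q (E.adjugate m l * (e l').1 (A m)) := by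
          intro m
          rw [map_mul, hc' (A m), Finset.mul_sum]
          refine Finset.sum_congr rfl fun l' _ => ?_
          rw [map_mul]
          ring
        simp only [h1]
        rw [Finset.sum_comm]
        have h2 : ∀ l', ∑ m, c l' * eval q (E.adjugate m l * (e l').1 (A m)) =
            if l = l' then c l' * eval q D else 0 := by
          intro l'
          rw [← Finset.mul_sum, ← map_sum, ← hρv, hcr l l']
          by_cases hl : l = l'
          · rw [if_pos hl, if_pos hl]
          · rw [if_neg hl, if_neg hl, map_zero, mul_zero]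
        simp only [h2]
        rw [Finset.sum_ite_eq]
        simp
      have hFq : eval q (D * g.1 a - ∑ l, (∑ a', ρ l a' * g.1 a') * (e l).1 a) = 0 := by
        rw [map_sub, map_mul, map_sum, hc' a, Finset.mul_sum, sub_eq_zero]
        refine Finset.sum_congr rfl fun l _ => ?_
        rw [map_mul, hρq l]
        ring
      rw [hFq, mul_zero]
  rcases hJ.mem_or_mem hDF with h | h
  · exact absurd (hp D h) hDp
  · exact h

end Pool.Agent.Lib.MP_776403_ag.SD
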