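import Pool.Agent.Lib.MP_776403_ag.SD.W.Spec

/-!
# THEOREM W, module Div: Hilbert series of weighted families over `S / J`
-/

set_option autoImplicit false

open MvPolynomial

noncomputable section

namespace Pool.Agent.Lib.MP_776403_ag.SD

namespace WDivAux

theorem fin_gr {N : ℕ} (J : Ideal (Sx N)) (m : ℕ) : Module.Finite ℂ (gr J m) :=
  Module.Finite.iff_fg.2 ((homogeneousSubmodule_fg (Fin (N + 1)) ℂ m).map _)

theorem le {N : ℕ} (J : Ideal (Sx N)) {β : Type} [Fintype β] (ω : β → ℕ)
    (W : ℕ → Submodule ℂ (β → Sx N)) (hW : GW ω W) (k : ℕ) :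
    hV J W k ≤ ∑ b, Module.finrank ℂ (gr J (k + ω b)) := by
  have := fin_gr J
  have hm : ∀ u ∈ (W k).map (redL β J), ∀ a, u a ∈ gr J (k + ω a) := by
    rintro u ⟨v, hv, rfl⟩ a
    exact ⟨v a, hW.hom k v hv a, rfl⟩
  let φ : ((W k).map (redL β J)) →ₗ[ℂ] ((b : β) → gr J (k + ω b)) :=
    { toFun := fun u => fun a => ⟨u.1 a, hm u.1 u.2 a⟩
      map_add' := fun u v => rfl
      map_smul' := fun r u => rfl }
  have hi : Function.Injective φ := by
    intro u v h
    apply Subtype.ext
    funext a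
    exact congrArg Subtype.val (congrFun h a)
  have h1 := LinearMap.finrank_le_finrank_of_injective hi
  rw [Module.finrank_pi_fintype] at h1
  exact h1

end WDivAux

theorem wDiv (hWKI : S_WKI) (hSGr : S_SGr) : S_WDiv := by
  intro N c' J hJ hJh hz hc h hQ β _ ω W hW
  obtain ⟨p, hp⟩ := (hWKI N β ω J hJ hJh hz W hW).1
  have h0 : QP N 0 (hV J W) p := by
    unfold QP
    rw [pow_zero, one_mul]
    exact hp
  obtain ⟨q, hq⟩ := (hSGr N c' hc h p (hV J W) (fun k => Module.finrank ℂ (gr J k)) hQ h0).1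
    ⟨Fintype.card β, Finset.univ.sup ω, fun k => by
      refine (WDivAux.le J ω W hW k).trans ?_
      have h1 : ∀ b ∈ (Finset.univ : Finset β), Module.finrank ℂ (gr J (k + ω b)) ≤
          ∑ e ∈ Finset.range (Finset.univ.sup ω + 1), Module.finrank ℂ (gr J (k + e)) := by
        intro b hb
        exact Finset.single_le_sum (f := fun e => Module.finrank ℂ (gr J (k + e)))
          (fun _ _ => Nat.zero_le _)
          (Finset.mem_range.2 (Nat.lt_succ_of_le (Finset.le_sup hb)))
      have h2 := Finset.sum_le_card_nsmul _ _ _ h1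
      rw [Finset.card_univ, smul_eq_mul] at h2
      exact h2⟩
  refine ⟨q, ?_⟩
  unfold QP
  rw [← hq]
  exact hp

end Pool.Agent.Lib.MP_776403_ag.SD
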