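import Pool.Agent.Lib.MP_776403_ag.SD.W.Spec

/-!
# THEOREM W, module W/Ex: exactness in large degrees
-/

set_option autoImplicit false

open MvPolynomial

noncomputable section

namespace Pool.Agent.Lib.MP_776403_ag.SD

namespace WExAux

variable {N : ℕ}

/-- Rank-nullity for a map on a submodule. -/
theorem rk {E F : Type} [AddCommGroup E] [Module ℂ E] [AddCommGroup F] [Module ℂ F]
    (A : Submodule ℂ E) (hA : FiniteDimensional ℂ A) (f : E →ₗ[ℂ] F) :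
    Module.finrank ℂ (A.map f) + Module.finrank ℂ (A ⊓ LinearMap.ker f : Submodule ℂ E) =
      Module.finrank ℂ A := by
  have h := LinearMap.finrank_range_add_finrank_ker (f.domRestrict A)
  rw [LinearMap.range_domRestrict, LinearMap.ker_domRestrict] at h
  rw [← h, ← Submodule.map_comap_subtype, Submodule.finrank_map_subtype_eq]

/-- The abstract exactness. -/
theorem exact {E F E' F' : Type} [AddCommGroup E] [Module ℂ E] [AddCommGroup F] [Module ℂ F]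
    [AddCommGroup E'] [Module ℂ E'] [AddCommGroup F'] [Module ℂ F']
    (r : E →ₗ[ℂ] E') (r' : F →ₗ[ℂ] F') (Ψ : E →ₗ[ℂ] F) (A B : Submodule ℂ E) (Y : Submodule ℂ F)
    (hA : FiniteDimensional ℂ A)
    (hr : ∀ z, r z = 0 → r' (Ψ z) = 0)
    (h1 : ∀ z ∈ A, ∃ y ∈ Y, r' (Ψ z) = r' y)
    (h2 : ∀ y ∈ Y, ∃ z ∈ A, r' (Ψ z) = r' y)
    (h3 : B ≤ A) (h3' : ∀ z ∈ B, r' (Ψ z) = 0)
    (h4 : ∀ z ∈ A, r' (Ψ z) = 0 → ∃ v ∈ B, r z = r v) :
    Module.finrank ℂ (A.map r) = Module.finrank ℂ (B.map r) + Module.finrank ℂ (Y.map r') := by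
  have e1 := rk A hA r
  have e2 := rk A hA (r' ∘ₗ Ψ)
  have hK : FiniteDimensional ℂ (A ⊓ LinearMap.ker (r' ∘ₗ Ψ) : Submodule ℂ E) :=
    Submodule.finiteDimensional_inf_left _ _
  have e3 := rk (A ⊓ LinearMap.ker (r' ∘ₗ Ψ)) hK r
  have e4 : (A ⊓ LinearMap.ker (r' ∘ₗ Ψ)) ⊓ LinearMap.ker r = A ⊓ LinearMap.ker r := by
    ext z
    simp only [Submodule.mem_inf, LinearMap.mem_ker, LinearMap.comp_apply]
    constructor
    · rintro ⟨⟨a, _⟩, c⟩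
      exact ⟨a, c⟩
    · rintro ⟨a, c⟩
      exact ⟨⟨a, hr z c⟩, c⟩
  have e5 : (A ⊓ LinearMap.ker (r' ∘ₗ Ψ)).map r = B.map r := by
    apply le_antisymm
    · rintro _ ⟨z, hz, rfl⟩
      obtain ⟨v, hv, hv'⟩ := h4 z hz.1 hz.2
      exact ⟨v, hv, hv'.symm⟩
    · rintro _ ⟨z, hz, rfl⟩
      exact ⟨z, ⟨h3 hz, h3' z hz⟩, rfl⟩
  have e6 : A.map (r' ∘ₗ Ψ) = Y.map r' := by
    apply le_antisymm
    · rintro _ ⟨z, hz, rfl⟩
      obtain ⟨y, hy, hy'⟩ := h1 z hz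
      exact ⟨y, hy, hy'.symm⟩
    · rintro _ ⟨y, hy, rfl⟩
      obtain ⟨z, hz, hz'⟩ := h2 y hy
      exact ⟨z, hz, hz'⟩
  rw [e4, e5] at e3
  rw [e6] at e2
  omega

/-- `Ψ` over `ℂ`. -/
def tC {α β : Type} [Fintype α] (M : Matrix β α (Sx N)) (i l : ℕ) :
    ((Fin (i + l) → α) → Sx N) →ₗ[ℂ] ((Fin i → α) × (Fin l → β) → Sx N) :=
  (tM M i l).restrictScalars ℂ

theorem tC_apply {α β : Type} [Fintype α] (M : Matrix β α (Sx N)) (i l : ℕ)
    (z : (Fin (i + l) → α) → Sx N) : tC M i l z = tM M i l z := rfl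

theorem red_zero {γ : Type} (J : Ideal (Sx N)) (v : γ → Sx N) :
    redL γ J v = 0 ↔ ∀ a, v a ∈ J := by
  constructor
  · intro h a
    exact Ideal.Quotient.eq_zero_iff_mem.1 (congrFun h a)
  · intro h
    funext a
    exact Ideal.Quotient.eq_zero_iff_mem.2 (h a)

theorem red_eq {γ : Type} (J : Ideal (Sx N)) (v w : γ → Sx N) :
    redL γ J v = redL γ J w ↔ ∀ a, v a - w a ∈ J := by
  rw [← sub_eq_zero, ← map_sub, red_zero]
  rfl

theorem tM_mem {α β : Type} [Fintype α] (J : Ideal (Sx N)) (M : Matrix β α (Sx N)) (i l : ℕ)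
    (z : (Fin (i + l) → α) → Sx N) (h : ∀ a, z a ∈ J) (p : (Fin i → α) × (Fin l → β)) :
    tM M i l z p ∈ J :=
  J.sum_mem fun _ _ => J.mul_mem_left _ (h _)

/-- The kernel of `Ψ` modulo `J`. -/
def UU {α β : Type} [Fintype α] (J : Ideal (Sx N)) (M : Matrix β α (Sx N)) (i l : ℕ)
    (V : ℕ → Submodule ℂ ((Fin (i + l) → α) → Sx N)) (m : ℕ) :
    Submodule ℂ ((Fin (i + l) → α) → Sx N) :=
  V m ⊓ LinearMap.ker (redL _ J ∘ₗ tC M i l)

theorem mem_UU {α β : Type} [Fintype α] (J : Ideal (Sx N)) (M : Matrix β α (Sx N)) (i l : ℕ)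
    (V : ℕ → Submodule ℂ ((Fin (i + l) → α) → Sx N)) (m : ℕ) (z : (Fin (i + l) → α) → Sx N) :
    z ∈ UU J M i l V m ↔ z ∈ V m ∧ ∀ p, tM M i l z p ∈ J := by
  rw [UU, Submodule.mem_inf, LinearMap.mem_ker, LinearMap.comp_apply, red_zero]
  rfl

theorem gw_UU {α β : Type} [Fintype α] (J : Ideal (Sx N)) (M : Matrix β α (Sx N)) (i l : ℕ)
    (V : ℕ → Submodule ℂ ((Fin (i + l) → α) → Sx N)) (ω : (Fin (i + l) → α) → ℕ)
    (h : GW ω V) : GW ω (UU J M i l V) := by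
  constructor
  · intro k v hv a
    exact h.hom k v ((mem_UU J M i l V k v).1 hv).1 a
  · intro k v hv j
    rw [mem_UU] at hv ⊢
    refine ⟨h.mul k v hv.1 j, fun p => ?_⟩
    have e : (fun a => (X j : Sx N) * v a) = (X j : Sx N) • v := rfl
    rw [e, map_smul]
    exact J.mul_mem_left _ (hv.2 p)

end WExAux

open WExAux

theorem wEx (hWIm : S_WIm) (hWFr : S_WFr) (hWTn : S_WTn) (hWLoc : S_WLoc) (hWB : S_WB) :
    S_WEx := by
  intro N α β _ _ J ω ω' P G M s c k hX i l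
  obtain ⟨_, hB2, _, hB4, hB5, _⟩ := hWB
  have gF : ∀ i' : ℕ, GW (fun A : Fin (i + l) → α => ∑ m, ω (A m)) (FW P G i' (i + l)) :=
    (hB2 N α ω P G (i + l) hX.hG).2 hX.hP
  have gU := gw_UU J M i l (FW P G i (i + l)) _ (gF i)
  obtain ⟨m0, hm0⟩ := hWLoc N (Fin (i + l) → α) (fun A => ∑ m, ω (A m)) J hX.hom
    (UU J M i l (FW P G i (i + l))) (FW P G (i + 1) (i + l)) gU (gF (i + 1)) (by
      intro p hp hp0
      obtain ⟨e, ρ, σ, D, D', δ, hFR, hD⟩ := hWFr N α β J ω ω' P G M s c k hX p hp hp0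
      refine ⟨D ^ (i + l), (i + l) * δ, ?_, ?_, ?_⟩
      · rw [mul_comm]
        exact hFR.hD.pow (i + l)
      · rw [map_pow]
        exact pow_ne_zero _ hD
      · intro m u hu
        rw [mem_UU] at hu
        exact hWTn N α β J ω P G M c k e ρ σ D D' δ hX.prime hX.hP hX.hG hFR i l m u hu.1 hu.2)
  refine ⟨m0, fun m hm => ?_⟩
  obtain ⟨hI1, hI2, hI3⟩ := hWIm N α β J ω ω' P G M s c k hX i l m
  have hfd : FiniteDimensional ℂ (FW P G i (i + l) m) :=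
    (hB4 N (Fin (i + l) → α) _ _ (gF i)).2 inferInstance m
  refine exact (redL _ J) (redL _ J) (tC M i l) (FW P G i (i + l) m) (FW P G (i + 1) (i + l) m)
    (PV (LW P i) (LW (MG M s G) l) (m + s * l)) hfd ?_ ?_ ?_ ?_ ?_ ?_
  · intro z hz
    rw [red_zero] at hz ⊢
    exact fun p => tM_mem J M i l z hz p
  · intro z hz
    obtain ⟨y, hy, hy'⟩ := hI1 z hz
    exact ⟨y, hy, (red_eq _ _ _).2 hy'⟩
  · intro y hy
    obtain ⟨z, hz, hz'⟩ := hI2 y hy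
    exact ⟨z, hz, (red_eq _ _ _).2 hz'⟩
  · exact (hB5 N α P G i (i + l) m).1
  · intro z hz
    rw [red_zero]
    exact hI3 z hz
  · intro z hz hz'
    rw [red_zero] at hz'
    obtain ⟨v, hv, hv'⟩ := hm0 m hm z ((mem_UU _ _ _ _ _ _ _).2 ⟨hz, hz'⟩)
    exact ⟨v, hv, (red_eq _ _ _).2 hv'⟩

end Pool.Agent.Lib.MP_776403_ag.SD
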