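import Pool.Agent.Lib.MP_776403_ag.SD.W.Spec

/-!
# THEOREM W: the functional equation (assembly with power series)
-/

set_option autoImplicit false

open MvPolynomial

noncomputable section

namespace Pool.Agent.Lib.MP_776403_ag.SD

namespace WFEAux

/-- A power series with finitely many coefficients is a polynomial. -/
theorem isPoly (f : PowerSeries ℤ) (n0 : ℕ) (h : ∀ n, n0 ≤ n → PowerSeries.coeff n f = 0) :
    ∃ p : Polynomial ℤ, f = (p : PowerSeries ℤ) := by
  refine ⟨PowerSeries.trunc n0 f, ?_⟩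
  ext n
  rw [Polynomial.coeff_coe, PowerSeries.coeff_trunc]
  by_cases hn : n < n0
  · rw [if_pos hn]
  · rw [if_neg hn, h n (not_lt.1 hn)]

/-- The polynomial `1 - X` is not zero. -/
theorem oX : (1 - Polynomial.X : Polynomial ℤ) ≠ 0 := by
  intro h
  have h1 := congrArg (Polynomial.eval 0) h
  simp at h1

/-- Cancelling powers of `1 - X`. -/
theorem cancelP (u v w : ℕ) (F p : Polynomial ℤ) (h : (1 - Polynomial.X) ^ u * F =
    (1 - Polynomial.X) ^ v * p) (hw : u + w ≤ v) : (1 - Polynomial.X) ^ w ∣ F := by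
  have h1 : (1 - Polynomial.X : Polynomial ℤ) ^ v =
      (1 - Polynomial.X) ^ u * (1 - Polynomial.X) ^ (v - u) := by
    rw [← pow_add]
    congr 1
    omega
  have h2 : F = (1 - Polynomial.X) ^ (v - u) * p := by
    apply mul_left_cancel₀ (pow_ne_zero u oX)
    rw [h, h1, mul_assoc]
  rw [h2]
  exact Dvd.dvd.mul_right (pow_dvd_pow _ (by omega)) p

theorem coe_oX (n : ℕ) : (((1 - Polynomial.X) ^ n : Polynomial ℤ) : PowerSeries ℤ) =
    (1 - PowerSeries.X) ^ n := by
  rw [Polynomial.coe_pow, Polynomial.coe_sub, Polynomial.coe_one, Polynomial.coe_X]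

theorem coeff_ps (f : ℕ → ℕ) (n : ℕ) : PowerSeries.coeff n (ps f) = (f n : ℤ) := by
  unfold ps
  rw [PowerSeries.coeff_mk]

/-- The two filtrations. -/
theorem stepR (N c' c m : ℕ) (f : ℕ → ℕ → ℕ) (g : ℕ → ℕ → ℕ → ℕ) (α : ℕ → Polynomial ℤ)
    (b : ℕ → ℕ → Polynomial ℤ) (hα : ∀ l, QP N c' (f l) (α l))
    (hb : ∀ i l, QP N c' (g i l) (b i l)) (m0 : ℕ)
    (h : ∀ n, m0 ≤ n → ∑ i ∈ Finset.range (m + 1), Nat.choose c i * f (m - i) n =
      ∑ i ∈ Finset.range (m + 1), g i (m - i) (n + (m - i))) (w : ℕ) (hw : c' + w ≤ N + 1) :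
    (1 - Polynomial.X) ^ w ∣ Polynomial.X ^ m *
      ∑ i ∈ Finset.range (m + 1), (Nat.choose c i : Polynomial ℤ) * α (m - i) -
      ∑ i ∈ Finset.range (m + 1), Polynomial.X ^ i * b i (m - i) := by
  obtain ⟨p, hp⟩ := isPoly ((PowerSeries.X : PowerSeries ℤ) ^ m *
      ∑ i ∈ Finset.range (m + 1), (Nat.choose c i : PowerSeries ℤ) * ps (f (m - i)) -
      ∑ i ∈ Finset.range (m + 1), PowerSeries.X ^ i * ps (g i (m - i))) (m + m0) (by
    intro n hn
    obtain ⟨n', rfl⟩ : ∃ n', n = n' + m := ⟨n - m, by omega⟩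
    have hn' : m0 ≤ n' := by omega
    rw [map_sub, PowerSeries.coeff_X_pow_mul, map_sum, map_sum, sub_eq_zero]
    have h1 : ∀ i ∈ Finset.range (m + 1), PowerSeries.coeff n'
        ((Nat.choose c i : PowerSeries ℤ) * ps (f (m - i))) =
        ((Nat.choose c i * f (m - i) n' : ℕ) : ℤ) := by
      intro i _
      have h2 : (Nat.choose c i : PowerSeries ℤ) = PowerSeries.C (Nat.choose c i : ℤ) := by simp
      rw [h2, PowerSeries.coeff_C_mul, coeff_ps]
      push_cast
      ring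
    have h3 : ∀ i ∈ Finset.range (m + 1), PowerSeries.coeff (n' + m)
        (PowerSeries.X ^ i * ps (g i (m - i))) = ((g i (m - i) (n' + (m - i)) : ℕ) : ℤ) := by
      intro i hi
      have hi' := Finset.mem_range.1 hi
      have h4 : n' + m = (n' + (m - i)) + i := by omega
      rw [h4, PowerSeries.coeff_X_pow_mul, coeff_ps]
    rw [Finset.sum_congr rfl h1, Finset.sum_congr rfl h3, ← Nat.cast_sum, ← Nat.cast_sum,
      h n' hn'])
  refine cancelP c' (N + 1) w _ p ?_ hw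
  apply Polynomial.coe_injective
  have hα' : ∀ l, (1 - PowerSeries.X) ^ (N + 1) * ps (f l) =
      (1 - PowerSeries.X) ^ c' * (α l : PowerSeries ℤ) := fun l => by
    rw [hα l, Polynomial.coe_mul, coe_oX]
  have hb' : ∀ i l, (1 - PowerSeries.X) ^ (N + 1) * ps (g i l) =
      (1 - PowerSeries.X) ^ c' * (b i l : PowerSeries ℤ) := fun i l => by
    rw [hb i l, Polynomial.coe_mul, coe_oX]
  rw [Polynomial.coe_mul, Polynomial.coe_mul, coe_oX, coe_oX, ← hp, Polynomial.coe_sub,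
    Polynomial.coe_mul, Polynomial.coe_pow, Polynomial.coe_X]
  have e1 : ((∑ i ∈ Finset.range (m + 1), (Nat.choose c i : Polynomial ℤ) * α (m - i) :
      Polynomial ℤ) : PowerSeries ℤ) =
      ∑ i ∈ Finset.range (m + 1),
        (Nat.choose c i : PowerSeries ℤ) * (α (m - i) : PowerSeries ℤ) := by
    rw [← Polynomial.coeToPowerSeries.ringHom_apply, map_sum]
    refine Finset.sum_congr rfl fun i _ => ?_
    rw [map_mul, map_natCast, Polynomial.coeToPowerSeries.ringHom_apply]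
  have e2 : ((∑ i ∈ Finset.range (m + 1), Polynomial.X ^ i * b i (m - i) :
      Polynomial ℤ) : PowerSeries ℤ) =
      ∑ i ∈ Finset.range (m + 1), PowerSeries.X ^ i * (b i (m - i) : PowerSeries ℤ) := by
    rw [← Polynomial.coeToPowerSeries.ringHom_apply, map_sum]
    refine Finset.sum_congr rfl fun i _ => ?_
    rw [Polynomial.coeToPowerSeries.ringHom_apply, Polynomial.coe_mul, Polynomial.coe_pow,
      Polynomial.coe_X]
  have e3 : (1 - PowerSeries.X) ^ c' * ∑ i ∈ Finset.range (m + 1),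
      (Nat.choose c i : PowerSeries ℤ) * (α (m - i) : PowerSeries ℤ) =
      (1 - PowerSeries.X) ^ (N + 1) * ∑ i ∈ Finset.range (m + 1),
      (Nat.choose c i : PowerSeries ℤ) * ps (f (m - i)) := by
    rw [Finset.mul_sum, Finset.mul_sum]
    refine Finset.sum_congr rfl fun i _ => ?_
    rw [mul_left_comm, ← hα', mul_left_comm]
  have e4 : (1 - PowerSeries.X) ^ c' * ∑ i ∈ Finset.range (m + 1),
      PowerSeries.X ^ i * (b i (m - i) : PowerSeries ℤ) =
      (1 - PowerSeries.X) ^ (N + 1) * ∑ i ∈ Finset.range (m + 1),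
      PowerSeries.X ^ i * ps (g i (m - i)) := by
    rw [Finset.mul_sum, Finset.mul_sum]
    refine Finset.sum_congr rfl fun i _ => ?_
    rw [mul_left_comm, ← hb', mul_left_comm]
  rw [e1, e2, mul_sub, mul_sub, e4, mul_left_comm, e3, mul_left_comm]

/-- The self-intersection formula. -/
theorem stepK (N c c' a : ℕ) (f1 f2 f3 f4 : ℕ → ℕ) (p1 p2 p3 p4 : Polynomial ℤ)
    (h1 : QP N c f1 p1) (h2 : QP N c' f2 p2) (h3 : QP N c f3 p3) (h4 : QP N c' f4 p4)
    (h : ∃ p : Polynomial ℤ, (1 - PowerSeries.X) ^ (N + 1) * (ps f1 * ps f2 - ps f3 * ps f4) =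
      (p : PowerSeries ℤ)) (hw : c + c' + (a + 1) ≤ N + 1) :
    (1 - Polynomial.X) ^ (a + 1) ∣ p1 * p2 - p3 * p4 := by
  obtain ⟨p, hp⟩ := h
  refine cancelP (c + c') (N + 1) (a + 1) _ p ?_ hw
  apply Polynomial.coe_injective
  rw [Polynomial.coe_mul, Polynomial.coe_mul, coe_oX, coe_oX, ← hp]
  have h1' : (1 - PowerSeries.X) ^ (N + 1) * ps f1 =
      (1 - PowerSeries.X) ^ c * (p1 : PowerSeries ℤ) := by rw [h1, Polynomial.coe_mul, coe_oX]
  have h2' : (1 - PowerSeries.X) ^ (N + 1) * ps f2 =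
      (1 - PowerSeries.X) ^ c' * (p2 : PowerSeries ℤ) := by rw [h2, Polynomial.coe_mul, coe_oX]
  have h3' : (1 - PowerSeries.X) ^ (N + 1) * ps f3 =
      (1 - PowerSeries.X) ^ c * (p3 : PowerSeries ℤ) := by rw [h3, Polynomial.coe_mul, coe_oX]
  have h4' : (1 - PowerSeries.X) ^ (N + 1) * ps f4 =
      (1 - PowerSeries.X) ^ c' * (p4 : PowerSeries ℤ) := by rw [h4, Polynomial.coe_mul, coe_oX]
  have e1 : (1 - PowerSeries.X) ^ (N + 1) * ((1 - PowerSeries.X) ^ (N + 1) *
      (ps f1 * ps f2 - ps f3 * ps f4)) = ((1 - PowerSeries.X) ^ (N + 1) * ps f1) *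
      ((1 - PowerSeries.X) ^ (N + 1) * ps f2) - ((1 - PowerSeries.X) ^ (N + 1) * ps f3) *
      ((1 - PowerSeries.X) ^ (N + 1) * ps f4) := by ring
  rw [e1, h1', h2', h3', h4', Polynomial.coe_sub, Polynomial.coe_mul, Polynomial.coe_mul]
  ring

/-- The zeroth exterior power. -/
theorem hV0 {N : ℕ} (α : Type) (J : Ideal (Sx N)) (G : Gn N α) (k : ℕ) :
    hV J (LW G 0) k = Module.finrank ℂ (gr J k) := by
  classical
  let cst : (Sx N ⧸ J) →ₗ[ℂ] ((Fin 0 → α) → Sx N ⧸ J) :=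
    { toFun := fun x => fun _ => x
      map_add' := fun x y => rfl
      map_smul' := fun r x => rfl }
  have hinj : Function.Injective cst := by
    intro x y hxy
    exact congrFun hxy Fin.elim0
  have h1 : (LW G 0 k).map (redL (Fin 0 → α) J) = (gr J k).map cst := by
    unfold LW gr
    rw [Submodule.map_span, ← Submodule.map_comp]
    apply le_antisymm
    · rw [Submodule.span_le]
      rintro y ⟨z, ⟨a, e, g, ha, _, hek, rfl⟩, rfl⟩
      refine ⟨a, ?_, ?_⟩
      · have : e = k := by simpa using hek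
        rw [← this]
        exact ha
      · funext A
        simp [redL, cst]
    · rintro y ⟨a, ha, rfl⟩
      refine Submodule.subset_span ⟨fun _ => a, ⟨a, k, Fin.elim0, ha, fun l => l.elim0, by simp, ?_⟩, ?_⟩
      · funext A
        simp
      · funext A
        simp [redL, cst]
  unfold hV
  rw [h1]
  exact (LinearEquiv.finrank_eq (Submodule.equivMapOfInjective cst hinj (gr J k))).symm

/-- There is a nonzero zero. -/
theorem exZ (hNull : S_Null) (N D : ℕ) (J : Ideal (Sx N)) (hp : J.IsPrime) (hh : IsHom J)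
    (hD : DimGe J (D + 1)) : ∃ p ∈ zer J, p ≠ 0 := by
  by_contra hcon
  push Not at hcon
  obtain ⟨i, hi⟩ := hD
  have h1 : ∀ j, (X j : Sx N) ∈ J := fun j => (hNull N J hp hh).1 _ fun z hz => by
    rw [hcon z hz]
    simp
  have h2 : (Ideal.Quotient.mk J (X (i 0)) : Sx N ⧸ J) = 0 :=
    Ideal.Quotient.eq_zero_iff_mem.2 (h1 _)
  exact hi.ne_zero 0 h2

theorem QPzero (N c : ℕ) (f : ℕ → ℕ) (h : ∀ k, f k = 0) : QP N c f 0 := by
  unfold QP
  have : ps f = 0 := by
    ext n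
    rw [coeff_ps, h n]
    simp
  rw [this]
  simp

end WFEAux

open WFEAux in
/-- (WFE) The functional equation. -/
theorem wFE (hWR1 : S_WR1) (hWR2 : S_WR2) (hWVan : S_WVan) (hWQP : S_WQP) (hWDiv : S_WDiv)
    (hWKI : S_WKI) (hKLF : S_KLF) (hKGV : S_KGV) (hWB : S_WB) (hNull : S_Null)
    (hRk : S_WRk) (hGr : S_SGr) : S_WFE := by
  classical
  intro N c a I J hIp hIh hIs hJp hJh hIJ hca hDim β _ ω q M Ψ hG Q hQ0 hQ hQc
  obtain ⟨hB1, hB2, hB3, hB4, hB5, hB6⟩ := hWB
  obtain ⟨hG1, hG2, hG3, hG4⟩ := hKGV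
  have hz : ∃ p ∈ zer J, p ≠ 0 := exZ hNull N (a + c) J hJp hJh hDim
  obtain ⟨c', h, hc', hh, hh0⟩ := hWQP N (a + c) J hJp hJh hDim
  have hc'N : c' ≤ N := by omega
  have hHG : HG ω (QG q) := by
    rintro g ⟨i, k, rfl⟩ y
    exact hG.hom i k y
  have hLW : ∀ l, GW (fun A : Fin l → β => ∑ m, ω (A m)) (LW (QG q) l) := fun l =>
    (hB2 N β ω (QG q) (QG q) l hHG).1
  have hVL : ∀ i, GW (fun _ : Fin i → Fin (N + 1) => 0) (VL I i) := fun i =>
    ⟨fun k v hv b => by simpa using (hG3 N I i).1.hom k v hv b, (hG3 N I i).1.mul⟩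
  have hex : ∀ l, ∃ p : Polynomial ℤ, QP N c' (hV J (LW (QG q) l)) p ∧ (a - c < l → p = 0) := by
    intro l
    by_cases hl : a - c < l
    · exact ⟨0, QPzero _ _ _ fun k =>
        (hWVan N c a I J hIh hIs hIJ hJp hJh hz β ω q M Ψ hG).1 l k hl, fun _ => rfl⟩
    · obtain ⟨p, hp⟩ := hWDiv N c' J hJp hJh hz hc'N h hh (Fin l → β) _ (LW (QG q) l) (hLW l)
      exact ⟨p, hp, fun h => absurd h hl⟩
  choose α hα hα0 using hex
  have hexb : ∀ i l, ∃ p : Polynomial ℤ,
      QP N c' (hV J (PV (VL I i) (LW (QG q) l))) p ∧ (c < i → p = 0) := by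
    intro i l
    by_cases hi : c < i
    · exact ⟨0, QPzero _ _ _ fun k =>
        (hWVan N c a I J hIh hIs hIJ hJp hJh hz β ω q M Ψ hG).2 (Fin l → β) _ (LW (QG q) l)
          (hLW l) i k hi, fun _ => rfl⟩
    · obtain ⟨p, hp⟩ := hWDiv N c' J hJp hJh hz hc'N h hh _ _ (PV (VL I i) (LW (QG q) l))
        (hB3 N _ _ _ _ _ _ (hVL i) (hLW l))
      exact ⟨p, hp, fun h => absurd h hi⟩
  choose b hb hb0 using hexb
  have hα00 : α 0 = h := by
    have h1 := hα 0
    have h2 : hV J (LW (QG q) 0) = fun k => Module.finrank ℂ (gr J k) :=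
      funext fun k => hV0 β J (QG q) k
    rw [h2] at h1
    unfold QP at h1 hh
    rw [hh] at h1
    have h3 := Polynomial.coe_injective ℤ h1
    exact (mul_left_cancel₀ (pow_ne_zero c' oX) h3).symm
  have hα1 : (α 1).eval 1 = ((a - c : ℕ) : ℤ) * (α 0).eval 1 := by
    have hr : ∀ p ∈ zer J, p ≠ 0 → Module.finrank ℂ (fib (QG q) p) = a - c := by
      intro p hp hp0
      have := hG.rk p hp hp0
      omega
    obtain ⟨⟨κ, δ, hκ, hb⟩, hL⟩ := hRk N β ω J hJp hJh hz (QG q) (a - c) hHG hr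
    have hP : QP N 0 (hV J (LW (QG q) 1)) ((1 - Polynomial.X) ^ c' * α 1) := by
      have h1 := hα 1
      unfold QP at h1 ⊢
      rw [h1, pow_zero, one_mul]
    have h2 := (hGr N c' hc'N h _ _ _ hh hP).2 (a - c) κ δ hκ (fun k => by
      rw [hL k]
      exact hb k) (α 1) rfl
    rw [h2, hα00]
  refine ⟨α, by rw [hα00]; exact hh0, hα0, hα1, fun m => ?_⟩
  -- the two filtrations
  have hR : (1 - Polynomial.X) ^ (a + 1) ∣ Polynomial.X ^ m *
      ∑ i ∈ Finset.range (m + 1), (Nat.choose c i : Polynomial ℤ) * α (m - i) -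
      ∑ i ∈ Finset.range (m + 1), Polynomial.X ^ i * b i (m - i) := by
    obtain ⟨m1, hm1⟩ := hWR1 N c a I J hJp hJh hz β ω q M Ψ hG m
    obtain ⟨m2, hm2⟩ := hWR2 N c a I J hIh hIs hIJ hJp hJh hz β ω q M Ψ hG m
    refine stepR N c' c m (fun l => hV J (LW (QG q) l))
      (fun i l => hV J (PV (VL I i) (LW (QG q) l))) α b hα hb (max m1 m2) ?_ (a + 1) (by omega)
    intro n hn
    rw [← hm1 n (le_trans (le_max_left _ _) hn), hm2 n (le_trans (le_max_right _ _) hn)]
  -- the self-intersection formula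
  have hK : ∀ i l, (1 - Polynomial.X) ^ (a + 1) ∣
      Q i * α l - Polynomial.X ^ i * (Q 0 * b i l) := by
    intro i l
    by_cases hi : i ≤ c
    · obtain ⟨p, hp, hQi⟩ := hQ i hi
      have h1 := (hWKI N (Fin l → β) _ J hJp hJh hz (LW (QG q) l) (hLW l)).2 c
        (Fin i → Fin (N + 1)) I hIp hIh hIs hIJ (VL I i) (hG3 N I i).1
        (hKLF N c I J hIp hIh hIs hIJ i)
      have h2 := stepK N c c' a _ _ _ _ p (α l) (Q 0) (b i l) hp (hα l) hQ0 (hb i l) h1 (by omega)
      rw [hQi]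
      have h3 : Polynomial.X ^ i * p * α l - Polynomial.X ^ i * (Q 0 * b i l) =
          Polynomial.X ^ i * (p * α l - Q 0 * b i l) := by ring
      rw [h3]
      exact Dvd.dvd.mul_left h2 _
    · rw [hQc i (not_le.1 hi), hb0 i l (not_le.1 hi)]
      simp
  have hfin : Q 0 * Polynomial.X ^ m *
      ∑ i ∈ Finset.range (m + 1), (Nat.choose c i : Polynomial ℤ) * α (m - i) -
      ∑ i ∈ Finset.range (m + 1), Q i * α (m - i) =
      Q 0 * (Polynomial.X ^ m *
        ∑ i ∈ Finset.range (m + 1), (Nat.choose c i : Polynomial ℤ) * α (m - i) -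
        ∑ i ∈ Finset.range (m + 1), Polynomial.X ^ i * b i (m - i)) -
      ∑ i ∈ Finset.range (m + 1), (Q i * α (m - i) -
        Polynomial.X ^ i * (Q 0 * b i (m - i))) := by
    rw [Finset.sum_sub_distrib]
    have h4 : ∑ i ∈ Finset.range (m + 1), Polynomial.X ^ i * (Q 0 * b i (m - i)) =
        Q 0 * ∑ i ∈ Finset.range (m + 1), Polynomial.X ^ i * b i (m - i) := by
      rw [Finset.mul_sum]
      exact Finset.sum_congr rfl fun i _ => by ring
    rw [h4]
    ring
  rw [hfin]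
  exact dvd_sub (Dvd.dvd.mul_left hR _) (Finset.dvd_sum fun i _ => hK i (m - i))

end Pool.Agent.Lib.MP_776403_ag.SD
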