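import Pool.Agent.Lib.MP_776403_ag.SD.W.Spec

/-!
# SD W Fr: local frames adapted to `P ≤ G`
-/

set_option autoImplicit false

open MvPolynomial

noncomputable section

namespace Pool.Agent.Lib.MP_776403_ag.SD

namespace WFrAux

section lin
variable {V : Type*} [AddCommGroup V] [Module ℂ V] [FiniteDimensional ℂ V]

/-- Extend an independent family by elements of a spanning set. -/
theorem grow {S : Set V} {n : ℕ} (v : Fin n → V) (hv : LinearIndependent ℂ v) :
    ∀ k : ℕ, n + k ≤ Module.finrank ℂ (Submodule.span ℂ S) →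
      ∃ f : Fin k → V, (∀ i, f i ∈ S) ∧ LinearIndependent ℂ (Fin.append v f) := by
  intro k
  induction k with
  | zero =>
    intro _
    refine ⟨Fin.elim0, fun i => i.elim0, ?_⟩
    rw [Fin.append_elim0]
    exact hv
  | succ k ih =>
    intro hk
    obtain ⟨f, hf, hli⟩ := ih (by omega)
    have h1 : ∃ x ∈ S, x ∉ Submodule.span ℂ (Set.range (Fin.append v f)) := by
      by_contra hcon
      push Not at hcon
      have h2 : Submodule.span ℂ S ≤ Submodule.span ℂ (Set.range (Fin.append v f)) :=
        Submodule.span_le.2 hcon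
      have h3 := Submodule.finrank_mono h2
      rw [finrank_span_eq_card hli, Fintype.card_fin] at h3
      omega
    obtain ⟨x, hx, hxn⟩ := h1
    refine ⟨Fin.snoc f x, fun i => ?_, ?_⟩
    · refine Fin.lastCases ?_ (fun i => ?_) i
      · rw [Fin.snoc_last]
        exact hx
      · rw [Fin.snoc_castSucc]
        exact hf i
    · rw [Fin.append_snoc]
      exact linearIndependent_finSnoc.2 ⟨hli, hxn⟩

theorem pick {S : Set V} {k : ℕ} (h : Module.finrank ℂ (Submodule.span ℂ S) = k) :
    ∃ f : Fin k → V, (∀ i, f i ∈ S) ∧ LinearIndependent ℂ f := by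
  obtain ⟨f, hf, hli⟩ := grow (S := S) (Fin.elim0 : Fin 0 → V) linearIndependent_empty_type k
    (by omega)
  refine ⟨f, hf, ?_⟩
  have h2 : f = Fin.append (Fin.elim0 : Fin 0 → V) f ∘ Fin.natAdd 0 := by
    funext i
    simp
  rw [h2]
  exact hli.comp _ (Fin.natAdd_injective k 0)

/-- An independent family of the right size in a subspace spans it. -/
theorem span_eq {W : Submodule ℂ V} {n : ℕ} {v : Fin n → V} (hv : LinearIndependent ℂ v)
    (hW : ∀ i, v i ∈ W) (h : Module.finrank ℂ W = n) : W = Submodule.span ℂ (Set.range v) := by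
  symm
  refine Submodule.eq_of_le_of_finrank_eq (Submodule.span_le.2 ?_) ?_
  · rintro _ ⟨i, rfl⟩
    exact hW i
  · rw [finrank_span_eq_card hv, Fintype.card_fin, h]

omit [FiniteDimensional ℂ V] in
/-- A spanning family of the right size is independent. -/
theorem li_of_span {n : ℕ} {v : Fin n → V}
    (h : n ≤ Module.finrank ℂ (Submodule.span ℂ (Set.range v))) : LinearIndependent ℂ v := by
  rw [linearIndependent_iff_card_eq_finrank_span, Fintype.card_fin]
  refine le_antisymm h ?_
  have := finrank_range_le_card (R := ℂ) v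
  rwa [Fintype.card_fin] at this

end lin

section ev
variable {N : ℕ} {α β : Type}

/-- The value at `q`. -/
def ev (q : Vx N) (v : α → Sx N) : α → ℂ := fun a => eval q (v a)

theorem fib_eq (G : Gn N α) (q : Vx N) :
    fib G q = Submodule.span ℂ {y | ∃ g ∈ G, y = ev q g.1} := rfl

theorem ev_mem_fib {G : Gn N α} {k : ℕ} {z : α → Sx N} (hz : z ∈ Fam G k) (q : Vx N) :
    ev q z ∈ fib G q := by
  unfold Fam at hz
  induction hz using Submodule.span_induction with
  | mem z hz =>
    obtain ⟨a, e, g, hg, _, _, rfl⟩ := hz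
    have h : ev q (fun i => a * g.1 i) = eval q a • ev q g.1 := by
      funext i
      simp [ev]
    rw [h]
    exact Submodule.smul_mem _ _ (Submodule.subset_span ⟨g, hg, rfl⟩)
  | zero =>
    have h : ev q (0 : α → Sx N) = 0 := by
      funext i
      simp [ev]
    rw [h]
    exact Submodule.zero_mem _
  | add x y _ _ hx hy =>
    have h : ev q (x + y) = ev q x + ev q y := by
      funext i
      simp [ev]
    rw [h]
    exact Submodule.add_mem _ hx hy
  | smul c x _ hx =>
    have h : ev q (c • x) = c • ev q x := by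
      funext i
      simp [ev, MvPolynomial.smul_eval]
    rw [h]
    exact Submodule.smul_mem _ _ hx

theorem ev_mulVec [Fintype α] (M : Matrix β α (Sx N)) (q : Vx N) (v : α → Sx N) :
    ev q (M.mulVec v) = (M.map (eval q)).mulVec (ev q v) := by
  funext y
  simp [ev, Matrix.mulVec, dotProduct, map_sum]

theorem ev_zero_of_mem {J : Ideal (Sx N)} {q : Vx N} (hq : q ∈ zer J) {v : α → Sx N}
    (hv : ∀ a, v a ∈ J) : ev q v = 0 := by
  funext a
  exact hq _ (hv a)

theorem rel_fam [Fintype α] {J : Ideal (Sx N)} {G : Gn N α} {D : Sx N} {n : ℕ}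
    {ρ : Fin n → α → Sx N} {e : Fin n → (α → Sx N) × ℕ}
    (h : ∀ g ∈ G, ∀ a, D * g.1 a - ∑ l, (∑ a', ρ l a' * g.1 a') * (e l).1 a ∈ J)
    {κ : ℕ} {z : α → Sx N} (hz : z ∈ Fam G κ) :
    ∀ a, D * z a - ∑ l, (∑ a', ρ l a' * z a') * (e l).1 a ∈ J := by
  unfold Fam at hz
  induction hz using Submodule.span_induction with
  | mem z hz =>
    obtain ⟨b, d, g, hg, _, _, rfl⟩ := hz
    intro a
    have h1 := J.mul_mem_left b (h g hg a)
    have h2 : b * (D * g.1 a - ∑ l, (∑ a', ρ l a' * g.1 a') * (e l).1 a) =
        D * (b * g.1 a) - ∑ l, (∑ a', ρ l a' * (b * g.1 a')) * (e l).1 a := by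
      rw [mul_sub, Finset.mul_sum]
      congr 1
      · ring
      · refine Finset.sum_congr rfl fun l _ => ?_
        rw [← mul_assoc, Finset.mul_sum]
        congr 1
        exact Finset.sum_congr rfl fun a' _ => by ring
    rw [h2] at h1
    exact h1
  | zero => intro a; simp
  | add x y _ _ hx hy =>
    intro a
    have h1 := J.add_mem (hx a) (hy a)
    have h2 : (D * x a - ∑ l, (∑ a', ρ l a' * x a') * (e l).1 a) +
        (D * y a - ∑ l, (∑ a', ρ l a' * y a') * (e l).1 a) =
        D * (x + y) a - ∑ l, (∑ a', ρ l a' * (x + y) a') * (e l).1 a := by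
      simp only [Pi.add_apply, mul_add, Finset.sum_add_distrib, add_mul]
      ring
    rw [h2] at h1
    exact h1
  | smul b x _ hx =>
    intro a
    have h1 := J.mul_mem_left (C b) (hx a)
    have h2 : C b * (D * x a - ∑ l, (∑ a', ρ l a' * x a') * (e l).1 a) =
        D * (b • x) a - ∑ l, (∑ a', ρ l a' * (b • x) a') * (e l).1 a := by
      simp only [Pi.smul_apply, MvPolynomial.smul_eq_C_mul]
      rw [mul_sub, Finset.mul_sum]
      congr 1
      · ring
      · refine Finset.sum_congr rfl fun l _ => ?_
        rw [← mul_assoc, Finset.mul_sum]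
        congr 1
        exact Finset.sum_congr rfl fun a' _ => by ring
    rw [h2] at h1
    exact h1

/-- Vectors with dual functionals are independent. -/
theorem li_of_dual [Fintype α] {n : ℕ} (v φ : Fin n → α → ℂ) (d : ℂ) (hd : d ≠ 0)
    (h : ∀ l l', ∑ a, φ l a * v l' a = if l = l' then d else 0) : LinearIndependent ℂ v := by
  rw [Fintype.linearIndependent_iff]
  intro g hg i
  have h1 : ∑ a, φ i a * (∑ j, g j • v j) a = 0 := by
    rw [hg]
    simp
  have h2 : ∑ a, φ i a * (∑ j, g j • v j) a = ∑ j, g j * ∑ a, φ i a * v j a := by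
    simp only [Finset.sum_apply, Pi.smul_apply, smul_eq_mul, Finset.mul_sum]
    rw [Finset.sum_comm]
    exact Finset.sum_congr rfl fun j _ => Finset.sum_congr rfl fun a _ => by ring
  rw [h2] at h1
  simp only [h, mul_ite, mul_zero, Finset.sum_ite_eq, Finset.mem_univ, if_true] at h1
  exact (mul_eq_zero.1 h1).resolve_right hd

end ev

end WFrAux

open WFrAux in
theorem wFr (hWCr : S_WCr) (hNull : S_Null) (_hWB : S_WB) : S_WFr := by
  intro N α β _ _ J ω ω' P G M s c k h p hp hp0
  classical
  obtain ⟨vP, hvP, hliP⟩ := pick (S := {y | ∃ g ∈ P, y = ev p g.1}) (k := c) (h.rP p hp hp0)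
  choose gP hgP hgPe using hvP
  obtain ⟨vG, hvG, hliG⟩ := grow (S := {y | ∃ g ∈ G, y = ev p g.1}) vP hliP k
    (le_of_eq (h.rG p hp hp0).symm)
  choose gG hgG hgGe using hvG
  set e : Fin (c + k) → (α → Sx N) × ℕ := Fin.append gP gG with he
  have he1 : ∀ r : Fin c, e (Fin.castAdd k r) = gP r := fun r => Fin.append_left gP gG r
  have he2 : ∀ r : Fin k, e (Fin.natAdd c r) = gG r := fun r => Fin.append_right gP gG r
  have hehom : ∀ l a, ((e l).1 a).IsHomogeneous ((e l).2 + ω a) := by
    intro l
    refine Fin.addCases (fun r => ?_) (fun r => ?_) l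
    · rw [he1]
      exact h.hP _ (hgP r)
    · rw [he2]
      exact h.hG _ (hgG r)
  have hPG : ∀ g ∈ P, ∀ p' : Vx N, ev p' g.1 ∈ fib G p' := fun g hg p' =>
    ev_mem_fib (h.sub g hg) p'
  have hefib : ∀ l, ∀ p' ∈ zer J, p' ≠ 0 → (fun a => eval p' ((e l).1 a)) ∈ fib G p' := by
    intro l p' _ _
    refine Fin.addCases (fun r => ?_) (fun r => ?_) l
    · rw [he1]
      exact hPG _ (hgP r) p'
    · rw [he2]
      exact Submodule.subset_span ⟨_, hgG r, rfl⟩
  have hli : LinearIndependent ℂ (fun l => fun a => eval p ((e l).1 a)) := by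
    have h1 : (fun l => fun a => eval p ((e l).1 a)) = Fin.append vP vG := by
      funext l
      refine Fin.addCases (fun r => ?_) (fun r => ?_) l
      · rw [he1, Fin.append_left, hgPe r]
        rfl
      · rw [he2, Fin.append_right, hgGe r]
        rfl
    rw [h1]
    exact hliG
  obtain ⟨ρ, D, δ, hD, hDp, hle, hρ, hρe, hrel⟩ := hWCr N α ω J h.prime h.hom G (c + k) h.hG
    h.rG p hp hp0 e hehom hefib hli
  have hDJ : D ∉ J := fun h1 => hDp (hp _ h1)
  have hfr : ∀ g, g ∈ P ∨ g ∈ G → ∀ a,
      D * g.1 a - ∑ r, (∑ a', ρ r a' * g.1 a') * (e r).1 a ∈ J := by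
    rintro g (hg | hg)
    · exact rel_fam hrel (h.sub g hg)
    · exact hrel g hg
  -- the images
  have hli2 : LinearIndependent ℂ (fun r : Fin k => ev p (M.mulVec (gG r).1)) := by
    refine li_of_span ?_
    have h1 : fib (MG M s G) p ≤
        Submodule.span ℂ (Set.range fun r : Fin k => ev p (M.mulVec (gG r).1)) := by
      refine Submodule.span_le.2 ?_
      rintro _ ⟨g, ⟨w, hw, rfl⟩, rfl⟩
      change ev p (M.mulVec w.1) ∈ _
      rw [ev_mulVec]
      have h2 : ev p w.1 ∈ Submodule.span ℂ (Set.range fun l => fun a => eval p ((e l).1 a)) := by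
        rw [← span_eq hli (W := fib G p) (fun l => hefib l p hp hp0) (h.rG p hp hp0)]
        exact Submodule.subset_span ⟨w, hw, rfl⟩
      have h3 : ∀ x ∈ Submodule.span ℂ (Set.range fun l => fun a => eval p ((e l).1 a)),
          (M.map (eval p)).mulVec x ∈
            Submodule.span ℂ (Set.range fun r : Fin k => ev p (M.mulVec (gG r).1)) := by
        intro x hx
        induction hx using Submodule.span_induction with
        | mem y hy =>
          obtain ⟨l, rfl⟩ := hy
          have h3 : (M.map (eval p)).mulVec (fun a => eval p ((e l).1 a)) =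
              ev p (M.mulVec (e l).1) := (ev_mulVec M p _).symm
          simp only [h3]
          refine Fin.addCases (fun r => ?_) (fun r => ?_) l
          · rw [he1, ev_zero_of_mem hp (h.ker _ (hgP r))]
            exact Submodule.zero_mem _
          · rw [he2]
            exact Submodule.subset_span ⟨r, rfl⟩
        | zero =>
          rw [Matrix.mulVec_zero]
          exact Submodule.zero_mem _
        | add x y _ _ hx hy =>
          rw [Matrix.mulVec_add]
          exact Submodule.add_mem _ hx hy
        | smul b x _ hx =>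
          rw [Matrix.mulVec_smul]
          exact Submodule.smul_mem _ _ hx
      exact h3 _ h2
    have h2 := Submodule.finrank_mono h1
    rwa [h.rM p hp hp0] at h2
  obtain ⟨σ, D', δ', hD', hDp', -, -, hσe, -⟩ := hWCr N β ω' J h.prime h.hom (MG M s G) k h.hM
    h.rM p hp hp0 (fun r => (M.mulVec (gG r).1, (gG r).2 + s))
    (fun r y => h.hM _ ⟨gG r, hgG r, rfl⟩ y)
    (fun r p' _ _ => Submodule.subset_span ⟨_, ⟨gG r, hgG r, rfl⟩, rfl⟩) hli2
  refine ⟨e, ρ, σ, D, D', δ, ⟨fun r => ?_, fun r => ?_, hD, hle, hρ, hfr, ?_, ?_,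
    fun h1 => hDp' (hp _ h1)⟩, hDp⟩
  · rw [he1]
    exact hgP r
  · rw [he2]
    exact hgG r
  · -- van
    intro g hg r
    have h1 : (D * ∑ a, ρ (Fin.natAdd c r) a * g.1 a) ∈ J := by
      have hho : (∑ a, ρ (Fin.natAdd c r) a * g.1 a).IsHomogeneous
          (δ - (e (Fin.natAdd c r)).2 + g.2) := by
        refine MvPolynomial.IsHomogeneous.sum _ _ _ fun a _ => ?_
        by_cases h0 : ρ (Fin.natAdd c r) a = 0
        · rw [h0, zero_mul]
          exact MvPolynomial.isHomogeneous_zero _ _ _
        · have h2 := (hρ (Fin.natAdd c r) a).2 h0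
          have h3 := (hρ (Fin.natAdd c r) a).1.mul (h.hP g hg a)
          have h4 : δ - (e (Fin.natAdd c r)).2 - ω a + (g.2 + ω a) =
              δ - (e (Fin.natAdd c r)).2 + g.2 := by omega
          rw [h4] at h3
          exact h3
      refine (hNull N J h.prime h.hom).2 h.ne _ _ (hD.mul hho) fun p' hp' hp'0 => ?_
      rw [map_mul]
      by_cases hDp2 : eval p' D = 0
      · rw [hDp2, zero_mul]
      · have hli3 : LinearIndependent ℂ (fun l : Fin c => ev p' (gP l).1) := by
          refine li_of_dual _ (fun l a => eval p' (ρ (Fin.castAdd k l) a)) (eval p' D) hDp2 ?_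
          intro l l'
          have h5 := congrArg (eval p') (hρe (Fin.castAdd k l) (Fin.castAdd k l'))
          rw [he1] at h5
          rw [map_sum] at h5
          simp only [map_mul, Fin.castAdd_inj] at h5
          have h6 : (eval p') (if l = l' then D else 0) = if l = l' then eval p' D else 0 := by
            split_ifs
            · rfl
            · exact map_zero _
          rw [h6] at h5
          exact h5
        have h7 : ev p' g.1 ∈ Submodule.span ℂ (Set.range fun l : Fin c => ev p' (gP l).1) := by
          rw [← span_eq hli3 (W := fib P p') (fun l => Submodule.subset_span ⟨_, hgP l, rfl⟩)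
            (h.rP p' hp' hp'0)]
          exact Submodule.subset_span ⟨g, hg, rfl⟩
        have h8 : ∀ y ∈ Submodule.span ℂ (Set.range fun l : Fin c => ev p' (gP l).1),
            ∑ a, eval p' (ρ (Fin.natAdd c r) a) * y a = 0 := by
          intro y hy
          induction hy using Submodule.span_induction with
          | mem y hy =>
            obtain ⟨l, rfl⟩ := hy
            have h5 := congrArg (eval p') (hρe (Fin.natAdd c r) (Fin.castAdd k l))
            have hne : Fin.natAdd c r ≠ Fin.castAdd k l := by
              intro h9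
              have h10 := congrArg Fin.val h9
              simp at h10
              omega
            rw [he1, if_neg hne, map_sum, map_zero] at h5
            simp only [map_mul] at h5
            exact h5
          | zero => simp
          | add x y _ _ hx hy =>
            simp only [Pi.add_apply, mul_add, Finset.sum_add_distrib, hx, hy, add_zero]
          | smul b x _ hx =>
            have h9 : ∀ a, eval p' (ρ (Fin.natAdd c r) a) * (b • x) a =
                b * (eval p' (ρ (Fin.natAdd c r) a) * x a) := fun a => by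
              rw [Pi.smul_apply, smul_eq_mul]
              ring
            rw [Finset.sum_congr rfl fun a _ => h9 a, ← Finset.mul_sum, hx, mul_zero]
        have h9 := h8 _ h7
        rw [map_sum]
        simp only [map_mul]
        have h10 : ∀ a, ev p' g.1 a = eval p' (g.1 a) := fun a => rfl
        simp only [h10] at h9
        rw [h9, mul_zero]
    exact (h.prime.mem_or_mem h1).resolve_left hDJ
  · -- cmp
    intro g hg r
    have h1 := hfr g hg
    set π := Ideal.Quotient.mk J with hπ
    have mem_iff : ∀ x, x ∈ J ↔ π x = 0 := fun x => Ideal.Quotient.eq_zero_iff_mem.symm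
    have h2 : ∀ a, π D * π (g.1 a) = ∑ l, π (∑ a', ρ l a' * g.1 a') * π ((e l).1 a) := by
      intro a
      have h3 := (mem_iff _).1 (h1 a)
      rw [map_sub, map_mul, map_sum, sub_eq_zero] at h3
      rw [h3]
      exact Finset.sum_congr rfl fun l _ => map_mul _ _ _
    rw [mem_iff, map_sub, map_mul, map_mul, sub_eq_zero]
    have h4 : ∀ y, π D * π (M.mulVec g.1 y) =
        ∑ l, π (∑ a', ρ l a' * g.1 a') * π (M.mulVec (e l).1 y) := by
      intro y
      simp only [Matrix.mulVec, dotProduct]
      rw [map_sum, Finset.mul_sum]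
      have h5 : ∀ a, π D * π (M y a * g.1 a) =
          ∑ l, π (∑ a', ρ l a' * g.1 a') * (π (M y a) * π ((e l).1 a)) := by
        intro a
        rw [map_mul, mul_left_comm, h2 a, Finset.mul_sum]
        exact Finset.sum_congr rfl fun l _ => by ring
      rw [Finset.sum_congr rfl fun a _ => h5 a, Finset.sum_comm]
      refine Finset.sum_congr rfl fun l _ => ?_
      rw [map_sum π (fun i => M y i * (e l).1 i), Finset.mul_sum]
      exact Finset.sum_congr rfl fun a _ => by rw [map_mul]
    have h6 : π D * π (∑ y, σ r y * M.mulVec g.1 y) =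
        ∑ l, π (∑ a', ρ l a' * g.1 a') * π (∑ y, σ r y * M.mulVec (e l).1 y) := by
      rw [map_sum, Finset.mul_sum]
      have h7 : ∀ y, π D * π (σ r y * M.mulVec g.1 y) =
          ∑ l, π (∑ a', ρ l a' * g.1 a') * (π (σ r y) * π (M.mulVec (e l).1 y)) := by
        intro y
        rw [map_mul, mul_left_comm, h4 y, Finset.mul_sum]
        exact Finset.sum_congr rfl fun l _ => by ring
      rw [Finset.sum_congr rfl fun y _ => h7 y, Finset.sum_comm]
      refine Finset.sum_congr rfl fun l _ => ?_
      rw [map_sum π (fun y => σ r y * M.mulVec (e l).1 y), Finset.mul_sum]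
      exact Finset.sum_congr rfl fun y _ => by rw [map_mul]
    rw [h6, Fin.sum_univ_add]
    have h8 : ∀ l : Fin c, π (∑ y, σ r y * M.mulVec (e (Fin.castAdd k l)).1 y) = 0 := by
      intro l
      rw [← mem_iff, he1]
      exact J.sum_mem fun y _ => J.mul_mem_left _ (h.ker _ (hgP l) y)
    have h9 : ∀ l : Fin k, π (∑ y, σ r y * M.mulVec (e (Fin.natAdd c l)).1 y) =
        if r = l then π D' else 0 := by
      intro l
      rw [he2]
      have h10 := congrArg π (hσe r l)
      rw [h10]
      split_ifs
      · rfl
      · exact map_zero _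
    simp only [h8, h9, mul_zero, Finset.sum_const_zero, zero_add, mul_ite, Finset.sum_ite_eq,
      Finset.mem_univ, if_true]
    ring

end Pool.Agent.Lib.MP_776403_ag.SD
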