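import Pool.Agent.Lib.MP_776403_ag.SD.W.Spec

/-!
# THEOREM W, module Im: the map `id^i ⊗ M^l` on the generators
-/

set_option autoImplicit false

open MvPolynomial

noncomputable section

namespace Pool.Agent.Lib.MP_776403_ag.SD

namespace WImAux

variable {N : ℕ}

/-- The matrix `K`. -/
def KK {α β : Type} [Fintype α] (M : Matrix β α (Sx N)) (i l : ℕ) (g : Fin (i + l) → α → Sx N)
    (A : Fin i → α) (B : Fin l → β) : Matrix (Fin (i + l)) (Fin (i + l)) (Sx N) :=
  Matrix.of fun r => Fin.append (fun m => g r (A m)) (fun m => M.mulVec (g r) (B m))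

theorem tM_apply {α β : Type} [Fintype α] (M : Matrix β α (Sx N)) (i l : ℕ)
    (z : (Fin (i + l) → α) → Sx N) (A : Fin i → α) (B : Fin l → β) :
    tM M i l z (A, B) = ∑ C : Fin l → α, (∏ m, M (B m) (C m)) * z (Fin.append A C) := rfl

theorem tM_det {α β : Type} [Fintype α] (M : Matrix β α (Sx N)) (i l : ℕ) (a : Sx N)
    (g : Fin (i + l) → α → Sx N) (A : Fin i → α) (B : Fin l → β) :
    tM M i l (fun A => a * (Matrix.of fun r m => g r (A m)).det) (A, B) =
      a * (KK M i l g A B).det := by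
  classical
  rw [tM_apply]
  have h1 : ∀ σ : Equiv.Perm (Fin (i + l)),
      ∑ C : Fin l → α, (∏ m, M (B m) (C m)) * ∏ m, g (σ m) (Fin.append A C m) =
        ∏ m, (KK M i l g A B) (σ m) m := by
    intro σ
    have e1 : ∏ m, (KK M i l g A B) (σ m) m =
        (∏ m : Fin i, g (σ (Fin.castAdd l m)) (A m)) *
          ∏ m : Fin l, ∑ c, M (B m) c * g (σ (Fin.natAdd i m)) c := by
      rw [Fin.prod_univ_add]
      congr 1
      · refine Finset.prod_congr rfl fun m _ => ?_
        simp only [KK, Matrix.of_apply, Fin.append_left]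
      · refine Finset.prod_congr rfl fun m _ => ?_
        simp only [KK, Matrix.of_apply, Fin.append_right]
        rfl
    rw [e1, Finset.prod_univ_sum, Fintype.piFinset_univ, Finset.mul_sum]
    refine Finset.sum_congr rfl fun C _ => ?_
    rw [Fin.prod_univ_add, Finset.prod_mul_distrib]
    simp only [Fin.append_left, Fin.append_right]
    ring
  have h2 : ∀ C : Fin l → α, (∏ m, M (B m) (C m)) *
      (a * (Matrix.of fun r m => g r (Fin.append A C m)).det) =
      ∑ σ : Equiv.Perm (Fin (i + l)), a * ((Equiv.Perm.sign σ : ℤ) : Sx N) *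
        ((∏ m, M (B m) (C m)) * ∏ m, g (σ m) (Fin.append A C m)) := by
    intro C
    rw [Matrix.det_apply', Finset.mul_sum, Finset.mul_sum]
    refine Finset.sum_congr rfl fun σ _ => ?_
    simp only [Matrix.of_apply]
    ring
  simp only [h2]
  rw [Finset.sum_comm, Matrix.det_apply', Finset.mul_sum]
  refine Finset.sum_congr rfl fun σ _ => ?_
  rw [← Finset.mul_sum, h1 σ]
  ring

/-- Rows of `T` vanish in the last `l` columns and `T` has more than `i` elements. -/
theorem det_mem {J : Ideal (Sx N)} {i l : ℕ} (K : Matrix (Fin (i + l)) (Fin (i + l)) (Sx N))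
    (T : Finset (Fin (i + l))) (hT : i < T.card)
    (h : ∀ r ∈ T, ∀ m : Fin l, K r (Fin.natAdd i m) ∈ J) : K.det ∈ J := by
  classical
  rw [Matrix.det_apply']
  refine J.sum_mem fun σ _ => J.mul_mem_left _ ?_
  -- some column `natAdd i m` with `σ` of it in `T`
  have h1 : ∃ m : Fin l, σ (Fin.natAdd i m) ∈ T := by
    by_contra hcon
    have h2 : T.image σ.symm ⊆ Finset.univ.image (Fin.castAdd l : Fin i → Fin (i + l)) := by
      intro c hc
      obtain ⟨t, ht, rfl⟩ := Finset.mem_image.1 hc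
      have h3 : ∀ c : Fin (i + l), σ.symm t = c →
          c ∈ Finset.univ.image (Fin.castAdd l : Fin i → Fin (i + l)) := by
        intro c
        refine Fin.addCases (fun m _ => ?_) (fun m hm => ?_) c
        · exact Finset.mem_image_of_mem _ (Finset.mem_univ _)
        · exfalso
          apply hcon
          refine ⟨m, ?_⟩
          rw [← hm, Equiv.apply_symm_apply]
          exact ht
      exact h3 _ rfl
    have h3 := Finset.card_le_card h2
    rw [Finset.card_image_of_injective _ σ.symm.injective,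
      Finset.card_image_of_injective _ (Fin.castAdd_injective i l), Finset.card_univ,
      Fintype.card_fin] at h3
    omega
  obtain ⟨m, hm⟩ := h1
  rw [← Finset.mul_prod_erase Finset.univ _ (Finset.mem_univ (Fin.natAdd i m))]
  exact J.mul_mem_right _ (h _ hm m)

/-- The block determinant modulo `J`. -/
theorem det_block {J : Ideal (Sx N)} {i l : ℕ} (K : Matrix (Fin (i + l)) (Fin (i + l)) (Sx N))
    (h : ∀ (r : Fin i) (m : Fin l), K (Fin.castAdd l r) (Fin.natAdd i m) ∈ J) :
    K.det - (Matrix.of fun (r m : Fin i) => K (Fin.castAdd l r) (Fin.castAdd l m)).det *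
      (Matrix.of fun (r m : Fin l) => K (Fin.natAdd i r) (Fin.natAdd i m)).det ∈ J := by
  classical
  rw [← Ideal.Quotient.eq_zero_iff_mem, map_sub, map_mul, RingHom.map_det, RingHom.map_det,
    RingHom.map_det, sub_eq_zero]
  set φ := Ideal.Quotient.mk J with hφ
  have h1 : (φ.mapMatrix K).det =
      ((φ.mapMatrix K).submatrix finSumFinEquiv finSumFinEquiv).det :=
    (Matrix.det_submatrix_equiv_self finSumFinEquiv _).symm
  have h2 : (φ.mapMatrix K).submatrix finSumFinEquiv finSumFinEquiv =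
      Matrix.fromBlocks (φ.mapMatrix (Matrix.of fun (r m : Fin i) =>
          K (Fin.castAdd l r) (Fin.castAdd l m))) 0
        (Matrix.of fun (r : Fin l) (m : Fin i) => φ (K (Fin.natAdd i r) (Fin.castAdd l m)))
        (φ.mapMatrix (Matrix.of fun (r m : Fin l) => K (Fin.natAdd i r) (Fin.natAdd i m))) := by
    funext r m
    rcases r with r | r <;> rcases m with m | m
    · simp [Matrix.fromBlocks]
    · simp only [Matrix.fromBlocks, Matrix.submatrix_apply, RingHom.mapMatrix_apply,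
        Matrix.map_apply, finSumFinEquiv_apply_left, finSumFinEquiv_apply_right, Matrix.of_apply,
        Sum.elim_inl, Sum.elim_inr, Matrix.zero_apply]
      exact Ideal.Quotient.eq_zero_iff_mem.2 (h r m)
    · simp [Matrix.fromBlocks]
    · simp [Matrix.fromBlocks]
  rw [h1, h2, Matrix.det_fromBlocks_zero₁₂]

/-- A permutation which sorts the rows. -/
theorem exists_perm {i l : ℕ} (T : Finset (Fin (i + l))) (hT : T.card = i) :
    ∃ π : Equiv.Perm (Fin (i + l)), (∀ r : Fin i, π (Fin.castAdd l r) ∈ T) ∧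
      ∀ r : Fin l, π (Fin.natAdd i r) ∉ T := by
  classical
  have h1 : Fintype.card {r // r ∈ T} = Fintype.card (Fin i) := by
    rw [Fintype.card_coe, hT, Fintype.card_fin]
  have h2 : Fintype.card {r // ¬ r ∈ T} = Fintype.card (Fin l) := by
    rw [Fintype.card_subtype_compl, Fintype.card_coe, hT, Fintype.card_fin, Fintype.card_fin]
    omega
  let e1 : Fin i ≃ {r // r ∈ T} := (Fintype.equivOfCardEq h1).symm
  let e2 : Fin l ≃ {r // ¬ r ∈ T} := (Fintype.equivOfCardEq h2).symm
  refine ⟨(finSumFinEquiv.symm.trans (Equiv.sumCongr e1 e2)).trans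
    (Equiv.sumCompl (fun r => r ∈ T)), fun r => ?_, fun r => ?_⟩
  · have : ((finSumFinEquiv.symm.trans (Equiv.sumCongr e1 e2)).trans
        (Equiv.sumCompl (fun r => r ∈ T))) (Fin.castAdd l r) = (e1 r : Fin (i + l)) := by
      simp
    rw [this]
    exact (e1 r).2
  · have : ((finSumFinEquiv.symm.trans (Equiv.sumCongr e1 e2)).trans
        (Equiv.sumCompl (fun r => r ∈ T))) (Fin.natAdd i r) = (e2 r : Fin (i + l)) := by
      simp
    rw [this]
    exact (e2 r).2

/-- Scalars. -/
theorem smul_memJ {J : Ideal (Sx N)} (c : ℂ) {x : Sx N} (h : x ∈ J) : c • x ∈ J := by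
  rw [MvPolynomial.smul_eq_C_mul]
  exact J.mul_mem_left _ h

theorem tM_csmul {α β : Type} [Fintype α] (M : Matrix β α (Sx N)) (i l : ℕ) (c : ℂ)
    (z : (Fin (i + l) → α) → Sx N) : tM M i l (c • z) = c • tM M i l z := by
  have h1 : ∀ {γ : Type} (u : γ → Sx N), c • u = (MvPolynomial.C c : Sx N) • u := by
    intro γ u
    funext p
    simp only [Pi.smul_apply, smul_eq_mul]
    rw [MvPolynomial.smul_eq_C_mul]
  rw [h1, h1, map_smul]

/-- The product of the two minors, modulo `J`: rows sorted. -/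
theorem sorted {α β : Type} [Fintype α] {J : Ideal (Sx N)} {P : Gn N α} {M : Matrix β α (Sx N)}
    (hker : ∀ g ∈ P, ∀ y, M.mulVec g.1 y ∈ J) {i l : ℕ} (a : Sx N)
    (g : Fin (i + l) → (α → Sx N) × ℕ) (π : Equiv.Perm (Fin (i + l)))
    (hP : ∀ r : Fin i, g (π (Fin.castAdd l r)) ∈ P) (A : Fin i → α) (B : Fin l → β) :
    tM M i l (fun A => a * (Matrix.of fun r m => (g r).1 (A m)).det) (A, B) -
      (((Equiv.Perm.sign π : ℤ) : Sx N) * a *
        (Matrix.of fun (r m : Fin i) => (g (π (Fin.castAdd l r))).1 (A m)).det) *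
      (Matrix.of fun (r m : Fin l) => M.mulVec (g (π (Fin.natAdd i r))).1 (B m)).det ∈ J := by
  classical
  rw [tM_det M i l a (fun r => (g r).1) A B]
  set K := KK M i l (fun r => (g r).1) A B with hK
  have h1 : (K.submatrix π id).det = ((Equiv.Perm.sign π : ℤ) : Sx N) * K.det :=
    Matrix.det_permute π K
  have h2 : K.det = ((Equiv.Perm.sign π : ℤ) : Sx N) * (K.submatrix π id).det := by
    rw [h1, ← mul_assoc]
    have h3 : ((Equiv.Perm.sign π : ℤ) : Sx N) * ((Equiv.Perm.sign π : ℤ) : Sx N) = 1 := by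
      rcases Int.units_eq_one_or (Equiv.Perm.sign π) with hs | hs <;> rw [hs] <;> simp
    rw [h3, one_mul]
  have h4 := det_block (J := J) (K.submatrix π id) (by
    intro r m
    have : (K.submatrix π id) (Fin.castAdd l r) (Fin.natAdd i m) =
        M.mulVec (g (π (Fin.castAdd l r))).1 (B m) := by
      simp only [hK, KK, Matrix.submatrix_apply, id, Matrix.of_apply, Fin.append_right]
    rw [this]
    exact hker _ (hP r) _)
  have h5 : (Matrix.of fun (r m : Fin i) =>
      (K.submatrix π id) (Fin.castAdd l r) (Fin.castAdd l m)) =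
      Matrix.of fun (r m : Fin i) => (g (π (Fin.castAdd l r))).1 (A m) := by
    funext r m
    simp only [hK, KK, Matrix.submatrix_apply, id, Matrix.of_apply, Fin.append_left]
  have h6 : (Matrix.of fun (r m : Fin l) =>
      (K.submatrix π id) (Fin.natAdd i r) (Fin.natAdd i m)) =
      Matrix.of fun (r m : Fin l) => M.mulVec (g (π (Fin.natAdd i r))).1 (B m) := by
    funext r m
    simp only [hK, KK, Matrix.submatrix_apply, id, Matrix.of_apply, Fin.append_right]
  rw [h5, h6] at h4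
  rw [h2]
  have h7 := J.mul_mem_left (((Equiv.Perm.sign π : ℤ) : Sx N) * a) h4
  have h8 : a * (((Equiv.Perm.sign π : ℤ) : Sx N) * (K.submatrix π id).det) -
      (((Equiv.Perm.sign π : ℤ) : Sx N) * a *
        (Matrix.of fun (r m : Fin i) => (g (π (Fin.castAdd l r))).1 (A m)).det) *
      (Matrix.of fun (r m : Fin l) => M.mulVec (g (π (Fin.natAdd i r))).1 (B m)).det =
      ((Equiv.Perm.sign π : ℤ) : Sx N) * a * ((K.submatrix π id).det -
        (Matrix.of fun (r m : Fin i) => (g (π (Fin.castAdd l r))).1 (A m)).det *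
        (Matrix.of fun (r m : Fin l) => M.mulVec (g (π (Fin.natAdd i r))).1 (B m)).det) := by
    ring
  rw [h8]
  exact h7

/-- The `y` which are images modulo `J`. -/
def SSm {α β : Type} [Fintype α] (J : Ideal (Sx N)) (P G : Gn N α) (M : Matrix β α (Sx N))
    (i l m : ℕ) : Submodule ℂ ((Fin i → α) × (Fin l → β) → Sx N) where
  carrier := {y | ∃ z ∈ FW P G i (i + l) m, ∀ p, tM M i l z p - y p ∈ J}
  zero_mem' := ⟨0, Submodule.zero_mem _, fun p => by
    rw [map_zero, Pi.zero_apply, sub_zero]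
    exact J.zero_mem⟩
  add_mem' := by
    rintro u v ⟨y1, hy1, h1⟩ ⟨y2, hy2, h2⟩
    refine ⟨y1 + y2, Submodule.add_mem _ hy1 hy2, fun p => ?_⟩
    rw [map_add, Pi.add_apply, Pi.add_apply, add_sub_add_comm]
    exact J.add_mem (h1 p) (h2 p)
  smul_mem' := by
    rintro c' u ⟨y1, hy1, h1⟩
    refine ⟨c' • y1, Submodule.smul_mem _ _ hy1, fun p => ?_⟩
    rw [tM_csmul, Pi.smul_apply, Pi.smul_apply, ← smul_sub]
    exact smul_memJ c' (h1 p)

/-- Products with a fixed first factor. -/
def mR {γ ε : Type} (v : γ → Sx N) : (ε → Sx N) →ₗ[ℂ] (γ × ε → Sx N) where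
  toFun w := fun p => v p.1 * w p.2
  map_add' w w' := by
    funext p
    simp only [Pi.add_apply, mul_add]
  map_smul' c w := by
    funext p
    simp only [Pi.smul_apply, RingHom.id_apply, mul_smul_comm]

/-- Products with a fixed second factor. -/
def mL {γ ε : Type} (w : ε → Sx N) : (γ → Sx N) →ₗ[ℂ] (γ × ε → Sx N) where
  toFun v := fun p => v p.1 * w p.2
  map_add' v v' := by
    funext p
    simp only [Pi.add_apply, add_mul]
  map_smul' c v := by
    funext p
    simp only [Pi.smul_apply, RingHom.id_apply, smul_mul_assoc]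

/-- The products of generators. -/
theorem gen_mem {α β : Type} [Fintype α] {J : Ideal (Sx N)} {P G : Gn N α}
    {M : Matrix β α (Sx N)} {s : ℕ} (hker : ∀ g ∈ P, ∀ y, M.mulVec g.1 y ∈ J) {i l m k1 k2 : ℕ}
    (hk : k1 + k2 = m + s * l) (a1 : Sx N) (e1 : ℕ) (g1 : Fin i → (α → Sx N) × ℕ)
    (ha1 : a1.IsHomogeneous e1) (hg1 : ∀ r, g1 r ∈ P) (hd1 : e1 + ∑ r, (g1 r).2 = k1)
    (a2 : Sx N) (e2 : ℕ) (g2 : Fin l → (β → Sx N) × ℕ)
    (ha2 : a2.IsHomogeneous e2) (hg2 : ∀ r, g2 r ∈ MG M s G) (hd2 : e2 + ∑ r, (g2 r).2 = k2) :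
    (fun p : (Fin i → α) × (Fin l → β) =>
      (a1 * (Matrix.of fun r m => (g1 r).1 (p.1 m)).det) *
        (a2 * (Matrix.of fun r m => (g2 r).1 (p.2 m)).det)) ∈ SSm J P G M i l m := by
  classical
  choose w2 hw2 hw2' using hg2
  let g : Fin (i + l) → (α → Sx N) × ℕ := Fin.append g1 w2
  have hgl : ∀ r : Fin i, g (Fin.castAdd l r) = g1 r := fun r => Fin.append_left g1 w2 r
  have hgr : ∀ r : Fin l, g (Fin.natAdd i r) = w2 r := fun r => Fin.append_right g1 w2 r
  let T : Finset (Fin (i + l)) := Finset.univ.image (Fin.castAdd l : Fin i → Fin (i + l))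
  refine ⟨fun A => (a1 * a2) * (Matrix.of fun r m => (g r).1 (A m)).det,
    Submodule.subset_span ⟨a1 * a2, e1 + e2, g, T, ha1.mul ha2, ?_, ?_, ?_, ?_, rfl⟩, ?_⟩
  · rw [Finset.card_image_of_injective _ (Fin.castAdd_injective i l), Finset.card_univ,
      Fintype.card_fin]
  · intro r hr
    obtain ⟨r', _, rfl⟩ := Finset.mem_image.1 hr
    rw [hgl]
    exact hg1 r'
  · intro r
    refine Fin.addCases (fun r' hr => ?_) (fun r' _ => ?_) r
    · exact absurd (Finset.mem_image_of_mem _ (Finset.mem_univ r')) hr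
    · rw [hgr]
      exact hw2 r'
  · rw [Fin.sum_univ_add]
    simp only [hgl, hgr]
    have h1 : ∑ r, (g2 r).2 = ∑ r, (w2 r).2 + l * s := by
      have h2 : ∀ r, (g2 r).2 = (w2 r).2 + s := fun r => by rw [hw2' r]
      simp only [h2]
      rw [Finset.sum_add_distrib, Finset.sum_const, Finset.card_univ, Fintype.card_fin,
        smul_eq_mul]
    rw [h1] at hd2
    rw [mul_comm s l] at hk
    omega
  · intro p
    have h1 := sorted hker (i := i) (l := l) (a1 * a2) g 1 (by
      intro r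
      rw [Equiv.Perm.coe_one, id, hgl]
      exact hg1 r) p.1 p.2
    simp only [Equiv.Perm.coe_one, id, hgl, hgr] at h1
    have h2 : (Matrix.of fun (r m : Fin l) => (g2 r).1 (p.2 m)) =
        (Matrix.of fun (r m : Fin l) => M.mulVec (w2 r).1 (p.2 m)) := by
      funext r m'
      simp only [Matrix.of_apply]
      rw [hw2' r]
    beta_reduce
    rw [h2]
    have h3 : (((Equiv.Perm.sign (1 : Equiv.Perm (Fin (i + l))) : ℤˣ) : ℤ) : Sx N) = 1 := by
      simp
    rw [h3] at h1
    have h4 : (a1 * (Matrix.of fun (r m : Fin i) => (g1 r).1 (p.1 m)).det) *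
        (a2 * (Matrix.of fun (r m : Fin l) => M.mulVec (w2 r).1 (p.2 m)).det) =
        (1 * (a1 * a2) * (Matrix.of fun (r m : Fin i) => (g1 r).1 (p.1 m)).det) *
        (Matrix.of fun (r m : Fin l) => M.mulVec (w2 r).1 (p.2 m)).det := by
      ring
    rw [h4]
    exact h1

/-- The products. -/
theorem prod_mem {α β : Type} [Fintype α] {J : Ideal (Sx N)} {P G : Gn N α}
    {M : Matrix β α (Sx N)} {s : ℕ} (hker : ∀ g ∈ P, ∀ y, M.mulVec g.1 y ∈ J) {i l m k1 k2 : ℕ}
    (hk : k1 + k2 = m + s * l) {v : (Fin i → α) → Sx N} {w : (Fin l → β) → Sx N}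
    (hv : v ∈ LW P i k1) (hw : w ∈ LW (MG M s G) l k2) :
    (fun p : (Fin i → α) × (Fin l → β) => v p.1 * w p.2) ∈ SSm J P G M i l m := by
  have h1 : LW P i k1 ≤ (SSm J P G M i l m).comap (mL w) := by
    refine Submodule.span_le.2 ?_
    rintro v ⟨a1, e1, g1, ha1, hg1, hd1, rfl⟩
    have h2 : LW (MG M s G) l k2 ≤ (SSm J P G M i l m).comap
        (mR (fun A : Fin i → α => a1 * (Matrix.of fun r m => (g1 r).1 (A m)).det)) := by
      refine Submodule.span_le.2 ?_
      rintro w ⟨a2, e2, g2, ha2, hg2, hd2, rfl⟩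
      exact gen_mem hker hk a1 e1 g1 ha1 hg1 hd1 a2 e2 g2 ha2 hg2 hd2
    exact h2 hw
  exact h1 hv

/-- The `z` with image `0` modulo `J`. -/
def KSm {α β : Type} [Fintype α] (J : Ideal (Sx N)) (M : Matrix β α (Sx N)) (i l : ℕ) :
    Submodule ℂ ((Fin (i + l) → α) → Sx N) where
  carrier := {z | ∀ p, tM M i l z p ∈ J}
  zero_mem' := fun p => by
    rw [map_zero]
    exact J.zero_mem
  add_mem' := by
    intro u v hu hv p
    rw [map_add]
    exact J.add_mem (hu p) (hv p)
  smul_mem' := by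
    intro c' u hu p
    rw [tM_csmul]
    exact smul_memJ c' (hu p)

/-- The `z` with image in `W` modulo `J`. -/
def ISm {α β : Type} [Fintype α] (J : Ideal (Sx N)) (M : Matrix β α (Sx N)) (i l : ℕ)
    (W : Submodule ℂ ((Fin i → α) × (Fin l → β) → Sx N)) :
    Submodule ℂ ((Fin (i + l) → α) → Sx N) where
  carrier := {z | ∃ y ∈ W, ∀ p, tM M i l z p - y p ∈ J}
  zero_mem' := ⟨0, Submodule.zero_mem _, fun p => by
    rw [map_zero, sub_self]
    exact J.zero_mem⟩
  add_mem' := by
    rintro u v ⟨y1, hy1, h1⟩ ⟨y2, hy2, h2⟩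
    refine ⟨y1 + y2, Submodule.add_mem _ hy1 hy2, fun p => ?_⟩
    rw [map_add, Pi.add_apply, Pi.add_apply, add_sub_add_comm]
    exact J.add_mem (h1 p) (h2 p)
  smul_mem' := by
    rintro c' u ⟨y1, hy1, h1⟩
    refine ⟨c' • y1, Submodule.smul_mem _ _ hy1, fun p => ?_⟩
    rw [tM_csmul, Pi.smul_apply, Pi.smul_apply, ← smul_sub]
    exact smul_memJ c' (h1 p)

/-- (c) -/
theorem part_c {α β : Type} [Fintype α] {J : Ideal (Sx N)} {P G : Gn N α}
    {M : Matrix β α (Sx N)} (hker : ∀ g ∈ P, ∀ y, M.mulVec g.1 y ∈ J) {i l m : ℕ} :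
    FW P G (i + 1) (i + l) m ≤ KSm J M i l := by
  classical
  refine Submodule.span_le.2 ?_
  rintro z ⟨a, e, g, T, _, hT, hTP, _, _, rfl⟩ ⟨A, B⟩
  rw [tM_det M i l a (fun r => (g r).1) A B]
  refine J.mul_mem_left _ (det_mem _ T hT ?_)
  intro r hr m'
  have : (KK M i l (fun r => (g r).1) A B) r (Fin.natAdd i m') = M.mulVec (g r).1 (B m') := by
    simp only [KK, Matrix.of_apply, Fin.append_right]
  rw [this]
  exact hker _ (hTP r hr) _

/-- The product of the two minors is in `PV`. -/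
theorem pv_mem {α β : Type} [Fintype α] {P G : Gn N α} {M : Matrix β α (Sx N)} {s i l m : ℕ}
    (a : Sx N) (e : ℕ) (g : Fin (i + l) → (α → Sx N) × ℕ) (π : Equiv.Perm (Fin (i + l)))
    (ha : a.IsHomogeneous e) (hP : ∀ r : Fin i, g (π (Fin.castAdd l r)) ∈ P)
    (hG : ∀ r : Fin l, g (π (Fin.natAdd i r)) ∈ G) (hdeg : e + ∑ r, (g r).2 = m) :
    (fun p : (Fin i → α) × (Fin l → β) => (((Equiv.Perm.sign π : ℤ) : Sx N) * a *
        (Matrix.of fun (r m : Fin i) => (g (π (Fin.castAdd l r))).1 (p.1 m)).det) *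
        (Matrix.of fun (r m : Fin l) => M.mulVec (g (π (Fin.natAdd i r))).1 (p.2 m)).det) ∈
      PV (LW P i) (LW (MG M s G) l) (m + s * l) := by
  refine Submodule.subset_span ⟨e + ∑ r : Fin i, (g (π (Fin.castAdd l r))).2,
    ∑ r : Fin l, ((g (π (Fin.natAdd i r))).2 + s), fun A => ((Equiv.Perm.sign π : ℤ) : Sx N) * a *
        (Matrix.of fun (r m : Fin i) => (g (π (Fin.castAdd l r))).1 (A m)).det,
      fun B => (Matrix.of fun (r m : Fin l) => M.mulVec (g (π (Fin.natAdd i r))).1 (B m)).det,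
      ?_, ?_, ?_, rfl⟩
  · have h1 : ∑ r, (g r).2 = ∑ r : Fin i, (g (π (Fin.castAdd l r))).2 +
        ∑ r : Fin l, (g (π (Fin.natAdd i r))).2 := by
      rw [← Equiv.sum_comp π, Fin.sum_univ_add]
    rw [Finset.sum_add_distrib, Finset.sum_const, Finset.card_univ, Fintype.card_fin,
      smul_eq_mul, mul_comm l s]
    rw [h1] at hdeg
    omega
  · refine Submodule.subset_span ⟨((Equiv.Perm.sign π : ℤ) : Sx N) * a, e,
      fun r => g (π (Fin.castAdd l r)), ?_, hP, rfl, rfl⟩
    rcases Int.units_eq_one_or (Equiv.Perm.sign π) with hs | hs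
    · rw [hs]
      simpa using ha
    · rw [hs]
      have : ((((-1 : ℤˣ) : ℤ) : Sx N) * a) = -a := by simp
      rw [this]
      exact ha.neg
  · refine Submodule.subset_span ⟨1, 0,
      fun r => (M.mulVec (g (π (Fin.natAdd i r))).1, (g (π (Fin.natAdd i r))).2 + s),
      MvPolynomial.isHomogeneous_one _ _, fun r => ⟨_, hG r, rfl⟩, ?_, ?_⟩
    · rw [zero_add]
    · funext B
      rw [one_mul]

/-- (a) -/
theorem part_a {α β : Type} [Fintype α] {J : Ideal (Sx N)} {P G : Gn N α}
    {M : Matrix β α (Sx N)} (hker : ∀ g ∈ P, ∀ y, M.mulVec g.1 y ∈ J) {s i l m : ℕ} :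
    FW P G i (i + l) m ≤ ISm J M i l (PV (LW P i) (LW (MG M s G) l) (m + s * l)) := by
  classical
  refine Submodule.span_le.2 ?_
  rintro z ⟨a, e, g, T, ha, hT, hTP, hTG, hdeg, rfl⟩
  rcases Nat.lt_or_ge i T.card with hlt | hge
  · refine ⟨0, Submodule.zero_mem _, fun p => ?_⟩
    have h1 := part_c (P := P) (G := G) (m := m) (l := l) (i := i) hker
      (Submodule.subset_span ⟨a, e, g, T, ha, hlt, hTP, hTG, hdeg, rfl⟩) p
    rw [Pi.zero_apply, sub_zero]
    exact h1
  · have hTi : T.card = i := le_antisymm hge hT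
    obtain ⟨π, hπ1, hπ2⟩ := exists_perm T hTi
    exact ⟨_, pv_mem a e g π ha (fun r => hTP _ (hπ1 r)) (fun r => hTG _ (hπ2 r)) hdeg,
      fun p => sorted hker a g π (fun r => hTP _ (hπ1 r)) p.1 p.2⟩

end WImAux

open WImAux in
theorem wIm : S_WIm := by
  intro N α β _ _ J ω ω' P G M s c k hX i l m
  have hker := hX.ker
  refine ⟨fun z hz => part_a hker hz, ?_, fun z hz => part_c hker hz⟩
  intro y hy
  have h : PV (LW P i) (LW (MG M s G) l) (m + s * l) ≤ SSm J P G M i l m := by
    refine Submodule.span_le.2 ?_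
    rintro y ⟨k1, k2, v, w, hk, hv, hw, rfl⟩
    exact prod_mem hker hk hv hw
  exact h hy

end Pool.Agent.Lib.MP_776403_ag.SD
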