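import Pool.Agent.Lib.MP_776403_ag.SD.W.Spec

/-!
# THEOREM W, `S_WLoc`: local inclusion gives inclusion in large degrees
-/

set_option autoImplicit false

open MvPolynomial

noncomputable section

namespace Pool.Agent.Lib.MP_776403_ag.SD

namespace WLocAux

variable {N : ℕ} {α : Type}

/-- homogeneous components of a multiple of a form -/
theorem hc_mul {H : Sx N} {d : ℕ} (hH : H.IsHomogeneous d) (c : Sx N) (m : ℕ) :
    homogeneousComponent (m + d) (c * H) = homogeneousComponent m c * H := by
  have h1 : ∀ i, homogeneousComponent (m + d) (homogeneousComponent i c * H) =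
      if m + d = i + d then homogeneousComponent i c * H else 0 := by
    intro i
    exact homogeneousComponent_of_mem ((homogeneousComponent_isHomogeneous i c).mul hH)
  have h2 : homogeneousComponent (m + d) (c * H) =
      ∑ i ∈ Finset.range (c.totalDegree + 1),
        if m + d = i + d then homogeneousComponent i c * H else 0 := by
    conv_lhs => rw [← sum_homogeneousComponent c]
    rw [Finset.sum_mul, map_sum]
    exact Finset.sum_congr rfl fun i _ => h1 i
  rw [h2]
  by_cases hr : m ∈ Finset.range (c.totalDegree + 1)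
  · rw [Finset.sum_eq_single_of_mem m hr]
    · rw [if_pos rfl]
    · intro i _ hi
      rw [if_neg (by omega)]
  · rw [Finset.sum_eq_zero]
    · rw [homogeneousComponent_eq_zero, zero_mul]
      rw [Finset.mem_range] at hr
      omega
    · intro i hi
      rw [if_neg]
      intro h
      apply hr
      have : m = i := by omega
      rw [this]
      exact hi

theorem C_smul_vec (c : ℂ) (w : α → Sx N) : (C c : Sx N) • w = c • w := by
  funext a
  rw [Pi.smul_apply, Pi.smul_apply, smul_eq_mul, MvPolynomial.smul_eq_C_mul]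

/-- The vectors which are in `V m` modulo `J`. -/
def Vp (J : Ideal (Sx N)) (V : ℕ → Submodule ℂ (α → Sx N)) (m : ℕ) :
    Submodule ℂ (α → Sx N) where
  carrier := {w | ∃ v ∈ V m, ∀ a, w a - v a ∈ J}
  zero_mem' := ⟨0, Submodule.zero_mem _, fun a => by
    rw [Pi.zero_apply, sub_zero]
    exact J.zero_mem⟩
  add_mem' := by
    rintro w w' ⟨v, hv, h⟩ ⟨v', hv', h'⟩
    refine ⟨v + v', Submodule.add_mem _ hv hv', fun a => ?_⟩
    have h1 : (w + w') a - (v + v') a = (w a - v a) + (w' a - v' a) := by
      rw [Pi.add_apply, Pi.add_apply]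
      ring
    rw [h1]
    exact J.add_mem (h a) (h' a)
  smul_mem' := by
    rintro c w ⟨v, hv, h⟩
    refine ⟨c • v, Submodule.smul_mem _ c hv, fun a => ?_⟩
    have h1 : (c • w) a - (c • v) a = C c * (w a - v a) := by
      rw [Pi.smul_apply, Pi.smul_apply, MvPolynomial.smul_eq_C_mul, MvPolynomial.smul_eq_C_mul]
      ring
    rw [h1]
    exact J.mul_mem_left _ (h a)

theorem Vp_of_J {J : Ideal (Sx N)} {V : ℕ → Submodule ℂ (α → Sx N)} {m : ℕ} {w : α → Sx N}
    (h : ∀ a, w a ∈ J) : w ∈ Vp J V m :=
  ⟨0, Submodule.zero_mem _, fun a => by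
    rw [Pi.zero_apply, sub_zero]
    exact h a⟩

theorem Vp_X {ω : α → ℕ} {J : Ideal (Sx N)} {V : ℕ → Submodule ℂ (α → Sx N)} (hV : GW ω V)
    {m : ℕ} {w : α → Sx N} (hw : w ∈ Vp J V m) (i : Fin (N + 1)) :
    (X i : Sx N) • w ∈ Vp J V (m + 1) := by
  obtain ⟨v, hv, h⟩ := hw
  refine ⟨_, hV.mul m v hv i, fun a => ?_⟩
  rw [Pi.smul_apply, smul_eq_mul, ← mul_sub]
  exact J.mul_mem_left _ (h a)

/-- The condition on the polynomial `F`. -/
def PC (J : Ideal (Sx N)) (U V : ℕ → Submodule ℂ (α → Sx N)) (F : Sx N) : Prop :=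
  ∀ m e : ℕ, ∀ w ∈ U m, homogeneousComponent e F • w ∈ Vp J V (m + e)

/-- The ideal of the polynomials all of whose components map `U m` into `V`. -/
def bI (J : Ideal (Sx N)) {ω : α → ℕ} (U V : ℕ → Submodule ℂ (α → Sx N)) (hV : GW ω V) :
    Ideal (Sx N) where
  carrier := {F | PC J U V F}
  zero_mem' := by
    intro m e w _
    rw [map_zero, zero_smul]
    exact Submodule.zero_mem _
  add_mem' := by
    intro F G hF hG m e w hw
    rw [map_add, add_smul]
    exact Submodule.add_mem _ (hF m e w hw) (hG m e w hw)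
  smul_mem' := by
    intro a F hF
    rw [smul_eq_mul]
    induction a using MvPolynomial.induction_on with
    | C c =>
      intro m e w hw
      rw [homogeneousComponent_C_mul, mul_smul, C_smul_vec]
      exact Submodule.smul_mem _ c (hF m e w hw)
    | add p q hp hq =>
      intro m e w hw
      rw [add_mul, map_add, add_smul]
      exact Submodule.add_mem _ (hp m e w hw) (hq m e w hw)
    | mul_X p i hp =>
      intro m e w hw
      have h1 : p * X i * F = p * F * X i := by ring
      rw [h1]
      rcases Nat.eq_zero_or_pos e with he | he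
      · subst he
        have h2 : homogeneousComponent 0 (p * F * X i) = 0 := by
          rw [homogeneousComponent_zero, coeff_mul_X']
          simp
        rw [h2, zero_smul]
        exact Submodule.zero_mem _
      · obtain ⟨e', rfl⟩ : ∃ e', e = e' + 1 := ⟨e - 1, by omega⟩
        rw [hc_mul (isHomogeneous_X ℂ i), mul_comm, mul_smul]
        exact Vp_X hV (hp m e' w hw) i

theorem mem_of_form {J : Ideal (Sx N)} {ω : α → ℕ} {U V : ℕ → Submodule ℂ (α → Sx N)}
    {hV : GW ω V} {F : Sx N} {n : ℕ} (hF : F.IsHomogeneous n)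
    (h : ∀ m, ∀ w ∈ U m, F • w ∈ Vp J V (m + n)) : F ∈ bI J U V hV := by
  intro m e w hw
  have h2 : F ∈ homogeneousSubmodule (Fin (N + 1)) ℂ n := hF
  rw [homogeneousComponent_of_mem h2]
  split_ifs with h3
  · subst h3
    exact h m w hw
  · rw [zero_smul]
    exact Submodule.zero_mem _

/-- The main theorem, without `S_KNoe`, `S_WB`. -/
theorem wLoc0 (hD6p : S_D6') : S_WLoc := by
  intro N α _ ω J hJ U V hU hV hloc
  have hJb : ∀ F ∈ J, F ∈ bI J U V hV := by
    intro F hF m e w _
    refine Vp_of_J fun a => ?_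
    rw [Pi.smul_apply, smul_eq_mul]
    exact J.mul_mem_right _ (hJ F hF e)
  have hzer : ∀ z ∈ zer (bI J U V hV), z = 0 := by
    intro z hzz
    by_contra h0
    obtain ⟨g, e, hg, hgz, h1⟩ := hloc z (fun F hF => hzz F (hJb F hF)) h0
    exact hgz (hzz g (mem_of_form hg h1))
  obtain ⟨ρ, hρ⟩ := hD6p N (bI J U V hV) hzer
  -- finite generation
  set S0 : Set (α → Sx N) := {w | ∃ m, w ∈ U m} with hS0
  haveI : IsNoetherian (Sx N) (α → Sx N) := isNoetherian_pi
  obtain ⟨t, ht, hspan⟩ := (Submodule.fg_span_iff_fg_span_finset_subset S0).mp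
    (IsNoetherian.noetherian (Submodule.span (Sx N) S0))
  have hdeg : ∀ w : α → Sx N, ∃ k : ℕ, w ∈ t → w ∈ U k := by
    intro w
    by_cases hw : w ∈ t
    · obtain ⟨k, hk⟩ := ht hw
      exact ⟨k, fun _ => hk⟩
    · exact ⟨0, fun h => absurd h hw⟩
  choose dg hdg using hdeg
  refine ⟨t.sup dg + ρ, fun m hm u hu => ?_⟩
  have hdm : ∀ w ∈ t, dg w + ρ ≤ m := fun w hw =>
    le_trans (Nat.add_le_add_right (Finset.le_sup (f := dg) hw) ρ) hm
  have hmem : u ∈ Submodule.span (Sx N) (t : Set (α → Sx N)) := by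
    rw [← hspan]
    exact Submodule.subset_span ⟨m, hu⟩
  obtain ⟨f, -, hf⟩ := Submodule.mem_span_finset.mp hmem
  have hu2 : u = ∑ w ∈ t, homogeneousComponent (m - dg w) (f w) • w := by
    funext a
    have h1 : u a = ∑ w ∈ t, f w * w a := by
      rw [← hf, Finset.sum_apply]
      rfl
    have h2 : homogeneousComponent (m + ω a) (u a) = u a := by
      have h3 : u a ∈ homogeneousSubmodule (Fin (N + 1)) ℂ (m + ω a) := hU.hom m u hu a
      rw [homogeneousComponent_of_mem h3, if_pos rfl]
    rw [← h2, h1, map_sum, Finset.sum_apply]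
    refine Finset.sum_congr rfl fun w hw => ?_
    rw [Pi.smul_apply, smul_eq_mul, ← hc_mul (hU.hom (dg w) w (hdg w hw) a)]
    have h4 : m - dg w + (dg w + ω a) = m + ω a := by
      have := hdm w hw
      omega
    rw [h4]
  have hfin : u ∈ Vp J V m := by
    rw [hu2]
    refine Submodule.sum_mem _ fun w hw => ?_
    have h5 := hdm w hw
    have h6 : (homogeneousComponent (m - dg w) (f w)).IsHomogeneous (m - dg w) :=
      homogeneousComponent_isHomogeneous _ _
    have h7 := hρ (m - dg w) (by omega) _ h6 (dg w) (m - dg w) w (hdg w hw)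
    have h8 : homogeneousComponent (m - dg w) (homogeneousComponent (m - dg w) (f w)) =
        homogeneousComponent (m - dg w) (f w) := by
      have h9 : homogeneousComponent (m - dg w) (f w) ∈
          homogeneousSubmodule (Fin (N + 1)) ℂ (m - dg w) := h6
      rw [homogeneousComponent_of_mem h9, if_pos rfl]
    have h10 : dg w + (m - dg w) = m := by omega
    rw [h8, h10] at h7
    exact h7
  exact hfin

end WLocAux

/-- `S_WLoc` (the hypotheses `S_KNoe`, `S_WB` are not used). -/
theorem wLoc (_hKNoe : S_KNoe) (hD6p : S_D6') (_hWB : S_WB) : S_WLoc := WLocAux.wLoc0 hD6p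

end Pool.Agent.Lib.MP_776403_ag.SD
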