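import Pool.Agent.Lib.MP_776403_ag.SD.V.Spec

/-!
# THEOREM W, part (ALG): from the functional equation of the degeneracy module to integrality

`T = e^(-u)`, `A(t) = sum_(j <= k) A_j t^j` with `A_0(0) ≠ 0` and
`(1 + t T)^c A(t T) = prod_i (1 + t T^(x_i)) A(t) mod u^M`, `M >= k + c + 1`.  Then all `x_i` are
positive integers.  PROOF.  Put `t = -T^(-tau)`; the lowest coefficient `f(tau)` satisfies
`(tau-1)^c f(tau-1) = prod_i (tau - x_i) f(tau)`.
-/

open Polynomial SDV

namespace SDWA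

noncomputable section

theorem coeff_eu (x : ℂ) (k : ℕ) : PowerSeries.coeff k (eu x) = x ^ k / (k.factorial : ℂ) := by
  unfold eu
  rw [PowerSeries.coeff_rescale, PowerSeries.coeff_exp]
  simp [div_eq_mul_inv]

theorem eu_zero : eu 0 = 1 := by
  ext k
  rw [coeff_eu, PowerSeries.coeff_one]
  by_cases hk : k = 0
  · subst hk; simp
  · simp [hk]

theorem eu_add (a b : ℂ) : eu (a + b) = eu a * eu b := by
  unfold eu
  exact (PowerSeries.exp_mul_exp_eq_exp_add a b).symm

theorem eu_sum {ι : Type} (s : Finset ι) (f : ι → ℂ) : eu (∑ i ∈ s, f i) = ∏ i ∈ s, eu (f i) := by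
  classical
  induction s using Finset.induction_on with
  | empty => simp [eu_zero]
  | insert a s ha ih => rw [Finset.sum_insert ha, Finset.prod_insert ha, eu_add, ih]

theorem eu_nat (a : ℂ) (n : ℕ) : eu (n * a) = eu a ^ n := by
  induction n with
  | zero => simp [eu_zero]
  | succ n ih =>
      rw [pow_succ, ← ih, ← eu_add]
      congr 1
      push_cast
      ring

theorem cc_eu (a : ℂ) : PowerSeries.constantCoeff (eu a) = 1 := by
  rw [← PowerSeries.coeff_zero_eq_constantCoeff_apply, coeff_eu]; simp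

/-- `1 - e^(a u) = u g`, `g(0) = -a`. -/
theorem one_sub_eu (a : ℂ) : ∃ g : PowerSeries ℂ, 1 - eu a = PowerSeries.X * g ∧
    PowerSeries.constantCoeff g = -a := by
  have h : (PowerSeries.X : PowerSeries ℂ) ∣ 1 - eu a := by
    rw [PowerSeries.X_dvd_iff]
    simp [cc_eu]
  obtain ⟨g, hg⟩ := h
  refine ⟨g, hg, ?_⟩
  have h1 : PowerSeries.coeff 1 (1 - eu a) = -a := by
    rw [map_sub, coeff_eu, PowerSeries.coeff_one]; simp
  rw [hg] at h1
  have h2 : PowerSeries.coeff (0 + 1) (PowerSeries.X * g) = PowerSeries.coeff 0 g :=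
    PowerSeries.coeff_succ_X_mul 0 g
  rw [← PowerSeries.coeff_zero_eq_constantCoeff_apply, ← h2]
  simpa using h1

/-- `A(-e^(tau u))`. -/
def evt (k : ℕ) (A : ℕ → PowerSeries ℂ) (t : ℂ) : PowerSeries ℂ :=
  ∑ j ∈ Finset.range (k + 1), (-1) ^ j * eu (j * t) * A j

/-- the coefficient of `u^n` of `A(-e^(tau u))`, a polynomial in `tau`. -/
def fp (k : ℕ) (A : ℕ → PowerSeries ℂ) (n : ℕ) : ℂ[X] :=
  ∑ j ∈ Finset.range (k + 1), ∑ p ∈ Finset.range (n + 1),
    C ((-1) ^ j * ((j : ℂ) ^ p / (p.factorial : ℂ)) * PowerSeries.coeff (n - p) (A j)) * X ^ p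

theorem coeff_neg_one_pow_mul (j n : ℕ) (B : PowerSeries ℂ) :
    PowerSeries.coeff n ((-1) ^ j * B) = (-1) ^ j * PowerSeries.coeff n B := by
  have h : ((-1 : PowerSeries ℂ)) ^ j = PowerSeries.C ((-1 : ℂ) ^ j) := by
    rw [map_pow, map_neg, map_one]
  rw [h, PowerSeries.coeff_C_mul]

theorem eval_fp (k : ℕ) (A : ℕ → PowerSeries ℂ) (n : ℕ) (t : ℂ) :
    (fp k A n).eval t = PowerSeries.coeff n (evt k A t) := by
  unfold fp evt
  rw [eval_finsetSum, map_sum]
  refine Finset.sum_congr rfl fun j _ => ?_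
  rw [mul_assoc, coeff_neg_one_pow_mul, PowerSeries.coeff_mul,
    Finset.Nat.sum_antidiagonal_eq_sum_range_succ
      (fun a b => PowerSeries.coeff a (eu (j * t)) * PowerSeries.coeff b (A j)), eval_finsetSum,
    Finset.mul_sum]
  refine Finset.sum_congr rfl fun p _ => ?_
  rw [coeff_eu, eval_mul, eval_C, eval_pow, eval_X, mul_pow]
  ring

theorem coeff_fp_self (k : ℕ) (A : ℕ → PowerSeries ℂ) (n : ℕ) :
    (fp k A n).coeff n = ∑ j ∈ Finset.range (k + 1),
      (-1) ^ j * ((j : ℂ) ^ n / (n.factorial : ℂ)) * PowerSeries.coeff 0 (A j) := by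
  unfold fp
  rw [finsetSum_coeff]
  refine Finset.sum_congr rfl fun j _ => ?_
  rw [finsetSum_coeff, Finset.sum_eq_single n]
  · rw [coeff_C_mul, coeff_X_pow, if_pos rfl, mul_one, Nat.sub_self]
  · intro p _ hp
    rw [coeff_C_mul, coeff_X_pow, if_neg (Ne.symm hp), mul_zero]
  · intro h
    exact absurd (Finset.mem_range.2 (Nat.lt_succ_self n)) h

/-- not all of `f_0, .., f_k` vanish. -/
theorem exists_fp_ne (k : ℕ) (A : ℕ → PowerSeries ℂ)
    (h0 : PowerSeries.constantCoeff (A 0) ≠ 0) : ∃ n, n ≤ k ∧ fp k A n ≠ 0 := by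
  by_contra hcon
  push Not at hcon
  have h1 : ∀ n, n ≤ k → ∑ j ∈ Finset.range (k + 1),
      (-1) ^ j * PowerSeries.coeff 0 (A j) * (j : ℂ) ^ n = 0 := by
    intro n hn
    have h2 := coeff_fp_self k A n
    rw [hcon n hn, coeff_zero] at h2
    have h3 : (n.factorial : ℂ) ≠ 0 := by exact_mod_cast Nat.factorial_ne_zero n
    have h4 : ∑ j ∈ Finset.range (k + 1), (-1) ^ j * PowerSeries.coeff 0 (A j) * (j : ℂ) ^ n =
        (n.factorial : ℂ) * ∑ j ∈ Finset.range (k + 1),
      (-1) ^ j * ((j : ℂ) ^ n / (n.factorial : ℂ)) * PowerSeries.coeff 0 (A j) := by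
      rw [Finset.mul_sum]
      refine Finset.sum_congr rfl fun j _ => ?_
      field_simp
    rw [h4, ← h2, mul_zero]
  have h5 : ∀ g : ℂ[X], g.natDegree ≤ k → ∑ j ∈ Finset.range (k + 1),
      (-1) ^ j * PowerSeries.coeff 0 (A j) * g.eval (j : ℂ) = 0 := by
    intro g hg
    have h6 : ∀ j : ℕ, g.eval (j : ℂ) = ∑ n ∈ Finset.range (k + 1), g.coeff n * (j : ℂ) ^ n := by
      intro j
      exact eval_eq_sum_range' (Nat.lt_succ_of_le hg) _
    calc ∑ j ∈ Finset.range (k + 1), (-1) ^ j * PowerSeries.coeff 0 (A j) * g.eval (j : ℂ)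
        = ∑ j ∈ Finset.range (k + 1), ∑ n ∈ Finset.range (k + 1),
            g.coeff n * ((-1) ^ j * PowerSeries.coeff 0 (A j) * (j : ℂ) ^ n) := by
          refine Finset.sum_congr rfl fun j _ => ?_
          rw [h6 j, Finset.mul_sum]
          refine Finset.sum_congr rfl fun n _ => ?_
          ring
      _ = ∑ n ∈ Finset.range (k + 1), g.coeff n * ∑ j ∈ Finset.range (k + 1),
            ((-1) ^ j * PowerSeries.coeff 0 (A j) * (j : ℂ) ^ n) := by
          rw [Finset.sum_comm]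
          refine Finset.sum_congr rfl fun n _ => ?_
          rw [Finset.mul_sum]
      _ = 0 := by
          refine Finset.sum_eq_zero fun n hn => ?_
          rw [h1 n (Nat.lt_succ_iff.1 (Finset.mem_range.1 hn)), mul_zero]
  have h7 := h5 (∏ l ∈ Finset.range k, (X - C ((l : ℂ) + 1))) (by
    rw [natDegree_prod_of_monic _ _ (fun l _ => monic_X_sub_C _),
      Finset.sum_congr rfl (fun l _ => natDegree_X_sub_C _)]
    simp)
  rw [Finset.sum_eq_single 0] at h7
  · rw [pow_zero, one_mul, PowerSeries.coeff_zero_eq_constantCoeff_apply, eval_prod] at h7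
    have h8 : ∏ l ∈ Finset.range k, (X - C ((l : ℂ) + 1)).eval ((0 : ℕ) : ℂ) ≠ 0 := by
      rw [Finset.prod_ne_zero_iff]
      intro l _
      rw [eval_sub, eval_X, eval_C]
      have h9 : ((l : ℂ) + 1) ≠ 0 := by exact_mod_cast Nat.succ_ne_zero l
      simpa using neg_ne_zero.2 h9
    exact mul_ne_zero h0 h8 h7
  · intro j hj hj0
    have h8 : (∏ l ∈ Finset.range k, (X - C ((l : ℂ) + 1))).eval (j : ℂ) = 0 := by
      rw [eval_prod]
      refine Finset.prod_eq_zero (i := j - 1) ?_ ?_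
      · rw [Finset.mem_range] at hj ⊢
        omega
      · have h9 : ((j - 1 : ℕ) : ℂ) + 1 = (j : ℂ) := by
          have : (j - 1) + 1 = j := by omega
          exact_mod_cast this
        rw [eval_sub, eval_X, eval_C, h9, sub_self]
    rw [h8, mul_zero]
  · intro h
    exact absurd (Finset.mem_range.2 (Nat.succ_pos k)) h

/-- `sum_i (-1)^i e^(i tau u) e_i(T^x) = prod (1 - e^((tau - x_i) u))`. -/
theorem sum_esx {c : ℕ} (x : Fin c → ℂ) (t : ℂ) :
    ∑ i ∈ Finset.range (c + 1), (-1) ^ i * eu (i * t) * esx x i = ∏ i, (1 - eu (t - x i)) := by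
  have h1 : ∏ i : Fin c, (1 - eu (t - x i)) =
      ∑ A ∈ (Finset.univ : Finset (Fin c)).powerset, (-1) ^ A.card * ∏ i ∈ A, eu (t - x i) := by
    have h2 : ∀ i : Fin c, (1 - eu (t - x i)) = (-eu (t - x i)) + 1 := fun i => by ring
    rw [Finset.prod_congr rfl (fun i _ => h2 i), Finset.prod_add]
    refine Finset.sum_congr rfl fun A _ => ?_
    rw [Finset.prod_const_one, mul_one, Finset.prod_neg]
  have h3 : (Finset.univ : Finset (Fin c)).card = c := by simp
  rw [h1, Finset.sum_powerset, h3]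
  refine Finset.sum_congr rfl fun i _ => ?_
  unfold esx
  rw [Finset.mul_sum]
  refine Finset.sum_congr rfl fun A hA => ?_
  rw [Finset.mem_powersetCard] at hA
  rw [mul_assoc, ← eu_add, ← eu_sum, hA.2]
  congr 2
  rw [Finset.sum_sub_distrib, Finset.sum_const, hA.2, nsmul_eq_mul]
  ring

theorem sum_choose (c : ℕ) (t : ℂ) :
    ∑ i ∈ Finset.range (c + 1), (-1) ^ i * eu (i * t) * (c.choose i : PowerSeries ℂ) =
      (1 - eu t) ^ c := by
  have h : (1 - eu t) ^ c = ((-eu t) + 1) ^ c := by ring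
  rw [h, add_pow]
  refine Finset.sum_congr rfl fun i _ => ?_
  rw [one_pow, mul_one, neg_pow (eu t), eu_nat]

/-- sums over `m` of sums over antidiagonals, finite supports. -/
theorem conv {c k : ℕ} (P Q : ℕ → PowerSeries ℂ) (hP : ∀ i, c < i → P i = 0)
    (hQ : ∀ j, k < j → Q j = 0) :
    ∑ m ∈ Finset.range (c + k + 1), ∑ p ∈ Finset.HasAntidiagonal.antidiagonal m, P p.1 * Q p.2 =
      (∑ i ∈ Finset.range (c + 1), P i) * ∑ j ∈ Finset.range (k + 1), Q j := by
  rw [Finset.sum_mul_sum, ← Finset.sum_product', Finset.sum_sigma']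
  symm
  refine Finset.sum_bij_ne_zero
    (fun (p : ℕ × ℕ) _ _ => (⟨p.1 + p.2, p⟩ : Σ _ : ℕ, ℕ × ℕ)) ?_ ?_ ?_ ?_
  · intro p hp _
    rw [Finset.mem_product, Finset.mem_range, Finset.mem_range] at hp
    rw [Finset.mem_sigma, Finset.mem_range, Finset.HasAntidiagonal.mem_antidiagonal]
    refine ⟨?_, rfl⟩
    simp only
    omega
  · intro p _ _ q _ _ h
    simpa using congrArg Sigma.snd h
  · intro b hb hne
    obtain ⟨m, p⟩ := b
    rw [Finset.mem_sigma, Finset.mem_range, Finset.HasAntidiagonal.mem_antidiagonal] at hb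
    simp only at hb hne
    have h1 : p.1 ≤ c := by
      by_contra h
      exact hne (by rw [hP p.1 (by omega), zero_mul])
    have h2 : p.2 ≤ k := by
      by_contra h
      exact hne (by rw [hQ p.2 (by omega), mul_zero])
    refine ⟨p, ?_, hne, ?_⟩
    · rw [Finset.mem_product, Finset.mem_range, Finset.mem_range]
      omega
    · obtain ⟨_, h3⟩ := hb
      subst h3
      rfl
  · intro p _ _
    rfl

/-- the functional equation at `t = -e^(tau u)`. -/
theorem fe_evt {c k M : ℕ} (A : ℕ → PowerSeries ℂ) (x : Fin c → ℂ)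
    (hk : ∀ j, k < j → A j = 0)
    (fe : ∀ m : ℕ, (PowerSeries.X : PowerSeries ℂ) ^ M ∣
      eu (-(m : ℂ)) * ∑ p ∈ Finset.HasAntidiagonal.antidiagonal m,
        (c.choose p.1 : PowerSeries ℂ) * A p.2 -
      ∑ p ∈ Finset.HasAntidiagonal.antidiagonal m, esx x p.1 * A p.2) (t : ℂ) :
    (PowerSeries.X : PowerSeries ℂ) ^ M ∣
      (1 - eu (t - 1)) ^ c * evt k A (t - 1) - (∏ i, (1 - eu (t - x i))) * evt k A t := by
  have e1 : (1 - eu (t - 1)) ^ c * evt k A (t - 1) =
      ∑ m ∈ Finset.range (c + k + 1), (-1) ^ m * eu (m * t) *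
        (eu (-(m : ℂ)) * ∑ p ∈ Finset.HasAntidiagonal.antidiagonal m,
          (c.choose p.1 : PowerSeries ℂ) * A p.2) := by
    rw [← sum_choose, evt, ← conv (c := c) (k := k)
      (fun i => (-1) ^ i * eu (i * (t - 1)) * (c.choose i : PowerSeries ℂ))
      (fun j => (-1) ^ j * eu (j * (t - 1)) * A j)
      (fun i hi => by simp [Nat.choose_eq_zero_of_lt hi])
      (fun j hj => by simp [hk j hj])]
    refine Finset.sum_congr rfl fun m _ => ?_
    rw [← mul_assoc, Finset.mul_sum]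
    refine Finset.sum_congr rfl fun p hp => ?_
    rw [Finset.HasAntidiagonal.mem_antidiagonal] at hp
    have h1 : eu ((m : ℂ) * t) * eu (-(m : ℂ)) = eu (p.1 * (t - 1)) * eu (p.2 * (t - 1)) := by
      rw [← eu_add, ← eu_add, ← hp]
      congr 1
      push_cast
      ring
    have h2 : ((-1 : PowerSeries ℂ)) ^ m = (-1) ^ p.1 * (-1) ^ p.2 := by rw [← hp, pow_add]
    calc _ = ((-1) ^ p.1 * (-1) ^ p.2) * (eu (p.1 * (t - 1)) * eu (p.2 * (t - 1))) *
          ((c.choose p.1 : PowerSeries ℂ) * A p.2) := by ring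
      _ = _ := by rw [← h1, ← h2]; ring
  have e2 : (∏ i, (1 - eu (t - x i))) * evt k A t =
      ∑ m ∈ Finset.range (c + k + 1), (-1) ^ m * eu (m * t) *
        (∑ p ∈ Finset.HasAntidiagonal.antidiagonal m, esx x p.1 * A p.2) := by
    rw [← sum_esx, evt, ← conv (c := c) (k := k)
      (fun i => (-1) ^ i * eu (i * t) * esx x i)
      (fun j => (-1) ^ j * eu (j * t) * A j)
      (fun i hi => by
        have : (Finset.univ : Finset (Fin c)).powersetCard i = ∅ :=
          Finset.powersetCard_eq_empty.2 (by simpa using hi)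
        simp [esx, this])
      (fun j hj => by simp [hk j hj])]
    refine Finset.sum_congr rfl fun m _ => ?_
    rw [Finset.mul_sum]
    refine Finset.sum_congr rfl fun p hp => ?_
    rw [Finset.HasAntidiagonal.mem_antidiagonal] at hp
    have h1 : eu ((m : ℂ) * t) = eu (p.1 * t) * eu (p.2 * t) := by
      rw [← eu_add, ← hp]
      congr 1
      push_cast
      ring
    have h2 : ((-1 : PowerSeries ℂ)) ^ m = (-1) ^ p.1 * (-1) ^ p.2 := by rw [← hp, pow_add]
    rw [h1, h2]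
    ring
  rw [e1, e2, ← Finset.sum_sub_distrib]
  refine Finset.dvd_sum fun m _ => ?_
  rw [← mul_sub]
  exact Dvd.dvd.mul_left (fe m) _

/-- lowest coefficient. -/
theorem lead_id {c k M v : ℕ} (A : ℕ → PowerSeries ℂ) (x : Fin c → ℂ)
    (hv : ∀ n, n < v → fp k A n = 0) (hM : c + v < M)
    (fe : ∀ t : ℂ, (PowerSeries.X : PowerSeries ℂ) ^ M ∣
      (1 - eu (t - 1)) ^ c * evt k A (t - 1) - (∏ i, (1 - eu (t - x i))) * evt k A t) (t : ℂ) :
    (t - 1) ^ c * (fp k A v).eval (t - 1) = (∏ i, (t - x i)) * (fp k A v).eval t := by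
  have h1 : ∀ s : ℂ, ∃ h : PowerSeries ℂ, evt k A s = PowerSeries.X ^ v * h ∧
      PowerSeries.constantCoeff h = (fp k A v).eval s := by
    intro s
    have h2 : (PowerSeries.X : PowerSeries ℂ) ^ v ∣ evt k A s := by
      rw [PowerSeries.X_pow_dvd_iff]
      intro n hn
      rw [← eval_fp, hv n hn, eval_zero]
    obtain ⟨h, hh⟩ := h2
    refine ⟨h, hh, ?_⟩
    rw [eval_fp, hh, ← PowerSeries.coeff_zero_eq_constantCoeff_apply,
      PowerSeries.coeff_X_pow_mul', if_pos le_rfl, Nat.sub_self]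
  obtain ⟨h, hh, hh0⟩ := h1 (t - 1)
  obtain ⟨h', hh', hh0'⟩ := h1 t
  obtain ⟨g, hg, hg0⟩ := one_sub_eu (t - 1)
  choose G hG hG0 using fun i : Fin c => one_sub_eu (t - x i)
  have h3 := fe t
  rw [hh, hh', hg, Finset.prod_congr rfl (fun i _ => hG i), Finset.prod_mul_distrib,
    Finset.prod_const, Finset.card_univ, Fintype.card_fin] at h3
  have h4 : (PowerSeries.X * g) ^ c * (PowerSeries.X ^ v * h) -
      PowerSeries.X ^ c * (∏ i, G i) * (PowerSeries.X ^ v * h') =
      PowerSeries.X ^ (c + v) * (g ^ c * h - (∏ i, G i) * h') := by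
    rw [mul_pow, pow_add]; ring
  rw [h4] at h3
  have h5 : (PowerSeries.X : PowerSeries ℂ) ^ (c + v) * PowerSeries.X ∣
      PowerSeries.X ^ (c + v) * (g ^ c * h - (∏ i, G i) * h') := by
    rw [← pow_succ]
    exact (pow_dvd_pow _ hM).trans h3
  have h6 : (PowerSeries.X : PowerSeries ℂ) ∣ (g ^ c * h - (∏ i, G i) * h') :=
    (mul_dvd_mul_iff_left (pow_ne_zero _ PowerSeries.X_ne_zero)).1 h5
  rw [PowerSeries.X_dvd_iff, map_sub, map_mul, map_mul, map_pow, map_prod, hg0, hh0, hh0',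
    sub_eq_zero, Finset.prod_congr rfl (fun i _ => hG0 i), Finset.prod_neg, neg_pow,
    Finset.card_univ, Fintype.card_fin, mul_assoc, mul_assoc] at h6
  exact mul_left_cancel₀ (pow_ne_zero _ (neg_ne_zero.2 one_ne_zero)) h6

/-- integrality from the exact identity. -/
theorem int_of_id {c : ℕ} (f : ℂ[X]) (hf : f ≠ 0) (x : Fin c → ℂ)
    (hid : ∀ t : ℂ, (t - 1) ^ c * f.eval (t - 1) = (∏ i, (t - x i)) * f.eval t) (i : Fin c) :
    ∃ d : ℕ, 1 ≤ d ∧ x i = d := by
  by_contra hcon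
  push Not at hcon
  have h1 : ∀ r : ℂ, (∀ d : ℕ, 1 ≤ d → r ≠ d) → (r - 1) ^ c * f.eval (r - 1) = 0 →
      f.eval (r - 1) = 0 := by
    intro r hr h
    rcases mul_eq_zero.1 h with h2 | h2
    · have h3 : r - 1 = 0 := by
        by_contra h4
        exact pow_ne_zero _ h4 h2
      exact absurd (by rw [sub_eq_zero.1 h3]; simp) (hr 1 le_rfl)
    · exact h2
  have h2 : ∀ n : ℕ, f.eval (x i - (n + 1 : ℕ)) = 0 := by
    intro n
    induction n with
    | zero =>
        have h3 := hid (x i)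
        rw [Finset.prod_eq_zero (Finset.mem_univ i) (sub_self (x i)), zero_mul] at h3
        simpa using h1 (x i) hcon h3
    | succ n ih =>
        have h3 := hid (x i - (n + 1 : ℕ))
        rw [ih, mul_zero] at h3
        have h4 : x i - ((n + 1 + 1 : ℕ) : ℂ) = x i - ((n + 1 : ℕ) : ℂ) - 1 := by
          push_cast; ring
        rw [h4]
        refine h1 _ (fun d hd h5 => ?_) h3
        refine hcon (d + (n + 1)) (by omega) ?_
        rw [sub_eq_iff_eq_add] at h5
        rw [h5]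
        push_cast
        ring
  refine hf (eq_zero_of_infinite_isRoot f ?_)
  refine Set.Infinite.mono (s := Set.range (fun n : ℕ => x i - ((n + 1 : ℕ) : ℂ))) ?_ ?_
  · rintro _ ⟨n, rfl⟩
    exact h2 n
  · refine Set.infinite_range_of_injective fun a b hab => ?_
    have h6 : ((a + 1 : ℕ) : ℂ) = ((b + 1 : ℕ) : ℂ) := by simpa using hab
    have h7 : a + 1 = b + 1 := by exact_mod_cast h6
    omega

/-- THEOREM W, part (ALG). -/
theorem wAlg {c k M : ℕ} (hM : k + c + 1 ≤ M) (A : ℕ → PowerSeries ℂ)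
    (h0 : PowerSeries.constantCoeff (A 0) ≠ 0) (hk : ∀ j, k < j → A j = 0) (x : Fin c → ℂ)
    (fe : ∀ m : ℕ, (PowerSeries.X : PowerSeries ℂ) ^ M ∣
      eu (-(m : ℂ)) * ∑ p ∈ Finset.HasAntidiagonal.antidiagonal m,
        (c.choose p.1 : PowerSeries ℂ) * A p.2 -
      ∑ p ∈ Finset.HasAntidiagonal.antidiagonal m, esx x p.1 * A p.2) (i : Fin c) :
    ∃ d : ℕ, 1 ≤ d ∧ x i = d := by
  classical
  have hex : ∃ n, fp k A n ≠ 0 := by
    obtain ⟨n, _, h⟩ := exists_fp_ne k A h0
    exact ⟨n, h⟩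
  have hv0 : fp k A (Nat.find hex) ≠ 0 := Nat.find_spec hex
  have hv1 : ∀ n, n < Nat.find hex → fp k A n = 0 := fun n hn => by
    by_contra h
    exact Nat.find_min hex hn h
  have hv2 : Nat.find hex ≤ k := by
    obtain ⟨n, hn, h⟩ := exists_fp_ne k A h0
    exact (Nat.find_min' hex h).trans hn
  exact int_of_id (fp k A (Nat.find hex)) hv0 x
    (lead_id A x hv1 (by omega) (fe_evt A x hk fe)) i

theorem cc_tau (F : ℤ[X]) : PowerSeries.constantCoeff (tau F) = ((F.eval 1 : ℤ) : ℂ) := by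
  unfold tau
  have h := Polynomial.hom_eval₂ F (algebraMap ℤ (PowerSeries ℂ))
    (PowerSeries.constantCoeff (R := ℂ)) (eu (-1))
  rw [Polynomial.aeval_def, h, cc_eu]
  have h3 : (PowerSeries.constantCoeff (R := ℂ)).comp (algebraMap ℤ (PowerSeries ℂ)) =
      Int.castRingHom ℂ := RingHom.ext_int _ _
  rw [h3, ← Polynomial.eval_map, Polynomial.eval_one_map]
  rfl

theorem tau_X : tau (X : ℤ[X]) = eu (-1) := by unfold tau; rw [Polynomial.aeval_X]

theorem tau_X_pow (m : ℕ) : tau ((X : ℤ[X]) ^ m) = eu (-(m : ℂ)) := by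
  have h : tau ((X : ℤ[X]) ^ m) = tau (X : ℤ[X]) ^ m := map_pow _ _ _
  rw [h, tau_X, ← eu_nat]
  congr 1
  ring

theorem X_pow_dvd_tau {M : ℕ} {F : ℤ[X]} (h : (1 - X : ℤ[X]) ^ M ∣ F) :
    (PowerSeries.X : PowerSeries ℂ) ^ M ∣ tau F := by
  obtain ⟨G, rfl⟩ := h
  have h1 : tau ((1 - X : ℤ[X]) ^ M * G) = (tau (1 - X : ℤ[X])) ^ M * tau G := by
    unfold tau; rw [map_mul, map_pow]
  have h2 : tau (1 - X : ℤ[X]) = 1 - eu (-1) := by
    have : tau (1 - X : ℤ[X]) = tau 1 - tau X := map_sub _ _ _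
    rw [this, tau_X]
    congr 1
    exact map_one _
  obtain ⟨g, hg, _⟩ := one_sub_eu (-1)
  rw [h1, h2, hg, mul_pow, mul_assoc]
  exact Dvd.intro _ rfl

/-- The sum of the roots, if `A_k(0) ≠ 0`. -/
theorem wSum {c k M : ℕ} (hM : 2 ≤ M) (A : ℕ → PowerSeries ℂ)
    (hk : ∀ j, k < j → A j = 0) (hAk : PowerSeries.constantCoeff (A k) ≠ 0) (x : Fin c → ℂ)
    (fe : ∀ m : ℕ, (PowerSeries.X : PowerSeries ℂ) ^ M ∣
      eu (-(m : ℂ)) * ∑ p ∈ Finset.HasAntidiagonal.antidiagonal m,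
        (c.choose p.1 : PowerSeries ℂ) * A p.2 -
      ∑ p ∈ Finset.HasAntidiagonal.antidiagonal m, esx x p.1 * A p.2) :
    ∑ i, x i = ((k + c : ℕ) : ℂ) := by
  have h0 := fe (k + c)
  have h1 : ∑ p ∈ Finset.HasAntidiagonal.antidiagonal (k + c),
      (c.choose p.1 : PowerSeries ℂ) * A p.2 = A k := by
    rw [Finset.sum_eq_single (c, k)]
    · rw [Nat.choose_self, Nat.cast_one, one_mul]
    · intro p hp hne
      rw [Finset.HasAntidiagonal.mem_antidiagonal] at hp
      rcases lt_trichotomy p.1 c with h | h | h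
      · rw [hk p.2 (by omega), mul_zero]
      · exact absurd (Prod.ext h (by simp only; omega)) hne
      · rw [Nat.choose_eq_zero_of_lt h, Nat.cast_zero, zero_mul]
    · intro h
      exact absurd (Finset.HasAntidiagonal.mem_antidiagonal.2 (by simp only; omega)) h
  have h2 : ∑ p ∈ Finset.HasAntidiagonal.antidiagonal (k + c), esx x p.1 * A p.2 =
      eu (-∑ i, x i) * A k := by
    rw [Finset.sum_eq_single (c, k)]
    · have h3 : (Finset.univ : Finset (Fin c)).powersetCard c = {Finset.univ} := by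
        have := Finset.powersetCard_self (Finset.univ : Finset (Fin c))
        rwa [Finset.card_univ, Fintype.card_fin] at this
      unfold esx
      simp only
      rw [h3, Finset.sum_singleton]
    · intro p hp hne
      rw [Finset.HasAntidiagonal.mem_antidiagonal] at hp
      rcases lt_trichotomy p.1 c with h | h | h
      · rw [hk p.2 (by omega), mul_zero]
      · exact absurd (Prod.ext h (by simp only; omega)) hne
      · have h3 : (Finset.univ : Finset (Fin c)).powersetCard p.1 = ∅ :=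
          Finset.powersetCard_eq_empty.2 (by simpa using h)
        unfold esx
        rw [h3, Finset.sum_empty, zero_mul]
    · intro h
      exact absurd (Finset.HasAntidiagonal.mem_antidiagonal.2 (by simp only; omega)) h
  rw [h1, h2, ← sub_mul, PowerSeries.X_pow_dvd_iff] at h0
  have h3 := h0 1 (by omega)
  rw [PowerSeries.coeff_mul, Finset.Nat.sum_antidiagonal_eq_sum_range_succ
      (fun a b => PowerSeries.coeff a (eu (-((k + c : ℕ) : ℂ)) - eu (-∑ i, x i)) *
        PowerSeries.coeff b (A k)), Finset.sum_range_succ, Finset.sum_range_one, map_sub, map_sub,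
    coeff_eu, coeff_eu, coeff_eu, coeff_eu] at h3
  simp only [pow_zero, sub_self, zero_mul, zero_add, pow_one, Nat.factorial_one, Nat.cast_one,
    div_one, Nat.sub_self, PowerSeries.coeff_zero_eq_constantCoeff_apply] at h3
  rcases mul_eq_zero.1 h3 with h4 | h4
  · linear_combination h4
  · exact absurd h4 hAk

/-- The functional equation, from integral polynomials to power series. -/
theorem feP {c M M' : ℕ} (hM' : M ≤ M') (al q : ℕ → ℤ[X]) (hq : (q 0).eval 1 ≠ 0)
    (x : Fin c → ℂ)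
    (hr : ∀ j, (PowerSeries.X : PowerSeries ℂ) ^ M' ∣ tau (q j) - esx x j * tau (q 0))
    (fe : ∀ m : ℕ, (1 - X : ℤ[X]) ^ M ∣
      q 0 * (X ^ m * ∑ p ∈ Finset.HasAntidiagonal.antidiagonal m,
        (c.choose p.1 : ℤ[X]) * al p.2) -
      ∑ p ∈ Finset.HasAntidiagonal.antidiagonal m, q p.1 * al p.2) (m : ℕ) :
    (PowerSeries.X : PowerSeries ℂ) ^ M ∣
      eu (-(m : ℂ)) * ∑ p ∈ Finset.HasAntidiagonal.antidiagonal m,
        (c.choose p.1 : PowerSeries ℂ) * tau (al p.2) -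
      ∑ p ∈ Finset.HasAntidiagonal.antidiagonal m, esx x p.1 * tau (al p.2) := by
  have h1 := X_pow_dvd_tau (fe m)
  have h2 : tau (q 0 * (X ^ m * ∑ p ∈ Finset.HasAntidiagonal.antidiagonal m,
      (c.choose p.1 : ℤ[X]) * al p.2) -
    ∑ p ∈ Finset.HasAntidiagonal.antidiagonal m, q p.1 * al p.2) =
    tau (q 0) * (eu (-(m : ℂ)) * ∑ p ∈ Finset.HasAntidiagonal.antidiagonal m,
      (c.choose p.1 : PowerSeries ℂ) * tau (al p.2)) -
    ∑ p ∈ Finset.HasAntidiagonal.antidiagonal m, tau (q p.1) * tau (al p.2) := by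
    rw [← tau_X_pow]
    unfold tau
    simp only [map_sub, map_mul, map_sum, map_natCast]
  rw [h2] at h1
  have h3 : (PowerSeries.X : PowerSeries ℂ) ^ M ∣
      ∑ p ∈ Finset.HasAntidiagonal.antidiagonal m,
        (tau (q p.1) - esx x p.1 * tau (q 0)) * tau (al p.2) :=
    Finset.dvd_sum fun p _ => Dvd.dvd.mul_right ((pow_dvd_pow _ hM').trans (hr p.1)) _
  have h4 := dvd_add h1 h3
  have h5 : IsUnit (tau (q 0)) := by
    rw [PowerSeries.isUnit_iff_constantCoeff, cc_tau]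
    exact IsUnit.mk0 _ (by exact_mod_cast hq)
  have h6 : tau (q 0) * (eu (-(m : ℂ)) * ∑ p ∈ Finset.HasAntidiagonal.antidiagonal m,
      (c.choose p.1 : PowerSeries ℂ) * tau (al p.2)) -
    ∑ p ∈ Finset.HasAntidiagonal.antidiagonal m, tau (q p.1) * tau (al p.2) +
    ∑ p ∈ Finset.HasAntidiagonal.antidiagonal m,
        (tau (q p.1) - esx x p.1 * tau (q 0)) * tau (al p.2) =
    tau (q 0) * (eu (-(m : ℂ)) * ∑ p ∈ Finset.HasAntidiagonal.antidiagonal m,
      (c.choose p.1 : PowerSeries ℂ) * tau (al p.2) -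
      ∑ p ∈ Finset.HasAntidiagonal.antidiagonal m, esx x p.1 * tau (al p.2)) := by
    simp only [sub_mul, Finset.sum_sub_distrib, mul_sub, Finset.mul_sum]
    have : ∀ p : ℕ × ℕ, esx x p.1 * tau (q 0) * tau (al p.2) =
        tau (q 0) * (esx x p.1 * tau (al p.2)) := fun p => by ring
    simp only [this]
    ring
  rw [h6] at h4
  exact (h5.dvd_mul_left).1 h4

/-- THEOREM W, part (ALG), in terms of integral polynomials. -/
theorem wAlgP {c k M M' : ℕ} (hM : k + c + 1 ≤ M) (hM' : M ≤ M') (al q : ℕ → ℤ[X])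
    (ha : (al 0).eval 1 ≠ 0) (hq : (q 0).eval 1 ≠ 0) (hk : ∀ j, k < j → al j = 0)
    (x : Fin c → ℂ)
    (hr : ∀ j, (PowerSeries.X : PowerSeries ℂ) ^ M' ∣ tau (q j) - esx x j * tau (q 0))
    (fe : ∀ m : ℕ, (1 - X : ℤ[X]) ^ M ∣
      q 0 * (X ^ m * ∑ p ∈ Finset.HasAntidiagonal.antidiagonal m,
        (c.choose p.1 : ℤ[X]) * al p.2) -
      ∑ p ∈ Finset.HasAntidiagonal.antidiagonal m, q p.1 * al p.2) (i : Fin c) :
    ∃ d : ℕ, 1 ≤ d ∧ x i = d := by
  refine wAlg hM (fun j => tau (al j)) ?_ (fun j hj => ?_) x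
    (feP hM' al q hq x hr fe) i
  · rw [cc_tau]
    exact_mod_cast ha
  · simp only [hk j hj]
    exact map_zero _

/-- The sum of the roots, if `al_k(1) ≠ 0`. -/
theorem wSumP {c k M M' : ℕ} (hM : 2 ≤ M) (hM' : M ≤ M') (al q : ℕ → ℤ[X])
    (ha : (al k).eval 1 ≠ 0) (hq : (q 0).eval 1 ≠ 0) (hk : ∀ j, k < j → al j = 0)
    (x : Fin c → ℂ)
    (hr : ∀ j, (PowerSeries.X : PowerSeries ℂ) ^ M' ∣ tau (q j) - esx x j * tau (q 0))
    (fe : ∀ m : ℕ, (1 - X : ℤ[X]) ^ M ∣
      q 0 * (X ^ m * ∑ p ∈ Finset.HasAntidiagonal.antidiagonal m,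
        (c.choose p.1 : ℤ[X]) * al p.2) -
      ∑ p ∈ Finset.HasAntidiagonal.antidiagonal m, q p.1 * al p.2) :
    ∑ i, x i = ((k + c : ℕ) : ℂ) := by
  refine wSum hM (fun j => tau (al j)) (fun j hj => ?_) ?_ x (feP hM' al q hq x hr fe)
  · simp only [hk j hj]
    exact map_zero _
  · rw [cc_tau]
    exact_mod_cast ha

end

end SDWA
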