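import Pool.Agent.Lib.MP_776403_ag.SD.W.Spec
import Pool.Agent.Lib.MP_776403_ag.SD.W.Alg
import Pool.Agent.Lib.MP_776403_ag.SD.Null

/-!
# THEOREM W: the output statement
-/

set_option autoImplicit false

open MvPolynomial

noncomputable section

namespace Pool.Agent.Lib.MP_776403_ag.SD

/-- (WOut) THEOREM W: the Chern roots of the conormal bundle are positive integers, if there is a
cone `P` of lines through a point `x`, of dimension `≥ a + c + 2`, all with the normal degree `a`. -/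
def S_WOutS : Prop :=
  ∀ (N c a : ℕ) (I : Ideal (Sx N)), 1 ≤ c → I.IsPrime → IsHom I → Smooth I c →
    ∀ (x : Vx N) (P : Ideal (Sx N)), x ≠ 0 → P.IsPrime → IsHom P → I ≤ P →
    DimGe P (a + c + 2) → (∀ z ∈ zer P, ∀ s : ℂ, z + s • x ∈ zer P) →
    (∀ z ∈ zer P, ∀ s t : ℂ, s • x + t • z ∈ zer I) →
    (∀ z ∈ zer P, LinearIndependent ℂ ![x, z] → ∀ᶠ m : ℕ in Filter.atTop,
      Module.finrank ℂ (Lam I (lineI x z) 1 m) + a = c * (m + 1)) →
    ∀ q : ℕ → Polynomial ℤ, SDV.Dat c (N + 1 - 2 * c) q →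
    QP N c (fun k => Module.finrank ℂ (gr I k)) (q 0) →
    (∀ j, j ≤ c → ∃ p, QP N c (hV I (VL I j)) p ∧ q j = Polynomial.X ^ j * p) →
    ∀ y : Fin c → ℂ, (∀ j, (PowerSeries.X : PowerSeries ℂ) ^ (N + 1 - 2 * c) ∣
      SDV.tau (q j) - SDV.esx y j * SDV.tau (q 0)) →
    ∃ d : Fin c → ℕ, (∀ i, 1 ≤ d i) ∧ (∀ i, y i = d i) ∧ ∑ i, d i = a

namespace WOutAux

variable {N : ℕ}

/-- A prime with `DimGe J (D + 1)` has a nonzero zero. -/
theorem exists_zer {J : Ideal (Sx N)} (hJp : J.IsPrime) (hJh : IsHom J) {D : ℕ}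
    (hd : DimGe J (D + 1)) : ∃ p ∈ zer J, p ≠ 0 := by
  obtain ⟨i, hi⟩ := hd
  by_contra hne
  push Not at hne
  have h1 : (X (i 0) : Sx N) ∈ J := by
    refine (tNull N J hJp hJh).1 _ fun z hz => ?_
    rw [hne z hz]
    simp
  have h2 := hi.ne_zero (0 : Fin (D + 1))
  exact h2 (Ideal.Quotient.eq_zero_iff_mem.2 h1)

/-- `0` is a zero of a homogeneous prime ideal. -/
theorem zero_mem {P : Ideal (Sx N)} (hP : P.IsPrime) (hh : IsHom P) : (0 : Vx N) ∈ zer P := by
  intro F hF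
  have h1 := hh F hF 0
  rw [homogeneousComponent_zero] at h1
  by_contra h0
  have h2 : coeff 0 F ≠ 0 := by
    intro h3
    apply h0
    have : eval (0 : Vx N) F = constantCoeff F := DFunLike.congr_fun MvPolynomial.eval_zero F
    rw [this, constantCoeff_eq, h3]
  exact hP.ne_top (Ideal.eq_top_of_isUnit_mem _ h1 ((Ne.isUnit h2).map C))

theorem dimGe_mono {I P : Ideal (Sx N)} (h : I ≤ P) {D : ℕ} (hd : DimGe P D) : DimGe I D := by
  obtain ⟨i, hi⟩ := hd
  refine ⟨i, ?_⟩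
  refine AlgebraicIndependent.of_comp (Ideal.Quotient.factorₐ ℂ h) ?_
  exact hi

/-- The order of `QP` is unique if the value at `1` is not zero. -/
theorem QP_order {c c' : ℕ} {f : ℕ → ℕ} {q q' : Polynomial ℤ} (h : QP N c f q)
    (h' : QP N c' f q') (h1 : q.eval 1 ≠ 0) (h1' : q'.eval 1 ≠ 0) : c = c' := by
  have e : (1 - Polynomial.X : Polynomial ℤ) ^ c * q = (1 - Polynomial.X) ^ c' * q' := by
    have h2 := h.symm.trans h'
    exact_mod_cast h2
  have key : ∀ (a b : ℕ) (p p' : Polynomial ℤ), a < b →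
      (1 - Polynomial.X : Polynomial ℤ) ^ a * p = (1 - Polynomial.X) ^ b * p' → p.eval 1 = 0 := by
    intro a b p p' hab he
    have h3 : (1 - Polynomial.X : Polynomial ℤ) ^ a ≠ 0 := by
      refine pow_ne_zero _ fun h4 => ?_
      have := congrArg (Polynomial.eval 0) h4
      simp at this
    have h5 : p = (1 - Polynomial.X) ^ (b - a) * p' := by
      apply mul_left_cancel₀ h3
      rw [he, ← mul_assoc, ← pow_add, Nat.add_sub_cancel' hab.le]
    rw [h5, Polynomial.eval_mul, Polynomial.eval_pow]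
    simp [zero_pow (by omega : b - a ≠ 0)]
  rcases lt_trichotomy c c' with hlt | heq | hgt
  · exact absurd (key c c' q q' hlt e) h1
  · exact heq
  · exact absurd (key c' c q' q hgt e.symm) h1'

theorem esx_one {c : ℕ} (y : Fin c → ℂ) :
    PowerSeries.coeff 0 (SDV.esx y 1) = (c : ℂ) ∧
    PowerSeries.coeff 1 (SDV.esx y 1) = - ∑ i, y i := by
  have h : SDV.esx y 1 = ∑ i, SDV.eu (-(y i)) := by
    unfold SDV.esx
    rw [Finset.powersetCard_one, Finset.sum_map]
    exact Finset.sum_congr rfl fun i _ => by simp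
  rw [h]
  constructor
  · rw [map_sum]
    simp [SDWA.coeff_eu]
  · rw [map_sum, ← Finset.sum_neg_distrib]
    refine Finset.sum_congr rfl fun i _ => ?_
    rw [SDWA.coeff_eu]
    simp

end WOutAux

open WOutAux

/-- THEOREM W from its parts. -/
theorem wOut (hGeo : S_WGeo) (hCut : S_WCut) (hFE : S_WFE) (hQP : S_WQP) : S_WOutS := by
  intro N c a I h1c hp hh hs x P hx hPp hPh hIP hdim hstab hlines hdeg q hDat hQ0 hQj y hy
  -- the linear form
  obtain ⟨i0, hi0⟩ : ∃ i, x i ≠ 0 := by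
    by_contra hno
    push Not at hno
    exact hx (funext hno)
  set lam : Sx N := C (x i0)⁻¹ * X i0 with hlam
  have hl1 : lam.IsHomogeneous 1 := by
    have := (isHomogeneous_C (Fin (N + 1)) (x i0)⁻¹).mul (isHomogeneous_X ℂ i0)
    simpa using this
  have hl2 : eval x lam = 1 := by
    rw [hlam, map_mul, eval_C, eval_X, inv_mul_cancel₀ hi0]
  obtain ⟨J, hJp, hJh, hPJ, hlJ, hJd⟩ := hCut N (a + c + 1) P x lam hPp hPh hl1 hl2 hstab hdim
  have hIJ : I ≤ J := hIP.trans hPJ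
  have hzJ : ∀ z ∈ zer J, z ∈ zer P := fun z hz F hF => hz F (hPJ hF)
  obtain ⟨p0, hp0, hp0'⟩ := exists_zer hJp hJh hJd
  have hxI : x ∈ zer I := by
    have := hlines 0 (zero_mem hPp hPh) 1 0
    simpa using this
  obtain ⟨β, hβ, ω, Qv, M, Ψ, hWG⟩ := hGeo N c a I J h1c hp hh hs hJp hJh hIJ x lam hl1 hl2 hlJ hxI
    (fun z hz => hlines z (hzJ z hz)) (fun z hz hz0 => by
      refine hdeg z (hzJ z hz) ?_
      rw [LinearIndependent.pair_iff]
      intro s t hst
      have h2 : eval (s • x + t • z) lam = s := by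
        have h3 : ∀ w : Vx N, eval w lam = (x i0)⁻¹ * w i0 := fun w => by
          rw [hlam, map_mul, eval_C, eval_X]
        have h4 := hz lam hlJ
        rw [h3] at h4
        have h5 : eval x lam = 1 := hl2
        rw [h3] at h5
        rw [h3]
        simp only [Pi.add_apply, Pi.smul_apply, smul_eq_mul]
        linear_combination s * h5 + t * h4
      rw [hst] at h2
      have hs0 : s = 0 := by
        rw [← h2, hlam, map_mul, eval_X]
        simp
      refine ⟨hs0, ?_⟩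
      rw [hs0, zero_smul, zero_add] at hst
      exact (smul_eq_zero.mp hst).resolve_right hz0)
  have hca : c ≤ a := by
    have := hWG.rk p0 hp0 hp0'
    omega
  have hqz : ∀ j, c < j → q j = 0 := hDat.hz
  obtain ⟨α, hα0, hαk, hα1, hfe⟩ := hFE N c a I J hp hh hs hJp hJh hIJ hca hJd β ω Qv M Ψ hWG q
    hQ0 hQj hqz
  have hq1 : (q 0).eval 1 ≠ 0 := hDat.hp.ne'
  -- the dimension
  have hrange : a + 1 ≤ N + 1 - 2 * c := by
    have h2 : DimGe I (a + c + 1 + 1) := dimGe_mono hIP hdim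
    obtain ⟨c', h', hc', hQP', hh'⟩ := hQP N (a + c + 1) I hp hh h2
    have := QP_order hQ0 hQP' hq1 hh'.ne'
    omega
  have hfe' : ∀ m : ℕ, (1 - Polynomial.X : Polynomial ℤ) ^ (a + 1) ∣
      q 0 * (Polynomial.X ^ m * ∑ p ∈ Finset.HasAntidiagonal.antidiagonal m,
        (c.choose p.1 : Polynomial ℤ) * α p.2) -
      ∑ p ∈ Finset.HasAntidiagonal.antidiagonal m, q p.1 * α p.2 := by
    intro m
    have h2 := hfe m
    rw [Finset.Nat.sum_antidiagonal_eq_sum_range_succ
      (f := fun i j => (c.choose i : Polynomial ℤ) * α j),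
      Finset.Nat.sum_antidiagonal_eq_sum_range_succ (f := fun i j => q i * α j), ← mul_assoc]
    exact h2
  have hd : ∀ i, ∃ d : ℕ, 1 ≤ d ∧ y i = d := fun i =>
    SDWA.wAlgP (k := a - c) (M := a + 1) (M' := N + 1 - 2 * c) (by omega) hrange α q hα0.ne' hq1
      hαk y hy hfe' i
  choose d hd1 hd2 using hd
  refine ⟨d, hd1, hd2, ?_⟩
  -- the sum
  have hsum : ∑ i, y i = (a : ℂ) := by
    have h2 := SDWA.X_pow_dvd_tau (hfe' 1)
    have h3 : (PowerSeries.X : PowerSeries ℂ) ^ 2 ∣ SDV.tau (q 0 * (Polynomial.X ^ 1 *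
        ∑ p ∈ Finset.HasAntidiagonal.antidiagonal 1, (c.choose p.1 : Polynomial ℤ) * α p.2) -
        ∑ p ∈ Finset.HasAntidiagonal.antidiagonal 1, q p.1 * α p.2) :=
      (pow_dvd_pow _ (by omega)).trans h2
    have h4 : (PowerSeries.X : PowerSeries ℂ) ^ 2 ∣
        SDV.tau (q 1) - SDV.esx y 1 * SDV.tau (q 0) := (pow_dvd_pow _ (by omega)).trans (hy 1)
    have e1 : SDV.tau (q 0 * (Polynomial.X ^ 1 *
        ∑ p ∈ Finset.HasAntidiagonal.antidiagonal 1, (c.choose p.1 : Polynomial ℤ) * α p.2) -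
        ∑ p ∈ Finset.HasAntidiagonal.antidiagonal 1, q p.1 * α p.2) =
        SDV.tau (q 0) * (SDV.eu (-1) * (SDV.tau (α 1) + (c : PowerSeries ℂ) * SDV.tau (α 0))) -
        (SDV.tau (q 0) * SDV.tau (α 1) + SDV.tau (q 1) * SDV.tau (α 0)) := by
      have e2 : SDV.tau ((Polynomial.X : Polynomial ℤ) ^ 1) = SDV.eu (-1) := by
        rw [SDWA.tau_X_pow]
        norm_num
      rw [← e2]
      unfold SDV.tau
      simp only [Finset.Nat.antidiagonal_succ, Finset.Nat.antidiagonal_zero, Finset.map_singleton,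
        Finset.sum_cons, Finset.sum_singleton, map_sub, map_mul, map_add, map_natCast]
      simp
    rw [e1] at h3
    have h5 : (PowerSeries.X : PowerSeries ℂ) ^ 2 ∣ SDV.tau (q 0) *
        (SDV.eu (-1) * (SDV.tau (α 1) + (c : PowerSeries ℂ) * SDV.tau (α 0)) - SDV.tau (α 1) -
          SDV.esx y 1 * SDV.tau (α 0)) := by
      have := dvd_add h3 (h4.mul_right (SDV.tau (α 0)))
      have e5 : SDV.tau (q 0) *
        (SDV.eu (-1) * (SDV.tau (α 1) + (c : PowerSeries ℂ) * SDV.tau (α 0)) - SDV.tau (α 1) -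
          SDV.esx y 1 * SDV.tau (α 0)) = SDV.tau (q 0) * (SDV.eu (-1) * (SDV.tau (α 1) +
          (c : PowerSeries ℂ) * SDV.tau (α 0))) -
        (SDV.tau (q 0) * SDV.tau (α 1) + SDV.tau (q 1) * SDV.tau (α 0)) +
        (SDV.tau (q 1) - SDV.esx y 1 * SDV.tau (q 0)) * SDV.tau (α 0) := by ring
      rw [e5]
      exact this
    have hu : IsUnit (SDV.tau (q 0)) := by
      rw [PowerSeries.isUnit_iff_constantCoeff, SDWA.cc_tau, isUnit_iff_ne_zero]
      exact_mod_cast hq1
    rw [hu.dvd_mul_left] at h5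
    have h6 := (PowerSeries.X_pow_dvd_iff.mp h5) 1 (by norm_num)
    have c0 : PowerSeries.coeff 0 (SDV.eu (-1)) = 1 := by rw [SDWA.coeff_eu]; simp
    have c1 : PowerSeries.coeff 1 (SDV.eu (-1)) = -1 := by rw [SDWA.coeff_eu]; simp
    have ha1 : PowerSeries.coeff 0 (SDV.tau (α 1)) =
        ((a - c : ℕ) : ℂ) * PowerSeries.coeff 0 (SDV.tau (α 0)) := by
      have t0 := SDWA.cc_tau (α 1)
      have t1 := SDWA.cc_tau (α 0)
      rw [← PowerSeries.coeff_zero_eq_constantCoeff_apply] at t0 t1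
      rw [t0, t1, hα1]
      push_cast
      ring
    have hA0 : PowerSeries.coeff 0 (SDV.tau (α 0)) ≠ 0 := by
      rw [PowerSeries.coeff_zero_eq_constantCoeff_apply, SDWA.cc_tau]
      exact_mod_cast hα0.ne'
    obtain ⟨y0, y1⟩ := esx_one y
    have hc1 : PowerSeries.coeff 1 ((c : PowerSeries ℂ) * SDV.tau (α 0)) =
        (c : ℂ) * PowerSeries.coeff 1 (SDV.tau (α 0)) := by
      rw [← nsmul_eq_mul, map_nsmul, nsmul_eq_mul]
    have hc0 : PowerSeries.coeff 0 ((c : PowerSeries ℂ) * SDV.tau (α 0)) =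
        (c : ℂ) * PowerSeries.coeff 0 (SDV.tau (α 0)) := by
      rw [← nsmul_eq_mul, map_nsmul, nsmul_eq_mul]
    rw [map_sub, map_sub, PowerSeries.coeff_mul, PowerSeries.coeff_mul] at h6
    simp only [Finset.Nat.antidiagonal_succ, Finset.Nat.antidiagonal_zero, Finset.map_singleton,
      Finset.sum_cons, Finset.sum_singleton, map_add, Function.Embedding.prodMap,
      Function.Embedding.coeFn_mk, Prod.map_apply, Nat.succ_eq_add_one, zero_add,
      Function.Embedding.refl_apply, hc0, hc1, c0, c1, y0, y1, ha1] at h6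
    have h7 : (∑ i, y i - (a : ℂ)) * PowerSeries.coeff 0 (SDV.tau (α 0)) = 0 := by
      have h8 : ((a - c : ℕ) : ℂ) = (a : ℂ) - c := by
        rw [Nat.cast_sub hca]
      rw [h8] at h6
      linear_combination h6
    exact sub_eq_zero.mp ((mul_eq_zero.mp h7).resolve_right hA0)
  have h9 : ((∑ i, d i : ℕ) : ℂ) = (a : ℂ) := by
    rw [← hsum]
    push_cast
    exact Finset.sum_congr rfl fun i _ => (hd2 i).symm
  exact_mod_cast h9

end Pool.Agent.Lib.MP_776403_ag.SD
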