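import Pool.Agent.Lib.MP_776403_ag.SD.W.Spec

/-!
# THEOREM W: (WPsi) `Λ^i K' . W ≅ Λ^i N^* . W` (helper50)
-/

set_option autoImplicit false

open MvPolynomial

noncomputable section

namespace Pool.Agent.Lib.MP_776403_ag.SD

namespace WPsiAux

theorem KL {R X Y : Type} [CommRing R] [Fintype Y] {i : ℕ} (T : Matrix X Y R)
    (n : Fin i → Y → R) (A : Fin i → X) :
    ∑ C : Fin i → Y, (∏ m, T (A m) (C m)) * Matrix.det (Matrix.of fun r m => n r (C m)) =
      Matrix.det (Matrix.of fun r m => T.mulVec (n r) (A m)) := by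
  rw [Matrix.det_apply']
  have h1 : ∀ σ : Equiv.Perm (Fin i),
      ∏ m, (Matrix.of fun r m => T.mulVec (n r) (A m)) (σ m) m =
      ∑ C : Fin i → Y, ∏ m, T (A m) (C m) * n (σ m) (C m) := by
    intro σ
    simp only [Matrix.of_apply, Matrix.mulVec, dotProduct]
    rw [Finset.prod_univ_sum, Fintype.piFinset_univ]
  simp only [h1, Finset.mul_sum]
  rw [Finset.sum_comm]
  refine Finset.sum_congr rfl fun C _ => ?_
  rw [Matrix.det_apply', Finset.mul_sum]
  refine Finset.sum_congr rfl fun σ _ => ?_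
  rw [Finset.prod_mul_distrib]
  simp only [Matrix.of_apply]
  ring

theorem finrank_map_eq {K M M1 M2 : Type} [Field K] [AddCommGroup M] [Module K M]
    [AddCommGroup M1] [Module K M1] [AddCommGroup M2] [Module K M2] (U : Submodule K M)
    (f : M →ₗ[K] M1) (g : M →ₗ[K] M2) (h : ∀ z ∈ U, f z = 0 ↔ g z = 0) :
    Module.finrank K (U.map f) = Module.finrank K (U.map g) := by
  have hk : LinearMap.ker (f.domRestrict U) = LinearMap.ker (g.domRestrict U) := by
    ext z
    rw [LinearMap.mem_ker, LinearMap.mem_ker, LinearMap.domRestrict_apply,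
      LinearMap.domRestrict_apply]
    exact h z.1 z.2
  have h1 := (f.domRestrict U).quotKerEquivRange.finrank_eq
  have h2 := (g.domRestrict U).quotKerEquivRange.finrank_eq
  rw [LinearMap.range_domRestrict] at h1 h2
  rw [← h1, ← h2, hk]

variable {N : ℕ}

/-- `T^(⊗ i)` on vectors of polynomials. -/
def thL {X Y : Type} [Fintype Y] (i : ℕ) (T : Matrix X Y ℂ) :
    ((Fin i → Y) → Sx N) →ₗ[ℂ] ((Fin i → X) → Sx N) where
  toFun v := fun A => ∑ D : Fin i → Y, (∏ m, (C (T (A m) (D m)) : Sx N)) * v D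
  map_add' u v := by
    funext A
    simp only [Pi.add_apply, mul_add, Finset.sum_add_distrib]
  map_smul' r u := by
    funext A
    simp only [Pi.smul_apply, RingHom.id_apply, mul_smul_comm, Finset.smul_sum]

/-- `T^(⊗ i) ⊗ id`. -/
def ThL {X Y : Type} [Fintype Y] (i : ℕ) (T : Matrix X Y ℂ) (γ : Type) :
    ((Fin i → Y) × γ → Sx N) →ₗ[ℂ] ((Fin i → X) × γ → Sx N) where
  toFun v := fun p => ∑ D : Fin i → Y, (∏ m, (C (T (p.1 m) (D m)) : Sx N)) * v (D, p.2)
  map_add' u v := by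
    funext A
    simp only [Pi.add_apply, mul_add, Finset.sum_add_distrib]
  map_smul' r u := by
    funext A
    simp only [Pi.smul_apply, RingHom.id_apply, mul_smul_comm, Finset.smul_sum]

theorem ThL_mul {X Y : Type} [Fintype Y] (i : ℕ) (T : Matrix X Y ℂ) {γ : Type}
    (v : (Fin i → Y) → Sx N) (w : γ → Sx N) :
    ThL i T γ (fun p => v p.1 * w p.2) = fun p => thL i T v p.1 * w p.2 := by
  funext p
  show ∑ D : Fin i → Y, (∏ m, (C (T (p.1 m) (D m)) : Sx N)) * (v D * w p.2) =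
    (∑ D : Fin i → Y, (∏ m, (C (T (p.1 m) (D m)) : Sx N)) * v D) * w p.2
  rw [Finset.sum_mul]
  exact Finset.sum_congr rfl fun D _ => by ring

theorem thL_gen {X Y : Type} [Fintype Y] (i : ℕ) (T : Matrix X Y ℂ) (a : Sx N)
    (n : Fin i → Y → Sx N) (A : Fin i → X) :
    thL i T (fun D => a * Matrix.det (Matrix.of fun l m => n l (D m))) A =
      a * Matrix.det (Matrix.of fun l m => ∑ y, C (T (A m) y) * n l y) := by
  have h := KL (T.map (C : ℂ → Sx N)) n A
  have h2 : (Matrix.of fun l m => ∑ y, C (T (A m) y) * n l y) =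
      Matrix.of fun l m => (T.map (C : ℂ → Sx N)).mulVec (n l) (A m) := by
    ext l m
    rfl
  rw [h2, ← h, Finset.mul_sum]
  show ∑ D : Fin i → Y, (∏ m, (C (T (A m) (D m)) : Sx N)) *
    (a * Matrix.det (Matrix.of fun l m => n l (D m))) = _
  refine Finset.sum_congr rfl fun D _ => ?_
  simp only [Matrix.map_apply]
  ring

theorem redL_eq {α : Type} {J : Ideal (Sx N)} {v w : α → Sx N} (h : ∀ a, v a - w a ∈ J) :
    redL α J v = redL α J w := by
  funext a
  exact (Ideal.Quotient.mk_eq_mk_iff_sub_mem _ _).2 (h a)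

theorem redL_eq_zero {α : Type} {J : Ideal (Sx N)} {v : α → Sx N} :
    redL α J v = 0 ↔ ∀ a, v a ∈ J := by
  constructor
  · intro h a
    exact Ideal.Quotient.eq_zero_iff_mem.1 (congrFun h a)
  · intro h
    funext a
    exact Ideal.Quotient.eq_zero_iff_mem.2 (h a)

theorem det_sub_mem {i : ℕ} {J : Ideal (Sx N)} (a : Sx N) (P Q : Matrix (Fin i) (Fin i) (Sx N))
    (h : ∀ l m, P l m - Q l m ∈ J) : a * P.det - a * Q.det ∈ J := by
  rw [← mul_sub]
  refine J.mul_mem_left a ?_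
  rw [← Ideal.Quotient.mk_eq_mk_iff_sub_mem, RingHom.map_det, RingHom.map_det]
  refine congrArg Matrix.det ?_
  ext l m
  exact (Ideal.Quotient.mk_eq_mk_iff_sub_mem _ _).2 (h l m)

section

variable {c : ℕ} {β : Type} [Fintype β] {I J : Ideal (Sx N)} {a : ℕ} {ω : β → ℕ}
  {q : Fin c → ℕ → (β → Sx N)} {M : Matrix β (Fin c ⊕ β) (Sx N)}
  {Ψ : Matrix (Fin (N + 1)) (Fin c ⊕ β) ℂ}

theorem up (i k : ℕ) : (LW (KG I J q M Ψ) i k).map ((redL _ J) ∘ₗ thL i Ψ) ≤
    (VL I i k).map (redL _ J) := by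
  rw [LW, Submodule.map_span_le]
  rintro z ⟨b, e, g, hb, hg, hk, rfl⟩
  choose h1 h2 F hF hFh hFJ using hg
  refine ⟨fun A => b * Matrix.det (Matrix.of fun l m => pderiv (A m) (F l)),
    Submodule.subset_span ⟨b, e, F, fun l => (g l).2 + 1, hb, fun l => ⟨hF l, hFh l⟩, ?_, rfl⟩, ?_⟩
  · rw [Finset.sum_add_distrib, ← add_assoc, hk]
    simp
  · refine (redL_eq fun A => ?_).symm
    rw [thL_gen]
    exact det_sub_mem b _ _ fun l m => hFJ l (A m)

theorem down (hW : WG I J a β ω q M Ψ) (i k : ℕ) : (VL I i k).map (redL _ J) ≤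
    (LW (KG I J q M Ψ) i k).map ((redL _ J) ∘ₗ thL i Ψ) := by
  rw [VL, Submodule.map_span_le]
  rintro z ⟨b, e, F, f, hb, hF, hk, rfl⟩
  by_cases hf : ∀ l, 1 ≤ f l
  · have h0 : ∀ l, ∃ n : Fin c ⊕ β → Sx N, n ∈ Fam (BG q) (f l - 1) ∧
        (∀ y, M.mulVec n y ∈ J) ∧
        ∀ j, (∑ y, C (Ψ j y) * n y) - pderiv j (F l) ∈ J := by
      intro l
      refine hW.ker (F l) (hF l).1 (f l - 1) ?_
      rw [Nat.sub_add_cancel (hf l)]
      exact (hF l).2
    choose n hn1 hn2 hn3 using h0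
    refine ⟨fun D => b * Matrix.det (Matrix.of fun l m => n l (D m)),
      Submodule.subset_span ⟨b, e, fun l => (n l, f l - 1), hb, fun l => ⟨hn1 l, hn2 l, F l,
        (hF l).1, ?_, hn3 l⟩, ?_, rfl⟩, ?_⟩
    · show (F l).IsHomogeneous (f l - 1 + 1)
      rw [Nat.sub_add_cancel (hf l)]
      exact (hF l).2
    · have h1 : ∑ l, f l = ∑ l : Fin i, (f l - 1) + i := by
        have h2 : ∀ l, f l = (f l - 1) + 1 := fun l => (Nat.sub_add_cancel (hf l)).symm
        rw [Finset.sum_congr rfl fun l _ => h2 l, Finset.sum_add_distrib]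
        simp
      show e + ∑ l : Fin i, (f l - 1) = k
      omega
    · refine redL_eq fun A => ?_
      rw [thL_gen]
      exact det_sub_mem b _ _ fun l m => hn3 l (A m)
  · push Not at hf
    obtain ⟨l, hl⟩ := hf
    have h0 : f l = 0 := by omega
    have h1 : ∀ j, pderiv j (F l) = 0 := by
      intro j
      have h2 := (hF l).2
      rw [h0] at h2
      have h3 : (F l).totalDegree = 0 := Nat.le_zero.1 h2.totalDegree_le
      rw [totalDegree_eq_zero_iff_eq_C.1 h3]
      exact pderiv_C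
    have h2 : (fun A : Fin i → Fin (N + 1) =>
        b * Matrix.det (Matrix.of fun i k => pderiv (A k) (F i))) = 0 := by
      funext A
      rw [Matrix.det_eq_zero_of_row_eq_zero l (fun m => h1 (A m)), mul_zero]
      rfl
    rw [h2, map_zero]
    exact Submodule.zero_mem _

theorem PV_map (hW : WG I J a β ω q M Ψ) (γ : Type) (W : ℕ → Submodule ℂ (γ → Sx N))
    (i k : ℕ) : (PV (LW (KG I J q M Ψ) i) W k).map ((redL _ J) ∘ₗ ThL i Ψ γ) =
    (PV (VL I i) W k).map (redL _ J) := by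
  apply le_antisymm
  · rw [PV, Submodule.map_span_le]
    rintro z ⟨k1, k2, v, w, hk, hv, hw, rfl⟩
    obtain ⟨v', hv', hvv⟩ := up i k1 (Submodule.mem_map_of_mem hv)
    refine ⟨fun p => v' p.1 * w p.2, Submodule.subset_span ⟨k1, k2, v', w, hk, hv', hw, rfl⟩, ?_⟩
    rw [LinearMap.comp_apply, ThL_mul]
    funext p
    show Ideal.Quotient.mk J (v' p.1 * w p.2) = Ideal.Quotient.mk J (thL i Ψ v p.1 * w p.2)
    rw [map_mul, map_mul]
    refine congrArg (fun t => t * Ideal.Quotient.mk J (w p.2)) ?_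
    exact congrFun hvv p.1
  · conv_lhs => rw [PV]
    rw [Submodule.map_span_le]
    rintro z ⟨k1, k2, v, w, hk, hv, hw, rfl⟩
    obtain ⟨v', hv', hvv⟩ := down hW i k1 (Submodule.mem_map_of_mem hv)
    refine ⟨fun p => v' p.1 * w p.2, Submodule.subset_span ⟨k1, k2, v', w, hk, hv', hw, rfl⟩, ?_⟩
    rw [LinearMap.comp_apply, ThL_mul]
    funext p
    show Ideal.Quotient.mk J (thL i Ψ v' p.1 * w p.2) = Ideal.Quotient.mk J (v p.1 * w p.2)
    rw [map_mul, map_mul]
    refine congrArg (fun t => t * Ideal.Quotient.mk J (w p.2)) ?_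
    exact congrFun hvv p.1

end

/-- The left inverse matrix on a subspace. -/
theorem exists_left {Y : Type} [Fintype Y] (Ψ : Matrix (Fin (N + 1)) Y ℂ)
    (V : Submodule ℂ (Y → ℂ)) (h : ∀ v ∈ V, Ψ.mulVec v = 0 → v = 0) :
    ∃ Φ : Matrix Y (Fin (N + 1)) ℂ, ∀ v ∈ V, Φ.mulVec (Ψ.mulVec v) = v := by
  classical
  have hk : LinearMap.ker (Ψ.mulVecLin.domRestrict V) = ⊥ := by
    rw [LinearMap.ker_eq_bot']
    intro v hv
    exact Subtype.ext (h v.1 v.2 hv)
  obtain ⟨g, hg⟩ := LinearMap.exists_leftInverse_of_injective _ hk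
  refine ⟨LinearMap.toMatrix' (V.subtype ∘ₗ g), fun v hv => ?_⟩
  rw [LinearMap.toMatrix'_mulVec, LinearMap.comp_apply]
  have h1 := LinearMap.congr_fun hg ⟨v, hv⟩
  have h2 : g (Ψ.mulVec v) = ⟨v, hv⟩ := h1
  rw [h2]
  rfl

theorem fib_eval {α : Type} {G : Gn N α} {g : (α → Sx N) × ℕ} (hg : g ∈ G) (p : Vx N) :
    (fun a => eval p (g.1 a)) ∈ fib G p := Submodule.subset_span ⟨g, hg, rfl⟩

/-- `(Φ Ψ)^(⊗ i) z = z` at `p`. -/
theorem back {Y : Type} [Fintype Y] (G : Gn N Y) (Ψ : Matrix (Fin (N + 1)) Y ℂ)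
    (Φ : Matrix Y (Fin (N + 1)) ℂ) (p : Vx N)
    (hΦ : ∀ v ∈ fib G p, Φ.mulVec (Ψ.mulVec v) = v) (γ : Type)
    (W : ℕ → Submodule ℂ (γ → Sx N)) (i k : ℕ) :
    ∀ z ∈ PV (LW G i) W k, ∀ (A : Fin i → Y) (y : γ),
      ∑ B : Fin i → Fin (N + 1), (∏ m, Φ (A m) (B m)) * eval p (ThL i Ψ γ z (B, y)) =
        eval p (z (A, y)) := by
  have hgen : ∀ k1, ∀ v ∈ LW G i k1, ∀ A : Fin i → Y,
      ∑ B : Fin i → Fin (N + 1), (∏ m, Φ (A m) (B m)) * eval p (thL i Ψ v B) =
        eval p (v A) := by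
    intro k1 v hv A
    refine Submodule.span_induction (p := fun v _ =>
      ∑ B : Fin i → Fin (N + 1), (∏ m, Φ (A m) (B m)) * eval p (thL i Ψ v B) =
        eval p (v A)) ?_ ?_ ?_ ?_ hv
    · rintro v ⟨b, e, g, hb, hg, hk, rfl⟩
      have h1 : ∀ B : Fin i → Fin (N + 1),
          eval p (thL i Ψ (fun A => b * Matrix.det (Matrix.of fun l m => (g l).1 (A m))) B) =
          eval p b * Matrix.det (Matrix.of fun l m =>
            Ψ.mulVec (fun y => eval p ((g l).1 y)) (B m)) := by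
        intro B
        rw [thL_gen i Ψ b (fun l => (g l).1) B, map_mul, RingHom.map_det]
        refine congrArg (fun t => eval p b * Matrix.det t) ?_
        ext l m
        simp only [RingHom.mapMatrix_apply, Matrix.map_apply, Matrix.of_apply, map_sum, map_mul,
          eval_C, Matrix.mulVec, dotProduct]
      have h2 : eval p (b * Matrix.det (Matrix.of fun l m => (g l).1 (A m))) =
          eval p b * Matrix.det (Matrix.of fun l m => eval p ((g l).1 (A m))) := by
        rw [map_mul, RingHom.map_det]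
        rfl
      rw [h2]
      have h3 := KL Φ (fun l => Ψ.mulVec fun y => eval p ((g l).1 y)) A
      have h4 : ∀ l, Φ.mulVec (Ψ.mulVec fun y => eval p ((g l).1 y)) =
          fun y => eval p ((g l).1 y) := fun l => hΦ _ (fib_eval (hg l) p)
      simp only [h4] at h3
      rw [← h3, Finset.mul_sum]
      refine Finset.sum_congr rfl fun B _ => ?_
      rw [h1 B]
      ring
    · simp
    · intro u v _ _ hu hv
      simp only [map_add, Pi.add_apply, mul_add, Finset.sum_add_distrib]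
      rw [hu, hv]
    · intro r u _ hu
      simp only [map_smul, Pi.smul_apply, smul_eval]
      rw [← hu, Finset.mul_sum]
      exact Finset.sum_congr rfl fun B _ => by ring
  intro z hz A y
  refine Submodule.span_induction (p := fun z _ =>
      ∑ B : Fin i → Fin (N + 1), (∏ m, Φ (A m) (B m)) * eval p (ThL i Ψ γ z (B, y)) =
        eval p (z (A, y))) ?_ ?_ ?_ ?_ hz
  · rintro z ⟨k1, k2, v, w, hk, hv, hw, rfl⟩
    rw [ThL_mul]
    show ∑ B : Fin i → Fin (N + 1), (∏ m, Φ (A m) (B m)) * eval p (thL i Ψ v B * w y) =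
      eval p (v A * w y)
    rw [map_mul, ← hgen k1 v hv A, Finset.sum_mul]
    exact Finset.sum_congr rfl fun B _ => by rw [map_mul]; ring
  · simp
  · intro u v _ _ hu hv
    simp only [map_add, Pi.add_apply, mul_add, Finset.sum_add_distrib]
    rw [hu, hv]
  · intro r u _ hu
    simp only [map_smul, Pi.smul_apply, smul_eval]
    rw [← hu, Finset.mul_sum]
    exact Finset.sum_congr rfl fun B _ => by ring

end WPsiAux

open WPsiAux

theorem wPsi (hNull : S_Null) (hWB : S_WB) : S_WPsi := by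
  intro N c a I J hI hIJ hJ hJh hne β _ ω q M Ψ hW hinj γ _ ω' W hGW i k
  have hBG : HG (Sum.elim (fun _ => 0) ω) (BG q) := by
    rintro g (⟨j, rfl⟩ | ⟨j, l, rfl⟩) (s | s)
    · show (if s = j then (1 : Sx N) else 0).IsHomogeneous (0 + 0)
      split_ifs
      · exact isHomogeneous_one _ _
      · exact isHomogeneous_zero _ _ _
    · exact isHomogeneous_zero _ _ _
    · exact isHomogeneous_zero _ _ _
    · exact hW.hom j l s
  have hKG : HG (Sum.elim (fun _ => 0) ω) (KG I J q M Ψ) := fun g hg b =>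
    (hWB.1 N _ _ _ hBG).hom g.2 g.1 hg.1 b
  have hGP := hWB.2.2.1 N _ _ _ _ _ _ (hWB.2.1 N _ _ ∅ _ i hKG).1 hGW
  have h1 : hV J (PV (LW (KG I J q M Ψ) i) W) k =
      Module.finrank ℂ ((PV (LW (KG I J q M Ψ) i) W k).map ((redL _ J) ∘ₗ ThL i Ψ γ)) := by
    refine finrank_map_eq _ _ _ fun z hz => ?_
    rw [LinearMap.comp_apply, redL_eq_zero, redL_eq_zero]
    constructor
    · intro h x
      show ∑ D, (∏ m, (C (Ψ (x.1 m) (D m)) : Sx N)) * z (D, x.2) ∈ J
      exact J.sum_mem fun D _ => J.mul_mem_left _ (h _)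
    · rintro h ⟨A, y⟩
      refine (hNull N J hJ hJh).2 hne (z (A, y)) _ (hGP.hom k z hz (A, y)) fun p hp hp0 => ?_
      obtain ⟨Φ, hΦ⟩ := exists_left Ψ (fib (KG I J q M Ψ) p) (hinj p hp hp0)
      rw [← back (KG I J q M Ψ) Ψ Φ p hΦ γ W i k z hz A y]
      refine Finset.sum_eq_zero fun B _ => ?_
      rw [hp _ (h (B, y)), mul_zero]
  rw [h1, PV_map hW γ W i k]
  rfl

end Pool.Agent.Lib.MP_776403_ag.SD
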