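import Pool.Agent.Lib.MP_776403_ag.SD.W.Spec

/-!
# THEOREM W, module QP: the Hilbert series of `S / J`: order of the pole
-/

set_option autoImplicit false

open MvPolynomial

noncomputable section

namespace Pool.Agent.Lib.MP_776403_ag.SD

namespace WQPAux

/-- Absolute convergence at `x` with the sum `s`. -/
def Ab (x : ℝ) (F : PowerSeries ℤ) (s : ℝ) : Prop :=
  (Summable fun k => ‖((PowerSeries.coeff k F : ℤ) : ℝ) * x ^ k‖) ∧
    ∑' k, ((PowerSeries.coeff k F : ℤ) : ℝ) * x ^ k = s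

theorem Ab_mul {x : ℝ} {F G : PowerSeries ℤ} {s t : ℝ} (hF : Ab x F s) (hG : Ab x G t) :
    Ab x (F * G) (s * t) := by
  have e : (fun k => ((PowerSeries.coeff k (F * G) : ℤ) : ℝ) * x ^ k) = fun k =>
      ∑ p ∈ Finset.HasAntidiagonal.antidiagonal k,
        (((PowerSeries.coeff p.1 F : ℤ) : ℝ) * x ^ p.1) *
          (((PowerSeries.coeff p.2 G : ℤ) : ℝ) * x ^ p.2) := by
    funext k
    rw [PowerSeries.coeff_mul, Int.cast_sum, Finset.sum_mul]
    refine Finset.sum_congr rfl fun p hp => ?_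
    rw [Finset.HasAntidiagonal.mem_antidiagonal] at hp
    rw [← hp, pow_add]
    push_cast
    ring
  have h1 := summable_norm_sum_mul_antidiagonal_of_summable_norm hF.1 hG.1
  have h2 := tsum_mul_tsum_eq_tsum_sum_antidiagonal_of_summable_norm hF.1 hG.1
  refine ⟨?_, ?_⟩
  · have h3 : (fun k => ‖((PowerSeries.coeff k (F * G) : ℤ) : ℝ) * x ^ k‖) = fun k =>
      ‖∑ p ∈ Finset.HasAntidiagonal.antidiagonal k,
        (((PowerSeries.coeff p.1 F : ℤ) : ℝ) * x ^ p.1) *
          (((PowerSeries.coeff p.2 G : ℤ) : ℝ) * x ^ p.2)‖ := by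
      funext k
      rw [congrFun e k]
    rw [h3]
    exact h1
  · rw [e, ← hF.2, ← hG.2]
    exact h2.symm

theorem Ab_poly (x : ℝ) (P : Polynomial ℤ) : Ab x (P : PowerSeries ℤ) (Polynomial.aeval x P) := by
  have h0 : ∀ k, k ∉ Finset.range (P.natDegree + 1) →
      ((PowerSeries.coeff k (P : PowerSeries ℤ) : ℤ) : ℝ) * x ^ k = 0 := by
    intro k hk
    rw [Finset.mem_range, not_lt] at hk
    rw [Polynomial.coeff_coe, Polynomial.coeff_eq_zero_of_natDegree_lt (by omega), Int.cast_zero,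
      zero_mul]
  refine ⟨?_, ?_⟩
  · refine summable_of_ne_finset_zero (s := Finset.range (P.natDegree + 1)) fun k hk => ?_
    rw [h0 k hk, norm_zero]
  · rw [tsum_eq_sum h0, Polynomial.aeval_eq_sum_range]
    refine Finset.sum_congr rfl fun k _ => ?_
    rw [Polynomial.coeff_coe, zsmul_eq_mul]

theorem Ab_geom {x : ℝ} (h0 : 0 < x) (h1 : x < 1) :
    Ab x (PowerSeries.mk 1 : PowerSeries ℤ) (1 - x)⁻¹ := by
  have e : (fun k => ((PowerSeries.coeff k (PowerSeries.mk 1 : PowerSeries ℤ) : ℤ) : ℝ) * x ^ k) =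
      fun k => x ^ k := by
    funext k
    rw [PowerSeries.coeff_mk, Pi.one_apply, Int.cast_one, one_mul]
  refine ⟨?_, ?_⟩
  · have h3 : (fun k => ‖((PowerSeries.coeff k (PowerSeries.mk 1 : PowerSeries ℤ) : ℤ) : ℝ) *
        x ^ k‖) = fun k => x ^ k := by
      funext k
      rw [congrFun e k, Real.norm_of_nonneg (pow_nonneg h0.le k)]
    rw [h3]
    exact summable_geometric_of_lt_one h0.le h1
  · rw [e]
    exact tsum_geometric_of_lt_one h0.le h1

theorem Ab_geom_pow {x : ℝ} (h0 : 0 < x) (h1 : x < 1) (M : ℕ) :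
    Ab x ((PowerSeries.mk 1 : PowerSeries ℤ) ^ M) ((1 - x)⁻¹ ^ M) := by
  induction M with
  | zero =>
    rw [pow_zero, pow_zero]
    have h := Ab_poly x 1
    rw [Polynomial.coe_one, map_one] at h
    exact h
  | succ M ih =>
    rw [pow_succ, pow_succ]
    exact Ab_mul ih (Ab_geom h0 h1)

/-- LEMMA B. -/
theorem pos_of {M c : ℕ} {H : PowerSeries ℤ} {R : Polynomial ℤ}
    (hH : ∀ k, 0 ≤ PowerSeries.coeff k H)
    (hR : (1 - PowerSeries.X) ^ M * H = (((1 - Polynomial.X) ^ c * R : Polynomial ℤ) : PowerSeries ℤ)) :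
    0 ≤ R.eval 1 := by
  have h1 : H = (PowerSeries.mk 1 : PowerSeries ℤ) ^ M *
      (((1 - Polynomial.X) ^ c * R : Polynomial ℤ) : PowerSeries ℤ) := by
    rw [← hR, ← mul_assoc, ← mul_pow, PowerSeries.mk_one_mul_one_sub_eq_one, one_pow, one_mul]
  have h2 : ∀ x : ℝ, 0 < x → x < 1 → 0 ≤ Polynomial.aeval x R := by
    intro x hx0 hx1
    have h3 := Ab_mul (Ab_geom_pow hx0 hx1 M) (Ab_poly x ((1 - Polynomial.X) ^ c * R))
    rw [← h1] at h3
    have h4 : 0 ≤ (1 - x)⁻¹ ^ M * Polynomial.aeval x ((1 - Polynomial.X) ^ c * R) := by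
      rw [← h3.2]
      refine tsum_nonneg fun k => mul_nonneg ?_ (pow_nonneg hx0.le k)
      exact_mod_cast hH k
    rw [map_mul, map_pow, map_sub, map_one, Polynomial.aeval_X, ← mul_assoc] at h4
    have h5 : 0 < (1 - x)⁻¹ ^ M * (1 - x) ^ c := by
      have : 0 < 1 - x := by linarith
      positivity
    exact nonneg_of_mul_nonneg_right h4 h5
  have h3 : Filter.Tendsto (fun x : ℝ => Polynomial.aeval x R) (nhdsWithin 1 (Set.Iio 1))
      (nhds (Polynomial.aeval (1 : ℝ) R)) :=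
    (Polynomial.continuous_aeval R).continuousAt.tendsto.mono_left nhdsWithin_le_nhds
  have h4 : 0 ≤ Polynomial.aeval (1 : ℝ) R := by
    refine ge_of_tendsto h3 ?_
    have h5 : Set.Ioo (0 : ℝ) 1 ∈ nhdsWithin (1 : ℝ) (Set.Iio 1) :=
      Ioo_mem_nhdsLT zero_lt_one
    filter_upwards [h5] with x hx
    exact h2 x hx.1 hx.2
  have h5 : Polynomial.aeval (1 : ℝ) R = ((R.eval 1 : ℤ) : ℝ) := by
    have h6 : (1 : ℝ) = algebraMap ℤ ℝ 1 := by simp
    rw [h6, Polynomial.aeval_algebraMap_apply]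
    simp [Polynomial.aeval_def, Polynomial.eval₂_eq_eval_map]
  rw [h5] at h4
  exact_mod_cast h4

theorem aux {N D c' : ℕ} {f : ℕ → ℕ} {h : Polynomial ℤ}
    (hf : (1 - PowerSeries.X) ^ (N + 1) * ps f =
      (((1 - Polynomial.X) ^ c' * h : Polynomial ℤ) : PowerSeries ℤ))
    (hD : ∀ m : ℕ, Nat.choose (m + D) D ≤ f m) : c' + (D + 1) ≤ N + 1 := by
  by_contra hcon
  rw [not_le] at hcon
  obtain ⟨e, he⟩ : ∃ e : ℕ, c' + (D + 1) = (N + 1) + (e + 1) := ⟨c' + (D + 1) - (N + 1) - 1, by omega⟩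
  have hE := PowerSeries.mk_add_choose_mul_one_sub_pow_eq_one ℤ D
  set E : PowerSeries ℤ := PowerSeries.mk fun n => (Nat.choose (D + n) D : ℤ) with hEd
  have h1 : 0 ≤ ((1 - Polynomial.X) ^ (e + 1) * h - 1 : Polynomial ℤ).eval 1 := by
    refine pos_of (M := c' + (D + 1)) (c := c') (H := ps f - E) (fun k => ?_) ?_
    · rw [map_sub, sub_nonneg, hEd]
      have h2 : PowerSeries.coeff k (ps f) = (f k : ℤ) := PowerSeries.coeff_mk _ _
      rw [h2, PowerSeries.coeff_mk, add_comm D k]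
      exact_mod_cast hD k
    · have h2 : (1 - PowerSeries.X : PowerSeries ℤ) ^ (c' + (D + 1)) * ps f =
          (1 - PowerSeries.X) ^ (e + 1) * ((1 - PowerSeries.X) ^ (N + 1) * ps f) := by
        rw [he, pow_add]
        ring
      have h3 : (1 - PowerSeries.X : PowerSeries ℤ) ^ (c' + (D + 1)) * E =
          (1 - PowerSeries.X) ^ c' * (E * (1 - PowerSeries.X) ^ (D + 1)) := by
        rw [pow_add]
        ring
      rw [mul_sub, h2, h3, hf, hE]
      push_cast
      ring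
  rw [Polynomial.eval_sub, Polynomial.eval_mul, Polynomial.eval_pow, Polynomial.eval_sub,
    Polynomial.eval_one, Polynomial.eval_X, sub_self, zero_pow (by omega), zero_mul] at h1
  norm_num at h1

end WQPAux

open WQPAux

theorem wQP (hKHV : S_KHV) (hKGV : S_KGV) (hKPV : S_KPV) (hD1 : S_D1) : S_WQP := by
  intro N D J _ _ hD
  set f : ℕ → ℕ := fun k => Module.finrank ℂ (gr J k) with hfd
  have hfe : hV J (AF N) = f := by
    funext k
    exact (hKPV.1 N Unit Unit J (AF N) (AF N) (hKGV.1 N) k).2.2.2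
  obtain ⟨p, hp⟩ := hKHV N Unit J (AF N) (hKGV.1 N)
  rw [hfe] at hp
  have hDf : ∀ m : ℕ, Nat.choose (m + D) D ≤ f m := hD1 N J D hD
  have hcf : ∀ k, PowerSeries.coeff k (ps f) = (f k : ℤ) := fun k => PowerSeries.coeff_mk _ _
  have hp0 : p ≠ 0 := by
    intro h0
    rw [h0, Polynomial.coe_zero] at hp
    rcases mul_eq_zero.1 hp with h1 | h1
    · have h2 : (1 - PowerSeries.X : PowerSeries ℤ) = 0 := by
        exact pow_eq_zero_iff (n := N + 1) (by omega) |>.1 h1
      have h3 := PowerSeries.mk_one_mul_one_sub_eq_one ℤ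
      rw [h2, mul_zero] at h3
      exact zero_ne_one h3
    · have h2 := hcf 0
      rw [h1, map_zero] at h2
      have h3 := hDf 0
      rw [zero_add, Nat.choose_self] at h3
      omega
  obtain ⟨P₁, hP₁, hnd⟩ := Polynomial.exists_eq_pow_rootMultiplicity_mul_and_not_dvd p hp0 1
  set e := p.rootMultiplicity 1 with he
  have hsgn : (Polynomial.X - Polynomial.C (1 : ℤ)) = -(1 - Polynomial.X) := by
    rw [map_one]
    ring
  have hP₂ : p = (1 - Polynomial.X) ^ e * ((-1) ^ e * P₁) := by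
    rw [hP₁, hsgn, neg_pow]
    ring
  have hq : (1 - PowerSeries.X) ^ (N + 1) * ps f =
      (((1 - Polynomial.X) ^ e * ((-1) ^ e * P₁) : Polynomial ℤ) : PowerSeries ℤ) := by
    rw [hp, ← hP₂]
  refine ⟨e, (-1) ^ e * P₁, aux hq hDf, hq, ?_⟩
  have h1 : 0 ≤ ((-1) ^ e * P₁ : Polynomial ℤ).eval 1 := by
    refine pos_of (M := N + 1) (c := e) (H := ps f) (fun k => ?_) hq
    rw [hcf]
    exact Nat.cast_nonneg _
  refine lt_of_le_of_ne h1 fun h2 => ?_
  have h2' := h2.symm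
  rw [Polynomial.eval_mul, Polynomial.eval_pow, Polynomial.eval_neg, Polynomial.eval_one] at h2'
  rcases mul_eq_zero.1 h2' with h3 | h3
  · exact absurd h3 (pow_ne_zero _ (by norm_num))
  · exact hnd (Polynomial.dvd_iff_isRoot.2 h3)

end Pool.Agent.Lib.MP_776403_ag.SD
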