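import Pool.Agent.Lib.MP_776403_ag.SD.W.Spec

/-!
# THEOREM W, module Rk: Hilbert function and rank
-/

set_option autoImplicit false

open MvPolynomial

noncomputable section

namespace Pool.Agent.Lib.MP_776403_ag.SD

namespace WRkAux

variable {N : ℕ}

theorem gr_fd (hWB : S_WB) (I : Ideal (Sx N)) (m : ℕ) : FiniteDimensional ℂ (gr I m) := by
  have hAF : GW (fun _ => 0) (AF N) := by
    refine ⟨fun k v hv a => ?_, fun k v hv i a => ?_⟩
    · rw [add_zero]
      exact hv a
    · have h1 := (isHomogeneous_X ℂ i).mul (hv a)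
      rwa [add_comm 1 k] at h1
  have h1 : FiniteDimensional ℂ (AF N m) :=
    (hWB.2.2.2.1 N Unit (fun _ => 0) (AF N) hAF).2 inferInstance m
  let φ : (Unit → Sx N) →ₗ[ℂ] (Sx N ⧸ I) :=
    (Ideal.Quotient.mkₐ ℂ I).toLinearMap ∘ₗ LinearMap.proj ()
  have h2 : gr I m = (AF N m).map φ := by
    ext z
    constructor
    · rintro ⟨f, hf, rfl⟩
      exact ⟨fun _ => f, fun _ => (mem_homogeneousSubmodule _ _).1 hf, rfl⟩
    · rintro ⟨v, hv, rfl⟩
      exact ⟨v (), (mem_homogeneousSubmodule _ _).2 (hv ()), rfl⟩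
  rw [h2]
  infer_instance

variable {α : Type}

/-- `b ↦ ∑ b_l e_l`. -/
def mA (I : Ideal (Sx N)) {r : ℕ} (e : Fin r → (α → Sx N))
    (G : Fin r → Submodule ℂ (Sx N ⧸ I)) : ((l : Fin r) → G l) →ₗ[ℂ] (α → Sx N ⧸ I) where
  toFun b := fun a => ∑ l, (b l).1 * Ideal.Quotient.mk I (e l a)
  map_add' b b' := by
    funext a
    simp only [Pi.add_apply, Submodule.coe_add, add_mul, Finset.sum_add_distrib]
  map_smul' c b := by
    funext a
    simp only [Pi.smul_apply, Submodule.coe_smul, smul_mul_assoc, Finset.smul_sum,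
      RingHom.id_apply]

/-- `u ↦ ρ · u`. -/
def mB [Fintype α] (I : Ideal (Sx N)) (ρ : α → Sx N) : (α → Sx N ⧸ I) →ₗ[ℂ] (Sx N ⧸ I) where
  toFun u := ∑ a, Ideal.Quotient.mk I (ρ a) * u a
  map_add' u u' := by
    simp only [Pi.add_apply, mul_add, Finset.sum_add_distrib]
  map_smul' c u := by
    simp only [Pi.smul_apply, mul_smul_comm, Finset.smul_sum, RingHom.id_apply]

/-- Generators whose values at `p` are a basis of the fibre. -/
theorem exists_basis [Fintype α] (G : Gn N α) (p : Vx N) (r : ℕ)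
    (h : Module.finrank ℂ (fib G p) = r) :
    ∃ e : Fin r → (α → Sx N) × ℕ, (∀ l, e l ∈ G) ∧
      LinearIndependent ℂ (fun l => fun a => eval p ((e l).1 a)) := by
  obtain ⟨b, hbS, hbspan, hbli⟩ := exists_linearIndependent ℂ
    {y : α → ℂ | ∃ g ∈ G, y = fun a => eval p (g.1 a)}
  have hfin : b.Finite := hbli.setFinite
  have : Fintype b := hfin.fintype
  have hcard : Fintype.card b = r := by
    rw [← h, fib, ← hbspan, finrank_span_set_eq_card hbli, Set.toFinset_card]
  have heq := Fintype.equivFinOfCardEq hcard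
  choose g hg1 hg2 using fun x : b => hbS x.2
  refine ⟨fun l => g (heq.symm l), fun l => hg1 _, ?_⟩
  have h1 : (fun l => fun a => eval p ((g (heq.symm l)).1 a)) =
      (fun x : b => (x : α → ℂ)) ∘ heq.symm := by
    funext l
    exact (hg2 _).symm
  rw [h1]
  exact hbli.comp _ heq.symm.injective

/-- The relation on `Fam G`. -/
theorem rel_fam [Fintype α] (J : Ideal (Sx N)) (G : Gn N α) {r : ℕ} (e : Fin r → (α → Sx N))
    (ρ : Fin r → α → Sx N) (D : Sx N)
    (h : ∀ g ∈ G, ∀ a, D * g.1 a - ∑ l, (∑ a', ρ l a' * g.1 a') * e l a ∈ J) (k : ℕ)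
    (v : α → Sx N) (hv : v ∈ Fam G k) (a : α) :
    D * v a - ∑ l, (∑ a', ρ l a' * v a') * e l a ∈ J := by
  induction hv using Submodule.span_induction with
  | mem z hz =>
    obtain ⟨b, d, g, hg, -, -, rfl⟩ := hz
    have h1 := J.mul_mem_left b (h g hg a)
    have h2 : D * (b * g.1 a) - ∑ l, (∑ a', ρ l a' * (b * g.1 a')) * e l a =
        b * (D * g.1 a - ∑ l, (∑ a', ρ l a' * g.1 a') * e l a) := by
      rw [mul_sub, Finset.mul_sum]
      congr 1
      · ring
      · refine Finset.sum_congr rfl fun l _ => ?_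
        rw [Finset.sum_mul, Finset.sum_mul, Finset.mul_sum]
        exact Finset.sum_congr rfl fun a' _ => by ring
    rw [h2]
    exact h1
  | zero => simp
  | add u w _ _ hu hw =>
    have h1 : D * (u + w) a - ∑ l, (∑ a', ρ l a' * (u + w) a') * e l a =
        (D * u a - ∑ l, (∑ a', ρ l a' * u a') * e l a) +
          (D * w a - ∑ l, (∑ a', ρ l a' * w a') * e l a) := by
      simp only [Pi.add_apply, mul_add, Finset.sum_add_distrib, add_mul]
      ring
    rw [h1]
    exact J.add_mem hu hw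
  | smul c u _ hu =>
    have h1 : D * (c • u) a - ∑ l, (∑ a', ρ l a' * (c • u) a') * e l a =
        c • (D * u a - ∑ l, (∑ a', ρ l a' * u a') * e l a) := by
      simp only [Pi.smul_apply, mul_smul_comm, smul_sub, ← Finset.smul_sum,
        smul_mul_assoc]
    rw [h1, MvPolynomial.smul_eq_C_mul]
    exact J.mul_mem_left _ hu

theorem lw_one (J : Ideal (Sx N)) (G : Gn N α) (k : ℕ) : hV J (LW G 1) k = hV J (Fam G) k := by
  let ψ : (α → Sx N) →ₗ[ℂ] ((Fin 1 → α) → Sx N) :=
    LinearMap.funLeft ℂ (Sx N) (fun A : Fin 1 → α => A 0)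
  let ψ' : (α → Sx N ⧸ J) ≃ₗ[ℂ] ((Fin 1 → α) → Sx N ⧸ J) :=
    LinearEquiv.funCongrLeft ℂ (Sx N ⧸ J) (Equiv.funUnique (Fin 1) α)
  have h1 : LW G 1 k = (Fam G k).map ψ := by
    unfold LW Fam
    rw [Submodule.map_span]
    congr 1
    ext z
    constructor
    · rintro ⟨a, e, g, ha, hg, hk, rfl⟩
      refine ⟨fun i => a * (g 0).1 i, ⟨a, e, g 0, hg 0, ha, ?_, rfl⟩, ?_⟩
      · simpa using hk
      · funext A
        show a * (g 0).1 (A 0) = a * Matrix.det (Matrix.of fun l m => (g l).1 (A m))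
        rw [Matrix.det_fin_one]
        rfl
    · rintro ⟨_, ⟨a, e, g, hg, ha, hk, rfl⟩, rfl⟩
      refine ⟨a, e, fun _ => g, ha, fun _ => hg, ?_, ?_⟩
      · simpa using hk
      · funext A
        show a * g.1 (A 0) = a * Matrix.det (Matrix.of fun _ m => g.1 (A m))
        rw [Matrix.det_fin_one]
        rfl
  have h2 : (LW G 1 k).map (redL (Fin 1 → α) J) = ((Fam G k).map (redL α J)).map
      (ψ' : (α → Sx N ⧸ J) →ₗ[ℂ] ((Fin 1 → α) → Sx N ⧸ J)) := by
    rw [h1, ← Submodule.map_comp, ← Submodule.map_comp]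
    rfl
  unfold hV
  rw [h2]
  exact LinearEquiv.finrank_map_eq ψ' _

end WRkAux

open WRkAux

theorem wRk (hWCr : S_WCr) (hWB : S_WB) (_ : S_Null) : S_WRk := by
  intro N α _ ω J hJ hhom hy G r hHG hr
  refine ⟨?_, fun k => lw_one J G k⟩
  obtain ⟨y, hy0, hy1⟩ := hy
  obtain ⟨e, heG, hli⟩ := exists_basis G y r (hr y hy0 hy1)
  obtain ⟨ρ, D, δ, hD, hDy, hκ, hρ, hdual, hrel⟩ := hWCr N α ω J hJ hhom G r hHG hr y hy0 hy1 e
    (fun l a => hHG _ (heG l) a) (fun l p' _ _ => Submodule.subset_span ⟨e l, heG l, rfl⟩) hli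
  have hDI : D ∉ J := fun h => hDy (hy0 D h)
  have hgw : GW ω (Fam G) := hWB.1 N α ω G hHG
  have hfdV : ∀ k, FiniteDimensional ℂ (Fam G k) :=
    (hWB.2.2.2.1 N α ω (Fam G) hgw).2 inferInstance
  have hgr := gr_fd hWB J
  refine ⟨fun l => (e l).2, δ, hκ, fun k => ⟨?_, ?_⟩⟩
  · -- lower bound
    have hG : ∀ l, ∃ G' : Submodule ℂ (Sx N ⧸ J), (FiniteDimensional ℂ G' ∧
        Module.finrank ℂ G' = (if (e l).2 ≤ k then Module.finrank ℂ (gr J (k - (e l).2)) else 0)) ∧
        ∀ b ∈ G', (fun a => b * Ideal.Quotient.mk J ((e l).1 a)) ∈ (Fam G k).map (redL _ J) := by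
      intro l
      by_cases hk : (e l).2 ≤ k
      · refine ⟨gr J (k - (e l).2), ⟨hgr _, by rw [if_pos hk]⟩, ?_⟩
        rintro b ⟨f, hf, rfl⟩
        refine ⟨fun a => f * (e l).1 a, Submodule.subset_span
          ⟨f, k - (e l).2, e l, heG l, (mem_homogeneousSubmodule _ _).1 hf, by omega, rfl⟩, ?_⟩
        funext a
        change Ideal.Quotient.mk J (f * (e l).1 a) =
          Ideal.Quotient.mk J f * Ideal.Quotient.mk J ((e l).1 a)
        rw [map_mul]
      · refine ⟨⊥, ⟨inferInstance, by rw [if_neg hk, finrank_bot]⟩, ?_⟩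
        intro b hb
        rw [Submodule.mem_bot] at hb
        rw [hb]
        have h1 : (fun a => (0 : Sx N ⧸ J) * Ideal.Quotient.mk J ((e l).1 a)) = 0 := by
          funext a
          rw [zero_mul]
          rfl
        rw [h1]
        exact Submodule.zero_mem _
    choose G' hG1 hG2 using hG
    have : ∀ l, FiniteDimensional ℂ (G' l) := fun l => (hG1 l).1
    have hinj : Function.Injective (mA J (fun l => (e l).1) G') := by
      rw [injective_iff_map_eq_zero]
      intro b hb
      funext l'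
      have h1 : ∀ a, ∑ l, (b l).1 * Ideal.Quotient.mk J ((e l).1 a) = 0 := fun a => congrFun hb a
      have h2 : (b l').1 * Ideal.Quotient.mk J D = 0 := by
        have h3 : ∑ a, Ideal.Quotient.mk J (ρ l' a) *
            ∑ l, (b l).1 * Ideal.Quotient.mk J ((e l).1 a) = 0 :=
          Finset.sum_eq_zero fun a _ => by rw [h1 a, mul_zero]
        rw [← h3]
        have h4 : ∑ a, Ideal.Quotient.mk J (ρ l' a) *
            ∑ l, (b l).1 * Ideal.Quotient.mk J ((e l).1 a) =
            ∑ l, (b l).1 * Ideal.Quotient.mk J (∑ a, ρ l' a * (e l).1 a) := by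
          simp only [map_sum, map_mul, Finset.mul_sum]
          rw [Finset.sum_comm]
          refine Finset.sum_congr rfl fun l _ => Finset.sum_congr rfl fun a _ => ?_
          ring
        rw [h4, Finset.sum_eq_single l']
        · rw [hdual, if_pos rfl]
        · intro l _ hl
          rw [hdual, if_neg (Ne.symm hl), map_zero, mul_zero]
        · intro h
          exact absurd (Finset.mem_univ _) h
      have : IsDomain (Sx N ⧸ J) := Ideal.Quotient.isDomain J
      rcases mul_eq_zero.1 h2 with h3 | h3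
      · exact Subtype.ext h3
      · exact absurd (Ideal.Quotient.eq_zero_iff_mem.1 h3) hDI
    have hle : LinearMap.range (mA J (fun l => (e l).1) G') ≤ (Fam G k).map (redL _ J) := by
      rintro _ ⟨b, rfl⟩
      have h1 : mA J (fun l => (e l).1) G' b =
          ∑ l, fun a => (b l).1 * Ideal.Quotient.mk J ((e l).1 a) := by
        funext a
        rw [Finset.sum_apply]
        rfl
      rw [h1]
      exact Submodule.sum_mem _ fun l _ => hG2 l _ (b l).2
    have h1 : Module.finrank ℂ (LinearMap.range (mA J (fun l => (e l).1) G')) ≤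
        hV J (Fam G) k := by
      unfold hV
      exact Submodule.finrank_mono hle
    rw [LinearMap.finrank_range_of_inj hinj, Module.finrank_pi_fintype] at h1
    refine le_trans (le_of_eq ?_) h1
    exact Finset.sum_congr rfl fun l _ => (hG1 l).2.symm
  · -- upper bound
    have hB : ∀ l, ∀ u ∈ (Fam G k).map (redL _ J), mB J (ρ l) u ∈ gr J (k + δ - (e l).2) := by
      rintro l _ ⟨v, hv, rfl⟩
      refine ⟨∑ a, ρ l a * v a, ?_, ?_⟩
      · refine (mem_homogeneousSubmodule _ _).2 ?_
        refine IsHomogeneous.sum _ _ _ fun a _ => ?_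
        by_cases h0 : ρ l a = 0
        · rw [h0, zero_mul]
          exact isHomogeneous_zero _ _ _
        · have h1 := (hρ l a).1.mul (hgw.hom k v hv a)
          have h3 := (hρ l a).2 h0
          have h2 : δ - (e l).2 - ω a + (k + ω a) = k + δ - (e l).2 := by omega
          rw [h2] at h1
          exact h1
      · change Ideal.Quotient.mk J (∑ a, ρ l a * v a) =
          ∑ a, Ideal.Quotient.mk J (ρ l a) * Ideal.Quotient.mk J (v a)
        rw [map_sum]
        exact Finset.sum_congr rfl fun a _ => map_mul _ _ _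
    let W : Submodule ℂ (α → Sx N ⧸ J) := (Fam G k).map (redL _ J)
    let Bl : (l : Fin r) → (W →ₗ[ℂ] gr J (k + δ - (e l).2)) := fun l =>
      LinearMap.codRestrict (gr J (k + δ - (e l).2)) (mB J (ρ l) ∘ₗ W.subtype)
        (fun u => hB l u.1 u.2)
    have hinj : Function.Injective (LinearMap.pi Bl) := by
      rw [injective_iff_map_eq_zero]
      rintro ⟨u, hu⟩ h
      obtain ⟨v, hv, rfl⟩ := hu
      have h1 : ∀ l, Ideal.Quotient.mk J (∑ a, ρ l a * v a) = 0 := by
        intro l
        have h2 : mB J (ρ l) (redL _ J v) = 0 := congrArg Subtype.val (congrFun h l)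
        rw [← h2]
        change Ideal.Quotient.mk J (∑ a, ρ l a * v a) =
          ∑ a, Ideal.Quotient.mk J (ρ l a) * Ideal.Quotient.mk J (v a)
        rw [map_sum]
        exact Finset.sum_congr rfl fun a _ => map_mul _ _ _
      have h3 : redL _ J v = 0 := by
        funext a
        change Ideal.Quotient.mk J (v a) = 0
        rw [Ideal.Quotient.eq_zero_iff_mem]
        have h4 := rel_fam J G (fun l => (e l).1) ρ D hrel k v hv a
        have h5 : ∑ l, (∑ a', ρ l a' * v a') * (e l).1 a ∈ J :=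
          Ideal.sum_mem _ fun l _ =>
            Ideal.mul_mem_right _ _ (Ideal.Quotient.eq_zero_iff_mem.1 (h1 l))
        have h6 : D * v a ∈ J := by
          have h7 := Ideal.add_mem _ h4 h5
          rwa [sub_add_cancel] at h7
        exact (hJ.mem_or_mem h6).resolve_left hDI
      exact Subtype.ext h3
    have : ∀ l, FiniteDimensional ℂ (gr J (k + δ - (e l).2)) := fun l => hgr _
    have h1 := LinearMap.finrank_le_finrank_of_injective hinj
    rw [Module.finrank_pi_fintype] at h1
    exact h1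

end Pool.Agent.Lib.MP_776403_ag.SD
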