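import Pool.Agent.Lib.MP_776403_ag.SD.W.Spec

/-!
# THEOREM W: sum of the filtration (helper28)
-/

set_option autoImplicit false

open MvPolynomial

noncomputable section

namespace Pool.Agent.Lib.MP_776403_ag.SD

namespace WSumAux

theorem tele (j : ℕ) (F f : ℕ → ℕ) (h : ∀ i, i ≤ j → F i = F (i + 1) + f i) (h0 : F (j + 1) = 0) :
    F 0 = ∑ i ∈ Finset.range (j + 1), f i := by
  have key : ∀ n, n ≤ j + 1 → F 0 = F n + ∑ i ∈ Finset.range n, f i := by
    intro n
    induction n with
    | zero => intro _; rw [Finset.sum_range_zero, add_zero]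
    | succ n ih =>
      intro hn
      rw [ih (by omega), h n (by omega), Finset.sum_range_succ]
      ring
  rw [key (j + 1) le_rfl, h0, zero_add]

end WSumAux

open WSumAux in
theorem wSum (hWEx : S_WEx) (hWB : S_WB) : S_WSum := by
  classical
  intro N α β _ _ J ω ω' P G M s c k hX j
  obtain ⟨-, -, -, -, h5, h6⟩ := hWB
  have hE : ∀ i : ℕ, ∃ m0 : ℕ, ∀ m, m0 ≤ m → i ≤ j → hV J (FW P G i j) m =
      hV J (FW P G (i + 1) j) m +
        hV J (PV (LW P i) (LW (MG M s G) (j - i))) (m + s * (j - i)) := by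
    intro i
    by_cases hi : i ≤ j
    · obtain ⟨m0, hm0⟩ := hWEx N α β J ω ω' P G M s c k hX i (j - i)
      rw [Nat.add_sub_cancel' hi] at hm0
      exact ⟨m0, fun m hm _ => hm0 m hm⟩
    · exact ⟨0, fun m _ h => absurd h hi⟩
  choose m0 hm0 using hE
  refine ⟨(Finset.range (j + 1)).sup m0, fun m hm => ?_⟩
  have e0 : FW P G 0 j = LW G j := funext fun k => h6 N α P G hX.sub j k
  have e1 : hV J (FW P G (j + 1) j) m = 0 := by
    have e2 : FW P G (j + 1) j m = ⊥ := (h5 N α P G (j + 1) j m).2 (Nat.lt_succ_self j)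
    rw [hV, e2, Submodule.map_bot, finrank_bot]
  rw [← e0]
  refine tele j (fun i => hV J (FW P G i j) m) _ (fun i hi => ?_) e1
  exact hm0 i m (le_trans (Finset.le_sup (Finset.mem_range.2 (by omega))) hm) hi

end Pool.Agent.Lib.MP_776403_ag.SD
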