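import Pool.Agent.Lib.MP_776403_ag.SD.W.Spec
import Pool.Agent.Lib.MP_776403_ag.SD.W.B

/-!
# (WTn): the kernel of `id^i ⊗ M^l`, with a frame
-/

set_option autoImplicit false

noncomputable section

namespace Pool.Agent.Lib.MP_776403_ag.SD.WTn

section abs

variable {K : Type} [CommRing K] {α β : Type} [Fintype α] [Fintype β] {n j : ℕ}

/-- the coordinates of a tensor -/
def tR (ρ : Fin n → α → K) (C : Fin j → Fin n) (z : (Fin j → α) → K) : K :=
  ∑ A, (∏ m, ρ (C m) (A m)) * z A

theorem tR_prod (ρ : Fin n → α → K) (C : Fin j → Fin n) (v : Fin j → α → K) :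
    tR ρ C (fun A => ∏ m, v m (A m)) = ∏ m, ∑ a, ρ (C m) a * v m a := by
  unfold tR
  rw [Finset.prod_univ_sum, Fintype.piFinset_univ]
  exact Finset.sum_congr rfl fun A _ => by rw [Finset.prod_mul_distrib]

theorem tR_add (ρ : Fin n → α → K) (C : Fin j → Fin n) (y z : (Fin j → α) → K) :
    tR ρ C (y + z) = tR ρ C y + tR ρ C z := by
  unfold tR
  simp only [Pi.add_apply, mul_add, Finset.sum_add_distrib]

theorem tR_smul (ρ : Fin n → α → K) (C : Fin j → Fin n) (r : K) (z : (Fin j → α) → K) :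
    tR ρ C (r • z) = r * tR ρ C z := by
  unfold tR
  simp only [Pi.smul_apply, smul_eq_mul, Finset.mul_sum]
  exact Finset.sum_congr rfl fun A _ => by ring

theorem tR_zero (ρ : Fin n → α → K) (C : Fin j → Fin n) :
    tR ρ C (0 : (Fin j → α) → K) = 0 := by
  unfold tR
  simp

theorem tR_sum {ι : Type} (s : Finset ι) (ρ : Fin n → α → K) (C : Fin j → Fin n)
    (z : ι → (Fin j → α) → K) : tR ρ C (∑ t ∈ s, z t) = ∑ t ∈ s, tR ρ C (z t) := by
  classical
  induction s using Finset.induction_on with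
  | empty => simp [tR_zero]
  | insert a s ha ih => rw [Finset.sum_insert ha, Finset.sum_insert ha, tR_add, ih]

/-- alternating -/
def Alt (z : (Fin j → α) → K) : Prop :=
  ∀ (τ : Equiv.Perm (Fin j)) (A : Fin j → α), z (A ∘ τ) = ((Equiv.Perm.sign τ : ℤ) : K) * z A

omit [Fintype α] in
theorem Alt.add {y z : (Fin j → α) → K} (hy : Alt y) (hz : Alt z) : Alt (y + z) := by
  intro τ A
  rw [Pi.add_apply, Pi.add_apply, hy τ A, hz τ A, mul_add]

omit [Fintype α] in
theorem Alt.smul {z : (Fin j → α) → K} (r : K) (hz : Alt z) : Alt (r • z) := by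
  intro τ A
  rw [Pi.smul_apply, Pi.smul_apply, hz τ A, smul_eq_mul, smul_eq_mul]
  ring

theorem tR_perm (ρ : Fin n → α → K) (C : Fin j → Fin n) (z : (Fin j → α) → K) (hz : Alt z)
    (τ : Equiv.Perm (Fin j)) : tR ρ (C ∘ τ) z = ((Equiv.Perm.sign τ : ℤ) : K) * tR ρ C z := by
  unfold tR
  rw [Finset.mul_sum]
  have h := Equiv.sum_comp (Equiv.arrowCongr τ.symm (Equiv.refl α))
    (fun A : Fin j → α => (∏ m, ρ ((C ∘ τ) m) (A m)) * z A)
  rw [← h]
  refine Finset.sum_congr rfl fun A _ => ?_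
  have h1 : (Equiv.arrowCongr τ.symm (Equiv.refl α)) A = A ∘ τ := by
    funext m
    simp [Equiv.arrowCongr]
  rw [h1, hz]
  have h2 : ∏ m, ρ ((C ∘ τ) m) ((A ∘ τ) m) = ∏ m, ρ (C m) (A m) :=
    Equiv.prod_comp τ (fun m => ρ (C m) (A m))
  rw [h2]
  ring


/-- the hypotheses, over a ring -/
structure Fk {c k : ℕ} (D D' : K) (e ρ : Fin (c + k) → α → K) (σ : Fin k → β → K)
    (M : Matrix β α K) (PG PP : Set (α → K)) : Prop where
  fr : ∀ v ∈ PG, ∀ a, D * v a = ∑ r, (∑ a', ρ r a' * v a') * e r a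
  van : ∀ v ∈ PP, ∀ r : Fin k, ∑ a, ρ (Fin.natAdd c r) a * v a = 0
  cmp : ∀ v ∈ PG, ∀ r : Fin k,
    D' * (∑ a, ρ (Fin.natAdd c r) a * v a) = D * (∑ y, σ r y * M.mulVec v y)

/-- number of the indices `< c` -/
def hN {c k : ℕ} (C : Fin j → Fin (c + k)) : ℕ :=
  (Finset.univ.filter fun m => (C m).val < c).card

/-- `id^i ⊗ M^l` -/
def tK (M : Matrix β α K) (i l : ℕ) (z : (Fin (i + l) → α) → K)
    (p : (Fin i → α) × (Fin l → β)) : K :=
  ∑ C : Fin l → α, (∏ m, M (p.2 m) (C m)) * z (Fin.append p.1 C)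

omit [Fintype β] in
theorem tK_add (M : Matrix β α K) (i l : ℕ) (y z : (Fin (i + l) → α) → K)
    (p : (Fin i → α) × (Fin l → β)) : tK M i l (y + z) p = tK M i l y p + tK M i l z p := by
  unfold tK
  simp only [Pi.add_apply, mul_add, Finset.sum_add_distrib]

omit [Fintype β] in
theorem tK_smul (M : Matrix β α K) (i l : ℕ) (r : K) (z : (Fin (i + l) → α) → K)
    (p : (Fin i → α) × (Fin l → β)) : tK M i l (r • z) p = r * tK M i l z p := by
  unfold tK
  simp only [Pi.smul_apply, smul_eq_mul, Finset.mul_sum]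
  exact Finset.sum_congr rfl fun A _ => by ring

theorem tK_prod (M : Matrix β α K) (i l : ℕ) (v : Fin (i + l) → α → K)
    (p : (Fin i → α) × (Fin l → β)) : tK M i l (fun A => ∏ m, v m (A m)) p =
      (∏ m, v (Fin.castAdd l m) (p.1 m)) * ∏ m, M.mulVec (v (Fin.natAdd i m)) (p.2 m) := by
  unfold tK
  have h1 : ∏ m, M.mulVec (v (Fin.natAdd i m)) (p.2 m) =
      ∑ C : Fin l → α, ∏ m, (M (p.2 m) (C m) * v (Fin.natAdd i m) (C m)) := by
    simp only [Matrix.mulVec, dotProduct]
    rw [Finset.prod_univ_sum, Fintype.piFinset_univ]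
  rw [h1, Finset.mul_sum]
  refine Finset.sum_congr rfl fun C _ => ?_
  beta_reduce
  rw [Fin.prod_univ_add, Finset.prod_mul_distrib]
  simp only [Fin.append_left, Fin.append_right]
  ring

/-- the linear properties -/
structure Pr {c k : ℕ} (D D' : K) (e ρ : Fin (c + k) → α → K) (σ : Fin k → β → K)
    (M : Matrix β α K) (i l : ℕ) (y : (Fin (i + l) → α) → K) : Prop where
  E : ∀ A, D ^ (i + l) * y A = ∑ C : Fin (i + l) → Fin (c + k), tR ρ C y * ∏ m, e (C m) (A m)
  two : ∀ C : Fin (i + l) → Fin (c + k), hN C < i → tR ρ C y = 0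
  three : ∀ (C1 : Fin i → Fin (c + k)) (C2 : Fin l → Fin k),
    D' ^ l * tR ρ (Fin.append C1 (fun m => Fin.natAdd c (C2 m))) y =
    D ^ l * ∑ p : (Fin i → α) × (Fin l → β),
      ((∏ m, ρ (C1 m) (p.1 m)) * ∏ m, σ (C2 m) (p.2 m)) * tK M i l y p

variable {c k : ℕ} {D D' : K} {e ρ : Fin (c + k) → α → K} {σ : Fin k → β → K}
    {M : Matrix β α K} {PG PP : Set (α → K)} {i l : ℕ}

theorem Pr.add {y z : (Fin (i + l) → α) → K} (hy : Pr D D' e ρ σ M i l y)
    (hz : Pr D D' e ρ σ M i l z) : Pr D D' e ρ σ M i l (y + z) := by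
  refine ⟨fun A => ?_, fun C hC => ?_, fun C1 C2 => ?_⟩
  · simp only [Pi.add_apply, mul_add, hy.E A, hz.E A, tR_add, add_mul, Finset.sum_add_distrib]
  · rw [tR_add, hy.two C hC, hz.two C hC, add_zero]
  · rw [tR_add, mul_add, hy.three, hz.three, ← mul_add, ← Finset.sum_add_distrib]
    congr 1
    refine Finset.sum_congr rfl fun p _ => ?_
    rw [tK_add, mul_add]

theorem Pr.smul {z : (Fin (i + l) → α) → K} (r : K)
    (hz : Pr D D' e ρ σ M i l z) : Pr D D' e ρ σ M i l (r • z) := by
  refine ⟨fun A => ?_, fun C hC => ?_, fun C1 C2 => ?_⟩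
  · have h := hz.E A
    simp only [Pi.smul_apply, smul_eq_mul, tR_smul]
    calc D ^ (i + l) * (r * z A) = r * (D ^ (i + l) * z A) := by ring
      _ = _ := by
        rw [h, Finset.mul_sum]
        exact Finset.sum_congr rfl fun C _ => by ring
  · rw [tR_smul, hz.two C hC, mul_zero]
  · have h := hz.three C1 C2
    rw [tR_smul]
    calc D' ^ l * (r * tR ρ (Fin.append C1 fun m => Fin.natAdd c (C2 m)) z) =
        r * (D' ^ l * tR ρ (Fin.append C1 fun m => Fin.natAdd c (C2 m)) z) := by ring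
      _ = _ := by
        rw [h]
        simp only [tK_smul, Finset.mul_sum]
        exact Finset.sum_congr rfl fun C _ => by ring

theorem Pr.zero : Pr D D' e ρ σ M i l (0 : (Fin (i + l) → α) → K) := by
  refine ⟨fun A => ?_, fun C hC => ?_, fun C1 C2 => ?_⟩
  · simp [tR_zero]
  · rw [tR_zero]
  · simp [tR_zero, tK]

theorem Pr.sum {ι : Type} (s : Finset ι) (z : ι → (Fin (i + l) → α) → K)
    (h : ∀ t ∈ s, Pr D D' e ρ σ M i l (z t)) : Pr D D' e ρ σ M i l (∑ t ∈ s, z t) := by
  classical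
  induction s using Finset.induction_on with
  | empty => simpa using Pr.zero
  | insert a s ha ih =>
      rw [Finset.sum_insert ha]
      exact (h a (Finset.mem_insert_self a s)).add
        (ih fun t ht => h t (Finset.mem_insert_of_mem ht))

/-- product tensors -/
theorem Pr.prod (H : Fk D D' e ρ σ M PG PP) (v : Fin (i + l) → α → K) (hv : ∀ m, v m ∈ PG)
    (T : Finset (Fin (i + l))) (hT : i ≤ T.card) (hv2 : ∀ m ∈ T, v m ∈ PP) :
    Pr D D' e ρ σ M i l (fun A => ∏ m, v m (A m)) := by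
  classical
  refine ⟨fun A => ?_, fun C hC => ?_, fun C1 C2 => ?_⟩
  · have h1 : D ^ (i + l) * ∏ m, v m (A m) = ∏ m, (D * v m (A m)) := by
      rw [Finset.prod_mul_distrib, Finset.prod_const, Finset.card_univ, Fintype.card_fin]
    rw [h1, Finset.prod_congr rfl (fun m _ => H.fr (v m) (hv m) (A m)), Finset.prod_univ_sum,
      Fintype.piFinset_univ]
    refine Finset.sum_congr rfl fun C _ => ?_
    rw [tR_prod, Finset.prod_mul_distrib]
  · rw [tR_prod]
    have h1 : ∃ m ∈ T, ¬ (C m).val < c := by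
      by_contra hcon
      push Not at hcon
      have h2 : T ⊆ Finset.univ.filter fun m => (C m).val < c := fun m hm =>
        Finset.mem_filter.2 ⟨Finset.mem_univ m, hcon m hm⟩
      have h3 := Finset.card_le_card h2
      unfold hN at hC
      omega
    obtain ⟨m, hm, hm2⟩ := h1
    refine Finset.prod_eq_zero (Finset.mem_univ m) ?_
    have h2 : C m = Fin.natAdd c ⟨(C m).val - c, by have := (C m).2; omega⟩ := by
      ext
      simp only [Fin.val_natAdd]
      omega
    rw [h2]
    exact H.van (v m) (hv2 m hm) _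
  · rw [tR_prod, Fin.prod_univ_add]
    simp only [Fin.append_left, Fin.append_right, tK_prod]
    have h1 : D' ^ l * ((∏ m : Fin i, ∑ a, ρ (C1 m) a * v (Fin.castAdd l m) a) *
        ∏ m : Fin l, ∑ a, ρ (Fin.natAdd c (C2 m)) a * v (Fin.natAdd i m) a) =
        (∏ m : Fin i, ∑ a, ρ (C1 m) a * v (Fin.castAdd l m) a) *
        ∏ m : Fin l, (D' * ∑ a, ρ (Fin.natAdd c (C2 m)) a * v (Fin.natAdd i m) a) := by
      rw [Finset.prod_mul_distrib, Finset.prod_const, Finset.card_univ, Fintype.card_fin]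
      ring
    rw [h1, Finset.prod_congr rfl (fun m _ => H.cmp (v (Fin.natAdd i m)) (hv _) (C2 m)),
      Finset.prod_mul_distrib, Finset.prod_const, Finset.card_univ, Fintype.card_fin,
      Finset.prod_univ_sum, Finset.prod_univ_sum, Fintype.piFinset_univ, Fintype.piFinset_univ,
      Fintype.sum_prod_type]
    have h2 : ∀ X Y : K, X * (D ^ l * Y) = D ^ l * (X * Y) := fun X Y => by ring
    rw [h2, Finset.sum_mul_sum]
    congr 1
    refine Finset.sum_congr rfl fun A _ => Finset.sum_congr rfl fun B _ => ?_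
    rw [Finset.prod_mul_distrib, Finset.prod_mul_distrib]
    ring

/-- minors -/
theorem Pr.det (H : Fk D D' e ρ σ M PG PP) (v : Fin (i + l) → α → K) (hv : ∀ m, v m ∈ PG)
    (T : Finset (Fin (i + l))) (hT : i ≤ T.card) (hv2 : ∀ m ∈ T, v m ∈ PP) (a : K) :
    Pr D D' e ρ σ M i l (fun A => a * Matrix.det (Matrix.of fun r m => v r (A m))) := by
  classical
  have h1 : (fun A : Fin (i + l) → α => a * Matrix.det (Matrix.of fun r m => v r (A m))) =
      ∑ τ : Equiv.Perm (Fin (i + l)), (a * ((Equiv.Perm.sign τ : ℤ) : K)) •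
        (fun A : Fin (i + l) → α => ∏ m, v (τ m) (A m)) := by
    funext A
    rw [Matrix.det_apply', Finset.mul_sum, Finset.sum_apply]
    refine Finset.sum_congr rfl fun τ _ => ?_
    simp only [Pi.smul_apply, smul_eq_mul, Matrix.of_apply]
    ring
  rw [h1]
  refine Pr.sum _ _ fun τ _ => Pr.smul _ ?_
  refine Pr.prod H (fun m => v (τ m)) (fun m => hv _) (T.map τ.symm.toEmbedding) ?_ ?_
  · rw [Finset.card_map]
    exact hT
  · intro m hm
    rw [Finset.mem_map] at hm
    obtain ⟨r, hr, rfl⟩ := hm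
    simpa using hv2 r hr

omit [Fintype α] in
theorem Alt.det (v : Fin j → α → K) (a : K) :
    Alt (fun A => a * Matrix.det (Matrix.of fun r m => v r (A m))) := by
  intro τ A
  have h1 : (Matrix.of fun r m => v r ((A ∘ τ) m)) =
      (Matrix.of fun r m => v r (A m)).submatrix id τ := by
    ext r m
    rfl
  simp only [h1, Matrix.det_permute']
  ring

/-- sorting the indices -/
theorem sortC {C : Fin (i + l) → Fin (c + k)} (hC : hN C = i) :
    ∃ (π : Equiv.Perm (Fin (i + l))) (C1 : Fin i → Fin (c + k)) (C2 : Fin l → Fin k),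
      C ∘ π = Fin.append C1 (fun m => Fin.natAdd c (C2 m)) := by
  classical
  have h1 : Fintype.card {m // (C m).val < c} = i := by
    rw [Fintype.card_subtype]
    exact hC
  have h2 : Fintype.card {m // ¬ (C m).val < c} = l := by
    rw [Fintype.card_subtype_compl, Fintype.card_fin, h1]
    omega
  let e1 : Fin i ≃ {m // (C m).val < c} := (Fintype.equivFinOfCardEq h1).symm
  let e2 : Fin l ≃ {m // ¬ (C m).val < c} := (Fintype.equivFinOfCardEq h2).symm
  let π : Equiv.Perm (Fin (i + l)) :=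
    (finSumFinEquiv.symm.trans (Equiv.sumCongr e1 e2)).trans (Equiv.sumCompl _)
  have h3 : ∀ m : Fin i, π (Fin.castAdd l m) = (e1 m).1 := by
    intro m
    simp [π, e1]
  have h4 : ∀ m : Fin l, π (Fin.natAdd i m) = (e2 m).1 := by
    intro m
    simp [π, e2]
  refine ⟨π, fun m => C (π (Fin.castAdd l m)),
    fun m => ⟨(C (π (Fin.natAdd i m))).val - c, ?_⟩, ?_⟩
  · have h5 := (C (π (Fin.natAdd i m))).2
    have h6 := (e2 m).2
    rw [← h4] at h6
    omega
  · funext m
    refine Fin.addCases (fun m => ?_) (fun m => ?_) m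
    · simp
    · have h6 := (e2 m).2
      rw [← h4] at h6
      ext
      simp only [Function.comp_apply, Fin.append_right, Fin.val_natAdd]
      omega

/-- the conclusion over a domain -/
theorem main [IsDomain K] (hD' : D' ≠ 0) {y : (Fin (i + l) → α) → K} (ha : Alt y)
    (hy : Pr D D' e ρ σ M i l y) (h0 : ∀ p, tK M i l y p = 0) (A : Fin (i + l) → α) :
    ((i + l).factorial : K) * (D ^ (i + l) * y A) =
      ∑ C ∈ Finset.univ.filter (fun C : Fin (i + l) → Fin (c + k) => i + 1 ≤ hN C),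
        tR ρ C y * Matrix.det (Matrix.of fun r m => e (C r) (A m)) := by
  classical
  have h1 : ∀ C : Fin (i + l) → Fin (c + k), ¬ i + 1 ≤ hN C → tR ρ C y = 0 := by
    intro C hC
    rcases Nat.lt_or_ge (hN C) i with h | h
    · exact hy.two C h
    · obtain ⟨π, C1, C2, hπ⟩ := sortC (C := C) (by omega)
      have h2 := hy.three C1 C2
      rw [← hπ, tR_perm ρ C y ha π, Finset.sum_eq_zero (fun p _ => by rw [h0 p, mul_zero]),
        mul_zero] at h2
      have h3 := (mul_eq_zero.1 h2).resolve_left (pow_ne_zero _ hD')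
      have h4 : IsUnit (((Equiv.Perm.sign π : ℤ) : K)) := by
        rcases Int.units_eq_one_or (Equiv.Perm.sign π) with h5 | h5 <;> simp [h5]
      exact (mul_eq_zero.1 h3).resolve_left h4.ne_zero
  rw [Finset.sum_filter_of_ne (fun C _ hC => by
    by_contra h
    exact hC (by rw [h1 C h, zero_mul]))]
  have h2 : ((i + l).factorial : K) * (D ^ (i + l) * y A) =
      ∑ τ : Equiv.Perm (Fin (i + l)),
        ((Equiv.Perm.sign τ : ℤ) : K) * (D ^ (i + l) * y (A ∘ τ)) := by
    have h3 : ∀ τ : Equiv.Perm (Fin (i + l)),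
        ((Equiv.Perm.sign τ : ℤ) : K) * (D ^ (i + l) * y (A ∘ τ)) = D ^ (i + l) * y A := by
      intro τ
      rw [ha τ A]
      rcases Int.units_eq_one_or (Equiv.Perm.sign τ) with h5 | h5 <;> simp [h5]
    rw [Finset.sum_congr rfl (fun τ _ => h3 τ), Finset.sum_const, Finset.card_univ,
      Fintype.card_perm, Fintype.card_fin, nsmul_eq_mul]
  rw [h2]
  simp only [hy.E, Finset.mul_sum]
  rw [Finset.sum_comm]
  refine Finset.sum_congr rfl fun C _ => ?_
  rw [← Matrix.det_transpose, Matrix.det_apply', Finset.mul_sum]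
  refine Finset.sum_congr rfl fun τ _ => ?_
  simp only [Matrix.transpose_apply, Matrix.of_apply, Function.comp_apply]
  ring

end abs

open MvPolynomial

/-- (WTn) The kernel of `Ψ = tM M i l`, with a frame. -/
theorem wTn : S_WTn := by
  classical
  intro N α β _ _ J ω P G M c k e ρ σ D D' δ hJ hP hG H i l m z hz hΨ
  haveI : IsDomain (Sx N ⧸ J) := (Ideal.Quotient.isDomain_iff_prime J).2 hJ
  let q : Sx N →+* Sx N ⧸ J := Ideal.Quotient.mk J
  have hq : ∀ x y : Sx N, x - y ∈ J → q x = q y := fun x y h => Ideal.Quotient.eq.2 h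
  have hq0 : ∀ x : Sx N, x ∈ J → q x = 0 := fun x h => Ideal.Quotient.eq_zero_iff_mem.2 h
  -- the data over the quotient
  let PG : Set (α → Sx N ⧸ J) := {v | ∃ g : (α → Sx N) × ℕ, (g ∈ P ∨ g ∈ G) ∧ v = fun a => q (g.1 a)}
  let PP : Set (α → Sx N ⧸ J) := {v | ∃ g ∈ P, v = fun a => q (g.1 a)}
  let eq' : Fin (c + k) → α → Sx N ⧸ J := fun r a => q ((e r).1 a)
  let ρq : Fin (c + k) → α → Sx N ⧸ J := fun r a => q (ρ r a)
  let σq : Fin k → β → Sx N ⧸ J := fun r a => q (σ r a)
  let Mq : Matrix β α (Sx N ⧸ J) := fun y a => q (M y a)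
  have hF : Fk (q D) (q D') eq' ρq σq Mq PG PP := by
    refine ⟨?_, ?_, ?_⟩
    · rintro v ⟨g, hg, rfl⟩ a
      have h := hq _ _ (H.fr g hg a)
      simpa [eq', ρq, map_mul, map_sum] using h
    · rintro v ⟨g, hg, rfl⟩ r
      have h := hq0 _ (H.van g hg r)
      simpa [ρq, map_mul, map_sum] using h
    · rintro v ⟨g, hg, rfl⟩ r
      have h := hq _ _ (H.cmp g hg r)
      simpa [ρq, σq, Mq, map_mul, map_sum, Matrix.mulVec, dotProduct] using h
  -- the properties of z
  have hspan : Alt (fun A => q (z A)) ∧ Pr (q D) (q D') eq' ρq σq Mq i l (fun A => q (z A)) := by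
    refine Submodule.span_induction (p := fun (z : (Fin (i + l) → α) → Sx N) _ =>
      Alt (fun A => q (z A)) ∧ Pr (q D) (q D') eq' ρq σq Mq i l (fun A => q (z A)))
      ?_ ?_ ?_ ?_ hz
    · rintro z ⟨a, d, g, T, ha, hT, hg1, hg2, hd, rfl⟩
      have h1 : (fun A : Fin (i + l) → α => q (a * Matrix.det (Matrix.of fun r m => (g r).1 (A m)))) =
          (fun A => q a * Matrix.det (Matrix.of fun r m => (fun a => q ((g r).1 a)) (A m))) := by
        funext A
        rw [map_mul, RingHom.map_det]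
        rfl
      rw [h1]
      have hg : ∀ r, g r ∈ P ∨ g r ∈ G := by
        intro r
        by_cases hr : r ∈ T
        · exact Or.inl (hg1 r hr)
        · exact Or.inr (hg2 r hr)
      exact ⟨Alt.det (fun r a => q ((g r).1 a)) (q a),
        Pr.det hF (fun r a => q ((g r).1 a)) (fun r => ⟨g r, hg r, rfl⟩) T hT
          (fun r hr => ⟨g r, hg1 r hr, rfl⟩) (q a)⟩
    · have h1 : (fun A : Fin (i + l) → α => q ((0 : (Fin (i + l) → α) → Sx N) A)) = 0 := by
        funext A
        simp
      rw [h1]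
      exact ⟨fun τ A => by simp, Pr.zero⟩
    · intro x y _ _ hx hy
      have h1 : (fun A : Fin (i + l) → α => q ((x + y) A)) =
          (fun A => q (x A)) + (fun A => q (y A)) := by
        funext A
        simp
      rw [h1]
      exact ⟨hx.1.add hy.1, hx.2.add hy.2⟩
    · intro r x _ hx
      have h1 : (fun A : Fin (i + l) → α => q ((r • x) A)) =
          q (C r) • (fun A => q (x A)) := by
        funext A
        simp only [Pi.smul_apply, smul_eq_mul, ← map_mul, MvPolynomial.C_mul']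
      rw [h1]
      exact ⟨hx.1.smul _, hx.2.smul _⟩
  have hΨ' : ∀ p, tK Mq i l (fun A => q (z A)) p = 0 := by
    intro p
    have h := hq0 _ (hΨ p)
    simpa [tM, tK, Mq, map_mul, map_sum] using h
  have hD' : q D' ≠ 0 := fun h => H.nD' (Ideal.Quotient.eq_zero_iff_mem.1 h)
  have hmain := main hD' hspan.1 hspan.2 hΨ'
  -- homogeneity
  have hzh : ∀ A, (z A).IsHomogeneous (m + ∑ t, ω (A t)) := fun A =>
    (WBAux.gwFW ω P G i (i + l) hG hP).hom m z hz A
  have hρz : ∀ C : Fin (i + l) → Fin (c + k), (tR ρ C z).IsHomogeneous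
      (m + (i + l) * δ - ∑ t, (e (C t)).2) := by
    intro C
    refine IsHomogeneous.sum _ _ _ fun A _ => ?_
    by_cases h0 : (∏ t, ρ (C t) (A t)) = 0
    · rw [h0, zero_mul]
      exact isHomogeneous_zero _ _ _
    · have h1 : ∀ t, (e (C t)).2 + ω (A t) ≤ δ := by
        intro t
        refine (H.hρ (C t) (A t)).2 fun h => h0 ?_
        exact Finset.prod_eq_zero (Finset.mem_univ t) h
      have h2 : (∏ t, ρ (C t) (A t)).IsHomogeneous (∑ t, (δ - (e (C t)).2 - ω (A t))) :=
        IsHomogeneous.prod _ _ _ fun t _ => (H.hρ (C t) (A t)).1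
      have h3 := h2.mul (hzh A)
      have h4 : ∑ t, (δ - (e (C t)).2 - ω (A t)) + ∑ t, (e (C t)).2 + ∑ t, ω (A t) =
          (i + l) * δ := by
        rw [← Finset.sum_add_distrib, ← Finset.sum_add_distrib]
        have h5 : ∀ t : Fin (i + l), δ - (e (C t)).2 - ω (A t) + (e (C t)).2 + ω (A t) = δ := by
          intro t
          have := h1 t
          omega
        rw [Finset.sum_congr rfl (fun t _ => h5 t), Finset.sum_const, Finset.card_univ,
          Fintype.card_fin, smul_eq_mul]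
      have h6 : ∑ t, (δ - (e (C t)).2 - ω (A t)) + (m + ∑ t, ω (A t)) =
          m + (i + l) * δ - ∑ t, (e (C t)).2 := by omega
      rw [← h6]
      exact h3
  -- the element
  refine ⟨∑ C ∈ Finset.univ.filter (fun C : Fin (i + l) → Fin (c + k) => i + 1 ≤ hN C),
    (((i + l).factorial : ℂ)⁻¹) • (fun A : Fin (i + l) → α => tR ρ C z *
      Matrix.det (Matrix.of fun r m => (e (C r)).1 (A m))), ?_, ?_⟩
  · refine Submodule.sum_mem _ fun C hC => Submodule.smul_mem _ _ (Submodule.subset_span ?_)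
    have hC' := (Finset.mem_filter.1 hC).2
    refine ⟨tR ρ C z, m + (i + l) * δ - ∑ t, (e (C t)).2, fun t => e (C t),
      Finset.univ.filter fun t => (C t).val < c, hρz C, hC', ?_, ?_, ?_, rfl⟩
    · intro t ht
      have h1 : C t = Fin.castAdd k ⟨(C t).val, (Finset.mem_filter.1 ht).2⟩ := by
        ext
        rfl
      change e (C t) ∈ P
      rw [h1]
      exact H.eP _
    · intro t ht
      have h0 : ¬ (C t).val < c := fun h => ht (Finset.mem_filter.2 ⟨Finset.mem_univ t, h⟩)
      have h1 : C t = Fin.natAdd c ⟨(C t).val - c, by have := (C t).2; omega⟩ := by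
        ext
        simp only [Fin.val_natAdd]
        omega
      change e (C t) ∈ G
      rw [h1]
      exact H.eG _
    · have h1 : ∑ t, (e (C t)).2 ≤ (i + l) * δ := by
        refine (Finset.sum_le_sum fun t _ => H.le (C t)).trans ?_
        rw [Finset.sum_const, Finset.card_univ, Fintype.card_fin, smul_eq_mul]
      change m + (i + l) * δ - ∑ t, (e (C t)).2 + ∑ t, (e (C t)).2 = m + (i + l) * δ
      omega
  · intro A
    have h1 := hmain A
    have h2 : q ((((i + l).factorial : ℕ) : Sx N) * (D ^ (i + l) * z A)) =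
        q (∑ C ∈ Finset.univ.filter (fun C : Fin (i + l) → Fin (c + k) => i + 1 ≤ hN C),
          tR ρ C z * Matrix.det (Matrix.of fun r m => (e (C r)).1 (A m))) := by
      rw [map_sum]
      simp only [map_mul, map_natCast, map_pow]
      rw [h1]
      refine Finset.sum_congr rfl fun C _ => ?_
      have h3 : q (tR ρ C z) = tR ρq C (fun A => q (z A)) := by
        simp [tR, ρq, map_mul, map_sum, map_prod]
      rw [h3, RingHom.map_det]
      rfl
    have h3 := Ideal.Quotient.eq.1 h2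
    have h4 : D ^ (i + l) * z A - (∑ C ∈ Finset.univ.filter
        (fun C : Fin (i + l) → Fin (c + k) => i + 1 ≤ hN C),
        (((i + l).factorial : ℂ)⁻¹) • (fun A : Fin (i + l) → α => tR ρ C z *
          Matrix.det (Matrix.of fun r m => (e (C r)).1 (A m)))) A =
        C (((i + l).factorial : ℂ)⁻¹) * ((((i + l).factorial : ℕ) : Sx N) * (D ^ (i + l) * z A) -
          ∑ C ∈ Finset.univ.filter (fun C : Fin (i + l) → Fin (c + k) => i + 1 ≤ hN C),
          tR ρ C z * Matrix.det (Matrix.of fun r m => (e (C r)).1 (A m))) := by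
      have h5 : (C (((i + l).factorial : ℂ)⁻¹) : Sx N) * (((i + l).factorial : ℕ) : Sx N) = 1 := by
        have h6 : (((i + l).factorial : ℕ) : Sx N) = C (((i + l).factorial : ℕ) : ℂ) := by
          rw [map_natCast]
        rw [h6, ← map_mul, inv_mul_cancel₀ (by exact_mod_cast Nat.factorial_ne_zero _), map_one]
      rw [mul_sub, ← mul_assoc, h5, one_mul, Finset.sum_apply, Finset.mul_sum]
      congr 1
      refine Finset.sum_congr rfl fun C' _ => ?_
      rw [Pi.smul_apply, MvPolynomial.C_mul']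
    rw [h4]
    exact J.mul_mem_left _ h3

end Pool.Agent.Lib.MP_776403_ag.SD.WTn

namespace Pool.Agent.Lib.MP_776403_ag.SD

/-- (WTn) -/
theorem wTn : S_WTn := WTn.wTn

end Pool.Agent.Lib.MP_776403_ag.SD
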