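import Pool.Agent.Lib.MP_776403_ag.SD.W.Spec

/-!
# THEOREM W, `S_WTw`: twisting a weighted family
-/

set_option autoImplicit false

open MvPolynomial

noncomputable section

namespace Pool.Agent.Lib.MP_776403_ag.SD

namespace WTwAux

variable {N : ℕ}

/-- The map `w ↦ (μ i' * w (π i'))`. -/
def TH {ι ι' : Type} (π : ι' → ι) (μ : ι' → Sx N) : (ι → Sx N) →ₗ[ℂ] (ι' → Sx N) where
  toFun w := fun i' => μ i' * w (π i')
  map_add' v w := by
    funext i'
    simp only [Pi.add_apply, mul_add]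
  map_smul' r w := by
    funext i'
    simp only [Pi.smul_apply, RingHom.id_apply, mul_smul_comm]

/-- The same map modulo `J`. -/
def THb {ι ι' : Type} (J : Ideal (Sx N)) (π : ι' → ι) (μ : ι' → Sx N) :
    (ι → Sx N ⧸ J) →ₗ[ℂ] (ι' → Sx N ⧸ J) where
  toFun w := fun i' => Ideal.Quotient.mk J (μ i') * w (π i')
  map_add' v w := by
    funext i'
    simp only [Pi.add_apply, mul_add]
  map_smul' r w := by
    funext i'
    simp only [Pi.smul_apply, RingHom.id_apply, mul_smul_comm]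

theorem red_TH {ι ι' : Type} (J : Ideal (Sx N)) (π : ι' → ι) (μ : ι' → Sx N) :
    (redL ι' J) ∘ₗ (TH π μ) = (THb J π μ) ∘ₗ (redL ι J) := by
  apply LinearMap.ext
  intro w
  funext i'
  show Ideal.Quotient.mk J (μ i' * w (π i')) =
    Ideal.Quotient.mk J (μ i') * Ideal.Quotient.mk J (w (π i'))
  rw [map_mul]

theorem THb_inj {ι ι' : Type} {J : Ideal (Sx N)} {π : ι' → ι} {μ : ι' → Sx N}
    (h : ∀ (i : ι) (s : Sx N), (∀ i', π i' = i → μ i' * s ∈ J) → s ∈ J) :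
    Function.Injective (THb J π μ) := by
  rw [← LinearMap.ker_eq_bot, LinearMap.ker_eq_bot']
  intro w hw
  funext i
  obtain ⟨s, hs⟩ := Ideal.Quotient.mk_surjective (w i)
  rw [← hs, Pi.zero_apply, Ideal.Quotient.eq_zero_iff_mem]
  refine h i s fun i' hi' => ?_
  rw [← Ideal.Quotient.eq_zero_iff_mem, map_mul, hs, ← hi']
  exact congrFun hw i'

theorem finrank_TH {ι ι' : Type} {J : Ideal (Sx N)} {π : ι' → ι} {μ : ι' → Sx N}
    (h : ∀ (i : ι) (s : Sx N), (∀ i', π i' = i → μ i' * s ∈ J) → s ∈ J)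
    (U : Submodule ℂ (ι → Sx N)) :
    Module.finrank ℂ ((U.map (TH π μ)).map (redL ι' J)) =
      Module.finrank ℂ (U.map (redL ι J)) := by
  rw [← Submodule.map_comp, red_TH, Submodule.map_comp]
  exact (Submodule.equivMapOfInjective (THb J π μ) (THb_inj h) (U.map (redL ι J))).finrank_eq.symm

/-- The twisted family. -/
def Wt {β : Type} (ω : β → ℕ) (e : ℕ) (W : ℕ → Submodule ℂ (β → Sx N)) (k : ℕ) :
    Submodule ℂ (β × Fin (N + 1) → Sx N) :=
  if e ≤ k then (W (k - e)).map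
    (TH (fun i : β × Fin (N + 1) => i.1) fun i => (X i.2 : Sx N) ^ (e - ω i.1)) else ⊥

theorem Wt_add {β : Type} (ω : β → ℕ) (e : ℕ) (W : ℕ → Submodule ℂ (β → Sx N)) (k : ℕ) :
    Wt ω e W (k + e) = (W k).map
      (TH (fun i : β × Fin (N + 1) => i.1) fun i => (X i.2 : Sx N) ^ (e - ω i.1)) := by
  unfold Wt
  rw [if_pos (Nat.le_add_left e k), Nat.add_sub_cancel]

theorem Wt_lt {β : Type} (ω : β → ℕ) (e : ℕ) (W : ℕ → Submodule ℂ (β → Sx N)) {k : ℕ}
    (h : k < e) : Wt ω e W k = ⊥ := by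
  unfold Wt
  rw [if_neg (by omega)]

theorem Wt_GV {β : Type} {ω : β → ℕ} {e : ℕ} (he : ∀ b, ω b ≤ e)
    {W : ℕ → Submodule ℂ (β → Sx N)} (hW : GW ω W) : GV (Wt ω e W) := by
  refine ⟨fun k v hv i => ?_, fun k v hv i => ?_⟩
  · rcases Nat.lt_or_ge k e with hk | hk
    · rw [Wt_lt ω e W hk, Submodule.mem_bot] at hv
      rw [hv, Pi.zero_apply]
      exact isHomogeneous_zero _ _ _
    · obtain ⟨k', rfl⟩ : ∃ k', k = k' + e := ⟨k - e, by omega⟩
      rw [Wt_add] at hv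
      obtain ⟨w, hw, rfl⟩ := Submodule.mem_map.mp hv
      have h1 := ((isHomogeneous_X ℂ i.2).pow (e - ω i.1)).mul (hW.hom k' w hw i.1)
      have h2 : 1 * (e - ω i.1) + (k' + ω i.1) = k' + e := by
        have := he i.1
        omega
      rw [h2] at h1
      exact h1
  · rcases Nat.lt_or_ge k e with hk | hk
    · rw [Wt_lt ω e W hk, Submodule.mem_bot] at hv
      have h1 : (fun a => (X i : Sx N) * v a) = 0 := by
        funext a
        rw [hv, Pi.zero_apply, mul_zero]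
      rw [h1]
      exact Submodule.zero_mem _
    · obtain ⟨k', rfl⟩ : ∃ k', k = k' + e := ⟨k - e, by omega⟩
      rw [Wt_add] at hv
      obtain ⟨w, hw, rfl⟩ := Submodule.mem_map.mp hv
      have h3 : k' + e + 1 = k' + 1 + e := by omega
      rw [h3, Wt_add]
      refine Submodule.mem_map.mpr ⟨_, hW.mul k' w hw i, ?_⟩
      funext a
      show (X a.2 : Sx N) ^ (e - ω a.1) * ((X i : Sx N) * w a.1) =
        (X i : Sx N) * ((X a.2 : Sx N) ^ (e - ω a.1) * w a.1)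
      ring

/-- `θ'`. -/
def th' {α β : Type} (ω : β → ℕ) (e : ℕ) :
    (α × β → Sx N) →ₗ[ℂ] (α × (β × Fin (N + 1)) → Sx N) :=
  TH (fun i : α × (β × Fin (N + 1)) => (i.1, i.2.1)) fun i => (X i.2.2 : Sx N) ^ (e - ω i.2.1)

theorem PV_Wt {α β : Type} (ω : β → ℕ) (e : ℕ) (V : ℕ → Submodule ℂ (α → Sx N))
    (W : ℕ → Submodule ℂ (β → Sx N)) (k : ℕ) :
    PV V (Wt ω e W) (k + e) = (PV V W k).map (th' ω e) := by
  apply le_antisymm
  · refine Submodule.span_le.mpr ?_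
    rintro z ⟨k1, k2, v, w', hk, hv, hw', rfl⟩
    rcases Nat.lt_or_ge k2 e with h2 | h2
    · rw [Wt_lt ω e W h2, Submodule.mem_bot] at hw'
      have h1 : (fun p : α × (β × Fin (N + 1)) => v p.1 * w' p.2) = 0 := by
        funext p
        rw [hw', Pi.zero_apply, mul_zero]
        rfl
      rw [h1]
      exact Submodule.zero_mem _
    · obtain ⟨k3, rfl⟩ : ∃ k3, k2 = k3 + e := ⟨k2 - e, by omega⟩
      rw [Wt_add] at hw'
      obtain ⟨w, hw, rfl⟩ := Submodule.mem_map.mp hw'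
      refine Submodule.mem_map.mpr ⟨fun p => v p.1 * w p.2,
        Submodule.subset_span ⟨k1, k3, v, w, by omega, hv, hw, rfl⟩, ?_⟩
      funext p
      show (X p.2.2 : Sx N) ^ (e - ω p.2.1) * (v p.1 * w p.2.1) =
        v p.1 * ((X p.2.2 : Sx N) ^ (e - ω p.2.1) * w p.2.1)
      ring
  · unfold PV
    rw [Submodule.map_span_le]
    rintro z ⟨k1, k2, v, w, hk, hv, hw, rfl⟩
    refine Submodule.subset_span ⟨k1, k2 + e, v, TH (fun i : β × Fin (N + 1) => i.1)
      (fun i => (X i.2 : Sx N) ^ (e - ω i.1)) w, by omega, hv, ?_, ?_⟩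
    · rw [Wt_add]
      exact Submodule.mem_map_of_mem hw
    · funext p
      show (X p.2.2 : Sx N) ^ (e - ω p.2.1) * (v p.1 * w p.2.1) =
        v p.1 * ((X p.2.2 : Sx N) ^ (e - ω p.2.1) * w p.2.1)
      ring

theorem PV_Wt_lt {α β : Type} (ω : β → ℕ) (e : ℕ) (V : ℕ → Submodule ℂ (α → Sx N))
    (W : ℕ → Submodule ℂ (β → Sx N)) {k : ℕ} (hk : k < e) : PV V (Wt ω e W) k = ⊥ := by
  rw [eq_bot_iff]
  refine Submodule.span_le.mpr ?_
  rintro z ⟨k1, k2, v, w', hk', hv, hw', rfl⟩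
  rw [Wt_lt ω e W (by omega), Submodule.mem_bot] at hw'
  have h1 : (fun p : α × (β × Fin (N + 1)) => v p.1 * w' p.2) = 0 := by
    funext p
    rw [hw', Pi.zero_apply, mul_zero]
    rfl
  rw [h1]
  exact Submodule.zero_mem _

theorem finrank_bot_map {ι : Type} (J : Ideal (Sx N)) :
    Module.finrank ℂ ((⊥ : Submodule ℂ (ι → Sx N)).map (redL ι J)) = 0 := by
  rw [Submodule.map_bot]
  exact finrank_bot ℂ _

/-- The theorem, without `S_WB`. -/
theorem wTw0 : S_WTw := by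
  intro N β _ ω J hJ hne W hW
  obtain ⟨pt, hpt, hpt0⟩ := hne
  obtain ⟨p0, hp0⟩ : ∃ p0, pt p0 ≠ 0 := by
    by_contra h
    push Not at h
    exact hpt0 (funext h)
  have hX : (X p0 : Sx N) ∉ J := by
    intro h
    have h1 := hpt _ h
    rw [eval_X] at h1
    exact hp0 h1
  have hcancel : ∀ (n : ℕ) (s : Sx N), (X p0 : Sx N) ^ n * s ∈ J → s ∈ J := by
    intro n s h
    rcases hJ.mem_or_mem h with h1 | h1
    · exact absurd (hJ.mem_of_pow_mem n h1) hX
    · exact h1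
  obtain ⟨e, he⟩ : ∃ e : ℕ, ∀ b, ω b ≤ e := ⟨∑ b, ω b, fun b =>
    Finset.single_le_sum (f := ω) (fun _ _ => Nat.zero_le _) (Finset.mem_univ b)⟩
  have hi1 : ∀ (b : β) (s : Sx N), (∀ i' : β × Fin (N + 1), i'.1 = b →
      (X i'.2 : Sx N) ^ (e - ω i'.1) * s ∈ J) → s ∈ J := by
    intro b s h
    exact hcancel (e - ω b) s (h (b, p0) rfl)
  refine ⟨e, Wt ω e W, Wt_GV he hW, fun k => ⟨?_, fun hk => ?_⟩, fun α _ V k =>
    ⟨?_, fun hk => ?_⟩⟩
  · unfold hV
    rw [Wt_add]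
    exact finrank_TH hi1 (W k)
  · unfold hV
    rw [Wt_lt ω e W hk]
    exact finrank_bot_map J
  · unfold hV
    rw [PV_Wt]
    have hi2 : ∀ (b : α × β) (s : Sx N), (∀ i' : α × (β × Fin (N + 1)), (i'.1, i'.2.1) = b →
        (X i'.2.2 : Sx N) ^ (e - ω i'.2.1) * s ∈ J) → s ∈ J := by
      intro b s h
      exact hcancel (e - ω b.2) s (h (b.1, (b.2, p0)) rfl)
    exact finrank_TH hi2 (PV V W k)
  · unfold hV
    rw [PV_Wt_lt ω e V W hk]
    exact finrank_bot_map J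

end WTwAux

/-- `S_WTw` (the hypothesis `S_WB` is not used). -/
theorem wTw (_hWB : S_WB) : S_WTw := WTwAux.wTw0

end Pool.Agent.Lib.MP_776403_ag.SD
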