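import Pool.Agent.Lib.MP_776403_ag.SD.W.Spec

set_option autoImplicit false

open MvPolynomial

noncomputable section

namespace Pool.Agent.Lib.MP_776403_ag.SD

namespace WVanAux

variable {N : ℕ}

theorem det0 {α : Type} [Finite α] (F : Submodule ℂ (α → ℂ)) {j : ℕ}
    (h : Module.finrank ℂ F < j) (v : Fin j → (α → ℂ)) (hv : ∀ l, v l ∈ F) (A : Fin j → α) :
    Matrix.det (Matrix.of fun l m => v l (A m)) = 0 := by
  haveI := Fintype.ofFinite α
  apply Matrix.det_eq_zero_of_not_linearIndependent_rows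
  intro hli
  have h1 : LinearIndependent ℂ v := by
    have h2 : LinearIndependent ℂ ((LinearMap.funLeft ℂ ℂ A) ∘ v) := hli
    exact h2.of_comp _
  have h3 : LinearIndependent ℂ (fun l => (⟨v l, hv l⟩ : F)) := by
    have h4 : LinearIndependent ℂ (F.subtype ∘ fun l => (⟨v l, hv l⟩ : F)) := h1
    exact h4.of_comp _
  have h5 := h3.fintype_card_le_finrank
  rw [Fintype.card_fin] at h5
  omega

theorem span_mem {α : Type} {J : Ideal (Sx N)} {T : Set (α → Sx N)}
    (h : ∀ z ∈ T, ∀ a, z a ∈ J) {z : α → Sx N} (hz : z ∈ Submodule.span ℂ T) (a : α) :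
    z a ∈ J := by
  have h1 : Submodule.span ℂ T ≤ (J.restrictScalars ℂ).comap (LinearMap.proj a) :=
    Submodule.span_le.2 fun z hz => h z hz a
  exact h1 hz

theorem hV0 {α : Type} {J : Ideal (Sx N)} {V : ℕ → Submodule ℂ (α → Sx N)} {k : ℕ}
    (h : ∀ z ∈ V k, ∀ a, z a ∈ J) : hV J V k = 0 := by
  unfold hV
  have h1 : (V k).map (redL α J) = ⊥ := by
    rw [Submodule.eq_bot_iff]
    rintro _ ⟨z, hz, rfl⟩
    funext a
    exact Ideal.Quotient.eq_zero_iff_mem.2 (h z hz a)
  rw [h1, finrank_bot]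

theorem det_hom {j : ℕ} {v : Fin j → Fin j → Sx N} {κ : Fin j → ℕ}
    (h : ∀ l m, (v l m).IsHomogeneous (κ l)) :
    (Matrix.det (Matrix.of v)).IsHomogeneous (∑ l, κ l) := by
  rw [Matrix.det_apply]
  refine IsHomogeneous.sum _ _ _ fun σ _ => ?_
  have h1 : (∏ i, (Matrix.of v) (σ i) i).IsHomogeneous (∑ l, κ l) := by
    have h2 : ∑ l, κ l = ∑ i, κ (σ i) := (Equiv.sum_comp σ κ).symm
    rw [h2]
    exact IsHomogeneous.prod _ _ _ fun i _ => h (σ i) i
  rcases Int.units_eq_one_or (Equiv.Perm.sign σ) with h3 | h3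
  · rw [h3, one_smul]
    exact h1
  · rw [h3, Units.neg_smul, one_smul]
    exact h1.neg

theorem eval_det {j : ℕ} (v : Fin j → Fin j → Sx N) (p : Vx N) :
    eval p (Matrix.det (Matrix.of v)) = Matrix.det (Matrix.of fun l m => eval p (v l m)) := by
  rw [RingHom.map_det]
  rfl

end WVanAux

open WVanAux in
theorem wVan (hNull : S_Null) (hCN : S_CN) (hWB : S_WB) : S_WVan := by
  intro N c a I J _ hI hIJ hJ hJh hex β _ ω q M Ψ hW
  refine ⟨fun j k hj => hV0 fun z hz A => ?_, fun γ _ ω' W _ i k hi => hV0 ?_⟩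
  · have hHG : HG ω (QG q) := by
      rintro g ⟨i, k', rfl⟩ y
      exact hW.hom i k' y
    have hG := (hWB.2.1 N β ω (QG q) (QG q) j hHG).1
    refine span_mem (J := J) ?_ hz A
    intro z' hz' A'
    have hhom := hG.hom k z' (Submodule.subset_span hz') A'
    refine (hNull N J hJ hJh).2 hex (z' A') _ hhom ?_
    intro p hp hp0
    obtain ⟨b, e, g, hb, hg, hk, rfl⟩ := hz'
    have h1 : Module.finrank ℂ (fib (QG q) p) < j := by
      have h2 := hW.rk p hp hp0
      omega
    have h3 := det0 (fib (QG q) p) h1 (fun l => fun y => eval p ((g l).1 y))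
      (fun l => Submodule.subset_span ⟨g l, hg l, rfl⟩) A'
    change eval p (b * Matrix.det (Matrix.of fun l m => (g l).1 (A' m))) = 0
    rw [map_mul, eval_det, h3, mul_zero]
  · intro z hz
    refine fun y => span_mem (J := J) ?_ hz y
    rintro _ ⟨k1, k2, v, w, _, hv, _, rfl⟩ y
    refine J.mul_mem_right _ (span_mem (J := J) ?_ hv y.1)
    rintro _ ⟨b, e, F, f, hb, hF, _, rfl⟩ A
    refine J.mul_mem_left _ ?_
    have hhom : (Matrix.det (Matrix.of fun i k => pderiv (A k) (F i))).IsHomogeneous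
        (∑ l, (f l - 1)) := det_hom fun l m => (hF l).2.pderiv
    refine (hNull N J hJ hJh).2 hex _ _ hhom ?_
    intro p hp hp0
    have hpI : p ∈ zer I := fun G hG => hp G (hIJ hG)
    have h1 := hCN N c I hI p hpI hp0
    have h2 : Module.finrank ℂ (CN I p) < i := by
      rw [h1.1]
      exact hi
    have h3 := det0 (CN I p) h2 (fun l => grad (F l) p) (fun l => h1.2.1 (F l) (hF l).1) A
    rw [eval_det]
    exact h3

end Pool.Agent.Lib.MP_776403_ag.SD
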