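import Pool.Agent.Lib.MP_776403_ag.SD.W.Spec

/-!
# THEOREM W: the second exact sequence (ranks)
-/

set_option autoImplicit false

open MvPolynomial

noncomputable section

namespace Pool.Agent.Lib.MP_776403_ag.SD

namespace WXDAux

variable {N : ℕ}

/-- Rank-nullity for a submodule. -/
theorem rank_null {M M' : Type} [AddCommGroup M] [Module ℂ M] [AddCommGroup M'] [Module ℂ M']
    (f : M →ₗ[ℂ] M') (V W : Submodule ℂ M) [FiniteDimensional ℂ V] (hWV : W ≤ V)
    (h1 : ∀ w ∈ V, f w = 0 → w ∈ W) (h2 : ∀ w ∈ W, f w = 0) :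
    Module.finrank ℂ V = Module.finrank ℂ (V.map f) + Module.finrank ℂ W := by
  have hr := LinearMap.finrank_range_add_finrank_ker (f.domRestrict V)
  rw [LinearMap.range_domRestrict] at hr
  have hk : LinearMap.ker (f.domRestrict V) = Submodule.comap V.subtype W := by
    ext x
    rw [LinearMap.mem_ker, LinearMap.domRestrict_apply, Submodule.mem_comap, Submodule.subtype_apply]
    exact ⟨h1 _ x.2, h2 _⟩
  rw [hk, LinearEquiv.finrank_eq (Submodule.comapSubtypeEquivOfLe hWV)] at hr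
  exact hr.symm

section

variable {c : ℕ} {β : Type}

/-- The projection to the second factor. -/
def prR (c : ℕ) (β : Type) : (Fin c ⊕ β → ℂ) →ₗ[ℂ] (β → ℂ) := LinearMap.funLeft ℂ ℂ Sum.inr

/-- The inclusion of the first factor. -/
def inA (c : ℕ) (β : Type) : (Fin c → ℂ) →ₗ[ℂ] (Fin c ⊕ β → ℂ) where
  toFun u := Sum.elim u (fun _ => 0)
  map_add' u v := by
    funext a
    rcases a with a | a
    · rfl
    · exact (add_zero (0 : ℂ)).symm
  map_smul' r u := by
    funext a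
    rcases a with a | a
    · rfl
    · exact (smul_zero r).symm

/-- The inclusion of the second factor. -/
def inB (c : ℕ) (β : Type) : (β → ℂ) →ₗ[ℂ] (Fin c ⊕ β → ℂ) where
  toFun u := Sum.elim (fun _ => 0) u
  map_add' u v := by
    funext a
    rcases a with a | a
    · exact (add_zero (0 : ℂ)).symm
    · rfl
  map_smul' r u := by
    funext a
    rcases a with a | a
    · exact (smul_zero r).symm
    · rfl

theorem inA_inj : Function.Injective (inA c β) := fun u v h => by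
  funext i
  exact congrFun h (Sum.inl i)

theorem prR_inA (u : Fin c → ℂ) : prR c β (inA c β u) = 0 := rfl

theorem val_eB (p : Vx N) (i : Fin c) :
    (fun a => eval p ((eB β i : Fin c ⊕ β → Sx N) a)) = inA c β (Pi.single i 1) := by
  funext a
  rcases a with a | a
  · change eval p (if a = i then (1 : Sx N) else 0) = (Pi.single i (1 : ℂ) : Fin c → ℂ) a
    by_cases h : a = i
    · rw [if_pos h, map_one, h, Pi.single_eq_same]
    · rw [if_neg h, map_zero, Pi.single_eq_of_ne h]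
  · exact map_zero _

theorem val_iQ (p : Vx N) (v : β → Sx N) :
    (fun a => eval p (iQ c v a)) = inB c β (fun a => eval p (v a)) := by
  funext a
  rcases a with a | a
  · exact map_zero _
  · rfl

theorem mem_fib {α : Type} {G : Gn N α} (p : Vx N) {g : (α → Sx N) × ℕ} (hg : g ∈ G) :
    (fun a => eval p (g.1 a)) ∈ fib G p := Submodule.subset_span ⟨g, hg, rfl⟩

/-- The first factor is in the fibre. -/
theorem inA_mem (q : Fin c → ℕ → (β → Sx N)) (p : Vx N) (u : Fin c → ℂ) :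
    inA c β u ∈ fib (BG q) p := by
  have h1 : u = ∑ i, u i • (Pi.single i (1 : ℂ) : Fin c → ℂ) := by
    funext j
    rw [Finset.sum_apply]
    simp [Pi.single_apply]
  rw [h1, map_sum]
  refine Submodule.sum_mem _ fun i _ => ?_
  rw [map_smul, ← val_eB p i]
  exact Submodule.smul_mem _ _ (mem_fib p (g := (eB β i, 0)) (Or.inl ⟨i, rfl⟩))

/-- The projection of the fibre. -/
theorem prR_map (q : Fin c → ℕ → (β → Sx N)) (p : Vx N) :
    (fib (BG q) p).map (prR c β) = fib (QG q) p := by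
  apply le_antisymm
  · rw [fib, Submodule.map_span]
    refine Submodule.span_le.2 ?_
    rintro _ ⟨y, ⟨g, hg, rfl⟩, rfl⟩
    rcases hg with ⟨i, rfl⟩ | ⟨i, k, rfl⟩
    · change prR c β (fun a => eval p ((eB β i : Fin c ⊕ β → Sx N) a)) ∈ _
      rw [val_eB, prR_inA]
      exact zero_mem _
    · exact mem_fib p (g := (q i k, k + 1)) ⟨i, k, rfl⟩
  · refine Submodule.span_le.2 ?_
    rintro _ ⟨g, ⟨i, k, rfl⟩, rfl⟩
    exact ⟨_, mem_fib p (g := (iQ c (q i k), k + 1)) (Or.inr ⟨i, k, rfl⟩), rfl⟩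

/-- The rank of `B`. -/
theorem rank_B [Fintype β] (q : Fin c → ℕ → (β → Sx N)) (p : Vx N) :
    Module.finrank ℂ (fib (BG q) p) = Module.finrank ℂ (fib (QG q) p) + c := by
  have h := rank_null (prR c β) (fib (BG q) p) (LinearMap.range (inA c β))
    (by
      rintro _ ⟨u, rfl⟩
      exact inA_mem q p u)
    (fun w _ hw => ⟨fun i => w (Sum.inl i), by
      funext a
      rcases a with a | a
      · rfl
      · exact (congrFun hw a).symm⟩)
    (by
      rintro _ ⟨u, rfl⟩
      rfl)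
  rw [prR_map, LinearMap.finrank_range_of_inj inA_inj, Module.finrank_fin_fun] at h
  exact h

/-- Values of `M v`. -/
theorem val_M {α : Type} [Fintype α] (M : Matrix β α (Sx N)) (p : Vx N) (v : α → Sx N) :
    (fun y => eval p (M.mulVec v y)) = (M.map (eval p)).mulVecLin (fun a => eval p (v a)) := by
  funext y
  rw [Matrix.mulVecLin_apply, Matrix.mulVec, Matrix.mulVec, dotProduct, dotProduct, map_sum]
  exact Finset.sum_congr rfl fun a _ => by rw [map_mul, Matrix.map_apply]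

/-- The image of the fibre. -/
theorem fib_MG {α : Type} [Fintype α] (M : Matrix β α (Sx N)) (s : ℕ) (G : Gn N α) (p : Vx N) :
    (fib G p).map (M.map (eval p)).mulVecLin = fib (MG M s G) p := by
  rw [fib, fib, Submodule.map_span]
  congr 1
  ext y
  constructor
  · rintro ⟨_, ⟨g, hg, rfl⟩, rfl⟩
    exact ⟨(M.mulVec g.1, g.2 + s), ⟨g, hg, rfl⟩, (val_M M p g.1).symm⟩
  · rintro ⟨_, ⟨w, hw, rfl⟩, rfl⟩
    exact ⟨_, ⟨w, hw, rfl⟩, (val_M M p w.1).symm⟩

/-- Values of elements of the module are in the fibre. -/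
theorem fam_fib {α : Type} (G : Gn N α) (p : Vx N) (k : ℕ) (v : α → Sx N) (hv : v ∈ Fam G k) :
    (fun a => eval p (v a)) ∈ fib G p := by
  unfold Fam at hv
  induction hv using Submodule.span_induction with
  | mem x hx =>
    obtain ⟨a, e, g, hg, -, -, rfl⟩ := hx
    have h1 : (fun i => eval p (a * g.1 i)) = eval p a • fun i => eval p (g.1 i) := by
      funext i
      rw [map_mul]
      rfl
    rw [h1]
    exact Submodule.smul_mem _ _ (mem_fib p hg)
  | zero =>
    have h1 : (fun a : α => eval p ((0 : α → Sx N) a)) = 0 := by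
      funext a
      exact map_zero _
    rw [h1]
    exact zero_mem _
  | add x y _ _ hx hy =>
    have h1 : (fun a => eval p ((x + y) a)) = (fun a => eval p (x a)) + fun a => eval p (y a) := by
      funext a
      exact map_add _ _ _
    rw [h1]
    exact add_mem hx hy
  | smul r x _ hx =>
    have h1 : (fun a => eval p ((r • x) a)) = r • fun a => eval p (x a) := by
      funext a
      rw [Pi.smul_apply, Pi.smul_apply, smul_eval, smul_eq_mul]
    rw [h1]
    exact Submodule.smul_mem _ _ hx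

/-- `M` maps the generators of `B` to those of `Q`. -/
theorem MG_eq {I J : Ideal (Sx N)} {a : ℕ} [Fintype β] {ω : β → ℕ} {q : Fin c → ℕ → (β → Sx N)}
    {M : Matrix β (Fin c ⊕ β) (Sx N)} {Ψ : Matrix (Fin (N + 1)) (Fin c ⊕ β) ℂ}
    (W : WG I J a β ω q M Ψ) : MG M 1 (BG q) = QG q := by
  ext g
  constructor
  · rintro ⟨w, hw, rfl⟩
    rcases hw with ⟨i, rfl⟩ | ⟨i, k, rfl⟩
    · exact ⟨i, 0, by rw [W.M0]⟩
    · exact ⟨i, k + 1, by rw [W.M1]⟩
  · rintro ⟨i, k, rfl⟩
    rcases k with _ | k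
    · exact ⟨(eB β i, 0), Or.inl ⟨i, rfl⟩, by rw [W.M0]⟩
    · exact ⟨(iQ c (q i k), k + 1), Or.inr ⟨i, k, rfl⟩, by rw [W.M1]⟩

/-- Weighted homogeneity of the generators of `B`. -/
theorem HG_BG {ω : β → ℕ} {q : Fin c → ℕ → (β → Sx N)}
    (hq : ∀ i k y, (q i k y).IsHomogeneous (k + 1 + ω y)) :
    HG (Sum.elim (fun _ => 0) ω) (BG q) := by
  rintro g (⟨i, rfl⟩ | ⟨i, k, rfl⟩) a
  · rcases a with a | a
    · change (if a = i then (1 : Sx N) else 0).IsHomogeneous (0 + 0)
      split_ifs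
      · exact isHomogeneous_one _ _
      · exact isHomogeneous_zero _ _ _
    · exact isHomogeneous_zero _ _ _
  · rcases a with a | a
    · exact isHomogeneous_zero _ _ _
    · exact hq i k a

/-- Gradients of the elements of `I` are values of `Ψ`. -/
theorem CN_le [Fintype β] {I J : Ideal (Sx N)} {a : ℕ} {ω : β → ℕ} {q : Fin c → ℕ → (β → Sx N)}
    {M : Matrix β (Fin c ⊕ β) (Sx N)} {Ψ : Matrix (Fin (N + 1)) (Fin c ⊕ β) ℂ} (hI : IsHom I)
    (W : WG I J a β ω q M Ψ) (p : Vx N) (hp : p ∈ zer J) :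
    CN I p ≤ (fib (KG I J q M Ψ) p).map Ψ.mulVecLin := by
  refine Submodule.span_le.2 ?_
  rintro _ ⟨F, hF, rfl⟩
  have h1 : grad F p = ∑ m ∈ Finset.range (F.totalDegree + 1), grad (homogeneousComponent m F) p := by
    funext j
    have h2 := congrArg (fun G => eval p (pderiv j G)) (sum_homogeneousComponent F)
    simp only [map_sum] at h2
    rw [Finset.sum_apply]
    exact h2.symm
  rw [SetLike.mem_coe, h1]
  refine Submodule.sum_mem _ fun m _ => ?_
  rcases m with _ | f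
  · have h3 : grad (homogeneousComponent 0 F) p = 0 := by
      funext j
      rw [grad, homogeneousComponent_zero, pderiv_C, map_zero]
      rfl
    rw [h3]
    exact zero_mem _
  · have hFI := hI F hF (f + 1)
    have hFh := homogeneousComponent_isHomogeneous (f + 1) F
    obtain ⟨n, hn, hMn, hΨ⟩ := W.ker _ hFI f hFh
    refine ⟨fun y => eval p (n y), mem_fib p (g := (n, f)) ⟨hn, hMn, _, hFI, hFh, hΨ⟩, ?_⟩
    funext j
    have h4 := hp _ (hΨ j)
    rw [map_sub, map_sum, sub_eq_zero] at h4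
    rw [Matrix.mulVecLin_apply, Matrix.mulVec, dotProduct, grad, ← h4]
    exact Finset.sum_congr rfl fun y _ => by rw [map_mul, eval_C]

/-- Values of `Ψ` on the fibre of the kernel are gradients. -/
theorem le_CN [Fintype β] {I J : Ideal (Sx N)} {q : Fin c → ℕ → (β → Sx N)}
    {M : Matrix β (Fin c ⊕ β) (Sx N)} {Ψ : Matrix (Fin (N + 1)) (Fin c ⊕ β) ℂ} (p : Vx N)
    (hp : p ∈ zer J) : (fib (KG I J q M Ψ) p).map Ψ.mulVecLin ≤ CN I p := by
  rw [fib, Submodule.map_span]
  refine Submodule.span_le.2 ?_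
  rintro _ ⟨_, ⟨g, ⟨-, -, F, hF, -, hΨ⟩, rfl⟩, rfl⟩
  refine Submodule.subset_span ⟨F, hF, ?_⟩
  funext j
  have h4 := hp _ (hΨ j)
  rw [map_sub, map_sum, sub_eq_zero] at h4
  rw [Matrix.mulVecLin_apply, Matrix.mulVec, dotProduct, grad, ← h4]
  exact Finset.sum_congr rfl fun y _ => by rw [map_mul, eval_C]

/-- The ranks. -/
theorem ranks (hCN : S_CN) [Fintype β] {I J : Ideal (Sx N)} {a : ℕ} {ω : β → ℕ}
    {q : Fin c → ℕ → (β → Sx N)} {M : Matrix β (Fin c ⊕ β) (Sx N)}
    {Ψ : Matrix (Fin (N + 1)) (Fin c ⊕ β) ℂ} (hI : IsHom I) (hS : Smooth I c) (hIJ : I ≤ J)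
    (W : WG I J a β ω q M Ψ) (p : Vx N) (hp : p ∈ zer J) (hp0 : p ≠ 0) :
    Module.finrank ℂ (fib (KG I J q M Ψ) p) = c ∧
      ∀ v ∈ fib (KG I J q M Ψ) p, Ψ.mulVec v = 0 → v = 0 := by
  have hpI : p ∈ zer I := fun F hF => hp F (hIJ hF)
  have hC := (hCN N c I hS p hpI hp0).1
  set P := fib (KG I J q M Ψ) p with hP
  have hmap : P.map Ψ.mulVecLin = CN I p := le_antisymm (le_CN p hp) (CN_le hI W p hp)
  -- the kernel of `M` on `B`
  let K0 : Submodule ℂ (Fin c ⊕ β → ℂ) :=
    fib (BG q) p ⊓ LinearMap.ker (M.map (eval p)).mulVecLin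
  have hK0 : Module.finrank ℂ K0 = c := by
    have h := rank_null (M.map (eval p)).mulVecLin (fib (BG q) p) K0 inf_le_left
      (fun w hw h0 => ⟨hw, h0⟩) (fun w hw => hw.2)
    rw [fib_MG M 1 (BG q) p, MG_eq W, rank_B] at h
    omega
  have hPK : P ≤ K0 := by
    refine Submodule.span_le.2 ?_
    rintro _ ⟨g, ⟨hg, hM, -⟩, rfl⟩
    refine ⟨fam_fib _ p _ _ hg, ?_⟩
    rw [SetLike.mem_coe, LinearMap.mem_ker, ← val_M]
    funext y
    exact hp _ (hM y)
  have h1 : Module.finrank ℂ P ≤ c := (Submodule.finrank_mono hPK).trans hK0.le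
  have h2 := rank_null Ψ.mulVecLin P (P ⊓ LinearMap.ker Ψ.mulVecLin) inf_le_left
    (fun w hw h0 => ⟨hw, h0⟩) (fun w hw => hw.2)
  rw [hmap, hC] at h2
  refine ⟨by omega, fun v hv hv0 => ?_⟩
  have h3 : Module.finrank ℂ (P ⊓ LinearMap.ker Ψ.mulVecLin : Submodule ℂ (Fin c ⊕ β → ℂ)) = 0 := by
    omega
  have h4 := Submodule.finrank_eq_zero.1 h3
  have h5 : v ∈ P ⊓ LinearMap.ker Ψ.mulVecLin := ⟨hv, hv0⟩
  rw [h4] at h5
  exact (Submodule.mem_bot ℂ).1 h5

end

end WXDAux

open WXDAux in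
theorem wXD (hCN : S_CN) (hWB : S_WB) : S_WXD := by
  intro N c a I J hI hS hIJ hJp hJ hne β _ ω q M Ψ W
  have hBG : HG (Sum.elim (fun _ => 0) ω : Fin c ⊕ β → ℕ) (BG q) := HG_BG W.hom
  have hr := fun p hp hp0 => ranks hCN hI hS hIJ W p hp hp0
  refine ⟨?_, MG_eq W, fun p hp hp0 => (hr p hp hp0).2⟩
  refine ⟨hJp, hJ, hne, ?_, hBG, ?_, fun g hg => hg.1, fun g hg => hg.2.1,
    fun p hp hp0 => (hr p hp hp0).1, fun p hp hp0 => ?_, fun p hp hp0 => ?_⟩
  · exact fun g hg a => (hWB.1 N _ _ _ hBG).hom g.2 g.1 hg.1 a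
  · rw [MG_eq W]
    rintro g ⟨i, k, rfl⟩ y
    exact W.hom i k y
  · rw [MG_eq W]
    have := W.rk p hp hp0
    omega
  · rw [rank_B]
    have := W.rk p hp hp0
    omega

end Pool.Agent.Lib.MP_776403_ag.SD
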