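import Pool.Agent.Lib.MP_776403_ag.SD.K.SpecS

/-!
# THEOREM W: integrality of the normal Chern roots from the lines through one point

Definitions, and the interface `S_WGeo` of the geometric part (helper44).

Weighted graded submodules of `S^α`; sets of generators with degrees; fibres at points; vectors of
minors (exterior powers).
-/

set_option autoImplicit false

open MvPolynomial

noncomputable section

namespace Pool.Agent.Lib.MP_776403_ag.SD

variable {N : ℕ}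

section

variable {α β : Type}

/-- Weighted graded submodules of `S^α`: entry `a` of a vector in `V k` is a form of degree
`k + ω a`.  (`GV V` is `GW (fun _ => 0) V`.) -/
structure GW (ω : α → ℕ) (V : ℕ → Submodule ℂ (α → Sx N)) : Prop where
  hom : ∀ k, ∀ v ∈ V k, ∀ a, (v a).IsHomogeneous (k + ω a)
  mul : ∀ k, ∀ v ∈ V k, ∀ i : Fin (N + 1), (fun a => (X i : Sx N) * v a) ∈ V (k + 1)

/-- Sets of generators `(v, κ)`, `κ` the degree of `v`. -/
abbrev Gn (N : ℕ) (α : Type) : Type := Set ((α → Sx N) × ℕ)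

/-- The generators are weighted homogeneous. -/
def HG (ω : α → ℕ) (G : Gn N α) : Prop := ∀ g ∈ G, ∀ a, (g.1 a).IsHomogeneous (g.2 + ω a)

/-- The graded module generated by `G`. -/
def Fam (G : Gn N α) (k : ℕ) : Submodule ℂ (α → Sx N) :=
  Submodule.span ℂ {z | ∃ (a : Sx N) (e : ℕ), ∃ g ∈ G, a.IsHomogeneous e ∧ e + g.2 = k ∧
    z = fun i => a * g.1 i}

/-- The fibre at `p`: the space spanned by the values of the generators. -/
def fib (G : Gn N α) (p : Vx N) : Submodule ℂ (α → ℂ) :=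
  Submodule.span ℂ {y | ∃ g ∈ G, y = fun a => eval p (g.1 a)}

/-- The `j`-th exterior power of the module generated by `G`: vectors of `j × j` minors. -/
def LW (G : Gn N α) (j k : ℕ) : Submodule ℂ ((Fin j → α) → Sx N) :=
  Submodule.span ℂ {z | ∃ (a : Sx N) (e : ℕ) (g : Fin j → (α → Sx N) × ℕ), a.IsHomogeneous e ∧
    (∀ l, g l ∈ G) ∧ e + ∑ l, (g l).2 = k ∧
    z = fun A => a * Matrix.det (Matrix.of fun l m => (g l).1 (A m))}

/-- The part of the `j`-th exterior power of the module generated by `P` and `G` spanned by the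
products with at least `i` factors in `P`. -/
def FW (P G : Gn N α) (i j k : ℕ) : Submodule ℂ ((Fin j → α) → Sx N) :=
  Submodule.span ℂ {z | ∃ (a : Sx N) (e : ℕ) (g : Fin j → (α → Sx N) × ℕ) (T : Finset (Fin j)),
    a.IsHomogeneous e ∧ i ≤ T.card ∧ (∀ l ∈ T, g l ∈ P) ∧ (∀ l, l ∉ T → g l ∈ G) ∧
    e + ∑ l, (g l).2 = k ∧ z = fun A => a * Matrix.det (Matrix.of fun l m => (g l).1 (A m))}

/-- The images of the generators under the matrix `M` of degree `s`. -/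
def MG [Fintype α] (M : Matrix β α (Sx N)) (s : ℕ) (G : Gn N α) : Gn N β :=
  {g | ∃ w ∈ G, g = (M.mulVec w.1, w.2 + s)}

/-- `id^i ⊗ M^l` on tensors. -/
def tM [Fintype α] (M : Matrix β α (Sx N)) (i l : ℕ) :
    ((Fin (i + l) → α) → Sx N) →ₗ[Sx N] ((Fin i → α) × (Fin l → β) → Sx N) where
  toFun z := fun p => ∑ C : Fin l → α, (∏ m, M (p.2 m) (C m)) * z (Fin.append p.1 C)
  map_add' u v := by
    funext p
    simp only [Pi.add_apply, mul_add, Finset.sum_add_distrib]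
  map_smul' r u := by
    funext p
    simp only [Pi.smul_apply, smul_eq_mul, RingHom.id_apply, Finset.mul_sum]
    exact Finset.sum_congr rfl fun C _ => by ring

end

/-! ## The geometric part -/

/-- The generators of `Q`. -/
def QG {c : ℕ} {β : Type} (q : Fin c → ℕ → (β → Sx N)) : Gn N β :=
  {g | ∃ i k, g = (q i k, k + 1)}

/-- The vector `(e_i, 0)`. -/
def eB {c : ℕ} (β : Type) (i : Fin c) : Fin c ⊕ β → Sx N :=
  Sum.elim (fun i' => if i' = i then 1 else 0) (fun _ => 0)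

/-- The vector `(0, v)`. -/
def iQ (c : ℕ) {β : Type} (v : β → Sx N) : Fin c ⊕ β → Sx N := Sum.elim (fun _ => 0) v

/-- The generators of `B = R^c ⊕ Q`. -/
def BG {c : ℕ} {β : Type} (q : Fin c → ℕ → (β → Sx N)) : Gn N (Fin c ⊕ β) :=
  {g | (∃ i : Fin c, g = (eB β i, 0)) ∨ ∃ i k, g = (iQ c (q i k), k + 1)}

/-- The generators of `K' ≤ B`: elements `n` with `M n = 0` and `Ψ n = grad F` modulo `J`, `F ∈ I` a
form of degree `κ + 1`. -/
def KG {c : ℕ} {β : Type} [Fintype β] (I J : Ideal (Sx N)) (q : Fin c → ℕ → (β → Sx N))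
    (M : Matrix β (Fin c ⊕ β) (Sx N)) (Ψ : Matrix (Fin (N + 1)) (Fin c ⊕ β) ℂ) :
    Gn N (Fin c ⊕ β) :=
  {g | g.1 ∈ Fam (BG q) g.2 ∧ (∀ y, M.mulVec g.1 y ∈ J) ∧ ∃ F ∈ I, F.IsHomogeneous (g.2 + 1) ∧
    ∀ j, (∑ y, C (Ψ j y) * g.1 y) - pderiv j F ∈ J}

/-- (WGeo) THE GEOMETRIC PART (helper44).  `J` = cone of lines through `x`, cut by the hyperplane
`lam = 0`; all lines `span (x, z)`, `z ∈ zer J`, have degree `a`.  `q i k = κ(e_i s^k)`,
`M (f, q) = κ(f) + τ q`, `Ψ` the constant matrix. -/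
structure WG {c : ℕ} (I J : Ideal (Sx N)) (a : ℕ) (β : Type) [Fintype β] (ω : β → ℕ)
    (q : Fin c → ℕ → (β → Sx N)) (M : Matrix β (Fin c ⊕ β) (Sx N))
    (Ψ : Matrix (Fin (N + 1)) (Fin c ⊕ β) ℂ) : Prop where
  hom : ∀ i k y, (q i k y).IsHomogeneous (k + 1 + ω y)
  M0 : ∀ i, M.mulVec (eB β i) = q i 0
  M1 : ∀ i k, M.mulVec (iQ c (q i k)) = q i (k + 1)
  rk : ∀ p ∈ zer J, p ≠ 0 → Module.finrank ℂ (fib (QG q) p) + c = a
  ker : ∀ F ∈ I, ∀ f : ℕ, F.IsHomogeneous (f + 1) → ∃ n : Fin c ⊕ β → Sx N,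
    n ∈ Fam (BG q) f ∧ (∀ y, M.mulVec n y ∈ J) ∧
    ∀ j, (∑ y, C (Ψ j y) * n y) - pderiv j F ∈ J

/-- (WGeo) -/
def S_WGeo : Prop :=
  ∀ (N c a : ℕ) (I J : Ideal (Sx N)), 1 ≤ c → I.IsPrime → IsHom I → Smooth I c → J.IsPrime →
    IsHom J → I ≤ J → ∀ (x : Vx N) (lam : Sx N), lam.IsHomogeneous 1 → eval x lam = 1 →
    lam ∈ J → x ∈ zer I → (∀ z ∈ zer J, ∀ s t : ℂ, s • x + t • z ∈ zer I) →
    (∀ z ∈ zer J, z ≠ 0 → ∀ᶠ m : ℕ in Filter.atTop,
      Module.finrank ℂ (Lam I (lineI x z) 1 m) + a = c * (m + 1)) →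
    ∃ (β : Type) (_ : Fintype β) (ω : β → ℕ) (q : Fin c → ℕ → (β → Sx N))
      (M : Matrix β (Fin c ⊕ β) (Sx N)) (Ψ : Matrix (Fin (N + 1)) (Fin c ⊕ β) ℂ),
      WG I J a β ω q M Ψ

end Pool.Agent.Lib.MP_776403_ag.SD
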