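import Pool.Agent.Lib.MP_776403_ag.SD.W.Spec

/-!
# THEOREM W, module R1: the first filtration
-/

set_option autoImplicit false

open MvPolynomial

noncomputable section

namespace Pool.Agent.Lib.MP_776403_ag.SD

namespace WR1Aux

variable {N : ℕ}

/-! ### The set of generators -/

/-- The generators `(e_i, 0)`. -/
def PG (N c : ℕ) (β : Type) : Gn N (Fin c ⊕ β) := {g | ∃ i : Fin c, g = (eB β i, 0)}

open Classical in
/-- The projection to `β`. -/
def pr (N c : ℕ) (β : Type) : Matrix β (Fin c ⊕ β) (Sx N) :=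
  fun y x => if x = Sum.inr y then 1 else 0

theorem pr_mulVec {c : ℕ} {β : Type} [Fintype β] (v : Fin c ⊕ β → Sx N) (y : β) :
    (pr N c β).mulVec v y = v (Sum.inr y) := by
  classical
  unfold Matrix.mulVec dotProduct pr
  rw [Finset.sum_eq_single (Sum.inr y)]
  · show (if (Sum.inr y : Fin c ⊕ β) = Sum.inr y then (1 : Sx N) else 0) * v (Sum.inr y) = _
    rw [if_pos rfl, one_mul]
  · intro x _ hx
    show (if x = Sum.inr y then (1 : Sx N) else 0) * v x = _
    rw [if_neg hx, zero_mul]
  · intro h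
    exact absurd (Finset.mem_univ _) h

theorem pr_eB {c : ℕ} {β : Type} [Fintype β] (i : Fin c) :
    (pr N c β).mulVec (eB β i) = 0 := by
  funext y
  rw [pr_mulVec]
  rfl

theorem pr_iQ {c : ℕ} {β : Type} [Fintype β] (v : β → Sx N) :
    (pr N c β).mulVec (iQ c v) = v := by
  funext y
  rw [pr_mulVec]
  rfl

theorem eB_hom {c : ℕ} {β : Type} (ω : β → ℕ) (i : Fin c) (a : Fin c ⊕ β) :
    ((eB β i : Fin c ⊕ β → Sx N) a).IsHomogeneous (0 + Sum.elim (fun _ => 0) ω a) := by
  rcases a with a | a
  · show (if a = i then (1 : Sx N) else 0).IsHomogeneous (0 + 0)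
    split_ifs
    · exact isHomogeneous_one _ _
    · exact isHomogeneous_zero _ _ _
  · exact isHomogeneous_zero _ _ _

theorem PG_HG {c : ℕ} {β : Type} (ω : β → ℕ) : HG (Sum.elim (fun _ => 0) ω) (PG N c β) := by
  rintro g ⟨i, rfl⟩ a
  exact eB_hom ω i a

variable {c : ℕ} {β : Type} (q : Fin c → ℕ → (β → Sx N))

theorem BG_HG {ω : β → ℕ} (hq : ∀ i k y, (q i k y).IsHomogeneous (k + 1 + ω y)) :
    HG (Sum.elim (fun _ => 0) ω) (BG q) := by
  rintro g (⟨i, rfl⟩ | ⟨i, k, rfl⟩) a
  · exact eB_hom ω i a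
  · rcases a with a | a
    · exact isHomogeneous_zero _ _ _
    · exact hq i k a

theorem QG_HG {ω : β → ℕ} (hq : ∀ i k y, (q i k y).IsHomogeneous (k + 1 + ω y)) :
    HG ω (QG q) := by
  rintro g ⟨i, k, rfl⟩ a
  exact hq i k a

theorem mem_MG [Fintype β] (g : (β → Sx N) × ℕ) (hg : g ∈ MG (pr N c β) 0 (BG q)) :
    g ∈ QG q ∨ g.1 = 0 := by
  obtain ⟨w, hw | hw, rfl⟩ := hg
  · obtain ⟨i, rfl⟩ := hw
    right
    exact pr_eB i
  · obtain ⟨i, k, rfl⟩ := hw
    left
    refine ⟨i, k, ?_⟩
    show ((pr N c β).mulVec (iQ c (q i k)), k + 1 + 0) = _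
    rw [pr_iQ]

theorem QG_sub [Fintype β] : QG q ⊆ MG (pr N c β) 0 (BG q) := by
  rintro g ⟨i, k, rfl⟩
  refine ⟨(iQ c (q i k), k + 1), Or.inr ⟨i, k, rfl⟩, ?_⟩
  show _ = ((pr N c β).mulVec (iQ c (q i k)), k + 1 + 0)
  rw [pr_iQ]

theorem MG_HG [Fintype β] {ω : β → ℕ} (hq : ∀ i k y, (q i k y).IsHomogeneous (k + 1 + ω y)) :
    HG ω (MG (pr N c β) 0 (BG q)) := by
  intro g hg a
  rcases mem_MG q g hg with h | h
  · exact QG_HG q hq g h a
  · rw [h]
    exact isHomogeneous_zero _ _ _

/-- Removing zero vectors. -/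
theorem LW_eq {α : Type} {G G' : Gn N α} (h1 : G ⊆ G') (h2 : ∀ g ∈ G', g ∈ G ∨ g.1 = 0)
    (j k : ℕ) : LW G' j k = LW G j k := by
  apply le_antisymm
  · refine Submodule.span_le.2 ?_
    rintro z ⟨a, e, g, ha, hg, he, rfl⟩
    by_cases h : ∀ l, g l ∈ G
    · exact Submodule.subset_span ⟨a, e, g, ha, h, he, rfl⟩
    · push Not at h
      obtain ⟨l, hl⟩ := h
      have h3 : (g l).1 = 0 := (h2 _ (hg l)).resolve_left hl
      have h4 : (fun A : Fin j → α => a * Matrix.det (Matrix.of fun l m => (g l).1 (A m))) = 0 := by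
        funext A
        rw [Matrix.det_eq_zero_of_row_eq_zero l (fun m => by rw [Matrix.of_apply, h3]; rfl),
          mul_zero]
        rfl
      rw [h4]
      exact Submodule.zero_mem _
  · refine Submodule.span_mono ?_
    rintro z ⟨a, e, g, ha, hg, he, rfl⟩
    exact ⟨a, e, g, ha, fun l => h1 (hg l), he, rfl⟩

/-! ### Ranks -/

theorem fib_MG [Fintype β] (p : Vx N) : fib (MG (pr N c β) 0 (BG q)) p = fib (QG q) p := by
  apply le_antisymm
  · refine Submodule.span_le.2 ?_
    rintro y ⟨g, hg, rfl⟩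
    rcases mem_MG q g hg with h | h
    · exact Submodule.subset_span ⟨g, h, rfl⟩
    · have h1 : (fun a => eval p (g.1 a)) = 0 := by
        funext a
        rw [h]
        exact map_zero _
      rw [h1]
      exact Submodule.zero_mem _
  · refine Submodule.span_mono ?_
    rintro y ⟨g, hg, rfl⟩
    exact ⟨g, QG_sub q hg, rfl⟩

/-- `ℂ^c → ℂ^(c + β)`. -/
def jL (c : ℕ) (β : Type) : (Fin c → ℂ) →ₗ[ℂ] (Fin c ⊕ β → ℂ) where
  toFun v := Sum.elim v (fun _ => 0)
  map_add' u v := by
    funext x
    rcases x with x | x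
    · rfl
    · show (0 : ℂ) = 0 + 0
      rw [add_zero]
  map_smul' r u := by
    funext x
    rcases x with x | x
    · rfl
    · show (0 : ℂ) = r * 0
      rw [mul_zero]

/-- `ℂ^β → ℂ^(c + β)`. -/
def jR (c : ℕ) (β : Type) : (β → ℂ) →ₗ[ℂ] (Fin c ⊕ β → ℂ) where
  toFun v := Sum.elim (fun _ => 0) v
  map_add' u v := by
    funext x
    rcases x with x | x
    · show (0 : ℂ) = 0 + 0
      rw [add_zero]
    · rfl
  map_smul' r u := by
    funext x
    rcases x with x | x
    · show (0 : ℂ) = r * 0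
      rw [mul_zero]
    · rfl

theorem jL_inj : Function.Injective (jL c β) := by
  intro u v h
  funext i
  exact congrFun h (Sum.inl i)

theorem jR_inj : Function.Injective (jR c β) := by
  intro u v h
  funext i
  exact congrFun h (Sum.inr i)

theorem fib_PG (p : Vx N) : fib (PG N c β) p = LinearMap.range (jL c β) := by
  classical
  have h0 : ∀ i : Fin c, (fun a => eval p ((eB β i : Fin c ⊕ β → Sx N) a)) =
      jL c β (Pi.single i 1) := by
    intro i
    funext x
    rcases x with x | x
    · show eval p (if x = i then (1 : Sx N) else 0) = (Pi.single i 1 : Fin c → ℂ) x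
      rw [Pi.single_apply]
      split_ifs
      · exact map_one _
      · exact map_zero _
    · show eval p (0 : Sx N) = 0
      exact map_zero _
  apply le_antisymm
  · refine Submodule.span_le.2 ?_
    rintro y ⟨g, ⟨i, rfl⟩, rfl⟩
    exact ⟨Pi.single i 1, (h0 i).symm⟩
  · rintro _ ⟨v, rfl⟩
    have h1 : v = ∑ i, v i • (Pi.single i 1 : Fin c → ℂ) := by
      funext x
      rw [Finset.sum_apply, Finset.sum_eq_single x]
      · rw [Pi.smul_apply, Pi.single_eq_same, smul_eq_mul, mul_one]
      · intro i _ hi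
        rw [Pi.smul_apply, Pi.single_eq_of_ne hi.symm, smul_zero]
      · intro h
        exact absurd (Finset.mem_univ _) h
    rw [h1, map_sum]
    refine Submodule.sum_mem _ fun i _ => ?_
    rw [map_smul]
    exact Submodule.smul_mem _ _ (Submodule.subset_span ⟨_, ⟨i, rfl⟩, (h0 i).symm⟩)

theorem fib_BG (p : Vx N) :
    fib (BG q) p = LinearMap.range (jL c β) ⊔ (fib (QG q) p).map (jR c β) := by
  rw [← fib_PG (N := N) (c := c) (β := β) p]
  apply le_antisymm
  · refine Submodule.span_le.2 ?_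
    rintro y ⟨g, ⟨i, rfl⟩ | ⟨i, k, rfl⟩, rfl⟩
    · exact Submodule.mem_sup_left (Submodule.subset_span ⟨_, ⟨i, rfl⟩, rfl⟩)
    · refine Submodule.mem_sup_right ⟨fun a => eval p (q i k a),
        Submodule.subset_span ⟨_, ⟨i, k, rfl⟩, rfl⟩, ?_⟩
      funext x
      rcases x with x | x
      · show (0 : ℂ) = eval p (0 : Sx N)
        exact (map_zero _).symm
      · rfl
  · refine sup_le (Submodule.span_mono ?_) ?_
    · rintro y ⟨g, ⟨i, rfl⟩, rfl⟩
      exact ⟨_, Or.inl ⟨i, rfl⟩, rfl⟩
    · rintro _ ⟨y, hy, rfl⟩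
      induction hy using Submodule.span_induction with
      | mem y hy =>
        obtain ⟨g, ⟨i, k, rfl⟩, rfl⟩ := hy
        refine Submodule.subset_span ⟨_, Or.inr ⟨i, k, rfl⟩, ?_⟩
        funext x
        rcases x with x | x
        · show (0 : ℂ) = eval p (0 : Sx N)
          exact (map_zero _).symm
        · rfl
      | zero =>
        rw [map_zero]
        exact Submodule.zero_mem _
      | add u v _ _ hu hv =>
        rw [map_add]
        exact Submodule.add_mem _ hu hv
      | smul r u _ hu =>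
        rw [map_smul]
        exact Submodule.smul_mem _ _ hu

theorem rank_BG [Fintype β] (p : Vx N) :
    Module.finrank ℂ (fib (BG q) p) = c + Module.finrank ℂ (fib (QG q) p) := by
  rw [fib_BG]
  have h1 : LinearMap.range (jL c β) ⊓ (fib (QG q) p).map (jR c β) = ⊥ := by
    rw [eq_bot_iff]
    rintro x ⟨⟨u, hu⟩, ⟨v, -, hv⟩⟩
    rw [Submodule.mem_bot]
    funext y
    rcases y with y | y
    · rw [← hv]
      rfl
    · rw [← hu]
      rfl
  have h2 := Submodule.finrank_sup_add_finrank_inf_eq (LinearMap.range (jL c β))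
    ((fib (QG q) p).map (jR c β))
  rw [h1, finrank_bot, add_zero, LinearMap.finrank_range_of_inj jL_inj,
    Module.finrank_fintype_fun_eq_card, Fintype.card_fin] at h2
  rw [h2, ← (Submodule.equivMapOfInjective (jR c β) jR_inj (fib (QG q) p)).finrank_eq]

/-! ### The subsets of `Fin c` -/

/-- The subsets with `i` elements. -/
abbrev Sb (c i : ℕ) : Type := {T : Finset (Fin c) // T.card = i}

theorem card_Sb (c i : ℕ) : Fintype.card (Sb c i) = c.choose i := by
  rw [Fintype.card_subtype]
  have h : (Finset.univ.filter fun T : Finset (Fin c) => T.card = i) =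
      Finset.powersetCard i Finset.univ := by
    ext T
    rw [Finset.mem_filter, Finset.mem_powersetCard]
    simp
  rw [h, Finset.card_powersetCard, Finset.card_univ, Fintype.card_fin]

/-- The elements of `T` in order. -/
def el {i : ℕ} (T : Sb c i) (l : Fin i) : Fin c := T.1.orderEmbOfFin T.2 l

theorem el_mem {i : ℕ} (T : Sb c i) (l : Fin i) : el T l ∈ T.1 := T.1.orderEmbOfFin_mem T.2 l

theorem el_inj {i : ℕ} (T : Sb c i) : Function.Injective (el T) :=
  (T.1.orderEmbOfFin T.2).injective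

theorem el_surj {i : ℕ} (T : Sb c i) {x : Fin c} (hx : x ∈ T.1) : ∃ l, el T l = x := by
  have h := T.1.range_orderEmbOfFin T.2
  have h2 : x ∈ Set.range (T.1.orderEmbOfFin T.2) := by
    rw [h]
    exact hx
  exact h2

/-- The vector of minors with the rows `e_(t l)`. -/
def dv (N : ℕ) (β : Type) {i : ℕ} (t : Fin i → Fin c) (A : Fin i → Fin c ⊕ β) : Sx N :=
  Matrix.det (Matrix.of fun l m => (eB β (t l) : Fin c ⊕ β → Sx N) (A m))

theorem dv_perm {i : ℕ} (t : Fin i → Fin c) (σ : Equiv.Perm (Fin i)) (A : Fin i → Fin c ⊕ β) :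
    dv N β (fun l => t (σ l)) A = Equiv.Perm.sign σ * dv N β t A := by
  unfold dv
  exact Matrix.det_permute σ (Matrix.of fun l m => (eB β (t l) : Fin c ⊕ β → Sx N) (A m))

theorem dv_zero {i : ℕ} (t : Fin i → Fin c) (ht : ¬ Function.Injective t)
    (A : Fin i → Fin c ⊕ β) : dv N β t A = 0 := by
  unfold Function.Injective at ht
  push Not at ht
  obtain ⟨l, l', h, hne⟩ := ht
  unfold dv
  refine Matrix.det_zero_of_row_eq hne ?_
  funext m
  rw [Matrix.of_apply, Matrix.of_apply, h]

theorem dv_self {i : ℕ} (T : Sb c i) : dv N β (el T) (fun m => Sum.inl (el T m)) = 1 := by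
  classical
  unfold dv
  have h : (Matrix.of fun l m => (eB β (el T l) : Fin c ⊕ β → Sx N) (Sum.inl (el T m))) =
      (1 : Matrix (Fin i) (Fin i) (Sx N)) := by
    ext1 l m
    rw [Matrix.of_apply, Matrix.one_apply]
    show (if el T m = el T l then (1 : Sx N) else 0) = _
    by_cases h : l = m
    · rw [if_pos (by rw [h]), if_pos h]
    · rw [if_neg (fun h2 => h (el_inj T h2).symm), if_neg h]
  rw [h, Matrix.det_one]

theorem dv_ne {i : ℕ} (T T' : Sb c i) (hne : T' ≠ T) :
    dv N β (el T') (fun m => Sum.inl (el T m)) = 0 := by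
  have h1 : ∃ l, el T' l ∉ T.1 := by
    by_contra h
    push Not at h
    apply hne
    apply Subtype.ext
    apply Finset.eq_of_subset_of_card_le
    · intro x hx
      obtain ⟨l, rfl⟩ := el_surj T' hx
      exact h l
    · rw [T.2, T'.2]
  obtain ⟨l, hl⟩ := h1
  unfold dv
  refine Matrix.det_eq_zero_of_row_eq_zero l fun m => ?_
  rw [Matrix.of_apply]
  show (if el T m = el T' l then (1 : Sx N) else 0) = 0
  rw [if_neg]
  intro h
  exact hl (by rw [← h]; exact el_mem T m)

/-- Every injective family is a permutation of the elements of a subset. -/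
theorem exists_sb {i : ℕ} (t : Fin i → Fin c) (ht : Function.Injective t) :
    ∃ (T : Sb c i) (σ : Equiv.Perm (Fin i)), t = fun l => el T (σ l) := by
  classical
  let T : Sb c i := ⟨Finset.univ.image t, by
    rw [Finset.card_image_of_injective _ ht, Finset.card_univ, Fintype.card_fin]⟩
  have h1 : ∀ l, ∃ l', el T l' = t l := fun l =>
    el_surj T (Finset.mem_image_of_mem t (Finset.mem_univ l))
  choose σ hσ using h1
  have hinj : Function.Injective σ := by
    intro a b hab
    apply ht
    rw [← hσ a, ← hσ b, hab]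
  refine ⟨T, Equiv.ofBijective σ (Finite.injective_iff_bijective.1 hinj), ?_⟩
  funext l
  exact (hσ l).symm

/-! ### The products -/

variable {γ : Type}

/-- `∑_T d_T w_T`. -/
def Ph (N : ℕ) (β γ : Type) (c i : ℕ) :
    (Sb c i → (γ → Sx N)) →ₗ[ℂ] ((Fin i → Fin c ⊕ β) × γ → Sx N) where
  toFun w := fun p => ∑ T : Sb c i, dv N β (el T) p.1 * w T p.2
  map_add' u v := by
    funext p
    simp only [Pi.add_apply, mul_add, Finset.sum_add_distrib]
  map_smul' r u := by
    funext p
    simp only [Pi.smul_apply, RingHom.id_apply, Finset.smul_sum, mul_smul_comm]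

/-- The same modulo `J`. -/
def PhJ (J : Ideal (Sx N)) (β γ : Type) (c i : ℕ) :
    (Sb c i → (γ → Sx N ⧸ J)) →ₗ[ℂ] ((Fin i → Fin c ⊕ β) × γ → Sx N ⧸ J) where
  toFun w := fun p => ∑ T : Sb c i, Ideal.Quotient.mk J (dv N β (el T) p.1) * w T p.2
  map_add' u v := by
    funext p
    simp only [Pi.add_apply, mul_add, Finset.sum_add_distrib]
  map_smul' r u := by
    funext p
    simp only [Pi.smul_apply, RingHom.id_apply, Finset.smul_sum, mul_smul_comm]

theorem PhJ_red (J : Ideal (Sx N)) (i : ℕ) (w : Sb c i → (γ → Sx N)) :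
    PhJ J β γ c i (fun T => redL γ J (w T)) = redL _ J (Ph N β γ c i w) := by
  funext p
  show ∑ T : Sb c i, Ideal.Quotient.mk J (dv N β (el T) p.1) * Ideal.Quotient.mk J (w T p.2) =
    Ideal.Quotient.mk J (∑ T : Sb c i, dv N β (el T) p.1 * w T p.2)
  rw [map_sum]
  exact Finset.sum_congr rfl fun T _ => (map_mul _ _ _).symm

theorem PhJ_at (J : Ideal (Sx N)) (i : ℕ) (w : Sb c i → (γ → Sx N ⧸ J)) (T : Sb c i) (y : γ) :
    PhJ J β γ c i w ((fun m => Sum.inl (el T m)), y) = w T y := by
  show ∑ T' : Sb c i, Ideal.Quotient.mk J (dv N β (el T') (fun m => Sum.inl (el T m))) *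
    w T' y = _
  rw [Finset.sum_eq_single T]
  · rw [dv_self, map_one, one_mul]
  · intro T' _ hT'
    rw [dv_ne T T' hT', map_zero, zero_mul]
  · intro h
    exact absurd (Finset.mem_univ _) h

theorem PhJ_inj (J : Ideal (Sx N)) (i : ℕ) : Function.Injective (PhJ J β γ c i) := by
  intro u v h
  funext T y
  rw [← PhJ_at (β := β) J i u T y, ← PhJ_at (β := β) J i v T y, h]

/-- Multiplication by `w` as a linear map. -/
def rmL (N : ℕ) (δ γ : Type) (w : γ → Sx N) : (δ → Sx N) →ₗ[ℂ] (δ × γ → Sx N) where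
  toFun v := fun p => v p.1 * w p.2
  map_add' u v := by
    funext p
    simp only [Pi.add_apply, add_mul]
  map_smul' r u := by
    funext p
    simp only [Pi.smul_apply, RingHom.id_apply, smul_mul_assoc]

/-- The products are the `∑_T d_T w_T`. -/
theorem PV_eq (W : ℕ → Submodule ℂ (γ → Sx N))
    (hW : ∀ (k e : ℕ) (g : Sx N) (v : γ → Sx N), g.IsHomogeneous e → v ∈ W k →
      (fun a => g * v a) ∈ W (k + e)) (i m : ℕ) :
    ∀ z, z ∈ PV (LW (PG N c β) i) W m ↔
      ∃ w : Sb c i → (γ → Sx N), (∀ T, w T ∈ W m) ∧ Ph N β γ c i w = z := by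
  classical
  -- the set of the right side as a submodule
  let R : Submodule ℂ ((Fin i → Fin c ⊕ β) × γ → Sx N) :=
    (Submodule.pi Set.univ (fun _ : Sb c i => W m)).map (Ph N β γ c i)
  have hR : ∀ z, z ∈ R ↔ ∃ w : Sb c i → (γ → Sx N), (∀ T, w T ∈ W m) ∧ Ph N β γ c i w = z := by
    intro z
    constructor
    · rintro ⟨w, hw, rfl⟩
      exact ⟨w, fun T => hw T (Set.mem_univ T), rfl⟩
    · rintro ⟨w, hw, rfl⟩
      exact ⟨w, fun T _ => hw T, rfl⟩
  intro z
  rw [← hR]
  have hd : ∀ (T : Sb c i) (w : γ → Sx N), w ∈ W m →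
      (fun p : (Fin i → Fin c ⊕ β) × γ => dv N β (el T) p.1 * w p.2) ∈ R := by
    intro T w hw
    rw [hR]
    refine ⟨Pi.single T w, fun T' => ?_, ?_⟩
    · by_cases h : T' = T
      · subst h
        rw [Pi.single_eq_same]
        exact hw
      · rw [Pi.single_eq_of_ne h]
        exact Submodule.zero_mem _
    · funext p
      show ∑ T' : Sb c i, dv N β (el T') p.1 * (Pi.single T w : Sb c i → (γ → Sx N)) T' p.2 = _
      rw [Finset.sum_eq_single T]
      · rw [Pi.single_eq_same]
      · intro T' _ hT'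
        rw [Pi.single_eq_of_ne hT']
        exact mul_zero _
      · intro h
        exact absurd (Finset.mem_univ _) h
  constructor
  · intro hz
    refine (Submodule.span_le (p := R)).2 ?_ hz
    rintro _ ⟨k1, k2, v, w, hk, hv, hw, rfl⟩
    show _ ∈ R
    have key : LW (PG N c β) i k1 ≤ R.comap (rmL N (Fin i → Fin c ⊕ β) γ w) := by
      refine Submodule.span_le.2 ?_
      rintro _ ⟨a, e, g, ha, hg, he, rfl⟩
      choose t ht using hg
      have he2 : e = k1 := by
        rw [← he]
        have : ∑ l, (g l).2 = 0 := Finset.sum_eq_zero fun l _ => by rw [ht l]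
        rw [this, add_zero]
      subst he2
      have haw : (fun y => a * w y) ∈ W m := by
        have h1 := hW k2 e a w ha hw
        have h2 : k2 + e = m := by omega
        exact h2 ▸ h1
      have h2 : rmL N (Fin i → Fin c ⊕ β) γ w
          (fun A => a * Matrix.det (Matrix.of fun l m => (g l).1 (A m))) =
          fun p => dv N β t p.1 * (a * w p.2) := by
        funext p
        have h3 : Matrix.det (Matrix.of fun l m => (g l).1 (p.1 m)) = dv N β t p.1 := by
          unfold dv
          congr 1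
          ext1 l m
          rw [Matrix.of_apply, Matrix.of_apply, ht l]
        show (a * Matrix.det (Matrix.of fun l m => (g l).1 (p.1 m))) * w p.2 = _
        rw [h3]
        ring
      have hd' : ∀ T : Sb c i, (fun p : (Fin i → Fin c ⊕ β) × γ =>
          dv N β (el T) p.1 * (a * w p.2)) ∈ R := fun T => hd T (fun y => a * w y) haw
      rw [SetLike.mem_coe, Submodule.mem_comap, h2]
      clear h2
      by_cases hinj : Function.Injective t
      · obtain ⟨T, σ, rfl⟩ := exists_sb t hinj
        rcases Int.units_eq_one_or (Equiv.Perm.sign σ) with h | h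
        · have h4 : (fun p : (Fin i → Fin c ⊕ β) × γ =>
              dv N β (fun l => el T (σ l)) p.1 * (a * w p.2)) =
              fun p : (Fin i → Fin c ⊕ β) × γ => dv N β (el T) p.1 * (a * w p.2) := by
            funext p
            rw [dv_perm, h]
            simp
          rw [h4]
          exact hd' T
        · have h4 : (fun p : (Fin i → Fin c ⊕ β) × γ =>
              dv N β (fun l => el T (σ l)) p.1 * (a * w p.2)) =
              -fun p : (Fin i → Fin c ⊕ β) × γ => dv N β (el T) p.1 * (a * w p.2) := by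
            funext p
            rw [dv_perm, h]
            simp
          rw [h4]
          exact R.neg_mem (hd' T)
      · have h4 : (fun p : (Fin i → Fin c ⊕ β) × γ => dv N β t p.1 * (a * w p.2)) = 0 := by
          funext p
          rw [dv_zero t hinj, zero_mul]
          rfl
        rw [h4]
        exact R.zero_mem
    exact key hv
  · rintro ⟨w, hw, rfl⟩
    have h1 : Ph N β γ c i w = ∑ T : Sb c i,
        (fun p : (Fin i → Fin c ⊕ β) × γ => dv N β (el T) p.1 * w T p.2) := by
      funext p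
      rw [Finset.sum_apply]
      rfl
    rw [h1]
    refine Submodule.sum_mem _ fun T _ => Submodule.subset_span ?_
    refine ⟨0, m, fun A => dv N β (el T) A, w T, zero_add m, ?_, hw T (Set.mem_univ T), rfl⟩
    refine Submodule.subset_span ⟨1, 0, fun l => (eB β (el T l), 0), isHomogeneous_one _ _,
      fun l => ⟨el T l, rfl⟩, by simp, ?_⟩
    funext A
    rw [one_mul]
    rfl

/-- The Hilbert function of the products. -/
theorem hV_PV (J : Ideal (Sx N)) (W : ℕ → Submodule ℂ (γ → Sx N))
    (hW : ∀ (k e : ℕ) (g : Sx N) (v : γ → Sx N), g.IsHomogeneous e → v ∈ W k →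
      (fun a => g * v a) ∈ W (k + e)) (i m : ℕ) (hf : FiniteDimensional ℂ (W m)) :
    hV J (PV (LW (PG N c β) i) W) m = c.choose i * hV J W m := by
  classical
  unfold hV
  have h1 : (PV (LW (PG N c β) i) W m).map (redL _ J) =
      (Submodule.pi Set.univ (fun _ : Sb c i => (W m).map (redL γ J))).map (PhJ J β γ c i) := by
    apply le_antisymm
    · rintro _ ⟨z, hz, rfl⟩
      obtain ⟨w, hw, rfl⟩ := (PV_eq W hW i m z).1 hz
      refine ⟨fun T => redL γ J (w T), fun T _ => ⟨w T, hw T, rfl⟩, PhJ_red J i w⟩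
    · rintro _ ⟨w, hw, rfl⟩
      have h2 : ∀ T, ∃ v ∈ W m, redL γ J v = w T := fun T => hw T (Set.mem_univ T)
      choose v hv hvw using h2
      refine ⟨Ph N β γ c i v, (PV_eq W hW i m _).2 ⟨v, hv, rfl⟩, ?_⟩
      rw [← PhJ_red J i v]
      congr 1
      funext T
      exact hvw T
  rw [h1, ← (Submodule.equivMapOfInjective (PhJ J β γ c i) (PhJ_inj J i) _).finrank_eq]
  have hfd : FiniteDimensional ℂ ((W m).map (redL γ J)) := inferInstance
  let e : (Submodule.pi Set.univ (fun _ : Sb c i => (W m).map (redL γ J))) ≃ₗ[ℂ]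
      (Sb c i → (W m).map (redL γ J)) :=
    { toFun := fun w T => ⟨w.1 T, w.2 T (Set.mem_univ T)⟩
      map_add' := fun _ _ => rfl
      map_smul' := fun _ _ => rfl
      invFun := fun w => ⟨fun T => (w T).1, fun T _ => (w T).2⟩
      left_inv := fun _ => rfl
      right_inv := fun _ => rfl }
  rw [e.finrank_eq, Module.finrank_pi_fintype, Finset.sum_const, Finset.card_univ, card_Sb,
    smul_eq_mul]

end WR1Aux

open WR1Aux in
/-- (WR1) -/
theorem wR1 (hWSum : S_WSum) (hWB : S_WB) : S_WR1 := by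
  intro N c a I J hJ hJh hne β _ ω q M Ψ hWG j
  obtain ⟨p0, hp0, hp0n⟩ := hne
  have hq := hWG.hom
  have hXD : XD J (Sum.elim (fun _ => 0) ω) ω (PG N c β) (BG q) (pr N c β) 0 c (a - c) :=
    { prime := hJ
      hom := hJh
      ne := ⟨p0, hp0, hp0n⟩
      hP := PG_HG ω
      hG := BG_HG q hq
      hM := MG_HG q hq
      sub := by
        rintro g ⟨i, rfl⟩
        refine Submodule.subset_span ⟨1, 0, (eB β i, 0), Or.inl ⟨i, rfl⟩, isHomogeneous_one _ _,
          rfl, ?_⟩
        funext x
        exact (one_mul _).symm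
      ker := by
        rintro g ⟨i, rfl⟩ y
        rw [pr_eB]
        exact J.zero_mem
      rP := by
        intro p _ _
        rw [fib_PG, LinearMap.finrank_range_of_inj jL_inj, Module.finrank_fintype_fun_eq_card,
          Fintype.card_fin]
      rM := by
        intro p hp hpn
        rw [fib_MG]
        have h := hWG.rk p hp hpn
        omega
      rG := by
        intro p hp hpn
        rw [rank_BG]
        have h := hWG.rk p hp hpn
        omega }
  obtain ⟨m0, hm0⟩ := hWSum N (Fin c ⊕ β) β J _ ω (PG N c β) (BG q) (pr N c β) 0 c (a - c) hXD j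
  refine ⟨m0, fun m hm => ?_⟩
  rw [hm0 m hm]
  refine Finset.sum_congr rfl fun i _ => ?_
  have h1 : LW (MG (pr N c β) 0 (BG q)) (j - i) = LW (QG q) (j - i) := by
    funext k
    exact LW_eq (QG_sub q) (mem_MG q) _ _
  have h2 := (hWB.2.1 N β ω (QG q) (QG q) (j - i) (QG_HG q hq)).1
  have h3 := hWB.2.2.2.1 N (Fin (j - i) → β) _ _ h2
  rw [h1, zero_mul, add_zero]
  exact hV_PV J _ h3.1 i m (h3.2 inferInstance m)

end Pool.Agent.Lib.MP_776403_ag.SD
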