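import Pool.Agent.Lib.MP_776403_ag.SD.W.Spec

/-!
# THEOREM W: the second filtration (helper40)
-/

set_option autoImplicit false

open MvPolynomial

noncomputable section

namespace Pool.Agent.Lib.MP_776403_ag.SD

namespace WR2Aux

theorem hgQ {N c : ℕ} {β : Type} (ω : β → ℕ) (q : Fin c → ℕ → (β → Sx N))
    (h : ∀ i k y, (q i k y).IsHomogeneous (k + 1 + ω y)) : HG ω (QG q) := by
  rintro g ⟨i, k, rfl⟩ y
  exact h i k y

end WR2Aux

open WR2Aux in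
theorem wR2 (hWXD : S_WXD) (hWSum : S_WSum) (hWPsi : S_WPsi) (hWB : S_WB) : S_WR2 := by
  classical
  intro N c a I J hI hS hIJ hJ hJh hp β _ ω q M Ψ hW j
  obtain ⟨hX, hM, hinj⟩ := hWXD N c a I J hI hS hIJ hJ hJh hp β ω q M Ψ hW
  obtain ⟨m0, hm0⟩ := hWSum N (Fin c ⊕ β) β J (Sum.elim (fun _ => 0) ω) ω (KG I J q M Ψ) (BG q) M 1 c
    (a - c) hX j
  refine ⟨m0, fun m hm => ?_⟩
  rw [hm0 m hm, hM]
  refine Finset.sum_congr rfl fun i _ => ?_
  rw [one_mul]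
  have hG := (hWB.2.1 N β ω (QG q) (QG q) (j - i) (hgQ ω q hW.hom)).1
  exact hWPsi N c a I J hI hIJ hJ hJh hp β ω q M Ψ hW hinj (Fin (j - i) → β) _
    (LW (QG q) (j - i)) hG i (m + (j - i))

end Pool.Agent.Lib.MP_776403_ag.SD
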