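import Pool.Agent.Lib.MP_776403_ag.SD.W.Defs
import Pool.Agent.Lib.MP_776403_ag.SD.WG.GNb
import Pool.Agent.Lib.MP_776403_ag.SD.WG.GDb
import Pool.Agent.Lib.MP_776403_ag.SD.WG.GTx
import Pool.Agent.Lib.MP_776403_ag.SD.WG.GNa
import Pool.Agent.Lib.MP_776403_ag.SD.WG.GQk
import Pool.Agent.Lib.MP_776403_ag.SD.WG.GRk
import Pool.Agent.Lib.MP_776403_ag.SD.WG.GSat

/-!
# THEOREM W: the geometric part, assembly
-/

set_option autoImplicit false

open MvPolynomial

noncomputable section

namespace Pool.Agent.Lib.MP_776403_ag.SD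

namespace GeoAux

variable {N c : ℕ} {I : Ideal (Sx N)} {x : Vx N} (L : Loc I x c)

/-- `n_F` is in the module generated by the `(e_i, 0)` and the `(0, q i k)`. -/
theorem nF_mem (hT : S_GTx) (F : Sx N) (f : ℕ) (hF : F.IsHomogeneous (f + 1)) :
    L.nF F ∈ Fam (BG L.qk) f := by
  have hp : ∀ b, (pderiv (L.B b) F).IsHomogeneous f := fun b => by
    have h := hF.pderiv (i := L.B b)
    rwa [Nat.add_sub_cancel] at h
  have h1 : L.nF F = ∑ b, ((fun u => pderiv (L.B b) F * eB L.Ix b u) +
      ∑ k ∈ Finset.range ((tx x (pderiv (L.B b) F)).natDegree),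
        (fun u => (tx x (pderiv (L.B b) F)).coeff (k + 1) * iQ c (L.qk b k) u)) := by
    funext u
    rw [Finset.sum_apply]
    rcases u with b' | y
    · change pderiv (L.B b') F = _
      rw [Finset.sum_eq_single b']
      · rw [Pi.add_apply, Finset.sum_apply, Finset.sum_eq_zero]
        · change _ = pderiv (L.B b') F * (if b' = b' then (1 : Sx N) else 0) + 0
          rw [if_pos rfl, mul_one, add_zero]
        · intro k _
          change _ * (0 : Sx N) = 0
          rw [mul_zero]
      · intro b _ hb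
        rw [Pi.add_apply, Finset.sum_apply, Finset.sum_eq_zero]
        · change pderiv (L.B b) F * (if b' = b then (1 : Sx N) else 0) + 0 = 0
          rw [if_neg (fun e => hb e.symm), mul_zero, add_zero]
        · intro k _
          change _ * (0 : Sx N) = 0
          rw [mul_zero]
      · intro h
        exact absurd (Finset.mem_univ _) h
    · change ∑ b, ∑ k ∈ Finset.range ((tx x (pderiv (L.B b) F)).natDegree),
        (tx x (pderiv (L.B b) F)).coeff (k + 1) * L.qk b k y = _
      refine Finset.sum_congr rfl fun b _ => ?_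
      rw [Pi.add_apply, Finset.sum_apply]
      change _ = pderiv (L.B b) F * (0 : Sx N) + _
      rw [mul_zero, zero_add]
      rfl
  rw [h1]
  refine Submodule.sum_mem _ fun b _ => Submodule.add_mem _ ?_ (Submodule.sum_mem _ fun k _ => ?_)
  · exact Submodule.subset_span ⟨pderiv (L.B b) F, f, (eB L.Ix b, 0), Or.inl ⟨b, rfl⟩, hp b,
      rfl, rfl⟩
  · have hH := (((hT N x (pderiv (L.B b) F)).2.2 f (hp b)).1 (k + 1))
    by_cases hk : k + 1 ≤ f
    · exact Submodule.subset_span ⟨(tx x (pderiv (L.B b) F)).coeff (k + 1), f - (k + 1),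
        (iQ c (L.qk b k), k + 1), Or.inr ⟨b, k, rfl⟩, hH.1 hk, Nat.sub_add_cancel hk, rfl⟩
    · rw [hH.2 (by omega)]
      have h0 : (fun u => (0 : Sx N) * iQ c (L.qk b k) u) = 0 := by
        funext u
        rw [zero_mul]
        rfl
      rw [h0]
      exact Submodule.zero_mem _

end GeoAux

open GeoAux in
theorem wGeo1 : S_LinB → S_Hom → S_Null → S_Loc → S_GTx → S_GQk → S_GNa → S_GNb → S_GRk →
    S_WGeo := by
  intro hB hHo hN hLoc hT hQk hNa hNb hRk N c a I J hc hI hIh hS hJ hJh hIJ x lam hlam hlx hlJ hx hl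
    hdeg
  have hx0 : x ≠ 0 := by
    rintro rfl
    have h := ((hB N 0 0 lam).2.1 1 hlam).2.2 0 0
    simp only [Finset.sum_range_succ, Finset.sum_range_zero, pow_zero, pow_one, mul_one,
      mul_zero, add_zero, Nat.sub_zero, Nat.sub_self, zero_smul] at h
    rw [h] at hlx
    exact zero_ne_one hlx
  obtain ⟨L⟩ := hLoc N c I hS x hx hx0
  refine ⟨L.Ix, inferInstance, fun y => L.dg - 1 - y.1, L.qk, Matrix.of L.mm, Matrix.of L.psi, ?_⟩
  refine ⟨fun i k y => (hQk N c I x L i k).2.1 y, fun i => ?_, fun i k => ?_, fun p hp hp0 => ?_,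
    fun F hF f hf => ?_⟩
  · funext y
    change ∑ u, L.mm y u * eB L.Ix i u = _
    rw [Fintype.sum_sum_type]
    change ∑ b, L.mm y (Sum.inl b) * (if b = i then (1 : Sx N) else 0) +
      ∑ y', L.mm y (Sum.inr y') * (0 : Sx N) = _
    rw [Finset.sum_eq_single i]
    · rw [if_pos rfl, mul_one, Finset.sum_eq_zero fun y' _ => mul_zero _, add_zero]
      exact (hQk N c I x L i 0).2.2.1 y
    · intro b _ hb
      rw [if_neg hb, mul_zero]
    · intro h
      exact absurd (Finset.mem_univ _) h
  · funext y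
    change ∑ u, L.mm y u * iQ c (L.qk i k) u = _
    rw [Fintype.sum_sum_type]
    change ∑ b, L.mm y (Sum.inl b) * (0 : Sx N) + ∑ y', L.mm y (Sum.inr y') * L.qk i k y' = _
    rw [Finset.sum_eq_zero fun b _ => mul_zero _, zero_add]
    exact (hQk N c I x L i k).2.2.2 y
  · have hlp : eval p lam = 0 := hp lam hlJ
    have hlin : ∀ s t : ℂ, eval (s • x + t • p) lam = s := by
      intro s t
      have h := ((hB N x p lam).2.1 1 hlam).2.2 s t
      have h0 := ((hB N x p lam).2.1 1 hlam).2.2 1 0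
      have h1 := ((hB N x p lam).2.1 1 hlam).2.1
      rw [one_smul, zero_smul, add_zero, hlx] at h0
      simp only [Finset.sum_range_succ, Finset.sum_range_zero, one_pow, pow_zero, pow_one, mul_one,
        zero_add, mul_zero, add_zero, Nat.sub_zero, Nat.sub_self] at h0 h
      rw [h, h1, hlp, zero_mul, add_zero, ← h0, one_mul]
    have hind : LinearIndependent ℂ ![x, p] := by
      rw [LinearIndependent.pair_iff]
      intro s t hst
      have h1 := hlin s t
      rw [hst] at h1
      have h2 := hlin 0 0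
      rw [zero_smul, zero_smul, add_zero] at h2
      rw [h2] at h1
      refine ⟨h1.symm, ?_⟩
      rw [← h1, zero_smul, zero_add] at hst
      exact (smul_eq_zero.mp hst).resolve_right hp0
    have h3 := hRk N c a I hI hIh hS x p ⟨hind, hl p hp⟩ (hdeg p hp hp0) L
    have h4 : fib (QG L.qk) p = Submodule.span ℂ (Set.range fun ik : Fin c × ℕ =>
        fun y : L.Ix => eval p (L.qk ik.1 ik.2 y)) := by
      refine congrArg _ (Set.ext fun z => ⟨?_, ?_⟩)
      · rintro ⟨g, ⟨i, k, rfl⟩, rfl⟩
        exact ⟨(i, k), rfl⟩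
      · rintro ⟨⟨i, k⟩, rfl⟩
        exact ⟨(L.qk i k, k + 1), ⟨i, k, rfl⟩, rfl⟩
    rw [h4]
    exact h3
  · exact ⟨L.nF F, nF_mem L hT F f hf, fun y => hNa N c I hI hIh hS x L J hJ hJh hl F hF y,
      fun j => hNb N c I hI hIh hS x L J hJ hJh hl F hF j⟩

end Pool.Agent.Lib.MP_776403_ag.SD
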