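import Pool.Agent.Lib.MP_776403_ag.SD.W.Defs
import Pool.Agent.Lib.MP_776403_ag.SD.SpecB
import Pool.Agent.Lib.MP_776403_ag.SD.SpecD

/-!
# THEOREM W: integrality of the normal Chern roots from the lines through one point

Statements with complete proofs in the docstrings.  Each `S_W…` is proved in its own module
`SD/W/….lean` (theorem `w…`).  The geometric part is `S_WGeo` (`Defs.lean`).  `R = S / J` is a domain;
'modulo `J`' is meant entrywise.

Idea.  `Q` is locally free of rank `k = a - c` over `R`, `B = R^c ⊕ Q`; `B → Q` (projection, degree `0`)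
has the kernel `R^c`, `M : B → Q(1)` has the kernel `K' ≅ N_X^*(1)|_J`.  So `Λ^m B` has two filtrations:
`∑_i binom(c,i) [Λ^(m-i) Q] = ∑_i T^(i-m) [Λ^i N^* . Λ^(m-i) Q]`, and by the self-intersection
formula (KI) the right side is `T^(-m) ∑ (q_i / q_0) [Λ^(m-i) Q]`: the functional equation (WFE).
-/

set_option autoImplicit false

open MvPolynomial

noncomputable section

namespace Pool.Agent.Lib.MP_776403_ag.SD

/-! ## 1. Basics -/

/-- (WB) Basic facts on weighted families.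

PROOF.  (1) generators of `Fam`: `a g` has entries of degree `e + κ + ω`; `X_i * (a g) = (X_i a) g`.
(2) the entry at `A` of a generator of `LW`, `FW` is `a det (g_l (A m))`; Leibniz: every term
`∏_m g_(σ m) (A m)` is a form of degree `∑ κ_l + ∑_m ω (A m)`.  (3) products of generators.
(4) write the form as a sum of monomials, induction (or `MvPolynomial.induction_on`); the entries of
the vectors in `V k` are in a finite-dimensional space (`α` finite).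
(5) `T.card ≤ j`; the same `T`.  (6) `≥`: `T = ∅`.  `≤`: induction on `T.card`; for `l ∈ T`, `a`, the
other rows and the degrees fixed, the set of the `v ∈ Fam G κ` such that the vector of minors with row
`l` replaced by `v` is in `LW` is a subspace containing the generators `b w`, `w ∈ G` (`Submodule.span_induction`
for `g_l ∈ Fam G κ`; the determinant is linear in row `l`: `Matrix.det_updateRow_add`, `_smul`; the
factor `b` goes to `a`). -/
def S_WB : Prop :=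
  (∀ (N : ℕ) (α : Type) (ω : α → ℕ) (G : Gn N α), HG ω G → GW ω (Fam G)) ∧
  (∀ (N : ℕ) (α : Type) (ω : α → ℕ) (P G : Gn N α) (j : ℕ), HG ω G →
    GW (fun A : Fin j → α => ∑ m, ω (A m)) (LW G j) ∧
    (HG ω P → ∀ i : ℕ, GW (fun A : Fin j → α => ∑ m, ω (A m)) (FW P G i j))) ∧
  (∀ (N : ℕ) (α β : Type) (ω : α → ℕ) (ω' : β → ℕ) (V : ℕ → Submodule ℂ (α → Sx N))
    (W : ℕ → Submodule ℂ (β → Sx N)), GW ω V → GW ω' W →
    GW (fun p : α × β => ω p.1 + ω' p.2) (PV V W)) ∧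
  (∀ (N : ℕ) (α : Type) (ω : α → ℕ) (V : ℕ → Submodule ℂ (α → Sx N)), GW ω V →
    (∀ (k e : ℕ) (g : Sx N) (v : α → Sx N), g.IsHomogeneous e → v ∈ V k →
      (fun a => g * v a) ∈ V (k + e)) ∧ (Finite α → ∀ k, FiniteDimensional ℂ (V k))) ∧
  (∀ (N : ℕ) (α : Type) (P G : Gn N α) (i j k : ℕ), FW P G (i + 1) j k ≤ FW P G i j k ∧
    (j < i → FW P G i j k = ⊥)) ∧
  ∀ (N : ℕ) (α : Type) (P G : Gn N α), (∀ g ∈ P, g.1 ∈ Fam G g.2) → ∀ j k : ℕ,
    FW P G 0 j k = LW G j k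

/-- (WLoc) Local inclusion modulo `J` implies inclusion modulo `J` in large degrees.

PROOF (S_KNoe, S_D6', S_WB (4)).  `U` is generated in degree `≤ m1`: `S_KNoe` for `σ = Fin (N + 1)`, the
module `α → Sx N`, `s = univ`, `V = ⊥`, `V1 = U` and the family of all vectors `v` with `v a` a form of
degree `k + ω a` (this family is generated in degree `0`: for `k ≥ 0` a form of degree `k + 1 + ω a` is
`∑ X_i g_i`).  So `U (m + 1) = ∑ X_i U m` for `m ≥ m1`, and `U (m + ρ)` is spanned by the `μ u`, `μ` a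
monomial of degree `ρ`, `u ∈ U m` (`m ≥ m1`).
Let `𝔟` be the set of the `g ∈ S` such that for all components `g_e` of `g`, all `m` and all `u ∈ U m` there
is `v ∈ V (m + e)` with `g_e u - v` modulo `J`.  `𝔟` is an ideal (`V` is stable under forms), it contains
`J` (`v = 0`) and the forms `g` of the hypothesis, so `zer 𝔟 ⊆ {0}`.  `S_D6'`: all forms of degree `ρ` are
in `𝔟`.  `m0 = m1 + ρ`. -/
def S_WLoc : Prop :=
  ∀ (N : ℕ) (α : Type) [Finite α] (ω : α → ℕ) (J : Ideal (Sx N)), IsHom J →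
    ∀ U V : ℕ → Submodule ℂ (α → Sx N), GW ω U → GW ω V →
    (∀ p ∈ zer J, p ≠ 0 → ∃ (g : Sx N) (e : ℕ), g.IsHomogeneous e ∧ eval p g ≠ 0 ∧
      ∀ m, ∀ u ∈ U m, ∃ v ∈ V (m + e), ∀ a, g * u a - v a ∈ J) →
    ∃ m0 : ℕ, ∀ m, m0 ≤ m → ∀ u ∈ U m, ∃ v ∈ V m, ∀ a, u a - v a ∈ J

/-- (WTw) Twisting: a weighted family has the Hilbert functions of an unweighted one.

PROOF.  `e ≥ ω b` for all `b`, `γ = β × Fin (N + 1)`, `θ w = ((b, p) ↦ X_p ^ (e - ω b) * w b)`;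
`W' (k + e) = (W k).map θ` and `W' k = ⊥` for `k < e` (as a definition:
`W' k = if e ≤ k then (W (k - e)).map θ else ⊥`).  `GV W'`: the entries have degree
`k + ω b + (e - ω b)`.  `PV V W' (k + e) = (PV V W k).map θ'`, `θ' z = ((a, (b, p)) ↦ X_p ^ (e - ω b) * z (a, b))`
(generators; a generator with `w' ∈ W' k2`, `k2 < e`, is `0`), and `PV V W' k = ⊥` for `k < e`.  `θ`, `θ'` are
injective modulo `J`: if `X_p ^ (e - ω b) w ∈ J` for all `p` then `w ∈ J`, as `J` is prime and some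
`X_p ∉ J` (there is a zero `≠ 0`); so they induce isomorphisms of the reductions.  (The first claim is
the same with `θ`.) -/
def S_WTw : Prop :=
  ∀ (N : ℕ) (β : Type) [Fintype β] (ω : β → ℕ) (J : Ideal (Sx N)), J.IsPrime →
    (∃ p ∈ zer J, p ≠ 0) → ∀ W : ℕ → Submodule ℂ (β → Sx N), GW ω W →
    ∃ (e : ℕ) (W' : ℕ → Submodule ℂ (β × Fin (N + 1) → Sx N)), GV W' ∧
      (∀ k, hV J W' (k + e) = hV J W k ∧ (k < e → hV J W' k = 0)) ∧
      ∀ (α : Type) [Fintype α] (V : ℕ → Submodule ℂ (α → Sx N)), ∀ k,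
        hV J (PV V W') (k + e) = hV J (PV V W) k ∧ (k < e → hV J (PV V W') k = 0)

/-- (WKI) Hilbert-Serre and the self-intersection formula (KI) for weighted families.

PROOF (S_WTw, S_KHV, S_KI).  `ps (hV J W') = X^e ps (hV J W)`, `ps (hV J (PV V W')) = X^e ps (hV J (PV V W))`.
So `X^e` times the left side is a polynomial; a power series `f` with `X^e f` a polynomial is a
polynomial (`Polynomial.divX` iterated, or compare coefficients). -/
def S_WKI : Prop :=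
  ∀ (N : ℕ) (β : Type) [Fintype β] (ω : β → ℕ) (J : Ideal (Sx N)), J.IsPrime → IsHom J →
    (∃ p ∈ zer J, p ≠ 0) → ∀ W : ℕ → Submodule ℂ (β → Sx N), GW ω W →
    (∃ p : Polynomial ℤ, (1 - PowerSeries.X) ^ (N + 1) * ps (hV J W) = (p : PowerSeries ℤ)) ∧
    ∀ (c : ℕ) (α : Type) [Fintype α] (I : Ideal (Sx N)), I.IsPrime → IsHom I → Smooth I c → I ≤ J →
      ∀ V : ℕ → Submodule ℂ (α → Sx N), GV V → LFr I J V →
      ∃ p : Polynomial ℤ, (1 - PowerSeries.X) ^ (N + 1) *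
        (ps (hV I V) * ps (hV J W) -
          ps (fun k => Module.finrank ℂ (gr I k)) * ps (hV J (PV V W))) = (p : PowerSeries ℤ)

/-! ## 2. Exact sequences of exterior powers -/

/-- The data: `P` generates a submodule of rank `c` of the module generated by `G` (rank `c + k`), and
`M` (degree `s`) maps the quotient isomorphically onto the module generated by the `M g`, `g ∈ G`. -/
structure XD {N : ℕ} {α β : Type} [Fintype α] (J : Ideal (Sx N)) (ω : α → ℕ) (ω' : β → ℕ)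
    (P G : Gn N α) (M : Matrix β α (Sx N)) (s c k : ℕ) : Prop where
  prime : J.IsPrime
  hom : IsHom J
  ne : ∃ p ∈ zer J, p ≠ 0
  hP : HG ω P
  hG : HG ω G
  hM : HG ω' (MG M s G)
  sub : ∀ g ∈ P, g.1 ∈ Fam G g.2
  ker : ∀ g ∈ P, ∀ y, M.mulVec g.1 y ∈ J
  rP : ∀ p ∈ zer J, p ≠ 0 → Module.finrank ℂ (fib P p) = c
  rM : ∀ p ∈ zer J, p ≠ 0 → Module.finrank ℂ (fib (MG M s G) p) = k
  rG : ∀ p ∈ zer J, p ≠ 0 → Module.finrank ℂ (fib G p) = c + k

/-- (WCr) Frames with Cramer functionals.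

PROOF (S_Minor after `α ≃ Fin n`, S_Null).  Columns `A : Fin r → α` with
`D = det E`, `E = (e_l (A m))`, `D (p) ≠ 0`; `ρ_l (a) = ∑_(m, A m = a) adj(E)_(m l)`.  So
`∑_a ρ_l (a) v_a = ∑_m v_(A m) adj(E)_(m l)`, and for `v = e_l'` it is `(E adj E)_(l' l) = δ D`.
Degrees: `E_(l m)` is a form of degree `κ_l + ω (A m)`, `D` of degree `δ = ∑_l κ_l + ∑_m ω (A m)`,
`adj(E)_(m l)` of degree `δ - κ_l - ω (A m)` (a determinant with row `l` replaced by a unit vector;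
`κ_l + ω (A m) ≤ δ`).
For `g ∈ G` put `F_a = D g_a - ∑_l ρ_l(g) e_l(a)`, a form.  At `p' ∈ zer J`, `p' ≠ 0` with `D (p') ≠ 0` the
vectors `e_l (p')` are independent in `fib G p'`, which has dimension `r`, so
`g (p') = ∑ c_l e_l (p')`, `ρ_l(g) (p') = c_l D (p')` and `F_a (p') = 0`.  So the form `D F_a` vanishes on
the punctured cone, `D F_a ∈ J` (S_Null), and `D ∉ J` because `D (p) ≠ 0`: `F_a ∈ J`. -/
def S_WCr : Prop :=
  ∀ (N : ℕ) (α : Type) [Fintype α] (ω : α → ℕ) (J : Ideal (Sx N)), J.IsPrime → IsHom J →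
    ∀ (G : Gn N α) (r : ℕ), HG ω G →
    (∀ p ∈ zer J, p ≠ 0 → Module.finrank ℂ (fib G p) = r) → ∀ p ∈ zer J, p ≠ 0 →
    ∀ e : Fin r → (α → Sx N) × ℕ, (∀ l a, ((e l).1 a).IsHomogeneous ((e l).2 + ω a)) →
    (∀ l, ∀ p' ∈ zer J, p' ≠ 0 → (fun a => eval p' ((e l).1 a)) ∈ fib G p') →
    LinearIndependent ℂ (fun l => fun a => eval p ((e l).1 a)) →
    ∃ (ρ : Fin r → α → Sx N) (D : Sx N) (δ : ℕ), D.IsHomogeneous δ ∧ eval p D ≠ 0 ∧
      (∀ l, (e l).2 ≤ δ) ∧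
      (∀ l a, (ρ l a).IsHomogeneous (δ - (e l).2 - ω a) ∧
        (ρ l a ≠ 0 → (e l).2 + ω a ≤ δ)) ∧
      (∀ l l', ∑ a, ρ l a * (e l').1 a = if l = l' then D else 0) ∧
      ∀ g ∈ G, ∀ a, D * g.1 a - ∑ l, (∑ a', ρ l a' * g.1 a') * (e l).1 a ∈ J

/-- (WIm) The map `Ψ = tM M i l = id^i ⊗ M^l` on the generators.

PROOF.  For a generator `z = a det (g_r (A m))` (rows `r`, columns `m < i + l`) multilinearity in the
columns (`Matrix.det_apply`, `Finset.prod_univ_sum`; `Fin.prod_univ_add`) gives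
`Ψ z (A, B) = a det K`, `K_(r m) = g_r (A m)` for `m < i`, `K_(r, i + m) = (M g_r) (B m)` for `m < l`.
For `r ∈ T` the entries `K_(r, i+m)` are in `J`.  If `T.card > i`: every Leibniz term contains a factor
`K_(r, i + m)` with `r ∈ T` (the permutation maps `T` injectively into the columns), so `det K ∈ J`: (c).
If `T.card = i`: take a bijection `π : Fin i ⊕ Fin l ≃ Fin (i + l)` (rows) with `π (inl _) ∈ T`,
`π (inr _) ∉ T`; up to the sign of `π` and modulo `J` `det K` is the determinant of a block triangular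
matrix, `= det (g_(π inl r) (A m)) * det ((M g_(π inr r)) (B m))` (`Matrix.det_fromBlocks_zero₁₂`): so
`Ψ z` is modulo `J` the product of the generator `± a det (..)` of `LW P i` and the generator
`det (..)` of `LW (MG M s G) l`, of total degree `m + s l`: (a).
(b): a generator `(a1 det g1) (a2 det (M g2))` of `PV (..) (m + s l)`, is `Ψ` of the generator with `a = a1 a2`,
rows `Fin.append g1 g2`, `T` = the first `i` rows; degree: `e1 + ∑ κ1 + e2 + ∑ (κ2 + s) = m + s l`. -/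
def S_WIm : Prop :=
  ∀ (N : ℕ) (α β : Type) [Fintype α] [Fintype β] (J : Ideal (Sx N)) (ω : α → ℕ) (ω' : β → ℕ)
    (P G : Gn N α) (M : Matrix β α (Sx N)) (s c k : ℕ), XD J ω ω' P G M s c k → ∀ i l m : ℕ,
    (∀ z ∈ FW P G i (i + l) m, ∃ y ∈ PV (LW P i) (LW (MG M s G) l) (m + s * l),
      ∀ p, tM M i l z p - y p ∈ J) ∧
    (∀ y ∈ PV (LW P i) (LW (MG M s G) l) (m + s * l), ∃ z ∈ FW P G i (i + l) m,
      ∀ p, tM M i l z p - y p ∈ J) ∧
    ∀ z ∈ FW P G (i + 1) (i + l) m, ∀ p, tM M i l z p ∈ J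

/-- A local frame adapted to `P ≤ G`, with functionals. -/
structure FR {N : ℕ} {α β : Type} [Fintype α] [Fintype β] (J : Ideal (Sx N)) (ω : α → ℕ)
    (P G : Gn N α) (M : Matrix β α (Sx N)) (c k : ℕ) (e : Fin (c + k) → (α → Sx N) × ℕ)
    (ρ : Fin (c + k) → α → Sx N) (σ : Fin k → β → Sx N) (D D' : Sx N) (δ : ℕ) : Prop where
  eP : ∀ r : Fin c, e (Fin.castAdd k r) ∈ P
  eG : ∀ r : Fin k, e (Fin.natAdd c r) ∈ G
  hD : D.IsHomogeneous δ
  le : ∀ r, (e r).2 ≤ δ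
  hρ : ∀ r a, (ρ r a).IsHomogeneous (δ - (e r).2 - ω a) ∧ (ρ r a ≠ 0 → (e r).2 + ω a ≤ δ)
  fr : ∀ g, g ∈ P ∨ g ∈ G → ∀ a, D * g.1 a - ∑ r, (∑ a', ρ r a' * g.1 a') * (e r).1 a ∈ J
  van : ∀ g ∈ P, ∀ r : Fin k, ∑ a, ρ (Fin.natAdd c r) a * g.1 a ∈ J
  cmp : ∀ g, g ∈ P ∨ g ∈ G → ∀ r : Fin k, D' * (∑ a, ρ (Fin.natAdd c r) a * g.1 a) -
    D * (∑ y, σ r y * M.mulVec g.1 y) ∈ J
  nD' : D' ∉ J

/-- (WFr) Local frames.

PROOF (S_WCr twice, S_Null, S_WB (1)).  At `p` choose `e_0, …, e_(c-1) ∈ P` whose values at `p` are a basis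
of `fib P p`, and `e_c, …, e_(c+k-1) ∈ G` such that the values of all `e` are a basis of `fib G p`
(`fib P p ≤ fib G p` by `sub`; extend an independent family by elements of the spanning set).  (WCr) for
`G`, `e`: `ρ`, `D`, `δ` (the values of `e_r ∈ P` are in `fib G p'` by `sub`).  `fr` for `g ∈ P`: `g ∈ Fam G`, the
relation is linear over `S` (`Submodule.span_induction`).  The `M e_r (p)`, `r ≥ c`, are independent:
`fib (MG M s G) p` is spanned by the `M e_r (p)` (`M g (p)` for `g ∈ G`, `g (p) = ∑ c_r e_r (p)`), those with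
`r < c` are `0` (`ker`), and its dimension is `k`.  (WCr) for `MG M s G` and `(M e_(c+r), κ + s)`, `r < k`:
`σ`, `D'`.  `van`: at `p' ∈ zer J`, `p' ≠ 0` with `D (p') ≠ 0` the `e_r (p')`, `r < c`, are independent (apply
`ρ`: `ρ_l (e_l') = δ D`), so a basis of `fib P p'`, so `g (p') = ∑_(r < c) c_r e_r (p')` and `ρ_(c+r) (g) (p') = 0`; so
the form `D ρ_(c+r) (g)` is in `J` (S_Null), and `D ∉ J`.  `cmp`: modulo `J` `D g = ∑ ρ_r (g) e_r`; apply `M`
(`M e_r = 0` for `r < c`) and `σ_r`: `D σ_r (M g) = ρ_(c+r) (g) D'`. -/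
def S_WFr : Prop :=
  ∀ (N : ℕ) (α β : Type) [Fintype α] [Fintype β] (J : Ideal (Sx N)) (ω : α → ℕ) (ω' : β → ℕ)
    (P G : Gn N α) (M : Matrix β α (Sx N)) (s c k : ℕ), XD J ω ω' P G M s c k →
    ∀ p ∈ zer J, p ≠ 0 → ∃ (e : Fin (c + k) → (α → Sx N) × ℕ) (ρ : Fin (c + k) → α → Sx N)
      (σ : Fin k → β → Sx N) (D D' : Sx N) (δ : ℕ), FR J ω P G M c k e ρ σ D D' δ ∧ eval p D ≠ 0

/-- (WTn) The kernel of `Ψ = tM M i l`, with a frame: tensor algebra.

PROOF.  `j = i + l`.  For `C : Fin j → Fin (c + k)` put `ρ_C (z) = ∑_(A : Fin j → α) (∏_m ρ_(C m) (A m)) z (A)`.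
(1) For `z ∈ FW P G i j m`: `D^j z (A) = ∑_C ρ_C (z) ∏_m e_(C m) (A m)` modulo `J` (for a generator
`z (A) = a ∑_τ sign τ ∏_m g_(τ m) (A m)` replace each factor `D g` by `∑ ρ_r (g) e_r`, `fr`;
`Finset.prod_univ_sum`); `z` is alternating, so `ρ_(C ∘ τ) (z) = sign τ ρ_C (z)`, and with
`j! z (A) = ∑_τ sign τ z (A ∘ τ)`:  `j! D^j z (A) = ∑_C ρ_C (z) det (e_(C r) (A m))` modulo `J`.
(2) Let `h (C)` be the number of `m` with `C m < c`.  If `h (C) < i` then `ρ_C (z) ∈ J`: for a generator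
`ρ_C (z) = a det (ρ_(C m) (g_r))_(r m)`, the rows `r ∈ T` have entries in `J` in the columns with `C m ≥ c`
(`van`), and `T.card ≥ i > h (C)`: every Leibniz term has a factor in `J`.
(3) If `h (C) = i` and `Ψ z = 0` modulo `J` then `ρ_C (z) ∈ J`: by alternation we may assume
`C m < c` iff `m < i`; by `cmp` in the last `l` slots (`z` is a combination of products of vectors in `P`, `G`)
`D'^l ρ_C (z) = D^l ∑_(A, B) (∏_m ρ_(C m) (A m)) (∏_m σ_(C (i+m) - c) (B m)) (Ψ z) (A, B)` modulo `J`, so it is in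
`J`, and `D' ∉ J`.
(4) If `h (C) ≥ i + 1` then `(A ↦ ρ_C (z) det (e_(C r) (A m))) ∈ FW P G (i + 1) j (m + j δ)`: `T = {r | C r < c}`,
`eP`, `eG`; `ρ_C (z)` is a form of degree `m + j δ - ∑ κ_(C r)` (`hρ`, `le`; `z (A)` is a form of degree
`m + ∑ ω (A m)`, S_WB (2)).
So `z' = (1/j!) ∑_(h (C) ≥ i+1) ρ_C (z) det (e_C)`. -/
def S_WTn : Prop :=
  ∀ (N : ℕ) (α β : Type) [Fintype α] [Fintype β] (J : Ideal (Sx N)) (ω : α → ℕ)
    (P G : Gn N α) (M : Matrix β α (Sx N)) (c k : ℕ) (e : Fin (c + k) → (α → Sx N) × ℕ)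
    (ρ : Fin (c + k) → α → Sx N) (σ : Fin k → β → Sx N) (D D' : Sx N) (δ : ℕ), J.IsPrime →
    HG ω P → HG ω G → FR J ω P G M c k e ρ σ D D' δ → ∀ i l m : ℕ,
    ∀ z ∈ FW P G i (i + l) m, (∀ y, tM M i l z y ∈ J) →
      ∃ z' ∈ FW P G (i + 1) (i + l) (m + (i + l) * δ), ∀ A, D ^ (i + l) * z A - z' A ∈ J

/-- (WEx) Exactness in large degrees.

PROOF (S_WIm, S_WFr, S_WTn, S_WLoc, S_WB).  `U m = {z ∈ FW P G i (i+l) m | Ψ z = 0 modulo J}`,
`V m = FW P G (i+1) (i+l) m`: families with `GW` (`Ψ` is `S`-linear), `V ≤ U` (WIm (c), WB (5)), and `U = V` modulo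
`J` in large degrees by (WLoc) with `g = D^(i+l)`, `e = (i+l) δ` from (WFr), (WTn).  `Ψ` induces a `ℂ`-linear map `Ψ'` on the vectors over `S / J` (well defined: `S`-linear);
rank-nullity for `Ψ'` on `A = (FW P G i (i+l) m).map (redL _ J)`: the kernel is `(U m).map (redL _ J)`, the
image is `(PV (..) (..) (m + s l)).map (redL _ J)` (WIm (a), (b)). -/
def S_WEx : Prop :=
  ∀ (N : ℕ) (α β : Type) [Fintype α] [Fintype β] (J : Ideal (Sx N)) (ω : α → ℕ) (ω' : β → ℕ)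
    (P G : Gn N α) (M : Matrix β α (Sx N)) (s c k : ℕ), XD J ω ω' P G M s c k → ∀ i l : ℕ,
    ∃ m0 : ℕ, ∀ m, m0 ≤ m → hV J (FW P G i (i + l)) m =
      hV J (FW P G (i + 1) (i + l)) m + hV J (PV (LW P i) (LW (MG M s G) l)) (m + s * l)

/-- (WSum) The filtration of the exterior powers.

PROOF (S_WEx, S_WB (5), (6)).  Sum (WEx) over `i = 0, …, j`, `l = j - i`; `FW P G 0 j = LW G j`,
`FW P G (j + 1) j = ⊥`. -/
def S_WSum : Prop :=
  ∀ (N : ℕ) (α β : Type) [Fintype α] [Fintype β] (J : Ideal (Sx N)) (ω : α → ℕ) (ω' : β → ℕ)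
    (P G : Gn N α) (M : Matrix β α (Sx N)) (s c k : ℕ), XD J ω ω' P G M s c k → ∀ j : ℕ,
    ∃ m0 : ℕ, ∀ m, m0 ≤ m → hV J (LW G j) m = ∑ i ∈ Finset.range (j + 1),
      hV J (PV (LW P i) (LW (MG M s G) (j - i))) (m + s * (j - i))

/-! ## 3. The two filtrations -/

/-- (WR1) The first filtration.

PROOF (S_WSum, S_WB).  `P = {(eB i, 0)}`, `G = BG q`, `M` = the projection to `β`, `s = 0`, weights
`Sum.elim 0 ω` and `ω`.  `XD`: `MG M 0 (BG q) = {(0, 0)} ∪ QG q` (the projection of `eB i` is `0`); `fib P p`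
has dimension `c`, `fib (BG q) p` is the direct sum of it and of `fib (QG q) p`, `a = c + k`.  The zero
vector contributes only zero minors (for `l ≥ 1`; for `l = 0` `LW _ 0` does not depend on the set), so
`LW (MG M 0 (BG q)) l = LW (QG q) l`.  `hV J (PV (LW P i) W) m = binom (c, i) hV J W m`, `W = LW (QG q) l`
(a family with `GW`): for `i`-subsets `T` of `Fin c` let `d_T (A) = det (eB_(t_r) (A m))` (constants), `t_r` the
elements of `T` in order; `LW P i` is spanned by the `a d_T` (a minor with a repeated row is `0`), so the map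
`(W m)^(i-subsets) → PV (LW P i) W m`, `(w_T) ↦ ∑ d_T w_T`, is surjective (forms `a` go to `W`), and it is
injective modulo `J`: at `A = (t_r)` only `d_T` is not zero, and it is `1`. -/
def S_WR1 : Prop :=
  ∀ (N c a : ℕ) (I J : Ideal (Sx N)), J.IsPrime → IsHom J → (∃ p ∈ zer J, p ≠ 0) →
    ∀ (β : Type) [Fintype β] (ω : β → ℕ) (q : Fin c → ℕ → (β → Sx N))
      (M : Matrix β (Fin c ⊕ β) (Sx N)) (Ψ : Matrix (Fin (N + 1)) (Fin c ⊕ β) ℂ),
    WG I J a β ω q M Ψ → ∀ j : ℕ, ∃ m0 : ℕ, ∀ m, m0 ≤ m →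
      hV J (LW (BG q) j) m = ∑ i ∈ Finset.range (j + 1),
        Nat.choose c i * hV J (LW (QG q) (j - i)) m

/-- (WXD) The second exact sequence.

PROOF (S_CN or S_Perp, S_WB).  `P = KG I J q M Ψ`, `G = BG q`, `s = 1`: `MG M 1 (BG q) = QG q` (`M0`, `M1`).
`hP`: `Fam (BG q)` consists of weighted homogeneous vectors (WB (1)).  `sub`, `ker`: definition of `KG`.
Ranks: `fib (BG q) p = ℂ^c ⊕ fib (QG q) p` has dimension `c + (a - c)`; `M (p)` maps it onto `fib (QG q) p`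
(the images of the generators are the generators of `QG q`), so the kernel has dimension `c`.  `fib P p` is
contained in the kernel (`ker`, evaluated at `p`), and `Ψ` maps it onto the space of the `grad F (p)`, `F ∈ I`
forms of degree `≥ 1` (field `ker` of `WG` and definition of `KG`), `= CN I p`, of dimension `c` (`S_CN`; the
components of `F ∈ I` are in `I`, and a form of degree `0` in `I` is `0` because `p ∈ zer I`).  So
`fib P p` has dimension `c`, and `Ψ` is injective on `fib P p` (last claim). -/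
def S_WXD : Prop :=
  ∀ (N c a : ℕ) (I J : Ideal (Sx N)), IsHom I → Smooth I c → I ≤ J → J.IsPrime →
    IsHom J → (∃ p ∈ zer J, p ≠ 0) →
    ∀ (β : Type) [Fintype β] (ω : β → ℕ) (q : Fin c → ℕ → (β → Sx N))
      (M : Matrix β (Fin c ⊕ β) (Sx N)) (Ψ : Matrix (Fin (N + 1)) (Fin c ⊕ β) ℂ),
    WG I J a β ω q M Ψ →
    XD J (Sum.elim (fun _ => 0) ω) ω (KG I J q M Ψ) (BG q) M 1 c (a - c) ∧
    MG M 1 (BG q) = QG q ∧
    ∀ p ∈ zer J, p ≠ 0 → ∀ v ∈ fib (KG I J q M Ψ) p, Ψ.mulVec v = 0 → v = 0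

/-- (WPsi) `Λ^i K' . W ≅ Λ^i N^* . W`.

PROOF (S_Null).  `Θ z ((A, y)) = ∑_(C : Fin i → Fin c ⊕ β) (∏_m C (Ψ (A m) (C m))) z (C, y)`, `S`-linear.  It maps
the generator `(a det (n_r (C m))) w (y)` of `PV (LW (KG ..) i) W k` to
`a det ((Ψ n_r) (A m)) w (y) = a det (∂_(A m) F_r) w (y)` modulo `J`, a generator of `PV (VL I i) W k`
(`n_r` of degree `κ_r`, `F_r` of degree `κ_r + 1`: `e + ∑ (κ_r + 1) = k1 + i`); every generator of `PV (VL I i) W k`
with all `f_r ≥ 1` is obtained (field `ker` of `WG`), those with some `f_r = 0` vanish (`F_r` is a constant).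
So `Θ` induces a surjection of the reductions.  Injectivity modulo `J`: if `Θ z ∈ J` let `p ∈ zer J`, `p ≠ 0`
and `Φ` a matrix with `Φ Ψ v = v` for `v ∈ fib (KG ..) p` (hypothesis on `Ψ`); `z (C, y) (p)` is a sum of products of
`i` vectors of `fib (KG ..) p` (in the slots `C`), so `z (p) = (Φ Ψ)^(⊗ i) z (p) = Φ^(⊗ i) (Θ z) (p) = 0`.
The entries of `z` are forms (`GW`), so they are in `J` (S_Null). -/
def S_WPsi : Prop :=
  ∀ (N c a : ℕ) (I J : Ideal (Sx N)), IsHom I → I ≤ J → J.IsPrime → IsHom J →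
    (∃ p ∈ zer J, p ≠ 0) →
    ∀ (β : Type) [Fintype β] (ω : β → ℕ) (q : Fin c → ℕ → (β → Sx N))
      (M : Matrix β (Fin c ⊕ β) (Sx N)) (Ψ : Matrix (Fin (N + 1)) (Fin c ⊕ β) ℂ),
    WG I J a β ω q M Ψ →
    (∀ p ∈ zer J, p ≠ 0 → ∀ v ∈ fib (KG I J q M Ψ) p, Ψ.mulVec v = 0 → v = 0) →
    ∀ (γ : Type) [Fintype γ] (ω' : γ → ℕ) (W : ℕ → Submodule ℂ (γ → Sx N)), GW ω' W →
    ∀ i k : ℕ, hV J (PV (LW (KG I J q M Ψ) i) W) k = hV J (PV (VL I i) W) k

/-- (WR2) The second filtration.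

PROOF (S_WXD, S_WSum with `s = 1`, S_WPsi, S_WB). -/
def S_WR2 : Prop :=
  ∀ (N c a : ℕ) (I J : Ideal (Sx N)), IsHom I → Smooth I c → I ≤ J → J.IsPrime →
    IsHom J → (∃ p ∈ zer J, p ≠ 0) →
    ∀ (β : Type) [Fintype β] (ω : β → ℕ) (q : Fin c → ℕ → (β → Sx N))
      (M : Matrix β (Fin c ⊕ β) (Sx N)) (Ψ : Matrix (Fin (N + 1)) (Fin c ⊕ β) ℂ),
    WG I J a β ω q M Ψ → ∀ j : ℕ, ∃ m0 : ℕ, ∀ m, m0 ≤ m →
      hV J (LW (BG q) j) m = ∑ i ∈ Finset.range (j + 1),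
        hV J (PV (VL I i) (LW (QG q) (j - i))) (m + (j - i))

/-- (WVan) Vanishing above the rank.

PROOF (S_Null; S_CN).  (1) A generator of `LW (QG q) j` at `A` is `a det (..)`; at `p ∈ zer J`, `p ≠ 0` the `j > a - c`
rows are in `fib (QG q) p`, of dimension `a - c`, so the determinant is `0` at `p`: the form is in `J`.
(2) the same with the gradients of elements of `I` at `p ∈ zer J ⊆ zer I`, in the space `CN I p` of
dimension `c < i`. -/
def S_WVan : Prop :=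
  ∀ (N c a : ℕ) (I J : Ideal (Sx N)), IsHom I → Smooth I c → I ≤ J → J.IsPrime →
    IsHom J → (∃ p ∈ zer J, p ≠ 0) →
    ∀ (β : Type) [Fintype β] (ω : β → ℕ) (q : Fin c → ℕ → (β → Sx N))
      (M : Matrix β (Fin c ⊕ β) (Sx N)) (Ψ : Matrix (Fin (N + 1)) (Fin c ⊕ β) ℂ),
    WG I J a β ω q M Ψ → (∀ j k : ℕ, a - c < j → hV J (LW (QG q) j) k = 0) ∧
    ∀ (γ : Type) [Fintype γ] (ω' : γ → ℕ) (W : ℕ → Submodule ℂ (γ → Sx N)), GW ω' W →
      ∀ i k : ℕ, c < i → hV J (PV (VL I i) W) k = 0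

/-! ## 4. Hilbert series over `S / J` -/

/-- (WQP) The Hilbert series of `S / J`: the pole at `T = 1` has order at least `D` and the leading
coefficient is positive.

PROOF (S_KHV, S_D1, S_KPV for the Hilbert function of `AF`).  `(1 - X)^(N+1) ps (gr J) = p`, `p ≠ 0`;
`p = (1 - X)^c' h` with `h (1) ≠ 0` (`1 - X` is minus a monic polynomial; root multiplicity).  For real
`0 < x < 1` the series `f (x) = ∑ dim (gr J m) x^m` converges (`dim (gr J m) ≤ binom (m + N) N`) and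
`(1 - x)^(N+1) f (x) = (1 - x)^c' h (x)`; `f (x) > 0`, so `h (x) > 0`, `h (1) ≥ 0`, `h (1) > 0`.  With
`D = D' + 1` (S_D1): `dim (gr J m) ≥ binom (m + D') D'`, so `f (x) ≥ (1 - x)^(-D)` and
`(1 - x)^(c' + D) h (x) ≥ (1 - x)^(N+1)`: if `c' + D > N + 1` then `(1 - x) h (x) ≥ 1` for all `0 < x < 1`, a
contradiction for `x → 1`. -/
def S_WQP : Prop :=
  ∀ (N D : ℕ) (J : Ideal (Sx N)), J.IsPrime → IsHom J → DimGe J (D + 1) →
    ∃ (c' : ℕ) (h : Polynomial ℤ), c' + (D + 1) ≤ N + 1 ∧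
      QP N c' (fun k => Module.finrank ℂ (gr J k)) h ∧ 0 < h.eval 1

/-- (WDiv) Hilbert series of weighted families over `S / J`.

PROOF (S_WKI (1), S_SGr (1)).  `hV J W k ≤ ∑_b dim (gr J (k + ω b)) ≤ |β| ∑_(e ≤ max ω) dim (gr J (k + e))`
(`(W k).map (redL β J)` is contained in the product of the `gr J (k + ω b)`). -/
def S_WDiv : Prop :=
  ∀ (N c' : ℕ) (J : Ideal (Sx N)), J.IsPrime → IsHom J → (∃ p ∈ zer J, p ≠ 0) → c' ≤ N →
    ∀ h : Polynomial ℤ, QP N c' (fun k => Module.finrank ℂ (gr J k)) h →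
    ∀ (β : Type) [Fintype β] (ω : β → ℕ) (W : ℕ → Submodule ℂ (β → Sx N)), GW ω W →
    ∃ α : Polynomial ℤ, QP N c' (hV J W) α

/-- (WRk) Hilbert function and rank.

PROOF (S_WCr, S_WB, S_Null).  At some `p ∈ zer J`, `p ≠ 0` choose `e_1, …, e_r ∈ G` whose values at `p` are a
basis of `fib G p`; (WCr): `ρ`, `D`, `δ`; `κ_l` the degree of `e_l`, `κ_l ≤ δ`.  Lower bound:
`(b_l)_l ↦ ∑ b_l e_l` maps `⊕_(l, κ_l ≤ k) gr J (k - κ_l)` into `(Fam G k).map (redL α J)`, injective: apply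
`ρ_l'`: `D b_l' ∈ J`, `b_l' ∈ J`.  Upper bound: `v ↦ (∑_a ρ_l (a) v_a)_l`, from `(Fam G k).map (redL α J)` to
`⊕_l gr J (k + δ - κ_l)`, is injective: if all `ρ_l (v) ∈ J` then `D v_a ∈ J` (the relation
`D v = ∑ ρ_l (v) e_l` modulo `J` holds on `Fam G` by linearity), `v_a ∈ J`.  (See the proof of `S_SRk`,
`SD/K/SRk.lean`.)  Last claim: `(Fin 1 → α) ≃ α`; `1 × 1` determinants. -/
def S_WRk : Prop :=
  ∀ (N : ℕ) (α : Type) [Fintype α] (ω : α → ℕ) (J : Ideal (Sx N)), J.IsPrime → IsHom J →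
    (∃ p ∈ zer J, p ≠ 0) → ∀ (G : Gn N α) (r : ℕ), HG ω G →
    (∀ p ∈ zer J, p ≠ 0 → Module.finrank ℂ (fib G p) = r) →
    (∃ (κ : Fin r → ℕ) (δ : ℕ), (∀ l, κ l ≤ δ) ∧ ∀ k : ℕ,
      (∑ l, if κ l ≤ k then Module.finrank ℂ (gr J (k - κ l)) else 0) ≤ hV J (Fam G) k ∧
      hV J (Fam G) k ≤ ∑ l, Module.finrank ℂ (gr J (k + δ - κ l))) ∧
    ∀ k : ℕ, hV J (LW G 1) k = hV J (Fam G) k

/-- (WFE) THE FUNCTIONAL EQUATION.

PROOF (S_WR1, S_WR2, S_WVan, S_WQP, S_WDiv, S_WRk, S_SGr, S_WKI, S_KLF, S_KGV, S_WB, S_Null).  `J` has a zero `p ≠ 0`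
(otherwise every `X_i` is in `J`, S_Null, and `DimGe J 1` fails).  `c'`, `h_J` of (WQP) with `D + 1 = a + c + 1`;
`c' ≤ N` (as `a + c + 1 ≥ 1`).  `α_j`: for `j ≤ a - c` by (WDiv) for `W = LW (QG q) j`, and `α_j = 0` for `j > a - c`
(`hV = 0`, WVan (1)); `β_(i,l)` by (WDiv) for `PV (VL I i) (LW (QG q) l)` (`VL I i` has weight `0`, S_KGV), and
`β_(i,l) = 0` for `i > c` (WVan (2)).  `hV J (LW _ 0) k = finrank (gr J k)` (vectors on the one point set
`Fin 0 → _`; spanned by all forms of degree `k`), so `α_0 = h_J` and `α_0 (1) > 0`.  `α_1 (1) = (a - c) α_0 (1)`: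
(WRk) for `QG q`, `r = a - c` (field `rk`), and S_SGr (2) (if `a = c` then `α_1 = 0`).
(WR1), (WR2) for `m`: with `f_l = hV J (LW (QG q) l)`, `g_(i,l) = hV J (PV (VL I i) (LW (QG q) l))` we have
`∑_i binom (c, i) f_(m-i) (k) = ∑_i g_(i, m-i) (k + (m - i))` for large `k`; multiply the series by `X^m`:
`X^m ∑_i binom (c, i) ps f_(m-i) - ∑_i X^i ps g_(i,m-i)` is a polynomial
(`X^(m-i) ps (g (· + (m - i))) = ps g -` polynomial); times `(1 - X)^(N+1)`:
`(1 - X)^c' (X^m ∑_i binom (c, i) α_(m-i) - ∑_i X^i β_(i,m-i)) ∈ (1 - X)^(N+1) ℤ[X]`, so the bracket is divisible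
by `(1 - X)^(N+1-c')`, `N + 1 - c' ≥ a + c + 1`.  (WKI) for `V = VL I i`, `i ≤ c`, `W = LW (QG q) l`, times
`(1 - X)^(N+1)`: `(1 - X)^(c + c') (p_i α_l - q_0 β_(i,l)) ∈ (1 - X)^(N+1) ℤ[X]`, so
`(1 - X)^(a+1) ∣ p_i α_l - q_0 β_(i,l)`; multiply by `X^i`, `X^i p_i = q_i`.  For `i > c`: `q_i = 0`, `β = 0`.
Together: `q_0 X^m ∑ binom (c, i) α_(m-i) ≡ ∑ X^i q_0 β_(i,m-i) ≡ ∑ q_i α_(m-i)` modulo `(1 - X)^(a+1)`. -/
def S_WFE : Prop :=
  ∀ (N c a : ℕ) (I J : Ideal (Sx N)), I.IsPrime → IsHom I → Smooth I c → J.IsPrime → IsHom J →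
    I ≤ J → c ≤ a → DimGe J (a + c + 1) →
    ∀ (β : Type) [Fintype β] (ω : β → ℕ) (q : Fin c → ℕ → (β → Sx N))
      (M : Matrix β (Fin c ⊕ β) (Sx N)) (Ψ : Matrix (Fin (N + 1)) (Fin c ⊕ β) ℂ),
    WG I J a β ω q M Ψ → ∀ Q : ℕ → Polynomial ℤ,
    QP N c (fun k => Module.finrank ℂ (gr I k)) (Q 0) →
    (∀ j, j ≤ c → ∃ p, QP N c (hV I (VL I j)) p ∧ Q j = Polynomial.X ^ j * p) →
    (∀ j, c < j → Q j = 0) →
    ∃ α : ℕ → Polynomial ℤ, 0 < (α 0).eval 1 ∧ (∀ j, a - c < j → α j = 0) ∧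
      (α 1).eval 1 = ((a - c : ℕ) : ℤ) * (α 0).eval 1 ∧
      ∀ m : ℕ, (1 - Polynomial.X) ^ (a + 1) ∣
        Q 0 * Polynomial.X ^ m * ∑ i ∈ Finset.range (m + 1), (Nat.choose c i : Polynomial ℤ) * α (m - i) -
        ∑ i ∈ Finset.range (m + 1), Q i * α (m - i)

/-! ## 5. Cutting the cone -/

/-- (WCut) Cutting the cone of lines by a hyperplane.

PROOF (S_Null, S_TB).  `φ : S → S / P`, `X_i ↦ X_i - C (x i) lam` (an algebra homomorphism), `J = ker φ`: prime.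
`F ∈ J` iff `F (v - lam(v) x) = 0` for all `v ∈ zer P` (S_Null).  Homogeneous: `φ` commutes with the
grading (substitution of linear forms, `P` homogeneous).  `lam ∈ J`: `lam (v - lam(v) x) = lam(v) - lam(v) = 0`
(`lam = ∑ l_i X_i` is linear: `lam (u + s w) = lam(u) + s lam(w)`).  `P ≤ J`: `v - lam(v) x ∈ zer P` for `v ∈ zer P`.
`J` is a prime.  Dimension: let `R' = S / J ↪ S / P` (image of `φ`); `S / P` is generated by `R'` and the class
of `lam` (`X_i = (X_i - x_i lam) + x_i lam`), so if `S / P` has `D + 1` algebraically independent elements then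
`trdeg R' + 1 ≥ trdeg (S / P) ≥ D + 1` (`Algebra.trdeg`; or: if `D` of the coordinates are never independent
modulo `J` then a transcendence basis of `R'` among the coordinates has `< D` elements, and with `lam` the
quotient `S / P` is algebraic over `≤ D` elements), and S_TB gives `D` coordinates independent modulo `J`. -/
def S_WCut : Prop :=
  ∀ (N D : ℕ) (P : Ideal (Sx N)) (x : Vx N) (lam : Sx N), P.IsPrime → IsHom P →
    lam.IsHomogeneous 1 → eval x lam = 1 → (∀ v ∈ zer P, ∀ s : ℂ, v + s • x ∈ zer P) →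
    DimGe P (D + 1) →
    ∃ J : Ideal (Sx N), J.IsPrime ∧ IsHom J ∧ P ≤ J ∧ lam ∈ J ∧ DimGe J D

end Pool.Agent.Lib.MP_776403_ag.SD
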