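import Pool.Agent.Lib.MP_776403_ag.SD.W.Spec

set_option autoImplicit false

open MvPolynomial

noncomputable section

namespace Pool.Agent.Lib.MP_776403_ag.SD

namespace WKIAux

theorem shift {h h' : ℕ → ℕ} {e : ℕ} (H : ∀ k, h' (k + e) = h k ∧ (k < e → h' k = 0)) :
    ps h' = PowerSeries.X ^ e * ps h := by
  ext n
  rw [PowerSeries.coeff_X_pow_mul']
  split_ifs with hn
  · obtain ⟨k, rfl⟩ := Nat.exists_eq_add_of_le' hn
    rw [ps, ps, PowerSeries.coeff_mk, PowerSeries.coeff_mk, (H k).1, Nat.add_sub_cancel]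
  · rw [ps, PowerSeries.coeff_mk, (H n).2 (by omega), Nat.cast_zero]

theorem poly {f : PowerSeries ℤ} {e : ℕ} {p : Polynomial ℤ}
    (h : PowerSeries.X ^ e * f = (p : PowerSeries ℤ)) :
    ∃ q : Polynomial ℤ, f = (q : PowerSeries ℤ) := by
  refine ⟨PowerSeries.trunc (p.natDegree + 1) f, ?_⟩
  ext k
  rw [Polynomial.coeff_coe, PowerSeries.coeff_trunc]
  split_ifs with hk
  · rfl
  · have h1 : PowerSeries.coeff (k + e) (PowerSeries.X ^ e * f) = PowerSeries.coeff k f :=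
      PowerSeries.coeff_X_pow_mul f e k
    rw [← h1, h, Polynomial.coeff_coe]
    exact Polynomial.coeff_eq_zero_of_natDegree_lt (by omega)

end WKIAux

theorem wKI (hWTw : S_WTw) (hKHV : S_KHV) (hKI : S_KI) : S_WKI := by
  intro N β _ ω J hJp hJh hne W hW
  obtain ⟨e, W', hW', h1, h2⟩ := hWTw N β ω J hJp hne W hW
  have hs : ps (hV J W') = PowerSeries.X ^ e * ps (hV J W) := WKIAux.shift h1
  refine ⟨?_, ?_⟩
  · obtain ⟨p, hp⟩ := hKHV N (β × Fin (N + 1)) J W' hW'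
    refine WKIAux.poly (e := e) (p := p) ?_
    rw [← hp, hs]
    ring
  · intro c α _ I hIp hIh hsm hIJ V hV' hL
    obtain ⟨p, hp⟩ := hKI N c α (β × Fin (N + 1)) I J hIp hIh hsm hJp hJh hIJ V W' hV' hW' hL
    have hs2 : ps (hV J (PV V W')) = PowerSeries.X ^ e * ps (hV J (PV V W)) :=
      WKIAux.shift (h2 α V)
    refine WKIAux.poly (e := e) (p := p) ?_
    rw [← hp, hs, hs2]
    ring

end Pool.Agent.Lib.MP_776403_ag.SD
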