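import Pool.Agent.Lib.MP_776403_ag.SD.W.Spec
import Pool.Agent.Lib.MP_776403_ag.SD.W.Alg

/-!
# THEOREM W: `S_WAlg` from `SDWA.wAlgP`
-/

set_option autoImplicit false

noncomputable section

namespace Pool.Agent.Lib.MP_776403_ag.SD

/-- (WAlg) From the functional equation to integers. -/
theorem wAlgF : S_WAlg := by
  intro c k x Q α _ hQ hα hk _ hr fe
  have h : ∀ i, ∃ d : ℕ, 1 ≤ d ∧ x i = (d : ℂ) := by
    intro i
    refine SDWA.wAlgP (c := c) (k := k) (M := c + k + 1) (M' := c + k + 1) (by omega) le_rfl α Q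
      hα.ne' hQ hk x hr (fun m => ?_) i
    have h1 := fe m
    rw [Finset.Nat.sum_antidiagonal_eq_sum_range_succ
        (fun a b => (Nat.choose c a : Polynomial ℤ) * α b) m,
      Finset.Nat.sum_antidiagonal_eq_sum_range_succ (fun a b => Q a * α b) m, ← mul_assoc]
    exact h1
  choose d hd using h
  exact ⟨d, hd⟩

end Pool.Agent.Lib.MP_776403_ag.SD
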